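import Mathlib

set_option autoImplicit false

namespace Pool.Agent.ZPB

open ComplexOrder in
theorem a1_unit {n : ℕ} (U : Matrix (Fin n) (Fin n) ℂ) (hU : ∀ i, ∑ j, ‖U i j‖ ^ 2 = 1) :
    ‖U.det‖ ^ 2 ≤ 1 := by
  have hB : (U * U.conjTranspose).PosSemidef := Matrix.posSemidef_self_mul_conjTranspose U
  have hdet : (U * U.conjTranspose).det = ((‖U.det‖ ^ 2 : ℝ) : ℂ) := by
    rw [Matrix.det_mul, Matrix.det_conjTranspose]
    have h := Complex.mul_conj U.det
    rw [Complex.normSq_eq_norm_sq] at h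
    exact h
  have htr : (U * U.conjTranspose).trace = ((n : ℝ) : ℂ) := by
    have h1 : ∀ i, (U * U.conjTranspose) i i = 1 := by
      intro i
      rw [Matrix.mul_apply]
      have h2 : ∀ j, U i j * U.conjTranspose j i = ((‖U i j‖ ^ 2 : ℝ) : ℂ) := by
        intro j
        rw [Matrix.conjTranspose_apply]
        have h := Complex.mul_conj (U i j)
        rw [Complex.normSq_eq_norm_sq] at h
        exact h
      rw [Finset.sum_congr rfl fun j _ => h2 j, ← Complex.ofReal_sum, hU i, Complex.ofReal_one]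
    unfold Matrix.trace
    simp only [Matrix.diag_apply]
    rw [Finset.sum_congr rfl fun i _ => h1 i]
    simp
  have h1 := hB.isHermitian.trace_eq_sum_eigenvalues
  have h2 := hB.isHermitian.det_eq_prod_eigenvalues
  have h3 : ∑ i, hB.isHermitian.eigenvalues i = (n : ℝ) := by
    rw [htr] at h1
    apply Complex.ofReal_injective
    rw [Complex.ofReal_sum]
    exact h1.symm
  have h4 : ‖U.det‖ ^ 2 = ∏ i, hB.isHermitian.eigenvalues i := by
    rw [hdet] at h2
    apply Complex.ofReal_injective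
    rw [Complex.ofReal_prod]
    exact h2
  rw [h4]
  calc ∏ i, hB.isHermitian.eigenvalues i
      ≤ ∏ i, Real.exp (hB.isHermitian.eigenvalues i - 1) := by
        refine Finset.prod_le_prod (fun i _ => hB.eigenvalues_nonneg i) fun i _ => ?_
        have := Real.add_one_le_exp (hB.isHermitian.eigenvalues i - 1)
        linarith
    _ = Real.exp (∑ i, (hB.isHermitian.eigenvalues i - 1)) := (Real.exp_sum _ _).symm
    _ = 1 := by
        rw [Finset.sum_sub_distrib, h3]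
        simp

/-- Row A1. Hadamard's inequality.

Proof. If some row `i` is zero, both sides vanish (`Matrix.det_eq_zero_of_row_eq_zero`). Otherwise
let `c i = √(∑ j, ‖M i j‖ ^ 2) > 0` and `U i j = (c i)⁻¹ * M i j`; then `det M = (∏ c i) * det U`
(`Matrix.det_mul_column` / `det_mul_row`), so it is enough to see `‖det U‖ ^ 2 ≤ 1`. The matrix
`B = U * Uᴴ` is positive semidefinite (`Matrix.posSemidef_self_mul_conjTranspose`), has diagonal
entries `1`, so trace `n`, and `det B = ‖det U‖ ^ 2`. Its eigenvalues `λ i ≥ 0`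
(`Matrix.PosSemidef.eigenvalues_nonneg`) have sum `n` (`Matrix.IsHermitian.trace_eq_sum_eigenvalues`)
and product `det B` (`Matrix.IsHermitian.det_eq_prod_eigenvalues`), so by the inequality of the
arithmetic and geometric means (`Real.inner_le_nnorm_mul_nnorm` is not needed:
`Real.geom_mean_le_arith_mean_weighted`, or `x ≤ exp (x - 1)` (`Real.add_one_le_exp`) for each
eigenvalue and multiply: `∏ λ i ≤ exp (∑ (λ i - 1)) = 1`) `det B ≤ 1`. -/
theorem hadamard {n : ℕ} (M : Matrix (Fin n) (Fin n) ℂ) :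
    ‖M.det‖ ^ 2 ≤ ∏ i, ∑ j, ‖M i j‖ ^ 2 := by
  by_cases h0 : ∃ i, ∑ j, ‖M i j‖ ^ 2 = 0
  · obtain ⟨i, hi⟩ := h0
    have h1 : ∀ j, M i j = 0 := by
      intro j
      have h2 := (Finset.sum_eq_zero_iff_of_nonneg (fun j _ => sq_nonneg ‖M i j‖)).1 hi j
        (Finset.mem_univ j)
      exact norm_eq_zero.1 (pow_eq_zero_iff (by norm_num) |>.1 h2)
    rw [Matrix.det_eq_zero_of_row_eq_zero i h1, norm_zero]
    have : 0 ≤ ∏ i, ∑ j, ‖M i j‖ ^ 2 :=
      Finset.prod_nonneg fun i _ => Finset.sum_nonneg fun j _ => sq_nonneg _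
    simpa using this
  · have hpos : ∀ i, 0 < ∑ j, ‖M i j‖ ^ 2 := fun i =>
      lt_of_le_of_ne (Finset.sum_nonneg fun j _ => sq_nonneg _) fun h => h0 ⟨i, h.symm⟩
    have hc : ∀ i, 0 < √(∑ j, ‖M i j‖ ^ 2) := fun i => Real.sqrt_pos.2 (hpos i)
    have hM : M = Matrix.of fun i j => ((√(∑ j, ‖M i j‖ ^ 2) : ℝ) : ℂ) *
        (Matrix.of fun i j => (((√(∑ j, ‖M i j‖ ^ 2))⁻¹ : ℝ) : ℂ) * M i j) i j := by
      ext i j
      rw [Matrix.of_apply, Matrix.of_apply, ← mul_assoc, ← Complex.ofReal_mul,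
        mul_inv_cancel₀ (hc i).ne', Complex.ofReal_one, one_mul]
    have hU := a1_unit (Matrix.of fun i j => (((√(∑ j, ‖M i j‖ ^ 2))⁻¹ : ℝ) : ℂ) * M i j) (by
      intro i
      have h1 : ∀ j, ‖(Matrix.of fun i j => (((√(∑ j, ‖M i j‖ ^ 2))⁻¹ : ℝ) : ℂ) * M i j) i j‖ ^ 2 =
          (∑ j, ‖M i j‖ ^ 2)⁻¹ * ‖M i j‖ ^ 2 := by
        intro j
        rw [Matrix.of_apply, norm_mul, mul_pow, Complex.norm_real, Real.norm_eq_abs, sq_abs,
          inv_pow, Real.sq_sqrt (hpos i).le]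
      rw [Finset.sum_congr rfl fun j _ => h1 j, ← Finset.mul_sum, inv_mul_cancel₀ (hpos i).ne'])
    have hdet : M.det = (∏ i, ((√(∑ j, ‖M i j‖ ^ 2) : ℝ) : ℂ)) *
        (Matrix.of fun i j => (((√(∑ j, ‖M i j‖ ^ 2))⁻¹ : ℝ) : ℂ) * M i j).det := by
      conv_lhs => rw [hM]
      exact Matrix.det_mul_column _ _
    rw [hdet, norm_mul, mul_pow, norm_prod, ← Finset.prod_pow]
    have h2 : ∀ i, ‖((√(∑ j, ‖M i j‖ ^ 2) : ℝ) : ℂ)‖ ^ 2 = ∑ j, ‖M i j‖ ^ 2 := by
      intro i
      rw [Complex.norm_real, Real.norm_eq_abs, sq_abs, Real.sq_sqrt (hpos i).le]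
    rw [Finset.prod_congr rfl fun i _ => h2 i]
    exact mul_le_of_le_one_right (Finset.prod_nonneg fun i _ => (hpos i).le) hU

end Pool.Agent.ZPB
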