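import Mathlib
import Pool.Agent.ZPB.A1

set_option autoImplicit false

namespace Pool.Agent.ZPB

theorem a2_off {ι : Type} [Fintype ι] [DecidableEq ι] (z : ι → ℂ) :
    ∑ p ∈ (Finset.univ : Finset ι).offDiag, Real.log ‖z p.1 - z p.2‖ =
      ∑ i, ∑ j, Real.log ‖z i - z j‖ := by
  have h1 : ∑ p ∈ (Finset.univ : Finset ι).offDiag, Real.log ‖z p.1 - z p.2‖ =
      ∑ p : ι × ι, Real.log ‖z p.1 - z p.2‖ := by
    refine Finset.sum_subset (Finset.subset_univ _) fun p _ hp => ?_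
    have h2 : p.1 = p.2 := by
      by_contra hne
      exact hp (Finset.mem_offDiag.2 ⟨Finset.mem_univ _, Finset.mem_univ _, hne⟩)
    rw [h2, sub_self, norm_zero, Real.log_zero]
  rw [h1, Fintype.sum_prod_type]

theorem a2_sym {n : ℕ} (z : Fin n → ℂ) :
    ∑ i, ∑ j, Real.log ‖z i - z j‖ = 2 * ∑ i, ∑ j ∈ Finset.Ioi i, Real.log ‖z j - z i‖ := by
  have h1 : ∀ i j : Fin n, Real.log ‖z i - z j‖ =
      (if i < j then Real.log ‖z j - z i‖ else 0) + (if j < i then Real.log ‖z i - z j‖ else 0) := by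
    intro i j
    rcases lt_trichotomy i j with h | h | h
    · rw [if_pos h, if_neg (not_lt.2 h.le), add_zero, norm_sub_rev]
    · subst h
      rw [if_neg (lt_irrefl i), sub_self, norm_zero, Real.log_zero, add_zero]
    · rw [if_neg (not_lt.2 h.le), if_pos h, zero_add]
  have h2 : ∑ i, ∑ j, (if j < i then Real.log ‖z i - z j‖ else 0) =
      ∑ i, ∑ j, (if i < j then Real.log ‖z j - z i‖ else 0) := Finset.sum_comm
  have h3 : ∀ i : Fin n, ∑ j, (if i < j then Real.log ‖z j - z i‖ else 0) =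
      ∑ j ∈ Finset.Ioi i, Real.log ‖z j - z i‖ := by
    intro i
    rw [← Finset.sum_filter, Finset.filter_lt_eq_Ioi]
  calc ∑ i, ∑ j, Real.log ‖z i - z j‖
      = ∑ i, ∑ j, ((if i < j then Real.log ‖z j - z i‖ else 0) +
          (if j < i then Real.log ‖z i - z j‖ else 0)) :=
        Finset.sum_congr rfl fun i _ => Finset.sum_congr rfl fun j _ => h1 i j
    _ = ∑ i, ∑ j, (if i < j then Real.log ‖z j - z i‖ else 0) +
          ∑ i, ∑ j, (if j < i then Real.log ‖z i - z j‖ else 0) := by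
        rw [← Finset.sum_add_distrib]
        exact Finset.sum_congr rfl fun i _ => Finset.sum_add_distrib
    _ = 2 * ∑ i, ∑ j ∈ Finset.Ioi i, Real.log ‖z j - z i‖ := by
        rw [h2, ← two_mul]
        simp only [h3]

theorem a2_fin {n : ℕ} (hn : 0 < n) (z : Fin n → ℂ) (hz : Function.Injective z) :
    2 * ∑ i, ∑ j ∈ Finset.Ioi i, Real.log ‖z j - z i‖ ≤
      n * Real.log n + 2 * ((n : ℝ) - 1) * ∑ i, Real.posLog ‖z i‖ := by
  have hne : ∀ i, ∀ j ∈ Finset.Ioi i, ‖z j - z i‖ ≠ 0 := by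
    intro i j hj
    have hij : i < j := Finset.mem_Ioi.1 hj
    exact norm_ne_zero_iff.2 (sub_ne_zero.2 fun h => hij.ne (hz h).symm)
  have hdet : Real.log (‖(Matrix.vandermonde z).det‖ ^ 2) =
      2 * ∑ i, ∑ j ∈ Finset.Ioi i, Real.log ‖z j - z i‖ := by
    rw [Real.log_pow, Matrix.det_vandermonde, norm_prod]
    simp only [norm_prod]
    rw [Real.log_prod fun i _ => Finset.prod_ne_zero_iff.2 (hne i)]
    have h1 : ∀ i : Fin n, Real.log (∏ j ∈ Finset.Ioi i, ‖z j - z i‖) =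
        ∑ j ∈ Finset.Ioi i, Real.log ‖z j - z i‖ := fun i => Real.log_prod (hne i)
    simp only [h1, Nat.cast_ofNat]
  have hpos : 0 < ‖(Matrix.vandermonde z).det‖ ^ 2 := by
    have h1 : (Matrix.vandermonde z).det ≠ 0 := Matrix.det_vandermonde_ne_zero_iff.2 hz
    exact pow_pos (norm_pos_iff.2 h1) 2
  have hn1 : (0 : ℝ) < n := by exact_mod_cast hn
  have hM : ∀ i : Fin n, (1 : ℝ) ≤ max 1 ‖z i‖ := fun i => le_max_left _ _
  have hrow : ∀ i : Fin n, ∑ j : Fin n, ‖Matrix.vandermonde z i j‖ ^ 2 ≤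
      n * (max 1 ‖z i‖) ^ (2 * (n - 1)) := by
    intro i
    have h1 : ∀ j : Fin n, ‖Matrix.vandermonde z i j‖ ^ 2 ≤ (max 1 ‖z i‖) ^ (2 * (n - 1)) := by
      intro j
      rw [Matrix.vandermonde_apply, norm_pow, ← pow_mul]
      calc ‖z i‖ ^ ((j : ℕ) * 2) ≤ (max 1 ‖z i‖) ^ ((j : ℕ) * 2) :=
            pow_le_pow_left₀ (norm_nonneg _) (le_max_right _ _) _
        _ ≤ (max 1 ‖z i‖) ^ (2 * (n - 1)) := by
            refine pow_le_pow_right₀ (hM i) ?_
            have := j.2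
            omega
    calc ∑ j : Fin n, ‖Matrix.vandermonde z i j‖ ^ 2
        ≤ ∑ _j : Fin n, (max 1 ‖z i‖) ^ (2 * (n - 1)) := Finset.sum_le_sum fun j _ => h1 j
      _ = n * (max 1 ‖z i‖) ^ (2 * (n - 1)) := by
          rw [Finset.sum_const, Finset.card_univ, Fintype.card_fin, nsmul_eq_mul]
  have hhad := hadamard (Matrix.vandermonde z)
  have hprod : ∏ i, ∑ j, ‖Matrix.vandermonde z i j‖ ^ 2 ≤
      ∏ i : Fin n, ((n : ℝ) * (max 1 ‖z i‖) ^ (2 * (n - 1))) :=
    Finset.prod_le_prod (fun i _ => Finset.sum_nonneg fun j _ => sq_nonneg _) fun i _ => hrow i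
  have hlog : Real.log (‖(Matrix.vandermonde z).det‖ ^ 2) ≤
      Real.log (∏ i : Fin n, ((n : ℝ) * (max 1 ‖z i‖) ^ (2 * (n - 1)))) :=
    Real.log_le_log hpos (hhad.trans hprod)
  have hMpos : ∀ i : Fin n, (0 : ℝ) < (max 1 ‖z i‖) ^ (2 * (n - 1)) := fun i =>
    pow_pos (zero_lt_one.trans_le (hM i)) _
  rw [Real.log_prod fun i _ => (mul_pos hn1 (hMpos i)).ne', hdet] at hlog
  have h4 : ∀ i : Fin n, Real.log ((n : ℝ) * (max 1 ‖z i‖) ^ (2 * (n - 1))) =
      Real.log n + 2 * ((n : ℝ) - 1) * Real.posLog ‖z i‖ := by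
    intro i
    rw [Real.log_mul hn1.ne' (hMpos i).ne', Real.log_pow,
      Real.posLog_eq_log_max_one (norm_nonneg _)]
    push_cast [Nat.cast_sub hn]
    ring
  simp only [h4] at hlog
  rw [Finset.sum_add_distrib, Finset.sum_const, Finset.card_univ, Fintype.card_fin, nsmul_eq_mul,
    ← Finset.mul_sum] at hlog
  exact hlog

/-- Row A2. Vandermonde determinants of complex numbers.

Proof. Let `n = card ι`. Reindex by `Fin n` (`Fintype.equivFin`); or prove it first for `ι = Fin n`.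
`n = 0`: both sides are `0`. Let `V = Matrix.vandermonde z`. `Matrix.det_vandermonde` gives
`det V = ∏ i, ∏ j ∈ Ioi i, (z j - z i)`, and the ordered product
`∏ p ∈ univ.offDiag, ‖z p.1 - z p.2‖` is `‖det V‖ ^ 2` (each unordered pair twice, split
`offDiag` in `p.1 < p.2` and `p.2 < p.1`, `norm_sub_rev`). By Row A1,
`‖det V‖ ^ 2 ≤ ∏ i, ∑ j, ‖z i ^ j‖ ^ 2 ≤ ∏ i, n * (max 1 ‖z i‖) ^ (2 * (n - 1))`, as
`‖z i‖ ^ (2 j) ≤ (max 1 ‖z i‖) ^ (2 (n - 1))` for `j ≤ n - 1`. Take logarithms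
(`Real.log_prod`; the factors are nonzero by injectivity);
`Real.posLog_eq_log_max_one`: `posLog ‖z i‖ = log (max 1 ‖z i‖)`. -/
theorem vdm {ι : Type} [Fintype ι] [DecidableEq ι] (z : ι → ℂ) (hz : Function.Injective z) :
    ∑ p ∈ (Finset.univ : Finset ι).offDiag, Real.log ‖z p.1 - z p.2‖ ≤
      Fintype.card ι * Real.log (Fintype.card ι) +
        2 * ((Fintype.card ι : ℝ) - 1) * ∑ i, Real.posLog ‖z i‖ := by
  rw [a2_off]
  rcases Nat.eq_zero_or_pos (Fintype.card ι) with h0 | hpos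
  · have hemp : IsEmpty ι := Fintype.card_eq_zero_iff.1 h0
    simp
  · set e := Fintype.equivFin ι
    have h1 : ∑ i, ∑ j, Real.log ‖z i - z j‖ =
        ∑ i, ∑ j, Real.log ‖(z ∘ e.symm) i - (z ∘ e.symm) j‖ := by
      rw [← Equiv.sum_comp e.symm]
      refine Finset.sum_congr rfl fun i _ => ?_
      rw [← Equiv.sum_comp e.symm]
      rfl
    have h2 : ∑ i, Real.posLog ‖z i‖ = ∑ i, Real.posLog ‖(z ∘ e.symm) i‖ := by
      rw [← Equiv.sum_comp e.symm]
      rfl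
    rw [h1, h2, a2_sym]
    exact a2_fin hpos (z ∘ e.symm) (hz.comp e.symm.injective)

end Pool.Agent.ZPB
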