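import Mathlib

set_option autoImplicit false

namespace Pool.Agent.ZPB

/-- A point of the circle outside a finite set at which the sum of the logarithms is at least its
average. -/
theorem a3_point {κ : Type} (s : Finset κ) (z : κ → ℂ) (c : ℂ) (δ : ℝ) (hδ : 0 < δ) :
    ∃ x : ℂ, ‖x - c‖ = δ ∧ (∀ t ∈ s, x ≠ z t) ∧
      ∑ t ∈ s, (Real.log δ + Real.posLog (δ⁻¹ * ‖c - z t‖)) ≤ ∑ t ∈ s, Real.log ‖x - z t‖ := by
  classical
  have hint : ∀ t ∈ s, CircleIntegrable (fun x : ℂ => Real.log ‖x - z t‖) c δ := fun t _ =>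
    circleIntegrable_log_norm_sub_const δ
  have havg : Real.circleAverage (fun x : ℂ => ∑ t ∈ s, Real.log ‖x - z t‖) c δ =
      ∑ t ∈ s, (Real.log δ + Real.posLog (δ⁻¹ * ‖c - z t‖)) := by
    rw [Real.circleAverage_fun_sum hint]
    refine Finset.sum_congr rfl fun t _ => ?_
    exact circleAverage_log_norm_sub_const_eq_log_radius_add_posLog hδ.ne'
  have hsum : CircleIntegrable (fun x : ℂ => ∑ t ∈ s, Real.log ‖x - z t‖) c δ :=
    CircleIntegrable.fun_sum s hint
  rw [Real.circleAverage_eq_intervalAverage] at havg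
  have h2pi : (0 : ℝ) ≤ 2 * Real.pi := by positivity
  have hI : MeasureTheory.Integrable
      (fun θ => ∑ t ∈ s, Real.log ‖circleMap c δ θ - z t‖)
      (MeasureTheory.volume.restrict (Set.uIoc 0 (2 * Real.pi))) :=
    (intervalIntegrable_iff.1 hsum)
  have hμ : (MeasureTheory.volume.restrict (Set.uIoc 0 (2 * Real.pi)) : MeasureTheory.Measure ℝ) ≠
      0 := by
    rw [Ne, MeasureTheory.Measure.restrict_eq_zero, Set.uIoc_of_le h2pi, Real.volume_Ioc]
    simp only [sub_zero, ENNReal.ofReal_eq_zero, not_le]
    positivity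
  have hN : (MeasureTheory.volume.restrict (Set.uIoc 0 (2 * Real.pi)) : MeasureTheory.Measure ℝ)
      (circleMap c δ ⁻¹' ((s.image z : Finset ℂ) : Set ℂ)) = 0 :=
    ((Finset.countable_toSet _).preimage_circleMap c hδ.ne').measure_zero _
  have hfin : MeasureTheory.IsFiniteMeasure
      (MeasureTheory.volume.restrict (Set.uIoc 0 (2 * Real.pi)) : MeasureTheory.Measure ℝ) :=
    ⟨by rw [MeasureTheory.Measure.restrict_apply_univ, Set.uIoc_of_le h2pi]
        exact measure_Ioc_lt_top⟩
  obtain ⟨θ, hθ, hle⟩ := MeasureTheory.exists_notMem_null_average_le hμ hI hN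
  refine ⟨circleMap c δ θ, ?_, ?_, ?_⟩
  · rw [circleMap_sub_center, norm_circleMap_zero, abs_of_pos hδ]
  · intro t ht h
    apply hθ
    rw [Set.mem_preimage, h]
    exact Finset.mem_coe.2 (Finset.mem_image_of_mem z ht)
  · rw [← havg]
    exact hle

theorem a3_le1 (δ r : ℝ) : Real.log δ ≤ Real.log δ + Real.posLog (δ⁻¹ * r) :=
  le_add_of_nonneg_right Real.posLog_nonneg

theorem a3_le2 {δ r : ℝ} (hδ : 0 < δ) (hr : 0 < r) :
    Real.log r ≤ Real.log δ + Real.posLog (δ⁻¹ * r) := by
  have h1 : Real.log (δ⁻¹ * r) ≤ Real.posLog (δ⁻¹ * r) := le_max_right _ _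
  rw [Real.log_mul (inv_ne_zero hδ.ne') hr.ne', Real.log_inv] at h1
  linarith

theorem a3_split {ι : Type} [Fintype ι] [DecidableEq ι] (F : ι × ι → ℝ) (s : ι) :
    ∑ p ∈ (Finset.univ : Finset ι).offDiag, F p =
      ∑ p ∈ ((Finset.univ : Finset ι).erase s).offDiag, F p +
        ∑ t ∈ (Finset.univ : Finset ι).erase s, F (s, t) +
        ∑ t ∈ (Finset.univ : Finset ι).erase s, F (t, s) := by
  have hu : (Finset.univ : Finset ι) = insert s ((Finset.univ : Finset ι).erase s) :=
    (Finset.insert_erase (Finset.mem_univ s)).symm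
  have hs : s ∉ (Finset.univ : Finset ι).erase s := Finset.notMem_erase s _
  conv_lhs => rw [hu, Finset.offDiag_insert hs]
  have hd1 : Disjoint (((Finset.univ : Finset ι).erase s).offDiag)
      ({s} ×ˢ ((Finset.univ : Finset ι).erase s)) := by
    rw [Finset.disjoint_left]
    rintro ⟨a, b⟩ h1 h2
    rw [Finset.mem_offDiag] at h1
    rw [Finset.mem_product, Finset.mem_singleton] at h2
    have h3 : a ≠ s := Finset.ne_of_mem_erase h1.1
    exact h3 h2.1
  have hd2 : Disjoint (((Finset.univ : Finset ι).erase s).offDiag ∪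
      {s} ×ˢ ((Finset.univ : Finset ι).erase s)) (((Finset.univ : Finset ι).erase s) ×ˢ {s}) := by
    rw [Finset.disjoint_left]
    rintro ⟨a, b⟩ h1 h2
    rw [Finset.mem_product, Finset.mem_singleton] at h2
    rw [Finset.mem_union, Finset.mem_offDiag, Finset.mem_product, Finset.mem_singleton] at h1
    rcases h1 with h1 | h1
    · have h3 : b ≠ s := Finset.ne_of_mem_erase h1.2.1
      exact h3 h2.2
    · have h3 : b ≠ s := Finset.ne_of_mem_erase h1.2
      exact h3 h2.2
  rw [Finset.sum_union hd2, Finset.sum_union hd1, Finset.sum_product, Finset.sum_product,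
    Finset.sum_singleton]
  congr 1
  refine Finset.sum_congr rfl fun t _ => ?_
  rw [Finset.sum_singleton]

theorem a3_ind {ι : Type} [Fintype ι] [DecidableEq ι] (c : ι → ℂ) (δ : ℝ) (hδ : 0 < δ)
    (T : Finset ι) :
    ∃ z : ι → ℂ, (∀ s, s ∉ T → z s = c s) ∧ (∀ s ∈ T, ‖z s - c s‖ = δ) ∧
      (∀ s ∈ T, ∀ t, t ≠ s → z s ≠ z t) ∧
      ∑ p ∈ (Finset.univ : Finset ι).offDiag,
        (if c p.1 = c p.2 then Real.log δ else Real.log ‖c p.1 - c p.2‖) ≤
      ∑ p ∈ (Finset.univ : Finset ι).offDiag,
        (if p.1 ∉ T ∧ p.2 ∉ T ∧ c p.1 = c p.2 then Real.log δ else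
          Real.log ‖z p.1 - z p.2‖) := by
  induction T using Finset.induction_on with
  | empty =>
    refine ⟨c, fun _ _ => rfl, ?_, ?_, le_of_eq ?_⟩
    · intro s hs
      exact absurd hs (Finset.notMem_empty s)
    · intro s hs
      exact absurd hs (Finset.notMem_empty s)
    · refine Finset.sum_congr rfl fun p _ => ?_
      by_cases h : c p.1 = c p.2
      · rw [if_pos h, if_pos ⟨Finset.notMem_empty _, Finset.notMem_empty _, h⟩]
      · rw [if_neg h, if_neg (fun h' => h h'.2.2)]
  | insert s T hs ih =>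
    obtain ⟨z, hz1, hz2, hz3, hz4⟩ := ih
    obtain ⟨x, hx1, hx2, hx3⟩ := a3_point ((Finset.univ : Finset ι).erase s) z (c s) δ hδ
    have hne : ∀ t, t ≠ s → Function.update z s x t = z t := fun t ht =>
      Function.update_of_ne ht _ _
    have hself : Function.update z s x s = x := Function.update_self _ _ _
    have hmem : ∀ t, t ≠ s → t ∈ (Finset.univ : Finset ι).erase s := fun t ht =>
      Finset.mem_erase.2 ⟨ht, Finset.mem_univ t⟩
    refine ⟨Function.update z s x, ?_, ?_, ?_, hz4.trans ?_⟩
    · intro t ht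
      rw [Finset.mem_insert, not_or] at ht
      rw [hne t ht.1]
      exact hz1 t ht.2
    · intro t ht
      by_cases h : t = s
      · rw [h, hself]
        exact hx1
      · rw [hne t h]
        exact hz2 t (Finset.mem_of_mem_insert_of_ne ht h)
    · intro i hi j hj
      by_cases h : i = s
      · rw [h] at hj ⊢
        rw [hself, hne j hj]
        exact hx2 j (hmem j hj)
      · rw [hne i h]
        have hiT : i ∈ T := Finset.mem_of_mem_insert_of_ne hi h
        by_cases h' : j = s
        · rw [h', hself]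
          exact (hx2 i (hmem i h)).symm
        · rw [hne j h']
          exact hz3 i hiT j hj
    · rw [a3_split _ s, a3_split (fun p : ι × ι => if p.1 ∉ insert s T ∧ p.2 ∉ insert s T ∧
        c p.1 = c p.2 then Real.log δ else
          Real.log ‖Function.update z s x p.1 - Function.update z s x p.2‖) s]
      have hold : ∀ t ∈ (Finset.univ : Finset ι).erase s,
          (if s ∉ T ∧ t ∉ T ∧ c s = c t then Real.log δ else Real.log ‖z s - z t‖) ≤
            Real.log δ + Real.posLog (δ⁻¹ * ‖c s - z t‖) := by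
        intro t ht
        have hts : t ≠ s := Finset.ne_of_mem_erase ht
        split_ifs with h
        · exact a3_le1 _ _
        · rw [hz1 s hs]
          have hcz : c s ≠ z t := by
            by_cases htT : t ∈ T
            · have h1 := hz3 t htT s (Ne.symm hts)
              rw [hz1 s hs] at h1
              exact h1.symm
            · rw [hz1 t htT]
              exact fun h' => h ⟨hs, htT, h'⟩
          exact a3_le2 hδ (norm_pos_iff.2 (sub_ne_zero.2 hcz))
      have hA : ∑ p ∈ ((Finset.univ : Finset ι).erase s).offDiag,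
          (if p.1 ∉ T ∧ p.2 ∉ T ∧ c p.1 = c p.2 then Real.log δ else
            Real.log ‖z p.1 - z p.2‖) =
          ∑ p ∈ ((Finset.univ : Finset ι).erase s).offDiag,
          (if p.1 ∉ insert s T ∧ p.2 ∉ insert s T ∧ c p.1 = c p.2 then Real.log δ else
            Real.log ‖Function.update z s x p.1 - Function.update z s x p.2‖) := by
        refine Finset.sum_congr rfl fun p hp => ?_
        rw [Finset.mem_offDiag] at hp
        have h1 : p.1 ≠ s := Finset.ne_of_mem_erase hp.1
        have h2 : p.2 ≠ s := Finset.ne_of_mem_erase hp.2.1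
        rw [hne _ h1, hne _ h2]
        refine if_congr ?_ rfl rfl
        rw [Finset.mem_insert, Finset.mem_insert, not_or, not_or]
        exact ⟨fun h => ⟨⟨h1, h.1⟩, ⟨h2, h.2.1⟩, h.2.2⟩, fun h => ⟨h.1.2, h.2.1.2, h.2.2⟩⟩
      have hB : ∑ t ∈ (Finset.univ : Finset ι).erase s,
          (if s ∉ T ∧ t ∉ T ∧ c s = c t then Real.log δ else Real.log ‖z s - z t‖) ≤
          ∑ t ∈ (Finset.univ : Finset ι).erase s,
          (if s ∉ insert s T ∧ t ∉ insert s T ∧ c s = c t then Real.log δ else
            Real.log ‖Function.update z s x s - Function.update z s x t‖) := by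
        refine (Finset.sum_le_sum hold).trans (hx3.trans (le_of_eq ?_))
        refine Finset.sum_congr rfl fun t ht => ?_
        rw [if_neg (fun h => h.1 (Finset.mem_insert_self s T)), hself,
          hne t (Finset.ne_of_mem_erase ht)]
      have hC : ∑ t ∈ (Finset.univ : Finset ι).erase s,
          (if t ∉ T ∧ s ∉ T ∧ c t = c s then Real.log δ else Real.log ‖z t - z s‖) ≤
          ∑ t ∈ (Finset.univ : Finset ι).erase s,
          (if t ∉ insert s T ∧ s ∉ insert s T ∧ c t = c s then Real.log δ else
            Real.log ‖Function.update z s x t - Function.update z s x s‖) := by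
        refine le_trans (Finset.sum_le_sum fun t ht => ?_) (hx3.trans (le_of_eq ?_))
        · refine le_trans (le_of_eq ?_) (hold t ht)
          rw [norm_sub_rev]
          refine if_congr ?_ rfl rfl
          exact ⟨fun h => ⟨h.2.1, h.1, h.2.2.symm⟩, fun h => ⟨h.2.1, h.1, h.2.2.symm⟩⟩
        · refine Finset.sum_congr rfl fun t ht => ?_
          rw [if_neg (fun h => h.2.1 (Finset.mem_insert_self s T)), hself,
            hne t (Finset.ne_of_mem_erase ht), norm_sub_rev]
      exact add_le_add (add_le_add (le_of_eq hA) hB) hC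

/-- Row A3. Moving the points of a configuration with repetitions to small circles.

Proof. Prove by induction on the finite set `T` of moved points: for every finite set `T` of indices
there is `z : ι → ℂ` with `z s = c s` for `s ∉ T`, `‖z s - c s‖ = δ` for `s ∈ T`,
`z s ≠ z t` for all `s ≠ t` with `s ∈ T` (or `t ∈ T`), and
`∑ p ∈ offDiag, (if c p.1 = c p.2 then log δ else log ‖c p.1 - c p.2‖)
   ≤ ∑ p ∈ offDiag, (if p.1 ∉ T ∧ p.2 ∉ T ∧ c p.1 = c p.2 then log δ else log ‖z p.1 - z p.2‖)`.
`T = ∅` is trivial. Step: let `s ∉ T`. For a point `x` of the circle of radius `δ` about `c s`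
consider `f x = ∑ t ≠ s, log ‖x - z t‖`. For each `t ≠ s` the average of `log ‖x - z t‖` over the circle is
`log (max δ ‖z t - c s‖)`: this is `circleAverage_log_norm_sub_const_eq_posLog` after
translation and scaling; a form for general centre and radius is perhaps in Mathlib
(search `circleAverage_log_norm`), otherwise write `x = c s + δ • u` with `u` on the unit circle:
`‖x - z t‖ = δ * ‖u - (z t - c s) / δ‖` and the average is
`log δ + posLog (‖z t - c s‖ / δ) = log (max δ ‖z t - c s‖)`. This is at least the old term: if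
`t ∉ T`: `z t = c t`; if `c t = c s` the old term was `log δ` and the average is `≥ log δ`; if
`c t ≠ c s` the old term was `log ‖c s - c t‖ ≤ log (max δ _)`. If `t ∈ T`, the old term is
`log ‖c s - z t‖ ≤ log (max δ _)` (with `z t ≠ c s` by the induction hypothesis,
because `z s = c s`; for `c t = c s` it is `log δ`, as `‖z t - c t‖ = δ`). So
the average of `f` is at least the sum of the old terms, and there is a point `x` of the circle
outside the finite set of the `z t` with `f x ≥` average
(`MeasureTheory.exists_notMem_null_average_le` or `exists_notMem_null_integral_le`, the set of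
parameters `θ ∈ (0, 2π]` with `c s + δ e^{iθ} = z t` is finite so null). Put `z s = x`. In the sum
over `offDiag` each unordered pair appears twice (`norm_sub_rev`). -/
theorem spread {ι : Type} [Fintype ι] [DecidableEq ι] (c : ι → ℂ) (δ : ℝ) (hδ : 0 < δ) :
    ∃ z : ι → ℂ, Function.Injective z ∧ (∀ s, ‖z s - c s‖ = δ) ∧
      ∑ p ∈ (Finset.univ : Finset ι).offDiag,
        (if c p.1 = c p.2 then Real.log δ else Real.log ‖c p.1 - c p.2‖) ≤
      ∑ p ∈ (Finset.univ : Finset ι).offDiag, Real.log ‖z p.1 - z p.2‖ := by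
  obtain ⟨z, -, hz2, hz3, hz4⟩ := a3_ind c δ hδ Finset.univ
  refine ⟨z, ?_, fun s => hz2 s (Finset.mem_univ s), hz4.trans (le_of_eq ?_)⟩
  · intro i j hij
    by_contra h
    exact hz3 i (Finset.mem_univ i) j (Ne.symm h) hij
  · refine Finset.sum_congr rfl fun p _ => ?_
    exact if_neg fun h => h.1 (Finset.mem_univ _)

end Pool.Agent.ZPB
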