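import Mathlib
import Pool.Agent.ZPB.A2
import Pool.Agent.ZPB.A3

set_option autoImplicit false

namespace Pool.Agent.ZPB

theorem a4_posLog {a b δ : ℝ} (ha : 0 ≤ a) (hb : 0 ≤ b) (hδ : 0 ≤ δ) (h : b ≤ a + δ) :
    Real.posLog b ≤ Real.posLog a + δ := by
  rw [Real.posLog_eq_log_max_one ha, Real.posLog_eq_log_max_one hb]
  have h1 : (0 : ℝ) < max 1 a := lt_of_lt_of_le one_pos (le_max_left _ _)
  have h2 : max 1 b ≤ max 1 a * (1 + δ) := by
    have h3 : (1 : ℝ) ≤ max 1 a := le_max_left _ _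
    have h4 : a ≤ max 1 a := le_max_right _ _
    have h5 : δ ≤ max 1 a * δ := le_mul_of_one_le_left hδ h3
    apply max_le
    · nlinarith
    · nlinarith
  calc Real.log (max 1 b) ≤ Real.log (max 1 a * (1 + δ)) :=
        Real.log_le_log (lt_of_lt_of_le one_pos (le_max_left _ _)) h2
    _ = Real.log (max 1 a) + Real.log (1 + δ) := Real.log_mul h1.ne' (by linarith)
    _ ≤ Real.log (max 1 a) + δ := by
        have := Real.log_le_sub_one_of_pos (show (0 : ℝ) < 1 + δ by linarith)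
        linarith

/-- Row A4. The inequality for configurations with repetitions.

Proof. `M = card ι ≥ 1`. Take `δ = 1 / M` in Row A3 (`log δ = - log M`) and apply Row A2 to `z`. For
each `i`, `posLog ‖z i‖ ≤ posLog (‖c i‖ + δ) ≤ posLog ‖c i‖ + δ`, because
`max 1 (a + δ) ≤ max 1 a * (1 + δ)` and `log (1 + δ) ≤ δ` (`Real.log_le_sub_one_of_pos`); the sum
over `i` of `δ` is `1`, and `2 * (M - 1) * 1 ≤ 2 * M`. -/
theorem cluster {ι : Type} [Fintype ι] [DecidableEq ι] [Nonempty ι] (c : ι → ℂ) :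
    ∑ p ∈ (Finset.univ : Finset ι).offDiag,
        (if c p.1 = c p.2 then - Real.log (Fintype.card ι) else Real.log ‖c p.1 - c p.2‖) ≤
      Fintype.card ι * Real.log (Fintype.card ι) + 2 * Fintype.card ι +
        2 * ((Fintype.card ι : ℝ) - 1) * ∑ i, Real.posLog ‖c i‖ := by
  have hM : (1 : ℝ) ≤ Fintype.card ι := by exact_mod_cast Fintype.card_pos
  have hM0 : (0 : ℝ) < Fintype.card ι := by linarith
  obtain ⟨z, hz, hzc, hle⟩ := spread c (1 / (Fintype.card ι : ℝ)) (by positivity)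
  have hlog : Real.log (1 / (Fintype.card ι : ℝ)) = - Real.log (Fintype.card ι) := by
    rw [one_div, Real.log_inv]
  rw [hlog] at hle
  have h1 := vdm z hz
  have h2 : ∑ i, Real.posLog ‖z i‖ ≤ ∑ i, Real.posLog ‖c i‖ + 1 := by
    have h3 : ∀ i ∈ (Finset.univ : Finset ι), Real.posLog ‖z i‖ ≤ Real.posLog ‖c i‖ + 1 / (Fintype.card ι : ℝ) := by
      intro i _
      apply a4_posLog (norm_nonneg _) (norm_nonneg _) (by positivity)
      have h4 : z i = c i + (z i - c i) := by ring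
      calc ‖z i‖ = ‖c i + (z i - c i)‖ := by rw [← h4]
        _ ≤ ‖c i‖ + ‖z i - c i‖ := norm_add_le _ _
        _ = ‖c i‖ + 1 / (Fintype.card ι : ℝ) := by rw [hzc i]
    refine (Finset.sum_le_sum h3).trans ?_
    rw [Finset.sum_add_distrib, Finset.sum_const, Finset.card_univ, nsmul_eq_mul, mul_one_div_cancel hM0.ne']
  have h5 : 2 * ((Fintype.card ι : ℝ) - 1) * ∑ i, Real.posLog ‖z i‖ ≤
      2 * ((Fintype.card ι : ℝ) - 1) * (∑ i, Real.posLog ‖c i‖ + 1) :=
    mul_le_mul_of_nonneg_left h2 (by linarith)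
  linarith

end Pool.Agent.ZPB
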