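import Mathlib
import Pool.Agent.ZPB.A4

set_option autoImplicit false

namespace Pool.Agent.ZPB

theorem a5_off {α : Type} [DecidableEq α] (Y : Finset α) (F : α × α → ℝ) :
    ∑ p ∈ Y.offDiag, F p = ∑ x ∈ Y, ∑ y ∈ Y, F (x, y) - ∑ x ∈ Y, F (x, x) := by
  have h1 : ∑ p ∈ Y ×ˢ Y, F p = ∑ x ∈ Y, ∑ y ∈ Y, F (x, y) := Finset.sum_product _ _ _
  rw [← h1, ← Finset.diag_union_offDiag, Finset.sum_union (Finset.disjoint_diag_offDiag _),
    Finset.sum_diag]
  ring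

theorem a5_sigma {E : Type} (Y : Finset E) (m : E → ℕ) (h : E → ℝ) :
    ∑ s : (Σ y : Y, Fin (m y)), h s.1 = ∑ y ∈ Y, (m y : ℝ) * h y := by
  rw [Fintype.sum_sigma]
  simp only [Finset.sum_const, Finset.card_univ, Fintype.card_fin, nsmul_eq_mul]
  exact Finset.sum_coe_sort Y (fun y => (m y : ℝ) * h y)

/-- Row A5. The archimedean estimate with multiplicities.

Proof. Apply Row A4 to `ι = Σ y : Y, Fin (m y)` (`card ι = M`, nonempty as `0 < M`) and
`c s = φ s.1`. `φ` is injective. The sum over `univ.offDiag` splits in the pairs with the same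
first component `y` (there are `m y * (m y - 1)` of them, each contributes `- log M`) and those with
different first components `y ≠ y'` (`m y * m y'` pairs, each contributes `log ‖φ y - φ y'‖`).
`∑ i, posLog ‖c i‖ = ∑ y ∈ Y, m y * posLog ‖φ y‖`. (It may be convenient to write both sums over
`offDiag` as `∑ s, ∑ t, if s = t then 0 else _` and to use `Fintype.sum_sigma`.) -/
theorem arch_bound {E : Type} [Field E] [DecidableEq E] (φ : E →+* ℂ) (Y : Finset E) (m : E → ℕ)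
    (M : ℕ) (hM : M = ∑ y ∈ Y, m y) (hpos : 0 < M) :
    ∑ p ∈ Y.offDiag, ((m p.1 : ℝ) * m p.2) * Real.log ‖φ p.1 - φ p.2‖ ≤
      (M + ∑ y ∈ Y, (m y : ℝ) * (m y - 1)) * Real.log M + 2 * M +
        2 * ((M : ℝ) - 1) * ∑ y ∈ Y, (m y : ℝ) * Real.posLog ‖φ y‖ := by
  classical
  have hcard : Fintype.card (Σ y : Y, Fin (m y)) = M := by
    rw [Fintype.card_sigma, hM]
    simp only [Fintype.card_fin]
    exact Finset.sum_coe_sort Y (fun y => m y)
  haveI : Nonempty (Σ y : Y, Fin (m y)) := by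
    rw [← Fintype.card_pos_iff, hcard]
    exact hpos
  have hcl := cluster (ι := Σ y : Y, Fin (m y)) (fun s => φ s.1)
  rw [hcard, a5_off] at hcl
  obtain ⟨g, hg⟩ : ∃ g : E → E → ℝ, g = fun y y' =>
      if φ y = φ y' then - Real.log M else Real.log ‖φ y - φ y'‖ := ⟨_, rfl⟩
  have e1 : ∑ x : (Σ y : Y, Fin (m y)), ∑ y : (Σ y : Y, Fin (m y)),
      (if φ (x, y).1.1 = φ (x, y).2.1 then - Real.log (M : ℝ)
        else Real.log ‖φ (x, y).1.1 - φ (x, y).2.1‖) =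
      ∑ y ∈ Y, (m y : ℝ) * ∑ y' ∈ Y, (m y' : ℝ) * g y y' := by
    rw [← a5_sigma Y m (fun y => ∑ y' ∈ Y, (m y' : ℝ) * g y y')]
    refine Finset.sum_congr rfl fun s _ => ?_
    rw [← a5_sigma Y m (fun y' => g s.1 y')]
    refine Finset.sum_congr rfl fun t _ => ?_
    rw [hg]
  have e2 : ∑ x : (Σ y : Y, Fin (m y)),
      (if φ (x, x).1.1 = φ (x, x).2.1 then - Real.log (M : ℝ)
        else Real.log ‖φ (x, x).1.1 - φ (x, x).2.1‖) =
      ∑ y ∈ Y, (m y : ℝ) * (- Real.log (M : ℝ)) := by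
    rw [← a5_sigma Y m (fun _ => - Real.log (M : ℝ))]
    refine Finset.sum_congr rfl fun s _ => ?_
    rw [if_pos rfl]
  rw [e1, e2] at hcl
  have e3 : ∑ y : (Σ y : Y, Fin (m y)), Real.posLog ‖φ y.1‖ =
      ∑ y ∈ Y, (m y : ℝ) * Real.posLog ‖φ y‖ := a5_sigma Y m (fun y => Real.posLog ‖φ y‖)
  rw [e3] at hcl
  have e4 : ∑ y ∈ Y, (m y : ℝ) * ∑ y' ∈ Y, (m y' : ℝ) * g y y' =
      ∑ p ∈ Y.offDiag, ((m p.1 : ℝ) * m p.2) * Real.log ‖φ p.1 - φ p.2‖ +
        ∑ y ∈ Y, (m y : ℝ) * (m y : ℝ) * (- Real.log M) := by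
    have h1 := a5_off Y (fun p => (m p.1 : ℝ) * ((m p.2 : ℝ) * g p.1 p.2))
    have h2 : ∑ p ∈ Y.offDiag, (m p.1 : ℝ) * ((m p.2 : ℝ) * g p.1 p.2) =
        ∑ p ∈ Y.offDiag, ((m p.1 : ℝ) * m p.2) * Real.log ‖φ p.1 - φ p.2‖ := by
      refine Finset.sum_congr rfl fun p hp => ?_
      have h3 : φ p.1 ≠ φ p.2 := fun h => (Finset.mem_offDiag.1 hp).2.2 (φ.injective h)
      rw [hg]
      simp only [if_neg h3]
      ring
    have h4 : ∑ x ∈ Y, (m x : ℝ) * ((m x : ℝ) * g x x) =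
        ∑ y ∈ Y, (m y : ℝ) * (m y : ℝ) * (- Real.log M) := by
      refine Finset.sum_congr rfl fun x _ => ?_
      rw [hg]
      simp only [if_true]
      ring
    simp only [h2, h4, ← Finset.mul_sum] at h1
    linarith
  rw [e4] at hcl
  have e5 : ∑ y ∈ Y, (m y : ℝ) * (m y : ℝ) * (- Real.log M) - ∑ y ∈ Y, (m y : ℝ) * (- Real.log M) =
      - ((∑ y ∈ Y, (m y : ℝ) * (m y - 1)) * Real.log M) := by
    rw [← Finset.sum_sub_distrib, Finset.sum_mul, ← Finset.sum_neg_distrib]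
    refine Finset.sum_congr rfl fun y _ => ?_
    ring
  linarith

end Pool.Agent.ZPB
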