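import Mathlib

set_option autoImplicit false

namespace Pool.Agent.ZPB

/-- A finite system of absolute values of a field `E`: complex embeddings `em i` with weights
`wA i` of sum one, nonarchimedean absolute values `v j` with weights `wB j`, and the inequality of
Liouville for the nonzero elements of a subring `O`. -/
structure PL (E : Type) [Field E] where
  A : Type
  B : Type
  fA : Fintype A
  fB : Fintype B
  em : A → E →+* ℂ
  wA : A → ℝ
  wA0 : ∀ i, 0 ≤ wA i
  wA1 : ∑ i, wA i = 1
  v : B → AbsoluteValue E ℝ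
  na : ∀ j, IsNonarchimedean (v j)
  wB : B → ℝ
  wB0 : ∀ j, 0 ≤ wB j
  O : Subring E
  pos : ∀ x ∈ O, x ≠ 0 →
    0 ≤ ∑ i, wA i * Real.log ‖em i x‖ + ∑ j, wB j * Real.log (v j x)

attribute [instance] PL.fA PL.fB

/-- The height attached to a system of absolute values. -/
noncomputable def PL.h {E : Type} [Field E] (P : PL E) (x : E) : ℝ :=
  ∑ i, P.wA i * Real.posLog ‖P.em i x‖ + ∑ j, P.wB j * Real.posLog (P.v j x)

section Galois

variable {E : Type} [Field E] [NumberField E]

/-- The orbit of `x` under a group of automorphisms of a number field. -/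
noncomputable def orb (H : Subgroup (E ≃ₐ[ℚ] E)) (x : E) : Finset E :=
  (Set.toFinite (Set.range fun g : H => (g : E ≃ₐ[ℚ] E) x)).toFinset

theorem mem_orb {H : Subgroup (E ≃ₐ[ℚ] E)} {x y : E} : y ∈ orb H x ↔ ∃ g ∈ H, g x = y := by
  unfold orb
  rw [Set.Finite.mem_toFinset]
  constructor
  · rintro ⟨g, rfl⟩
    exact ⟨g, g.2, rfl⟩
  · rintro ⟨g, hg, rfl⟩
    exact ⟨⟨g, hg⟩, rfl⟩

/-- The automorphisms fixing `x`. -/
def fx (x : E) : Subgroup (E ≃ₐ[ℚ] E) where
  carrier := {g | g x = x}
  one_mem' := rfl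
  mul_mem' := by
    intro g h hg hh
    show g (h x) = x
    rw [show h x = x from hh]
    exact hg
  inv_mem' := by
    intro g hg
    show g⁻¹ x = x
    have h1 : g x = x := hg
    calc g⁻¹ x = g⁻¹ (g x) := by rw [h1]
      _ = (g⁻¹ * g) x := rfl
      _ = x := by rw [inv_mul_cancel]; rfl

theorem mem_fx {x : E} {g : E ≃ₐ[ℚ] E} : g ∈ fx x ↔ g x = x := Iff.rfl

end Galois

end Pool.Agent.ZPB
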