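import Mathlib
import Pool.Agent.ZPB.Defs
import Pool.Agent.ZPB.A5

set_option autoImplicit false

namespace Pool.Agent.ZPB

/-- Row A6. The fundamental inequality.

Proof. Let `x = ∏ p ∈ Y.offDiag, (p.1 - p.2) ^ (m p.1 * m p.2)`. It lies in `P.O` (subring) and is
nonzero (`p.1 ≠ p.2` on `offDiag`). `P.pos x` says
`0 ≤ ∑ i, wA i * log ‖em i x‖ + ∑ j, wB j * log (v j x)`, and
`log ‖em i x‖ = ∑ p ∈ Y.offDiag, (m p.1 * m p.2) * log ‖em i p.1 - em i p.2‖` (`map_prod`, `map_pow`,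
`Real.log_prod`, `Real.log_pow`), similarly for `v j`. Bound the first by Row A5 (`wA i ≥ 0`,
`∑ wA i = 1`) and the second by `hγ` (`wB j ≥ 0`), and collect:
`∑ i, wA i * ∑ y, m y * posLog ‖em i y‖ + ∑ j, wB j * ∑ y, m y * posLog (v j y) =
∑ y, m y * P.h y` (`Finset.sum_comm`). -/
theorem core {E : Type} [Field E] [DecidableEq E] (P : PL E) (Y : Finset E)
    (hY : ∀ y ∈ Y, y ∈ P.O) (m : E → ℕ) (M : ℕ) (hM : M = ∑ y ∈ Y, m y) (hpos : 0 < M)
    (γ : P.B → ℝ)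
    (hγ : ∀ j, ∑ p ∈ Y.offDiag, ((m p.1 : ℝ) * m p.2) * Real.log (P.v j (p.1 - p.2)) ≤
      γ j + 2 * ((M : ℝ) - 1) * ∑ y ∈ Y, (m y : ℝ) * Real.posLog (P.v j y)) :
    0 ≤ (M + ∑ y ∈ Y, (m y : ℝ) * (m y - 1)) * Real.log M + 2 * M +
        2 * ((M : ℝ) - 1) * ∑ y ∈ Y, (m y : ℝ) * P.h y + ∑ j, P.wB j * γ j := by
  set x : E := ∏ p ∈ Y.offDiag, (p.1 - p.2) ^ (m p.1 * m p.2) with hxdef
  have hne : ∀ p ∈ Y.offDiag, p.1 - p.2 ≠ 0 := fun p hp =>
    sub_ne_zero.2 (Finset.mem_offDiag.1 hp).2.2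
  have hxO : x ∈ P.O := by
    refine Subring.prod_mem _ fun p hp => ?_
    have h0 := Finset.mem_offDiag.1 hp
    exact Subring.pow_mem _ (Subring.sub_mem _ (hY _ h0.1) (hY _ h0.2.1)) _
  have hx0 : x ≠ 0 := Finset.prod_ne_zero_iff.2 fun p hp => pow_ne_zero _ (hne p hp)
  have hpos1 := P.pos x hxO hx0
  have hA : ∀ i, Real.log ‖P.em i x‖ =
      ∑ p ∈ Y.offDiag, ((m p.1 : ℝ) * m p.2) * Real.log ‖P.em i p.1 - P.em i p.2‖ := by
    intro i
    rw [hxdef, map_prod, norm_prod, Real.log_prod]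
    · refine Finset.sum_congr rfl fun p _ => ?_
      rw [map_pow, norm_pow, Real.log_pow, map_sub]
      push_cast
      ring
    · intro p hp
      rw [map_pow, norm_pow]
      refine pow_ne_zero _ (norm_ne_zero_iff.2 ?_)
      rw [Ne, map_eq_zero]
      exact hne p hp
  have hB : ∀ j, Real.log (P.v j x) =
      ∑ p ∈ Y.offDiag, ((m p.1 : ℝ) * m p.2) * Real.log (P.v j (p.1 - p.2)) := by
    intro j
    rw [hxdef, map_prod, Real.log_prod]
    · refine Finset.sum_congr rfl fun p _ => ?_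
      rw [map_pow, Real.log_pow]
      push_cast
      ring
    · intro p hp
      rw [map_pow]
      exact pow_ne_zero _ ((P.v j).ne_zero (hne p hp))
  set K : ℝ := (M + ∑ y ∈ Y, (m y : ℝ) * (m y - 1)) * Real.log M + 2 * M with hK
  have h1 : ∑ i, P.wA i * Real.log ‖P.em i x‖ ≤
      K + 2 * ((M : ℝ) - 1) * ∑ i, P.wA i * ∑ y ∈ Y, (m y : ℝ) * Real.posLog ‖P.em i y‖ := by
    have h2 : ∀ i, P.wA i * Real.log ‖P.em i x‖ ≤
        P.wA i * K + 2 * ((M : ℝ) - 1) *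
          (P.wA i * ∑ y ∈ Y, (m y : ℝ) * Real.posLog ‖P.em i y‖) := by
      intro i
      have h3 := mul_le_mul_of_nonneg_left (arch_bound (P.em i) Y m M hM hpos) (P.wA0 i)
      rw [hA]
      refine h3.trans (le_of_eq ?_)
      rw [hK]
      ring
    calc ∑ i, P.wA i * Real.log ‖P.em i x‖
        ≤ ∑ i, (P.wA i * K + 2 * ((M : ℝ) - 1) *
          (P.wA i * ∑ y ∈ Y, (m y : ℝ) * Real.posLog ‖P.em i y‖)) :=
          Finset.sum_le_sum fun i _ => h2 i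
      _ = K + 2 * ((M : ℝ) - 1) * ∑ i, P.wA i * ∑ y ∈ Y, (m y : ℝ) * Real.posLog ‖P.em i y‖ := by
          rw [Finset.sum_add_distrib, ← Finset.sum_mul, P.wA1, one_mul, ← Finset.mul_sum]
  have h4 : ∑ j, P.wB j * Real.log (P.v j x) ≤
      ∑ j, P.wB j * γ j +
        2 * ((M : ℝ) - 1) * ∑ j, P.wB j * ∑ y ∈ Y, (m y : ℝ) * Real.posLog (P.v j y) := by
    have h5 : ∀ j, P.wB j * Real.log (P.v j x) ≤
        P.wB j * γ j + 2 * ((M : ℝ) - 1) *
          (P.wB j * ∑ y ∈ Y, (m y : ℝ) * Real.posLog (P.v j y)) := by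
      intro j
      have h3 := mul_le_mul_of_nonneg_left (hγ j) (P.wB0 j)
      rw [hB]
      refine h3.trans (le_of_eq ?_)
      ring
    calc ∑ j, P.wB j * Real.log (P.v j x)
        ≤ ∑ j, (P.wB j * γ j + 2 * ((M : ℝ) - 1) *
          (P.wB j * ∑ y ∈ Y, (m y : ℝ) * Real.posLog (P.v j y))) :=
          Finset.sum_le_sum fun j _ => h5 j
      _ = _ := by
          rw [Finset.sum_add_distrib, ← Finset.mul_sum]
  have h6 : ∑ y ∈ Y, (m y : ℝ) * P.h y =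
      ∑ i, P.wA i * ∑ y ∈ Y, (m y : ℝ) * Real.posLog ‖P.em i y‖ +
        ∑ j, P.wB j * ∑ y ∈ Y, (m y : ℝ) * Real.posLog (P.v j y) := by
    have h7 : ∑ i, P.wA i * ∑ y ∈ Y, (m y : ℝ) * Real.posLog ‖P.em i y‖ =
        ∑ y ∈ Y, (m y : ℝ) * ∑ i, P.wA i * Real.posLog ‖P.em i y‖ := by
      simp only [Finset.mul_sum]
      rw [Finset.sum_comm]
      refine Finset.sum_congr rfl fun y _ => Finset.sum_congr rfl fun i _ => ?_
      ring
    have h8 : ∑ j, P.wB j * ∑ y ∈ Y, (m y : ℝ) * Real.posLog (P.v j y) =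
        ∑ y ∈ Y, (m y : ℝ) * ∑ j, P.wB j * Real.posLog (P.v j y) := by
      simp only [Finset.mul_sum]
      rw [Finset.sum_comm]
      refine Finset.sum_congr rfl fun y _ => Finset.sum_congr rfl fun j _ => ?_
      ring
    rw [h7, h8, ← Finset.sum_add_distrib]
    refine Finset.sum_congr rfl fun y _ => ?_
    rw [← mul_add]
    rfl
  rw [h6, mul_add]
  linarith

end Pool.Agent.ZPB
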