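import Mathlib

set_option autoImplicit false

namespace Pool.Agent.ZPB

/-- Row A7. `v (x - y) ≤ max (v x) (v y) ≤ max 1 (v x) * max 1 (v y)`;
`Real.posLog_eq_log_max_one`. -/
theorem nonarch_pair {E : Type} [Field E] (v : AbsoluteValue E ℝ) (hv : IsNonarchimedean v)
    {x y : E} (h : x ≠ y) : Real.log (v (x - y)) ≤ Real.posLog (v x) + Real.posLog (v y) := by
  have h0 : 0 < v (x - y) := v.pos (sub_ne_zero.2 h)
  have h1 : v (x - y) ≤ max (v x) (v y) := by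
    have h2 := hv x (-y)
    rwa [AbsoluteValue.map_neg, ← sub_eq_add_neg] at h2
  rw [Real.posLog_eq_log_max_one (v.nonneg x), Real.posLog_eq_log_max_one (v.nonneg y),
    ← Real.log_mul (ne_of_gt (lt_of_lt_of_le one_pos (le_max_left _ _)))
      (ne_of_gt (lt_of_lt_of_le one_pos (le_max_left _ _)))]
  refine Real.log_le_log h0 (h1.trans (max_le ?_ ?_))
  · calc v x ≤ max 1 (v x) := le_max_right _ _
      _ = max 1 (v x) * 1 := (mul_one _).symm
      _ ≤ max 1 (v x) * max 1 (v y) :=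
        mul_le_mul_of_nonneg_left (le_max_left _ _) (le_trans zero_le_one (le_max_left _ _))
  · calc v y ≤ max 1 (v y) := le_max_right _ _
      _ = 1 * max 1 (v y) := (one_mul _).symm
      _ ≤ max 1 (v x) * max 1 (v y) :=
        mul_le_mul_of_nonneg_right (le_max_left _ _) (le_trans zero_le_one (le_max_left _ _))

/-- Row A7. The nonarchimedean estimate with multiplicities.

Proof. On `Y.offDiag \ T` use `nonarch_pair`, on `T` use `hγ`; so the left side is at most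
`γ + ∑ p ∈ Y.offDiag, (m p.1 * m p.2) * (posLog (v p.1) + posLog (v p.2))`, and this sum is
`2 * ∑ y ∈ Y, m y * posLog (v y) * (M - m y)` (`∑ z ∈ Y, z ≠ y, m z = M - m y`), where for each
`y` either `m y = 0` and the term is `0`, or `m y ≥ 1` and `M - m y ≤ M - 1`. -/
theorem nonarch_sum {E : Type} [Field E] [DecidableEq E] (v : AbsoluteValue E ℝ)
    (hv : IsNonarchimedean v) (Y : Finset E) (m : E → ℕ) (M : ℕ) (hM : M = ∑ y ∈ Y, m y)
    (T : Finset (E × E)) (hT : T ⊆ Y.offDiag) (γ : ℝ)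
    (hγ : ∑ p ∈ T, ((m p.1 : ℝ) * m p.2) * Real.log (v (p.1 - p.2)) ≤
      γ + ∑ p ∈ T, ((m p.1 : ℝ) * m p.2) * (Real.posLog (v p.1) + Real.posLog (v p.2))) :
    ∑ p ∈ Y.offDiag, ((m p.1 : ℝ) * m p.2) * Real.log (v (p.1 - p.2)) ≤
      γ + 2 * ((M : ℝ) - 1) * ∑ y ∈ Y, (m y : ℝ) * Real.posLog (v y) := by
  set g : E → ℝ := fun y => Real.posLog (v y) with hg
  have hg0 : ∀ y, 0 ≤ g y := fun y => Real.posLog_nonneg
  -- the sum over all pairs
  have h1 : ∑ p ∈ Y.offDiag, ((m p.1 : ℝ) * m p.2) * Real.log (v (p.1 - p.2)) ≤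
      γ + ∑ p ∈ Y.offDiag, ((m p.1 : ℝ) * m p.2) * (g p.1 + g p.2) := by
    rw [← Finset.sum_sdiff hT, ← Finset.sum_sdiff hT]
    have h2 : ∑ p ∈ Y.offDiag \ T, ((m p.1 : ℝ) * m p.2) * Real.log (v (p.1 - p.2)) ≤
        ∑ p ∈ Y.offDiag \ T, ((m p.1 : ℝ) * m p.2) * (g p.1 + g p.2) := by
      refine Finset.sum_le_sum fun p hp => ?_
      have hp1 := (Finset.mem_offDiag.1 (Finset.mem_sdiff.1 hp).1).2.2
      exact mul_le_mul_of_nonneg_left (nonarch_pair v hv hp1) (by positivity)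
    linarith
  have h2 : ∑ p ∈ Y.offDiag, ((m p.1 : ℝ) * m p.2) * (g p.1 + g p.2) =
      2 * (M : ℝ) * ∑ y ∈ Y, (m y : ℝ) * g y - 2 * ∑ y ∈ Y, (m y : ℝ) ^ 2 * g y := by
    have e1 : ∑ p ∈ Y ×ˢ Y, ((m p.1 : ℝ) * m p.2) * (g p.1 + g p.2) =
        ∑ p ∈ Y.diag, ((m p.1 : ℝ) * m p.2) * (g p.1 + g p.2) +
          ∑ p ∈ Y.offDiag, ((m p.1 : ℝ) * m p.2) * (g p.1 + g p.2) := by
      rw [← Finset.diag_union_offDiag Y, Finset.sum_union (Finset.disjoint_diag_offDiag Y)]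
    have e2 : ∑ p ∈ Y.diag, ((m p.1 : ℝ) * m p.2) * (g p.1 + g p.2) =
        2 * ∑ y ∈ Y, (m y : ℝ) ^ 2 * g y := by
      rw [Finset.sum_diag, Finset.mul_sum]
      exact Finset.sum_congr rfl fun y _ => by ring
    have e3 : ∑ p ∈ Y ×ˢ Y, ((m p.1 : ℝ) * m p.2) * (g p.1 + g p.2) =
        2 * (M : ℝ) * ∑ y ∈ Y, (m y : ℝ) * g y := by
      have hM' : (M : ℝ) = ∑ y ∈ Y, (m y : ℝ) := by rw [hM]; push_cast; rfl
      have e4 : ∀ p : E × E, ((m p.1 : ℝ) * m p.2) * (g p.1 + g p.2) =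
          ((m p.1 : ℝ) * g p.1) * (m p.2 : ℝ) + (m p.1 : ℝ) * ((m p.2 : ℝ) * g p.2) := by
        intro p
        ring
      rw [Finset.sum_congr rfl fun p _ => e4 p, Finset.sum_add_distrib]
      rw [Finset.sum_product, Finset.sum_product]
      dsimp only
      rw [← Finset.sum_mul_sum, ← Finset.sum_mul_sum, ← hM']
      ring
    linarith
  have h3 : ∑ y ∈ Y, (m y : ℝ) * g y ≤ ∑ y ∈ Y, (m y : ℝ) ^ 2 * g y := by
    refine Finset.sum_le_sum fun y _ => ?_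
    refine mul_le_mul_of_nonneg_right ?_ (hg0 y)
    rcases Nat.eq_zero_or_pos (m y) with h4 | h4
    · rw [h4]
      norm_num
    · have h5 : (1 : ℝ) ≤ m y := by exact_mod_cast h4
      nlinarith
  have h4 : 2 * ((M : ℝ) - 1) * ∑ y ∈ Y, (m y : ℝ) * g y =
      2 * (M : ℝ) * ∑ y ∈ Y, (m y : ℝ) * g y - 2 * ∑ y ∈ Y, (m y : ℝ) * g y := by ring
  show _ ≤ γ + 2 * ((M : ℝ) - 1) * ∑ y ∈ Y, (m y : ℝ) * g y
  linarith

end Pool.Agent.ZPB
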