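import Mathlib
import Pool.Agent.ZPB.Defs

set_option autoImplicit false

namespace Pool.Agent.ZPB

variable {E : Type} [Field E] [NumberField E]

/-- Row K1. Orbits are equal or disjoint. -/
theorem orb_eq {H : Subgroup (E ≃ₐ[ℚ] E)} {x y : E} (h : y ∈ orb H x) : orb H y = orb H x := by
  obtain ⟨g, hg, rfl⟩ := mem_orb.1 h
  ext z
  rw [mem_orb, mem_orb]
  constructor
  · rintro ⟨g', hg', rfl⟩
    exact ⟨g' * g, H.mul_mem hg' hg, rfl⟩
  · rintro ⟨g', hg', rfl⟩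
    refine ⟨g' * g⁻¹, H.mul_mem hg' (H.inv_mem hg), ?_⟩
    calc (g' * g⁻¹) (g x) = (g' * g⁻¹ * g) x := rfl
      _ = g' x := by rw [inv_mul_cancel_right]

theorem orb_card_pos (H : Subgroup (E ≃ₐ[ℚ] E)) (x : E) : 0 < (orb H x).card := by
  exact Finset.card_pos.2 ⟨x, mem_orb.2 ⟨1, H.one_mem, rfl⟩⟩

theorem orb_mono {H H' : Subgroup (E ≃ₐ[ℚ] E)} (h : H ≤ H') (x : E) : orb H x ⊆ orb H' x := by
  intro y hy
  obtain ⟨g, hg, rfl⟩ := mem_orb.1 hy
  exact mem_orb.2 ⟨g, h hg, rfl⟩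

theorem k1_norm {H : Subgroup (E ≃ₐ[ℚ] E)} {g : E ≃ₐ[ℚ] E} (hg : ∀ h ∈ H, g * h * g⁻¹ ∈ H)
    (h : E ≃ₐ[ℚ] E) (hh : h ∈ H) : g⁻¹ * h * g ∈ H := by
  let f : H → H := fun a => ⟨g * (a : E ≃ₐ[ℚ] E) * g⁻¹, hg a a.2⟩
  have hf : Function.Injective f := by
    intro a b hab
    have h1 : g * (a : E ≃ₐ[ℚ] E) * g⁻¹ = g * (b : E ≃ₐ[ℚ] E) * g⁻¹ := congrArg Subtype.val hab
    exact Subtype.ext (mul_left_cancel (mul_right_cancel h1))
  obtain ⟨a, ha⟩ := (Finite.injective_iff_surjective.1 hf) ⟨h, hh⟩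
  have h1 : g * (a : E ≃ₐ[ℚ] E) * g⁻¹ = h := congrArg Subtype.val ha
  have h2 : g⁻¹ * h * g = a := by
    rw [← h1]
    group
  rw [h2]
  exact a.2

/-- Row K1. If `g` normalises `H` (`g * h * g⁻¹ ∈ H` and, the group being finite, also
`g⁻¹ * h * g ∈ H`: the map `h ↦ g * h * g⁻¹` is injective on the finite set `H`), then
`orb H (g x) = g (orb H x)`. -/
theorem orb_image {H : Subgroup (E ≃ₐ[ℚ] E)} {g : E ≃ₐ[ℚ] E} (hg : ∀ h ∈ H, g * h * g⁻¹ ∈ H)
    [DecidableEq E] (x : E) : orb H (g x) = (orb H x).image g := by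
  ext z
  rw [mem_orb, Finset.mem_image]
  constructor
  · rintro ⟨h, hh, rfl⟩
    refine ⟨(g⁻¹ * h * g) x, mem_orb.2 ⟨_, k1_norm hg h hh, rfl⟩, ?_⟩
    calc g ((g⁻¹ * h * g) x) = (g * (g⁻¹ * h * g)) x := rfl
      _ = (h * g) x := by rw [← mul_assoc, ← mul_assoc, mul_inv_cancel, one_mul]
      _ = h (g x) := rfl
  · rintro ⟨y, hy, rfl⟩
    obtain ⟨h, hh, rfl⟩ := mem_orb.1 hy
    refine ⟨g * h * g⁻¹, hg h hh, ?_⟩
    calc (g * h * g⁻¹) (g x) = (g * h * g⁻¹ * g) x := rfl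
      _ = (g * h) x := by rw [inv_mul_cancel_right]
      _ = g (h x) := rfl

theorem orb_card_image {H : Subgroup (E ≃ₐ[ℚ] E)} {g : E ≃ₐ[ℚ] E}
    (hg : ∀ h ∈ H, g * h * g⁻¹ ∈ H) (x : E) : (orb H (g x)).card = (orb H x).card := by
  classical
  rw [orb_image hg, Finset.card_image_of_injective _ g.injective]

/-- Row K1. The orbit of a larger group is a disjoint union of orbits of a normal subgroup, which
all have the same number of elements (`orb_card_image`). (The set `(orb H' x).image (orb H)` of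
blocks is a partition of `orb H' x`; `Finset.card_eq_sum_card_fiberwise` or
`Finset.card_biUnion`.) -/
theorem orb_blocks {H H' : Subgroup (E ≃ₐ[ℚ] E)} (hHH' : H ≤ H')
    (hn : ∀ g ∈ H', ∀ h ∈ H, g * h * g⁻¹ ∈ H) [DecidableEq E] (x : E) :
    (orb H' x).card = ((orb H' x).image (orb H)).card * (orb H x).card := by
  rw [Finset.card_eq_sum_card_image (orb H) (orb H' x), Finset.sum_const_nat]
  intro b hb
  obtain ⟨y, hy, rfl⟩ := Finset.mem_image.1 hb
  have h1 : (orb H' x).filter (fun a => orb H a = orb H y) = orb H y := by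
    ext a
    rw [Finset.mem_filter]
    constructor
    · rintro ⟨-, h2⟩
      rw [← h2]
      exact mem_orb.2 ⟨1, H.one_mem, rfl⟩
    · intro ha
      refine ⟨?_, orb_eq ha⟩
      rw [← orb_eq hy]
      exact orb_mono hHH' y ha
  rw [h1]
  obtain ⟨g, hg, rfl⟩ := mem_orb.1 hy
  exact orb_card_image (hn g hg) x

theorem orb_card_dvd {H H' : Subgroup (E ≃ₐ[ℚ] E)} (hHH' : H ≤ H')
    (hn : ∀ g ∈ H', ∀ h ∈ H, g * h * g⁻¹ ∈ H) (x : E) : (orb H x).card ∣ (orb H' x).card := by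
  classical
  exact ⟨_, (orb_blocks hHH' hn x).trans (mul_comm _ _)⟩

/-- Row K1. Orbit and stabiliser (`Subgroup.index`, `MulAction.index_stabilizer` or
`Nat.card` of orbits: `MulAction.card_orbit_mul_card_stabilizer_eq_card_group`); the
stabiliser of `x` in `H` is `H ⊓ fx x`. -/
theorem orb_card_mul (H : Subgroup (E ≃ₐ[ℚ] E)) (x : E) :
    (orb H x).card * Nat.card (H ⊓ fx x : Subgroup (E ≃ₐ[ℚ] E)) = Nat.card H := by
  have h1 : (orb H x).card = (MulAction.orbit H x).ncard := by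
    rw [← Set.ncard_coe_finset]
    congr 1
    ext y
    rw [Finset.mem_coe, mem_orb, MulAction.mem_orbit_iff]
    constructor
    · rintro ⟨g, hg, h⟩
      exact ⟨⟨g, hg⟩, h⟩
    · rintro ⟨g, h⟩
      exact ⟨g, g.2, h⟩
  have h2 : Nat.card (H ⊓ fx x : Subgroup (E ≃ₐ[ℚ] E)) = Nat.card (MulAction.stabilizer H x) :=
    Nat.card_congr
      { toFun := fun g => ⟨⟨g.1, g.2.1⟩, g.2.2⟩
        invFun := fun g => ⟨g.1.1, g.1.2, g.2⟩
        left_inv := fun g => rfl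
        right_inv := fun g => rfl }
  rw [h1, h2, ← MulAction.index_stabilizer, Subgroup.index_mul_card]

/-- Row K1. The product of the elements of an orbit of `H` is fixed by `H`. -/
theorem prod_orb_fixed (H : Subgroup (E ≃ₐ[ℚ] E)) (x : E) {g : E ≃ₐ[ℚ] E} (hg : g ∈ H) :
    g (∏ y ∈ orb H x, y) = ∏ y ∈ orb H x, y := by
  classical
  have h1 : (orb H x).image g = orb H x := by
    rw [← orb_image (fun h hh => H.mul_mem (H.mul_mem hg hh) (H.inv_mem hg))]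
    exact orb_eq (mem_orb.2 ⟨g, hg, rfl⟩)
  rw [map_prod]
  conv_rhs => rw [← h1]
  rw [Finset.prod_image (fun a _ b _ h => g.injective h)]

end Pool.Agent.ZPB
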