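import Mathlib

set_option autoImplicit false

open Polynomial

namespace Pool.Agent.ZPB

theorem l1_sub_le {E : Type} [Field E] (v : AbsoluteValue E ℝ) (hv : IsNonarchimedean v) (a b : E) :
    v (a - b) ≤ max (v a) (v b) := by
  have h := hv a (-b)
  rwa [← sub_eq_add_neg, v.map_neg] at h

theorem l1_sub_eq {E : Type} [Field E] (v : AbsoluteValue E ℝ) (hv : IsNonarchimedean v) {a b : E}
    (h : v b < v a) : v (a - b) = v a := by
  apply le_antisymm
  · exact (l1_sub_le v hv a b).trans (max_le le_rfl h.le)
  · have h1 := hv (a - b) b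
    rw [sub_add_cancel] at h1
    rcases le_max_iff.1 h1 with h2 | h2
    · exact h2
    · exact absurd h2 (not_le.2 h)

theorem l1_coeff {E : Type} [Field E] (q : E[X]) (u : E) (k : ℕ) :
    ((X - C u) * q).coeff k = (X * q).coeff k - u * q.coeff k := by
  rw [sub_mul, coeff_sub, coeff_C_mul]

/-- Row L1, one step of Gauss's lemma. The largest absolute value of a coefficient of `(X - C u) * q` is
`max 1 (v u)` times the largest absolute value of a coefficient of `q`.

Proof. Let `R = v (q.coeff k0)` be the largest value (`q ≠ 0`, `R > 0`). The coefficient `k` of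
`(X - C u) * q` is `q.coeff (k - 1) - u * q.coeff k` (`0 - u * q.coeff 0` for `k = 0`), so of value
`≤ max R (v u * R)`. For the equality: if `v u ≤ 1` let `k` be the largest index with
`v (q.coeff k) = R`: the coefficient `k + 1` is `q.coeff k - u * q.coeff (k + 1)` and
`v (u * q.coeff (k + 1)) < R`, so its value is `R` (`IsNonarchimedean.add_eq_max_of_ne` or
`AbsoluteValue` analogue). If `v u > 1` let `k` be the least index with `v (q.coeff k) = R`; in the
coefficient `k`, `v (q.coeff (k - 1)) ≤ R < v u * R`. (If `P.coeff k` for all `k ≤ R` is used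
instead of a maximum, choose `k0` in the support with `Finset.exists_max_image`.) -/
theorem gauss_step {E : Type} [Field E] (v : AbsoluteValue E ℝ) (hv : IsNonarchimedean v)
    (q : E[X]) (u : E) (R : ℝ) (hle : ∀ k, v (q.coeff k) ≤ R) (hex : ∃ k, v (q.coeff k) = R)
    (hq : q ≠ 0) :
    (∀ k, v (((X - C u) * q).coeff k) ≤ max 1 (v u) * R) ∧
      ∃ k, v (((X - C u) * q).coeff k) = max 1 (v u) * R := by
  have hR : 0 < R := by
    obtain ⟨j, hj⟩ : ∃ j, q.coeff j ≠ 0 := by
      by_contra h
      push Not at h
      exact hq (Polynomial.ext fun j => by rw [h j, coeff_zero])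
    exact lt_of_lt_of_le (v.pos hj) (hle j)
  have hX : ∀ k, v ((X * q).coeff k) ≤ R := by
    intro k
    rcases k with _ | k
    · rw [coeff_X_mul_zero, v.map_zero]
      exact hR.le
    · rw [coeff_X_mul]
      exact hle k
  constructor
  · intro k
    rw [l1_coeff]
    refine (l1_sub_le v hv _ _).trans (max_le ?_ ?_)
    · calc v ((X * q).coeff k) ≤ 1 * R := by rw [one_mul]; exact hX k
        _ ≤ max 1 (v u) * R := mul_le_mul_of_nonneg_right (le_max_left _ _) hR.le
    · rw [v.map_mul]
      exact mul_le_mul (le_max_right _ _) (hle k) (v.nonneg _) (le_trans zero_le_one (le_max_left _ _))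
  · rcases le_or_gt (v u) 1 with hu | hu
    · rw [max_eq_left hu, one_mul]
      have hdeg : ∀ k, v (q.coeff k) = R → k ≤ q.natDegree := by
        intro k hk
        by_contra h
        rw [coeff_eq_zero_of_natDegree_lt (not_le.1 h), v.map_zero] at hk
        exact hR.ne hk
      classical
      let S := (Finset.range (q.natDegree + 1)).filter fun k => v (q.coeff k) = R
      have hS : S.Nonempty := by
        obtain ⟨k, hk⟩ := hex
        exact ⟨k, Finset.mem_filter.2 ⟨Finset.mem_range.2 (Nat.lt_succ_of_le (hdeg k hk)), hk⟩⟩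
      have hk := Finset.mem_filter.1 (S.max'_mem hS)
      refine ⟨S.max' hS + 1, ?_⟩
      rw [l1_coeff, coeff_X_mul, ← hk.2]
      apply l1_sub_eq v hv
      rw [hk.2, v.map_mul]
      have h1 : v (q.coeff (S.max' hS + 1)) < R := by
        refine lt_of_le_of_ne (hle _) fun h => ?_
        have h2 : S.max' hS + 1 ∈ S :=
          Finset.mem_filter.2 ⟨Finset.mem_range.2 (Nat.lt_succ_of_le (hdeg _ h)), h⟩
        exact absurd (S.le_max' _ h2) (by omega)
      calc v u * v (q.coeff (S.max' hS + 1)) ≤ 1 * v (q.coeff (S.max' hS + 1)) :=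
            mul_le_mul_of_nonneg_right hu (v.nonneg _)
        _ < R := by rw [one_mul]; exact h1
    · rw [max_eq_right hu.le]
      obtain ⟨k, hk⟩ := hex
      refine ⟨k, ?_⟩
      have h1 : v (u * q.coeff k) = v u * R := by rw [v.map_mul, hk]
      have h2 : v ((X * q).coeff k) < v (u * q.coeff k) := by
        rw [h1]
        refine lt_of_le_of_lt (hX k) ?_
        calc R = 1 * R := (one_mul R).symm
          _ < v u * R := mul_lt_mul_of_pos_right hu hR
      rw [l1_coeff, v.map_sub, l1_sub_eq v hv h2, h1]

/-- Row L1. The Gauss norm of a split monic polynomial: induction over `O` with `gauss_step`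
(`∏ y ∈ O, (X - C y) ≠ 0`; `O = ∅`: the polynomial `1`, `k = 0`). -/
theorem gauss_split {E : Type} [Field E] (v : AbsoluteValue E ℝ) (hv : IsNonarchimedean v)
    (O : Finset E) :
    (∀ k, v ((∏ y ∈ O, (X - C y)).coeff k) ≤ ∏ y ∈ O, max 1 (v y)) ∧
      ∃ k, v ((∏ y ∈ O, (X - C y)).coeff k) = ∏ y ∈ O, max 1 (v y) := by
  classical
  induction O using Finset.induction_on with
  | empty =>
    rw [Finset.prod_empty, Finset.prod_empty]
    constructor
    · intro k
      rw [coeff_one]
      split_ifs
      · rw [v.map_one]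
      · rw [v.map_zero]
        exact zero_le_one
    · exact ⟨0, by rw [coeff_one_zero, v.map_one]⟩
  | insert y O hy ih =>
    rw [Finset.prod_insert hy, Finset.prod_insert hy]
    exact gauss_step v hv _ y _ ih.1 ih.2 (Finset.prod_ne_zero_iff.2 fun z _ => X_sub_C_ne_zero z)

end Pool.Agent.ZPB
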