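import Mathlib

set_option autoImplicit false

open Polynomial

namespace Pool.Agent.ZPB

theorem l2_nat {E : Type} [Field E] (v : AbsoluteValue E ℝ) (hv : IsNonarchimedean v) (m : ℕ) :
    v (m : E) ≤ 1 := by
  induction m with
  | zero => rw [Nat.cast_zero, map_zero]; exact zero_le_one
  | succ m ih =>
    rw [Nat.cast_succ]
    exact (hv _ _).trans (max_le ih (le_of_eq (map_one v)))

theorem l2_sum {E : Type} [Field E] (v : AbsoluteValue E ℝ) (hv : IsNonarchimedean v)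
    {ι : Type} (s : Finset ι) (a : ι → E) (R : ℝ) (hR : 0 ≤ R) (ha : ∀ k ∈ s, v (a k) ≤ R) :
    v (∑ k ∈ s, a k) ≤ R := by
  classical
  revert ha
  refine Finset.induction_on s ?_ ?_
  · intro _
    rw [Finset.sum_empty, map_zero]
    exact hR
  · intro k t hk ih ha
    rw [Finset.sum_insert hk]
    exact (hv _ _).trans (max_le (ha k (Finset.mem_insert_self k t))
      (ih fun j hj => ha j (Finset.mem_insert_of_mem hj)))

theorem l2_two {E : Type} [Field E] (v : AbsoluteValue E ℝ) (hv : IsNonarchimedean v)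
    {p : ℕ} (hp : p.Prime) (R : ℝ) (hR : 0 ≤ R) {x y : E} (hx : v x ≤ R) (hy : v y ≤ R) :
    v ((x + y) ^ p - x ^ p - y ^ p) ≤ v p * R ^ p := by
  rw [add_pow_prime_eq hp x y]
  rw [show x ^ p + y ^ p + (p : E) * x * y * ∑ k ∈ Finset.Ioo 0 p, x ^ (k - 1) * y ^ (p - k - 1) *
    ((p.choose k / p : ℕ) : E) - x ^ p - y ^ p = (p : E) * (x * y * ∑ k ∈ Finset.Ioo 0 p,
      x ^ (k - 1) * y ^ (p - k - 1) * ((p.choose k / p : ℕ) : E)) by ring]
  rw [map_mul]
  refine mul_le_mul_of_nonneg_left ?_ (v.nonneg _)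
  have h1 : v (∑ k ∈ Finset.Ioo 0 p, x ^ (k - 1) * y ^ (p - k - 1) *
      ((p.choose k / p : ℕ) : E)) ≤ R ^ (p - 2) := by
    refine l2_sum v hv _ _ _ (pow_nonneg hR _) fun k hk => ?_
    have hk0 : 0 < k := (Finset.mem_Ioo.1 hk).1
    have hkp : k < p := (Finset.mem_Ioo.1 hk).2
    rw [map_mul, map_mul, map_pow, map_pow]
    calc v x ^ (k - 1) * v y ^ (p - k - 1) * v ((p.choose k / p : ℕ) : E)
        ≤ R ^ (k - 1) * R ^ (p - k - 1) * 1 := by
          refine mul_le_mul (mul_le_mul (pow_le_pow_left₀ (v.nonneg _) hx _)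
            (pow_le_pow_left₀ (v.nonneg _) hy _) (pow_nonneg (v.nonneg _) _) (pow_nonneg hR _))
            (l2_nat v hv _) (v.nonneg _) (mul_nonneg (pow_nonneg hR _) (pow_nonneg hR _))
      _ = R ^ (p - 2) := by
          rw [mul_one, ← pow_add]
          congr 1
          omega
  rw [map_mul, map_mul]
  calc v x * v y * v (∑ k ∈ Finset.Ioo 0 p, x ^ (k - 1) * y ^ (p - k - 1) *
      ((p.choose k / p : ℕ) : E)) ≤ R * R * R ^ (p - 2) :=
        mul_le_mul (mul_le_mul hx hy (v.nonneg _) hR) h1 (v.nonneg _) (mul_nonneg hR hR)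
    _ = R ^ p := by
        have hp2 := hp.two_le
        rw [← sq, ← pow_add]
        congr 1
        omega

/-- Row L2. `(∑ a k) ^ p ≡ ∑ a k ^ p` modulo `p`, with absolute values.

Proof. Induction on the number of terms. Nonarchimedean absolute values satisfy `v n ≤ 1` for
natural numbers `n` (induction, `v (a + b) ≤ max (v a) (v b)`). For two terms:
`(a + b) ^ p - a ^ p - b ^ p = ∑ i ∈ range(1..p-1), (p.choose i) * a ^ i * b ^ (p - i)` and
`p ∣ p.choose i` (`Nat.Prime.dvd_choose_self`), so each term has absolute value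
`≤ v p * R ^ p`; for the induction step use
`(s + a) ^ p - ∑ - a ^ p = ((s + a) ^ p - s ^ p - a ^ p) + (s ^ p - ∑)` and
`v s ≤ R` for the current sum `s`. -/
theorem sum_pow_cong {E : Type} [Field E] (v : AbsoluteValue E ℝ) (hv : IsNonarchimedean v)
    {p : ℕ} (hp : p.Prime) {ι : Type} (s : Finset ι) (a : ι → E) (R : ℝ)
    (hR : 0 ≤ R) (ha : ∀ k ∈ s, v (a k) ≤ R) :
    v ((∑ k ∈ s, a k) ^ p - ∑ k ∈ s, a k ^ p) ≤ v p * R ^ p := by
  classical
  revert ha
  refine Finset.induction_on s ?_ ?_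
  · intro _
    rw [Finset.sum_empty, Finset.sum_empty, zero_pow hp.ne_zero, sub_zero, map_zero]
    exact mul_nonneg (v.nonneg _) (pow_nonneg hR p)
  · intro k t hk ih ha
    have ha' : ∀ j ∈ t, v (a j) ≤ R := fun j hj => ha j (Finset.mem_insert_of_mem hj)
    have h1 := ih ha'
    have h2 : v (∑ j ∈ t, a j) ≤ R := l2_sum v hv t a R hR ha'
    have h3 : v (a k) ≤ R := ha k (Finset.mem_insert_self k t)
    have h4 := l2_two v hv hp R hR h3 h2
    rw [Finset.sum_insert hk, Finset.sum_insert hk]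
    have h5 : (a k + ∑ j ∈ t, a j) ^ p - (a k ^ p + ∑ j ∈ t, a j ^ p) =
        ((a k + ∑ j ∈ t, a j) ^ p - a k ^ p - (∑ j ∈ t, a j) ^ p) +
          ((∑ j ∈ t, a j) ^ p - ∑ j ∈ t, a j ^ p) := by ring
    rw [h5]
    exact (hv _ _).trans (max_le h4 h1)

/-- Row L2. Apply `sum_pow_cong` with `a k = c k * x ^ k`, `R = (max 1 (v x)) ^ n`:
`v (x ^ k) ≤ (max 1 (v x)) ^ n` for `k ≤ n`. -/
theorem pow_cong {E : Type} [Field E] (v : AbsoluteValue E ℝ) (hv : IsNonarchimedean v)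
    {p : ℕ} (hp : p.Prime) (n : ℕ) (c : ℕ → E) (hc : ∀ k, v (c k) ≤ 1) (x : E) :
    v ((∑ k ∈ Finset.range (n + 1), c k * x ^ k) ^ p -
      ∑ k ∈ Finset.range (n + 1), c k ^ p * x ^ (p * k)) ≤ v p * (max 1 (v x)) ^ (p * n) := by
  have hM : (1 : ℝ) ≤ max 1 (v x) := le_max_left _ _
  have hM0 : (0 : ℝ) ≤ max 1 (v x) := zero_le_one.trans hM
  have h := sum_pow_cong v hv hp (Finset.range (n + 1)) (fun k => c k * x ^ k)
    ((max 1 (v x)) ^ n) (pow_nonneg hM0 n) (by
      intro k hk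
      have hkn : k ≤ n := Nat.lt_succ_iff.1 (Finset.mem_range.1 hk)
      calc v (c k * x ^ k) = v (c k) * v x ^ k := by rw [map_mul, map_pow]
        _ ≤ 1 * (max 1 (v x)) ^ k :=
            mul_le_mul (hc k) (pow_le_pow_left₀ (v.nonneg _) (le_max_right _ _) k)
              (pow_nonneg (v.nonneg _) k) zero_le_one
        _ ≤ (max 1 (v x)) ^ n := by
            rw [one_mul]
            exact pow_le_pow_right₀ hM hkn)
  have h2 : ∀ k, (c k * x ^ k) ^ p = c k ^ p * x ^ (p * k) := by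
    intro k
    rw [mul_pow, ← pow_mul, mul_comm k p]
  simp only [h2] at h
  rw [← pow_mul, mul_comm n p] at h
  exact h

end Pool.Agent.ZPB
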