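import Mathlib
import Pool.Agent.ZPB.L1
import Pool.Agent.ZPB.L2

set_option autoImplicit false

open Polynomial

namespace Pool.Agent.ZPB

theorem l4_sum {E ι : Type} [Field E] (v : AbsoluteValue E ℝ) (hv : IsNonarchimedean v)
    (s : Finset ι) (a : ι → E) {R : ℝ} (hR : 0 ≤ R) (h : ∀ k ∈ s, v (a k) ≤ R) :
    v (∑ k ∈ s, a k) ≤ R := by
  classical
  induction s using Finset.induction_on with
  | empty => simpa using hR
  | insert k s hk ih =>
    rw [Finset.sum_insert hk]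
    exact (hv _ _).trans (max_le (h k (Finset.mem_insert_self _ _))
      (ih (fun j hj => h j (Finset.mem_insert_of_mem hj))))

theorem l4_nat {E : Type} [Field E] (v : AbsoluteValue E ℝ) (hv : IsNonarchimedean v) (n : ℕ) :
    v (n : E) ≤ 1 := by
  induction n with
  | zero => simp
  | succ n ih =>
    push_cast
    exact (hv _ _).trans (max_le ih (by rw [map_one]))

theorem l4_sub {E : Type} [Field E] (v : AbsoluteValue E ℝ) (hv : IsNonarchimedean v) (a b : E)
    {R : ℝ} (ha : v a ≤ R) (hb : v b ≤ R) : v (a - b) ≤ R := by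
  rw [sub_eq_add_neg]
  refine (hv _ _).trans (max_le ha ?_)
  rwa [v.map_neg]

theorem l4_point {E : Type} [Field E] (v : AbsoluteValue E ℝ) (hv : IsNonarchimedean v)
    {p : ℕ} (hp : p.Prime) (n : ℕ) (d e : ℕ → E) (hd : ∀ k, v (d k) ≤ 1) (he : ∀ k, v (e k) ≤ 1)
    (hde : ∀ k, v (e k ^ p - d k ^ p) ≤ v p) {x y : E} (hxy : x ^ p = y ^ p) (hv' : v x = v y)
    (h0 : ∑ k ∈ Finset.range (n + 1), d k * y ^ k = 0) :
    v (∑ k ∈ Finset.range (n + 1), e k * x ^ k) ^ p ≤ v p * (max 1 (v y)) ^ (p * n) := by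
  have hM : 1 ≤ max 1 (v y) := le_max_left _ _
  have hB : 0 ≤ v (p : E) * (max 1 (v y)) ^ (p * n) := by positivity
  have h1 := pow_cong v hv hp n e he x
  have h2 := pow_cong v hv hp n d hd y
  rw [hv'] at h1
  rw [h0, zero_pow hp.ne_zero] at h2
  have h3 : v (∑ k ∈ Finset.range (n + 1), (e k ^ p - d k ^ p) * y ^ (p * k)) ≤
      v (p : E) * (max 1 (v y)) ^ (p * n) := by
    apply l4_sum v hv _ _ hB
    intro k hk
    rw [Finset.mem_range] at hk
    rw [map_mul, map_pow]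
    have h4 : v y ^ (p * k) ≤ (max 1 (v y)) ^ (p * n) :=
      (pow_le_pow_left₀ (v.nonneg y) (le_max_right _ _) _).trans
        (pow_le_pow_right₀ hM (Nat.mul_le_mul_left p (by omega)))
    exact mul_le_mul (hde k) h4 (pow_nonneg (v.nonneg y) _) (v.nonneg _)
  have h5 : (∑ k ∈ Finset.range (n + 1), e k * x ^ k) ^ p =
      ((∑ k ∈ Finset.range (n + 1), e k * x ^ k) ^ p -
        ∑ k ∈ Finset.range (n + 1), e k ^ p * x ^ (p * k)) +
      (∑ k ∈ Finset.range (n + 1), (e k ^ p - d k ^ p) * y ^ (p * k) -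
        (0 - ∑ k ∈ Finset.range (n + 1), d k ^ p * y ^ (p * k))) := by
    have h6 : ∑ k ∈ Finset.range (n + 1), (e k ^ p - d k ^ p) * y ^ (p * k) =
        ∑ k ∈ Finset.range (n + 1), e k ^ p * x ^ (p * k) -
          ∑ k ∈ Finset.range (n + 1), d k ^ p * y ^ (p * k) := by
      rw [← Finset.sum_sub_distrib]
      refine Finset.sum_congr rfl (fun k _ => ?_)
      rw [pow_mul x, hxy, ← pow_mul, sub_mul]
    rw [h6]
    ring
  rw [← map_pow, h5]
  exact (hv _ _).trans (max_le h1 (l4_sub v hv _ _ h3 h2))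

theorem l4_root {E : Type} [Field E] (v : AbsoluteValue E ℝ) {p : ℕ} (hp : p ≠ 0) {η : E}
    (h : η ^ p = 1) : v η = 1 := by
  have h1 := congrArg v h
  rw [map_pow, map_one] at h1
  exact (pow_eq_one_iff_of_nonneg (v.nonneg _) hp).1 h1

/-- Row L4. The local estimate in the ramified case.

Proof. Let `n = O.card`, `f = ∏ y ∈ O, (X - C y)`, `c k = f.coeff k`, `l` an index with
`v (c l) = ∏ y ∈ O, max 1 (v y)` maximal (Row L1), `lam = c l ≠ 0`, `d k = c k / lam`, `v (d k) ≤ 1` and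
`v (σ (d k) ^ p - d k ^ p) ≤ v p ≤ 1` by hypothesis; in particular `v (σ (d k)) ≤ 1`.
For `y ∈ O` and `η ^ p = 1` (so `v η = 1`) put `x = η⁻¹ * y`, `v x = v y`. By Row L2 (`pow_cong`)
`(∑ σ (d k) x ^ k) ^ p ≡ ∑ σ (d k) ^ p x ^ (p k) ≡ ∑ d k ^ p x ^ (p k) = ∑ d k ^ p y ^ (p k) ≡
(∑ d k y ^ k) ^ p = 0`, each congruence meaning that the difference has value
`≤ v p * (max 1 (v y)) ^ (p n)`. So
`v (∑ σ (d k) x ^ k) ^ p ≤ v p * (max 1 (v y)) ^ (p n)`.
The product over the `p` roots of unity `η = ω ^ i`, `i < p`: with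
`F x = ∑ σ (d k) x ^ k`, `A i = v (F (ω ^ (-i) y))`, all `A i ^ p ≤ B := v p * (max 1 (v y)) ^ (p n)`,
so `(∏ i, A i) ^ p ≤ B ^ p` and `∏ i, A i ≤ B`.
Finally `y ^ p - (σ z) ^ p = ∏ i < p, (y - ω ^ i * σ z)` (`IsPrimitiveRoot.pow_sub_pow_eq_prod_sub_mul`
or `_sub_zeta_mul`), so
`∏ z ∈ O, v (y ^ p - (σ z) ^ p) = ∏ i < p, ∏ z ∈ O, v (y - ω ^ i * σ z) =
∏ i, ∏ z, v (ω ^ (-i) y - σ z) = ∏ i, v ((f.map σ).eval (ω ^ (-i) y)) = ∏ i, v (σ lam) * A i
≤ v (σ lam) ^ p * B`, and `v (σ lam) ≤ ∏ z ∈ O, max 1 (v (σ z))` because `σ lam` is a coefficient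
of `∏ z ∈ O.image σ, (X - C z)` (Row L1). Multiply over `y ∈ O`. -/
theorem local_R {E : Type} [Field E] (v : AbsoluteValue E ℝ) (hv : IsNonarchimedean v)
    {p : ℕ} (hp : p.Prime) {ω : E} (hω : IsPrimitiveRoot ω p) (σ : E →+* E) (O : Finset E)
    (hσ : ∀ k l, (∏ y ∈ O, (X - C y)).coeff l ≠ 0 →
      v ((∏ y ∈ O, (X - C y)).coeff k) ≤ v ((∏ y ∈ O, (X - C y)).coeff l) →
      v (σ ((∏ y ∈ O, (X - C y)).coeff k / (∏ y ∈ O, (X - C y)).coeff l) ^ p -
        ((∏ y ∈ O, (X - C y)).coeff k / (∏ y ∈ O, (X - C y)).coeff l) ^ p) ≤ v p) :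
    ∏ y ∈ O, ∏ z ∈ O, v (y ^ p - (σ z) ^ p) ≤
      v p ^ O.card * ((∏ y ∈ O, max 1 (v y)) ^ (p * O.card) *
        (∏ z ∈ O, max 1 (v (σ z))) ^ (p * O.card)) := by
  classical
  set n := O.card with hn
  set f : E[X] := ∏ y ∈ O, (X - C y) with hf
  obtain ⟨hle, l, hl⟩ := gauss_split v hv O
  rw [← hf] at hle hl
  have hG : 1 ≤ ∏ y ∈ O, max 1 (v y) := by
    apply Finset.prod_induction _ (fun t : ℝ => 1 ≤ t) (fun a b ha hb => one_le_mul_of_one_le_of_one_le ha hb)
      le_rfl (fun y _ => le_max_left _ _)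
  have hG0 : 0 < ∏ y ∈ O, max 1 (v y) := by linarith
  have hcl : f.coeff l ≠ 0 := by
    intro h0
    rw [h0, map_zero] at hl
    linarith
  have hσ' : ∀ k, v (σ (f.coeff k / f.coeff l) ^ p - (f.coeff k / f.coeff l) ^ p) ≤ v (p : E) :=
    fun k => hσ k l hcl (by rw [hl]; exact hle k)
  have hd : ∀ k, v (f.coeff k / f.coeff l) ≤ 1 := by
    intro k
    rw [map_div₀, hl, div_le_one hG0]
    exact hle k
  have hvp : v (p : E) ≤ 1 := l4_nat v hv p
  have he : ∀ k, v (σ (f.coeff k / f.coeff l)) ≤ 1 := by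
    intro k
    have h1 : v (σ (f.coeff k / f.coeff l) ^ p) ≤ 1 := by
      have h2 : σ (f.coeff k / f.coeff l) ^ p =
          (σ (f.coeff k / f.coeff l) ^ p - (f.coeff k / f.coeff l) ^ p) +
            (f.coeff k / f.coeff l) ^ p := by ring
      rw [h2]
      refine (hv _ _).trans (max_le ((hσ' k).trans hvp) ?_)
      rw [map_pow]
      exact pow_le_one₀ (v.nonneg _) (hd k)
    rw [map_pow] at h1
    exact (pow_le_one_iff_of_nonneg (v.nonneg _) hp.ne_zero).1 h1
  have hdeg : f.natDegree < n + 1 := by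
    rw [hf, Polynomial.natDegree_finset_prod_X_sub_C_eq_card]
    omega
  have hdegσ : (f.map σ).natDegree < n + 1 := lt_of_le_of_lt (Polynomial.natDegree_map_le) hdeg
  have hfσ : f.map σ = ∏ z ∈ O, (X - C (σ z)) := by
    rw [hf, Polynomial.map_prod]
    refine Finset.prod_congr rfl (fun z _ => ?_)
    rw [Polynomial.map_sub, Polynomial.map_X, Polynomial.map_C]
  have hσl : σ (f.coeff l) ≠ 0 := (map_ne_zero σ).2 hcl
  -- the bound for the coefficient
  have hH : v (σ (f.coeff l)) ≤ ∏ z ∈ O, max 1 (v (σ z)) := by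
    have h1 := (gauss_split v hv (O.image σ)).1 l
    rw [Finset.prod_image (fun a _ b _ hab => σ.injective hab),
      Finset.prod_image (fun a _ b _ hab => σ.injective hab), ← hfσ, Polynomial.coeff_map] at h1
    exact h1
  have hH0 : 0 ≤ ∏ z ∈ O, max 1 (v (σ z)) := (v.nonneg _).trans hH
  have hF : ∀ x : E, v ((f.map σ).eval x) =
      v (σ (f.coeff l)) * v (∑ k ∈ Finset.range (n + 1), σ (f.coeff k / f.coeff l) * x ^ k) := by
    intro x
    rw [← map_mul, Polynomial.eval_eq_sum_range' hdegσ, Finset.mul_sum]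
    congr 1
    refine Finset.sum_congr rfl (fun k _ => ?_)
    rw [Polynomial.coeff_map, map_div₀]
    field_simp
  have hpt : ∀ y ∈ O, ∀ η ∈ nthRootsFinset p (1 : E),
      v (∑ k ∈ Finset.range (n + 1), σ (f.coeff k / f.coeff l) * (η⁻¹ * y) ^ k) ^ p ≤
        v (p : E) * (max 1 (v y)) ^ (p * n) := by
    intro y hy η hη
    rw [mem_nthRootsFinset hp.pos] at hη
    have hvη := l4_root v hp.ne_zero hη
    have hη0 : η ≠ 0 := by
      intro h0
      rw [h0, zero_pow hp.ne_zero] at hη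
      exact zero_ne_one hη
    apply l4_point v hv hp n _ _ hd he hσ'
    · rw [mul_pow, inv_pow, hη, inv_one, one_mul]
    · rw [map_mul, map_inv₀, hvη, inv_one, one_mul]
    · have h1 : f.eval y = 0 := by
        rw [hf, Polynomial.eval_prod]
        exact Finset.prod_eq_zero hy (by simp)
      rw [Polynomial.eval_eq_sum_range' hdeg] at h1
      calc ∑ k ∈ Finset.range (n + 1), f.coeff k / f.coeff l * y ^ k
          = (f.coeff l)⁻¹ * ∑ k ∈ Finset.range (n + 1), f.coeff k * y ^ k := by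
            rw [Finset.mul_sum]
            refine Finset.sum_congr rfl (fun k _ => ?_)
            field_simp
        _ = 0 := by rw [h1, mul_zero]
  have hcard : (nthRootsFinset p (1 : E)).card = p := hω.card_nthRootsFinset
  have hy : ∀ y ∈ O, ∏ z ∈ O, v (y ^ p - (σ z) ^ p) ≤
      (∏ z ∈ O, max 1 (v (σ z))) ^ p * (v (p : E) * (max 1 (v y)) ^ (p * n)) := by
    intro y hy
    have hB : 0 ≤ v (p : E) * (max 1 (v y)) ^ (p * n) := by positivity
    have h1 : ∏ z ∈ O, v (y ^ p - (σ z) ^ p) =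
        ∏ η ∈ nthRootsFinset p (1 : E), v ((f.map σ).eval (η⁻¹ * y)) := by
      have h2 : ∀ z ∈ O, v (y ^ p - (σ z) ^ p) =
          ∏ η ∈ nthRootsFinset p (1 : E), v (η⁻¹ * y - σ z) := by
        intro z _
        rw [hω.pow_sub_pow_eq_prod_sub_mul y (σ z) hp.pos, map_prod]
        refine Finset.prod_congr rfl (fun η hη => ?_)
        rw [mem_nthRootsFinset hp.pos] at hη
        have hvη := l4_root v hp.ne_zero hη
        have hη0 : η ≠ 0 := by
          intro h0
          rw [h0, zero_pow hp.ne_zero] at hη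
          exact zero_ne_one hη
        have h3 : y - η * σ z = η * (η⁻¹ * y - σ z) := by
          field_simp
        rw [h3, map_mul, hvη, one_mul]
      rw [Finset.prod_congr rfl h2, Finset.prod_comm]
      refine Finset.prod_congr rfl (fun η _ => ?_)
      rw [hfσ, Polynomial.eval_prod, map_prod]
      refine Finset.prod_congr rfl (fun z _ => ?_)
      rw [Polynomial.eval_sub, Polynomial.eval_X, Polynomial.eval_C]
    rw [h1, Finset.prod_congr rfl (fun η _ => hF (η⁻¹ * y)), Finset.prod_mul_distrib,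
      Finset.prod_const, hcard]
    have h4 : ∏ η ∈ nthRootsFinset p (1 : E),
        v (∑ k ∈ Finset.range (n + 1), σ (f.coeff k / f.coeff l) * (η⁻¹ * y) ^ k) ≤
        v (p : E) * (max 1 (v y)) ^ (p * n) := by
      apply le_of_pow_le_pow_left₀ hp.ne_zero hB
      rw [← Finset.prod_pow]
      refine (Finset.prod_le_prod (fun η _ => pow_nonneg (v.nonneg _) _) (hpt y hy)).trans
        (le_of_eq ?_)
      rw [Finset.prod_const, hcard]
    exact mul_le_mul (pow_le_pow_left₀ (v.nonneg _) hH p) h4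
      (Finset.prod_nonneg fun η _ => v.nonneg _) (pow_nonneg hH0 p)
  refine (Finset.prod_le_prod (fun y _ => Finset.prod_nonneg fun z _ => v.nonneg _) hy).trans
    (le_of_eq ?_)
  rw [Finset.prod_mul_distrib, Finset.prod_mul_distrib, Finset.prod_const, Finset.prod_const,
    Finset.prod_pow, ← hn, ← pow_mul]
  ring

end Pool.Agent.ZPB
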