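import Mathlib
import Pool.Agent.ZPB.Defs
import Pool.Agent.ZPB.K1
import Pool.Agent.ZPB.L4

set_option autoImplicit false

open Polynomial

namespace Pool.Agent.ZPB

variable {E : Type} [Field E] [NumberField E]

/-- Row C1a. The coefficients of `∏ y ∈ orb H β, (X - C y)` are fixed by `H`: `g ∈ H` permutes
`orb H β` (`Polynomial.map_prod`, `coeff_map`, `Finset.prod_bij` or `orb_image`). -/
theorem coeff_fixed {H : Subgroup (E ≃ₐ[ℚ] E)} (β : E) (k : ℕ) {g : E ≃ₐ[ℚ] E} (hg : g ∈ H) :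
    g ((∏ y ∈ orb H β, (X - C y)).coeff k) = (∏ y ∈ orb H β, (X - C y)).coeff k := by
  classical
  have hgn : ∀ h ∈ H, g * h * g⁻¹ ∈ H := fun h hh => H.mul_mem (H.mul_mem hg hh) (H.inv_mem hg)
  have h1 : (orb H β).image g = orb H β := by
    rw [← orb_image hgn β]
    exact orb_eq (mem_orb.2 ⟨g, hg, rfl⟩)
  have h2 : (∏ y ∈ orb H β, (X - C y)).map (g : E →+* E) = ∏ y ∈ orb H β, (X - C y) := by
    rw [Polynomial.map_prod]
    have h3 : ∏ z ∈ (orb H β).image g, (X - C z) = ∏ y ∈ orb H β, (X - C (g y)) :=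
      Finset.prod_image fun a _ b _ hab => g.injective hab
    rw [h1] at h3
    rw [h3]
    refine Finset.prod_congr rfl fun y _ => ?_
    rw [Polynomial.map_sub, Polynomial.map_X, Polynomial.map_C]
    rfl
  have h4 := congrArg (fun f => f.coeff k) h2
  simp only [Polynomial.coeff_map] at h4
  exact h4

theorem c1a_orb_pow {H : Subgroup (E ≃ₐ[ℚ] E)} {g : E ≃ₐ[ℚ] E}
    (hg : ∀ h ∈ H, g * h * g⁻¹ ∈ H) [DecidableEq E] (β : E) (p : ℕ) :
    orb H (g (β ^ p)) = (orb H β).image (fun x => g (x ^ p)) := by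
  rw [orb_image hg]
  have h1 : orb H (β ^ p) = (orb H β).image (fun x => x ^ p) := by
    ext y
    rw [Finset.mem_image, mem_orb]
    constructor
    · rintro ⟨h, hh, rfl⟩
      exact ⟨h β, mem_orb.2 ⟨h, hh, rfl⟩, (map_pow h β p).symm⟩
    · rintro ⟨x, hx, rfl⟩
      obtain ⟨h, hh, rfl⟩ := mem_orb.1 hx
      exact ⟨h, hh, map_pow h β p⟩
  rw [h1, Finset.image_image]
  rfl

theorem c1a_log_max {ι : Type} (S : Finset ι) (f : ι → ℝ) (hf : ∀ i ∈ S, 0 ≤ f i) :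
    Real.log (∏ i ∈ S, max 1 (f i)) = ∑ i ∈ S, Real.posLog (f i) := by
  rw [Real.log_prod fun _ _ => (lt_of_lt_of_le one_pos (le_max_left _ _)).ne']
  exact Finset.sum_congr rfl fun i hi => (Real.posLog_eq_log_max_one (hf i hi)).symm

theorem c1a_prod_pos {ι : Type} (S : Finset ι) (f : ι → ℝ) : 0 < ∏ i ∈ S, max 1 (f i) :=
  Finset.prod_pos fun i _ => lt_of_lt_of_le one_pos (le_max_left _ _)

/-- from the multiplicative form to the additive form -/
theorem c1a_log {ι : Type} (S : Finset ι) (f : ι → ι → ℝ) (hf : ∀ i ∈ S, ∀ j ∈ S, 0 < f i j)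
    (a b : ι → ℝ) (ha : ∀ i ∈ S, 0 ≤ a i) (hb : ∀ i ∈ S, 0 ≤ b i) {c : ℝ} (hc : 0 < c) (q r : ℕ)
    (h : ∏ i ∈ S, ∏ j ∈ S, f i j ≤ c ^ S.card * ((∏ i ∈ S, max 1 (a i)) ^ (q * S.card) *
      (∏ j ∈ S, max 1 (b j)) ^ (r * S.card))) :
    ∑ i ∈ S, ∑ j ∈ S, Real.log (f i j) ≤ S.card * Real.log c +
      ∑ i ∈ S, ∑ j ∈ S, (q * Real.posLog (a i) + r * Real.posLog (b j)) := by
  have h1 : ∑ i ∈ S, ∑ j ∈ S, Real.log (f i j) = Real.log (∏ i ∈ S, ∏ j ∈ S, f i j) := by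
    rw [Real.log_prod fun i hi => (Finset.prod_pos (hf i hi)).ne']
    refine Finset.sum_congr rfl fun i hi => ?_
    rw [Real.log_prod fun j hj => (hf i hi j hj).ne']
  have hpos : 0 < ∏ i ∈ S, ∏ j ∈ S, f i j := Finset.prod_pos fun i hi => Finset.prod_pos (hf i hi)
  have hA := c1a_prod_pos S a
  have hB := c1a_prod_pos S b
  rw [h1]
  refine (Real.log_le_log hpos h).trans (le_of_eq ?_)
  rw [Real.log_mul (by positivity) (by positivity), Real.log_mul (by positivity) (by positivity),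
    Real.log_pow, Real.log_pow, Real.log_pow, c1a_log_max S a ha, c1a_log_max S b hb]
  simp only [Finset.sum_add_distrib, Finset.sum_const, nsmul_eq_mul, ← Finset.mul_sum]
  push_cast
  ring

/-- Row C1a. The local estimate for two blocks, ramified case.

Proof. Let `D = (orb H β).card`, `O = orb H (g1 β)` (`D` elements, `orb_card_image`),
`σ = g2 * g1⁻¹ ∈ H'`. The blocks are `orb H (g1 (β ^ p)) = O.image (· ^ p)` and
`orb H (g2 (β ^ p)) = O.image (fun z => (σ z) ^ p)`, and these maps are injective on `O` (from `hinj`,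
applying `g1⁻¹` resp. `g2⁻¹`: `x, y ∈ orb H (g β)` means `g⁻¹ x, g⁻¹ y ∈ orb H β` by
`orb_image`). Row L4 (`local_R`) with `σ` as a ring homomorphism and `O`: the coefficients of
`∏ y ∈ O, (X - C y)` are fixed by `H` (`coeff_fixed`), so `hloc` gives the hypothesis of `local_R`. Take
logarithms in its conclusion: the left side is the product over the two blocks of
`v (y - z) > 0` (`y ≠ z` by `hdis`), `v p > 0` as `p ≠ 0` in `E`,
`log (∏ y ∈ O, max 1 (v y)) = ∑ y ∈ O, posLog (v y)`, and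
`posLog (v (y ^ p)) = p * posLog (v y)` (`Real.posLog_pow` or `max 1 (a ^ p) = (max 1 a) ^ p`). -/
theorem block_R (v : AbsoluteValue E ℝ) (hv : IsNonarchimedean v) {p : ℕ} (hp : p.Prime) {ω : E}
    (hω : IsPrimitiveRoot ω p) {H H' : Subgroup (E ≃ₐ[ℚ] E)}
    (hn : ∀ g ∈ H', ∀ h ∈ H, g * h * g⁻¹ ∈ H) {β : E}
    (hinj : ∀ x ∈ orb H β, ∀ y ∈ orb H β, x ^ p = y ^ p → x = y)
    (hloc : ∀ σ ∈ H', ∀ x, (∀ g ∈ H, g x = x) → v x ≤ 1 → v ((σ x) ^ p - x ^ p) ≤ v p)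
    {g1 g2 : E ≃ₐ[ℚ] E} (hg1 : g1 ∈ H') (hg2 : g2 ∈ H')
    (hdis : ∀ y ∈ orb H (g1 (β ^ p)), y ∉ orb H (g2 (β ^ p))) :
    ∑ y ∈ orb H (g1 (β ^ p)), ∑ z ∈ orb H (g2 (β ^ p)), Real.log (v (y - z)) ≤
      (orb H β).card * Real.log (v p) +
        ∑ y ∈ orb H (g1 (β ^ p)), ∑ z ∈ orb H (g2 (β ^ p)),
          (Real.posLog (v y) + Real.posLog (v z)) := by
  classical
  set S := orb H β with hS
  set σ : E ≃ₐ[ℚ] E := g2 * g1⁻¹ with hσdef
  have hσH : σ ∈ H' := H'.mul_mem hg2 (H'.inv_mem hg1)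
  have hσg : ∀ x, σ (g1 x) = g2 x := fun x => by
    show g2 (g1⁻¹ (g1 x)) = g2 x
    exact congrArg g2 (g1.symm_apply_apply x)
  have hO : orb H (g1 β) = S.image g1 := orb_image (hn g1 hg1) β
  have hOcard : (orb H (g1 β)).card = S.card := orb_card_image (hn g1 hg1) β
  have hb1 : orb H (g1 (β ^ p)) = S.image (fun x => g1 (x ^ p)) := c1a_orb_pow (hn g1 hg1) β p
  have hb2 : orb H (g2 (β ^ p)) = S.image (fun x => g2 (x ^ p)) := c1a_orb_pow (hn g2 hg2) β p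
  have hi1 : ∀ x ∈ S, ∀ y ∈ S, g1 (x ^ p) = g1 (y ^ p) → x = y := fun x hx y hy h =>
    hinj x hx y hy (g1.injective h)
  have hi2 : ∀ x ∈ S, ∀ y ∈ S, g2 (x ^ p) = g2 (y ^ p) → x = y := fun x hx y hy h =>
    hinj x hx y hy (g2.injective h)
  have hloc' := local_R v hv hp hω (σ : E →+* E) (orb H (g1 β)) (by
    intro k l hl hkl
    have hfix : ∀ g ∈ H, g ((∏ y ∈ orb H (g1 β), (X - C y)).coeff k /
        (∏ y ∈ orb H (g1 β), (X - C y)).coeff l) =
        (∏ y ∈ orb H (g1 β), (X - C y)).coeff k / (∏ y ∈ orb H (g1 β), (X - C y)).coeff l := by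
      intro g hg
      rw [map_div₀, coeff_fixed _ k hg, coeff_fixed _ l hg]
    refine hloc σ hσH _ hfix ?_
    rw [map_div₀]
    exact div_le_one_of_le₀ hkl (v.nonneg _))
  rw [hOcard] at hloc'
  rw [hO] at hloc'
  rw [Finset.prod_image (fun a _ b _ hab => g1.injective hab),
    Finset.prod_image (fun a _ b _ hab => g1.injective hab),
    Finset.prod_image (fun a _ b _ hab => g1.injective hab)] at hloc'
  have hloc2 : ∏ x ∈ S, ∏ w ∈ S, v (g1 (x ^ p) - g2 (w ^ p)) ≤ v p ^ S.card *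
      ((∏ x ∈ S, max 1 (v (g1 x))) ^ (p * S.card) *
        (∏ x ∈ S, max 1 (v (g2 x))) ^ (p * S.card)) := by
    have e1 : ∀ x ∈ S, ∏ z ∈ S.image g1, v (g1 x ^ p - ((σ : E →+* E) z) ^ p) =
        ∏ w ∈ S, v (g1 (x ^ p) - g2 (w ^ p)) := by
      intro x _
      rw [Finset.prod_image (fun a _ b _ hab => g1.injective hab)]
      refine Finset.prod_congr rfl fun w _ => ?_
      rw [map_pow, map_pow, ← hσg w]
      rfl
    have e2 : ∀ x, (σ : E →+* E) (g1 x) = g2 x := hσg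
    rw [Finset.prod_congr rfl e1] at hloc'
    simp only [e2] at hloc'
    exact hloc'
  have hp0 : (p : E) ≠ 0 := Nat.cast_ne_zero.2 hp.ne_zero
  have hfin := c1a_log S (fun x w => v (g1 (x ^ p) - g2 (w ^ p))) (by
    intro x hx w hw
    refine v.pos (sub_ne_zero.2 fun h => ?_)
    refine hdis (g1 (x ^ p)) ?_ ?_
    · rw [hb1]; exact Finset.mem_image_of_mem _ hx
    · rw [hb2, h]; exact Finset.mem_image_of_mem (fun x => g2 (x ^ p)) hw)
    (fun x => v (g1 x)) (fun x => v (g2 x)) (fun _ _ => v.nonneg _) (fun _ _ => v.nonneg _)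
    (v.pos hp0) p p hloc2
  rw [hb1, hb2, Finset.sum_image hi1, Finset.sum_image hi1]
  have e3 : ∀ x ∈ S, ∑ z ∈ S.image (fun x => g2 (x ^ p)), Real.log (v (g1 (x ^ p) - z)) =
      ∑ w ∈ S, Real.log (v (g1 (x ^ p) - g2 (w ^ p))) := fun x _ => Finset.sum_image hi2
  have e4 : ∀ x ∈ S, ∑ z ∈ S.image (fun x => g2 (x ^ p)),
      (Real.posLog (v (g1 (x ^ p))) + Real.posLog (v z)) =
      ∑ w ∈ S, (p * Real.posLog (v (g1 x)) + p * Real.posLog (v (g2 w))) := by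
    intro x _
    rw [Finset.sum_image hi2]
    refine Finset.sum_congr rfl fun w _ => ?_
    rw [map_pow, map_pow, map_pow, map_pow, Real.posLog_pow, Real.posLog_pow]
  rw [Finset.sum_congr rfl e3, Finset.sum_congr rfl e4]
  exact hfin

end Pool.Agent.ZPB
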