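import Mathlib
import Pool.Agent.ZPB.Defs

set_option autoImplicit false

namespace Pool.Agent.ZPB

variable {E : Type} [Field E]

theorem h_nonneg (P : PL E) (x : E) : 0 ≤ P.h x := by
  unfold PL.h
  exact add_nonneg
    (Finset.sum_nonneg fun i _ => mul_nonneg (P.wA0 i) Real.posLog_nonneg)
    (Finset.sum_nonneg fun j _ => mul_nonneg (P.wB0 j) Real.posLog_nonneg)

theorem h0_posLog_pow {a : ℝ} (ha : 0 ≤ a) (n : ℕ) : Real.posLog (a ^ n) = n * Real.posLog a := by
  rcases le_total a 1 with h | h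
  · have h1 : a ^ n ≤ 1 := pow_le_one₀ ha h
    rw [Real.posLog_eq_zero_iff _ |>.2 (by rw [abs_of_nonneg (pow_nonneg ha n)]; exact h1),
      Real.posLog_eq_zero_iff _ |>.2 (by rw [abs_of_nonneg ha]; exact h), mul_zero]
  · rw [Real.posLog_eq_log (by rw [abs_of_nonneg (pow_nonneg ha n)]; exact one_le_pow₀ h),
      Real.posLog_eq_log (by rw [abs_of_nonneg ha]; exact h), Real.log_pow]

/-- `posLog (a ^ n) = n * posLog a` for `0 ≤ a`. -/
theorem h_pow (P : PL E) (x : E) (n : ℕ) : P.h (x ^ n) = n * P.h x := by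
  unfold PL.h
  rw [mul_add, Finset.mul_sum, Finset.mul_sum]
  congr 1
  · refine Finset.sum_congr rfl fun i _ => ?_
    rw [map_pow, norm_pow, h0_posLog_pow (norm_nonneg _)]
    ring
  · refine Finset.sum_congr rfl fun j _ => ?_
    rw [map_pow, h0_posLog_pow ((P.v j).nonneg x)]
    ring

/-- A root of unity has absolute value one at all places. -/
theorem h_twist (P : PL E) {ξ : E} {n : ℕ} (hn : 0 < n) (hξ : ξ ^ n = 1) (x : E) :
    P.h (ξ * x) = P.h x := by
  unfold PL.h
  congr 1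
  · refine Finset.sum_congr rfl fun i _ => ?_
    have h1 : ‖P.em i ξ‖ = 1 := by
      have h2 : ‖P.em i ξ‖ ^ n = 1 := by rw [← norm_pow, ← map_pow, hξ, map_one, norm_one]
      exact (pow_eq_one_iff_of_nonneg (norm_nonneg _) hn.ne').1 h2
    rw [map_mul, norm_mul, h1, one_mul]
  · refine Finset.sum_congr rfl fun j _ => ?_
    have h1 : P.v j ξ = 1 := by
      have h2 : (P.v j ξ) ^ n = 1 := by rw [← map_pow, hξ, map_one]
      exact (pow_eq_one_iff_of_nonneg ((P.v j).nonneg ξ) hn.ne').1 h2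
    rw [map_mul, h1, one_mul]

/-- Row H0. `P.pos` for `(p : E)⁻¹`: `‖em i p‖ = p`, the weights `wA` have sum one. -/
theorem h_prime [CharZero E] (P : PL E) {p : ℕ} (hp : 0 < p) (hpO : ((p : E))⁻¹ ∈ P.O) :
    ∑ j, P.wB j * Real.log (P.v j p) ≤ - Real.log p := by
  have hp0 : (p : E) ≠ 0 := Nat.cast_ne_zero.2 hp.ne'
  have h := P.pos _ hpO (inv_ne_zero hp0)
  have h1 : ∑ i, P.wA i * Real.log ‖P.em i (p : E)⁻¹‖ = - Real.log p := by
    have h2 : ∀ i ∈ (Finset.univ : Finset P.A),
        P.wA i * Real.log ‖P.em i (p : E)⁻¹‖ = P.wA i * (- Real.log p) := by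
      intro i _
      rw [map_inv₀, map_natCast, norm_inv, Complex.norm_natCast, Real.log_inv]
    rw [Finset.sum_congr rfl h2, ← Finset.sum_mul, P.wA1, one_mul]
  have h3 : ∑ j, P.wB j * Real.log (P.v j (p : E)⁻¹) = - ∑ j, P.wB j * Real.log (P.v j (p : E)) := by
    rw [← Finset.sum_neg_distrib]
    refine Finset.sum_congr rfl fun j _ => ?_
    rw [map_inv₀, Real.log_inv]
    ring
  rw [h1, h3] at h
  linarith

/-- Row H0. `P.pos` for the positive integer `N`, which lies in every subring. -/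
theorem h_nat [CharZero E] (P : PL E) {N : ℕ} (hN : 0 < N) :
    - Real.log N ≤ ∑ j, P.wB j * Real.log (P.v j N) := by
  have hN0 : (N : E) ≠ 0 := Nat.cast_ne_zero.2 hN.ne'
  have h := P.pos _ (natCast_mem P.O N) hN0
  have h1 : ∑ i, P.wA i * Real.log ‖P.em i (N : E)‖ = Real.log N := by
    have h2 : ∀ i ∈ (Finset.univ : Finset P.A),
        P.wA i * Real.log ‖P.em i (N : E)‖ = P.wA i * (Real.log N) := by
      intro i _
      rw [map_natCast, Complex.norm_natCast]
    rw [Finset.sum_congr rfl h2, ← Finset.sum_mul, P.wA1, one_mul]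
  rw [h1] at h
  linarith

/-- Nonarchimedean absolute values are at most one on natural numbers. -/
theorem v_nat_le {E : Type} [Field E] {v : AbsoluteValue E ℝ} (hv : IsNonarchimedean v) (n : ℕ) :
    v n ≤ 1 := by
  induction n with
  | zero => simp
  | succ n ih =>
    push_cast
    refine (hv (n : E) 1).trans (max_le ih ?_)
    rw [map_one]

end Pool.Agent.ZPB
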