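import Mathlib
import Pool.Agent.ZPB.Defs
import Pool.Agent.ZPB.K1
import Pool.Agent.ZPB.A6
import Pool.Agent.ZPB.A7
import Pool.Agent.ZPB.C1a
import Pool.Agent.ZPB.H0

set_option autoImplicit false

open Polynomial

namespace Pool.Agent.ZPB

variable {E : Type} [Field E] [NumberField E]

theorem c1b_mem_self (H : Subgroup (E ≃ₐ[ℚ] E)) (x : E) : x ∈ orb H x :=
  mem_orb.2 ⟨1, H.one_mem, rfl⟩

theorem c1b_orb_pow [DecidableEq E] (H : Subgroup (E ≃ₐ[ℚ] E)) (x : E) (p : ℕ) :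
    orb H (x ^ p) = (orb H x).image (fun y => y ^ p) := by
  ext y
  rw [mem_orb, Finset.mem_image]
  constructor
  · rintro ⟨g, hg, rfl⟩
    exact ⟨g x, mem_orb.2 ⟨g, hg, rfl⟩, (map_pow g x p).symm⟩
  · rintro ⟨z, hz, rfl⟩
    obtain ⟨g, hg, rfl⟩ := mem_orb.1 hz
    exact ⟨g, hg, map_pow g x p⟩

/-- The sum over the pairs in different blocks. -/
theorem c1b_sum [DecidableEq E] {H H' : Subgroup (E ≃ₐ[ℚ] E)} (hHH' : H ≤ H') (x : E) (f : E × E → ℝ) :
    ∑ q ∈ (orb H' x).offDiag with orb H q.1 ≠ orb H q.2, f q =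
      ∑ c ∈ ((orb H' x).image (orb H)).offDiag, ∑ y ∈ c.1, ∑ z ∈ c.2, f (y, z) := by
  have h1 : ∀ q ∈ (orb H' x).offDiag.filter (fun q => orb H q.1 ≠ orb H q.2),
      (orb H q.1, orb H q.2) ∈ ((orb H' x).image (orb H)).offDiag := by
    intro q hq
    rw [Finset.mem_filter, Finset.mem_offDiag] at hq
    rw [Finset.mem_offDiag]
    exact ⟨Finset.mem_image_of_mem _ hq.1.1, Finset.mem_image_of_mem _ hq.1.2.1, hq.2⟩
  rw [← Finset.sum_fiberwise_of_maps_to h1]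
  refine Finset.sum_congr rfl (fun c hc => ?_)
  rw [← Finset.sum_product' c.1 c.2 (fun y z => f (y, z))]
  refine Finset.sum_congr ?_ (fun q _ => rfl)
  rw [Finset.mem_offDiag, Finset.mem_image, Finset.mem_image] at hc
  obtain ⟨⟨y1, hy1, e1⟩, ⟨y2, hy2, e2⟩, hne⟩ := hc
  ext q
  rw [Finset.mem_filter, Finset.mem_filter, Finset.mem_offDiag, Finset.mem_product]
  constructor
  · rintro ⟨-, hq⟩
    rw [← hq]
    exact ⟨c1b_mem_self H q.1, c1b_mem_self H q.2⟩
  · rintro ⟨hq1, hq2⟩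
    have o1 : orb H q.1 = c.1 := by
      rw [← e1] at hq1 ⊢
      exact orb_eq hq1
    have o2 : orb H q.2 = c.2 := by
      rw [← e2] at hq2 ⊢
      exact orb_eq hq2
    have m1 : q.1 ∈ orb H' x := by
      rw [← orb_eq hy1]
      rw [← e1] at hq1
      exact orb_mono hHH' y1 hq1
    have m2 : q.2 ∈ orb H' x := by
      rw [← orb_eq hy2]
      rw [← e2] at hq2
      exact orb_mono hHH' y2 hq2
    have hne' : orb H q.1 ≠ orb H q.2 := by
      rw [o1, o2]
      exact hne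
    refine ⟨⟨⟨m1, m2, fun h => hne' (by rw [h])⟩, hne'⟩, ?_⟩
    rw [o1, o2]

/-- Row C1b. The inequality in the ramified case.

Proof. `Y = orb H' (β ^ p)`, `m = 1`, `M = e * D = Y.card > 0`. Elements of `Y` are
`g (β ^ p) = (g β) ^ p ∈ P.O`. Let `I = Y.image (orb H)` be the set of blocks; `(orb H (β ^ p)).card = D`
(image of `orb H β` under the injective map `x ↦ x ^ p`), so `orb_blocks` gives `I.card = e`. For
two different blocks, `a = orb H (g1 (β ^ p))`, `b = orb H (g2 (β ^ p))`, disjoint (`orb_eq`),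
`block_R` applies for all `j` with `v j p < 1`; if `P.v j p = 1` the same inequality holds trivially, with
`log (v j p) = 0` (`nonarch_pair` for each pair); `P.v j p ≤ 1` always (nonarchimedean, natural number).
With `T` = the set of pairs of `Y` in different blocks (the disjoint union of `a ×ˢ b` over
`(a, b) ∈ I.offDiag`) `nonarch_sum` gives the hypothesis of `core` with
`γ j = e * (e - 1) * D * log (P.v j p)` (`I.offDiag.card = e * e - e`). `core` gives
`0 ≤ M log M + 2 M + 2 (M - 1) ∑ y ∈ Y, P.h y + e (e - 1) D ∑ j, wB j * log (v j p)`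
(the term with `m y * (m y - 1)` vanishes). `∑ y ∈ Y, P.h y = M * (p * P.h β)`: each `y` is
`(g β) ^ p` (`hinv`, `h_pow` in `H0.lean`). `∑ j, wB j * log (v j p) ≤ - log p`: `h_prime` in
`H0.lean`. Use `M - 1 ≤ M` and `0 ≤ P.h β` (`h_nonneg`). -/
theorem core_R (P : PL E) {p : ℕ} (hp : p.Prime) (hpO : ((p : E))⁻¹ ∈ P.O)
    {H H' : Subgroup (E ≃ₐ[ℚ] E)} (hHH' : H ≤ H') (hn : ∀ g ∈ H', ∀ h ∈ H, g * h * g⁻¹ ∈ H)
    {ω : E} (hω : IsPrimitiveRoot ω p) {β : E} (hβ : β ≠ 0)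
    (hO : ∀ g : E ≃ₐ[ℚ] E, g β ∈ P.O) (hinv : ∀ (g : E ≃ₐ[ℚ] E) (x : E), P.h (g x) = P.h x)
    (hinj : ∀ x ∈ orb H β, ∀ y ∈ orb H β, x ^ p = y ^ p → x = y)
    (hloc : ∀ j, P.v j p < 1 → ∀ σ ∈ H', ∀ x, (∀ g ∈ H, g x = x) → P.v j x ≤ 1 →
      P.v j ((σ x) ^ p - x ^ p) ≤ P.v j p)
    (D e : ℕ) (hD : D = (orb H β).card) (he : (orb H' (β ^ p)).card = e * D) :
    (e : ℝ) * ((e : ℝ) - 1) * D * Real.log p ≤
      (e * D : ℝ) * Real.log (e * D : ℝ) + 2 * (e * D : ℝ) +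
        2 * (e * D : ℝ) * ((e * D : ℝ) * (p * P.h β)) := by
  classical
  have hDp : 0 < D := by rw [hD]; exact orb_card_pos _ _
  have hblk : (orb H (β ^ p)).card = D := by
    rw [c1b_orb_pow, Finset.card_image_of_injOn, hD]
    intro x hx y hy hxy
    exact hinj x hx y hy hxy
  set Y := orb H' (β ^ p) with hY
  set I := Y.image (orb H) with hI
  have hIcard : I.card = e := by
    have h1 := orb_blocks hHH' hn (β ^ p)
    rw [← hY, ← hI, he, hblk] at h1
    exact (Nat.eq_of_mul_eq_mul_right hDp h1).symm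
  have hYp : 0 < e * D := by
    rw [← he]
    exact orb_card_pos _ _
  have hYO : ∀ y ∈ Y, y ∈ P.O := by
    intro y hy
    obtain ⟨g, -, rfl⟩ := mem_orb.1 hy
    rw [map_pow]
    exact pow_mem (hO g) p
  have hM : e * D = ∑ y ∈ Y, (fun _ : E => 1) y := by
    rw [Finset.sum_const, smul_eq_mul, mul_one, he]
  have hblock : ∀ j, ∀ c ∈ I.offDiag,
      ∑ y ∈ c.1, ∑ z ∈ c.2, Real.log (P.v j (y - z)) ≤ D * Real.log (P.v j p) +
        ∑ y ∈ c.1, ∑ z ∈ c.2, (Real.posLog (P.v j y) + Real.posLog (P.v j z)) := by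
    intro j c hc
    rw [Finset.mem_offDiag, hI, Finset.mem_image, Finset.mem_image] at hc
    obtain ⟨⟨y1, hy1, e1⟩, ⟨y2, hy2, e2⟩, hne⟩ := hc
    have hdis : ∀ y ∈ c.1, y ∉ c.2 := by
      intro y h1 h2
      apply hne
      rw [← e1] at h1 ⊢
      rw [← e2] at h2 ⊢
      rw [← orb_eq h1, ← orb_eq h2]
    obtain ⟨g1, hg1, rfl⟩ := mem_orb.1 hy1
    obtain ⟨g2, hg2, rfl⟩ := mem_orb.1 hy2
    by_cases hv : P.v j p < 1
    · rw [← e1, ← e2] at hdis ⊢
      rw [hD]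
      exact block_R (P.v j) (P.na j) hp hω hn hinj (hloc j hv) hg1 hg2 hdis
    · have h1 : P.v j p = 1 := le_antisymm (v_nat_le (P.na j) p) (not_lt.1 hv)
      rw [h1, Real.log_one, mul_zero, zero_add]
      refine Finset.sum_le_sum (fun y hy => Finset.sum_le_sum (fun z hz => ?_))
      exact nonarch_pair (P.v j) (P.na j) (fun h => hdis y hy (h ▸ hz))
  have hoff : ((I.offDiag.card : ℕ) : ℝ) = (e : ℝ) * ((e : ℝ) - 1) := by
    rw [Finset.offDiag_card, hIcard, Nat.cast_sub (Nat.le_mul_self e)]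
    push_cast
    ring
  have hγ : ∀ j, ∑ q ∈ Y.offDiag, ((((fun _ : E => 1) q.1 : ℕ) : ℝ) * (((fun _ : E => 1) q.2 : ℕ) : ℝ)) *
      Real.log (P.v j (q.1 - q.2)) ≤
      (e : ℝ) * ((e : ℝ) - 1) * D * Real.log (P.v j p) +
        2 * (((e * D : ℕ) : ℝ) - 1) * ∑ y ∈ Y, (((fun _ : E => 1) y : ℕ) : ℝ) * Real.posLog (P.v j y) := by
    intro j
    refine nonarch_sum (P.v j) (P.na j) Y (fun _ => 1) (e * D) hM
      (Y.offDiag.filter (fun q => orb H q.1 ≠ orb H q.2)) (Finset.filter_subset _ _) _ ?_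
    rw [hY, c1b_sum hHH', c1b_sum hHH', ← hY, ← hI]
    simp only [Nat.cast_one, one_mul]
    refine (Finset.sum_le_sum (hblock j)).trans ?_
    rw [Finset.sum_add_distrib, Finset.sum_const, nsmul_eq_mul, hoff]
    apply le_of_eq
    ring
  have hcore := core P Y hYO (fun _ => 1) (e * D) hM hYp
    (fun j => (e : ℝ) * ((e : ℝ) - 1) * D * Real.log (P.v j p)) hγ
  simp only [Nat.cast_one, sub_self, mul_zero, Finset.sum_const_zero, add_zero, one_mul] at hcore
  have hsum : ∑ y ∈ Y, P.h y = ((e * D : ℕ) : ℝ) * (p * P.h β) := by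
    have h1 : ∀ y ∈ Y, P.h y = p * P.h β := by
      intro y hy
      obtain ⟨g, -, rfl⟩ := mem_orb.1 hy
      rw [hinv, h_pow]
    rw [Finset.sum_congr rfl h1, Finset.sum_const, nsmul_eq_mul, he]
  have hwB : ∑ j, P.wB j * ((e : ℝ) * ((e : ℝ) - 1) * D * Real.log (P.v j p)) ≤
      (e : ℝ) * ((e : ℝ) - 1) * D * (- Real.log p) := by
    have h1 : ∑ j, P.wB j * ((e : ℝ) * ((e : ℝ) - 1) * D * Real.log (P.v j p)) =
        (e : ℝ) * ((e : ℝ) - 1) * D * ∑ j, P.wB j * Real.log (P.v j p) := by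
      rw [Finset.mul_sum]
      refine Finset.sum_congr rfl (fun j _ => ?_)
      ring
    rw [h1]
    refine mul_le_mul_of_nonneg_left (h_prime P hp.pos hpO) ?_
    rw [← hoff]
    positivity
  rw [hsum] at hcore
  have hh : 0 ≤ P.h β := h_nonneg P β
  have hX : 0 ≤ ((e * D : ℕ) : ℝ) * (p * P.h β) := by positivity
  push_cast at hcore hX
  nlinarith

end Pool.Agent.ZPB
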