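import Mathlib
import Pool.Agent.ZPB.L1
import Pool.Agent.ZPB.L2

set_option autoImplicit false

open Polynomial

namespace Pool.Agent.ZPB

theorem l3_sum {E : Type} [Field E] (v : AbsoluteValue E ℝ) (hv : IsNonarchimedean v)
    {ι : Type} (s : Finset ι) (a : ι → E) {R : ℝ} (hR : 0 ≤ R) (ha : ∀ k ∈ s, v (a k) ≤ R) :
    v (∑ k ∈ s, a k) ≤ R := by
  classical
  induction s using Finset.induction_on with
  | empty => simpa using hR
  | insert i s hi ih =>
    rw [Finset.sum_insert hi]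
    exact (hv _ _).trans (max_le (ha i (Finset.mem_insert_self i s))
      (ih fun k hk => ha k (Finset.mem_insert_of_mem hk)))

/-- Row L3. The local estimate in the unramified case.

Proof. Let `n = O.card`, `f = ∏ y ∈ O, (X - C y)` (`natDegree = n`), `c k = f.coeff k`, `l` an index with
`v (c l) = ∏ y ∈ O, max 1 (v y)` maximal (Row L1), `lam = c l ≠ 0`, `d k = c k / lam`, so
`v (d k) ≤ 1`, and by hypothesis `v (τ (d k) - d k ^ p) ≤ v p`.
Let `y ∈ O`. Then `∑ k ≤ n, d k * y ^ k = f.eval y / lam = 0`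
(`Polynomial.eval_eq_sum_range`). So Row L2 (`pow_cong`) gives
`v (∑ d k ^ p * y ^ (p k)) ≤ v p * (max 1 (v y)) ^ (p n)`, and
`v (∑ (τ (d k) - d k ^ p) * y ^ (p k)) ≤ v p * (max 1 (v y)) ^ (p n)` (nonarchimedean sums:
`IsNonarchimedean.apply_sum_le` or induction). Hence
`v (∑ τ (d k) * (y ^ p) ^ k) ≤ v p * (max 1 (v y)) ^ (p n)`. Now
`∏ z ∈ O, (y ^ p - τ z) = (f.map τ).eval (y ^ p) = ∑ τ (c k) (y ^ p) ^ k = τ lam * ∑ τ (d k) (y ^ p) ^ k`
and `v (τ lam) ≤ ∏ z ∈ O, max 1 (v (τ z))`: `τ lam` is a coefficient of `∏ z ∈ O.image τ, (X - C z)`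
(`τ` is injective; `Finset.prod_image`), Row L1. Multiply over `y ∈ O`
(`Finset.prod_le_prod`). -/
theorem local_U {E : Type} [Field E] (v : AbsoluteValue E ℝ) (hv : IsNonarchimedean v)
    {p : ℕ} (hp : p.Prime) (τ : E →+* E) (O : Finset E)
    (hτ : ∀ k l, (∏ y ∈ O, (X - C y)).coeff l ≠ 0 →
      v ((∏ y ∈ O, (X - C y)).coeff k) ≤ v ((∏ y ∈ O, (X - C y)).coeff l) →
      v (τ ((∏ y ∈ O, (X - C y)).coeff k / (∏ y ∈ O, (X - C y)).coeff l) -
        ((∏ y ∈ O, (X - C y)).coeff k / (∏ y ∈ O, (X - C y)).coeff l) ^ p) ≤ v p) :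
    ∏ y ∈ O, ∏ z ∈ O, v (y ^ p - τ z) ≤
      v p ^ O.card * ((∏ y ∈ O, max 1 (v y)) ^ (p * O.card) *
        (∏ z ∈ O, max 1 (v (τ z))) ^ O.card) := by
  classical
  set f : E[X] := ∏ y ∈ O, (X - C y) with hf
  have hdeg : f.natDegree = O.card := by
    rw [hf]
    exact natDegree_finsetProd_X_sub_C_eq_card O fun y => y
  obtain ⟨hGle, l, hl⟩ := gauss_split v hv O
  rw [← hf] at hl
  set G : ℝ := ∏ y ∈ O, max 1 (v y) with hG
  have hG1 : 0 < G := Finset.prod_pos fun y _ => zero_lt_one.trans_le (le_max_left _ _)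
  have hlam : f.coeff l ≠ 0 := by
    intro h0
    rw [h0, map_zero] at hl
    exact hG1.ne hl
  set d : ℕ → E := fun k => f.coeff k / f.coeff l with hd
  have hd1 : ∀ k, v (d k) ≤ 1 := by
    intro k
    simp only [hd]
    rw [map_div₀, hl]
    exact (div_le_one hG1).2 (hGle k)
  have hdτ : ∀ k, v (τ (d k) - d k ^ p) ≤ v p := fun k =>
    hτ k l hlam (by rw [hl]; exact hGle k)
  have hfc : ∀ k, f.coeff k = f.coeff l * d k := by
    intro k
    simp only [hd]
    rw [mul_div_cancel₀ _ hlam]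
  -- the value at a root
  have hroot : ∀ y ∈ O, ∑ k ∈ Finset.range (O.card + 1), d k * y ^ k = 0 := by
    intro y hy
    have h1 : f.eval y = 0 := by
      rw [hf, eval_prod]
      exact Finset.prod_eq_zero hy (by simp)
    rw [eval_eq_sum_range, hdeg] at h1
    have h2 : f.coeff l * ∑ k ∈ Finset.range (O.card + 1), d k * y ^ k = 0 := by
      rw [Finset.mul_sum, ← h1]
      refine Finset.sum_congr rfl fun k _ => ?_
      rw [hfc k]
      ring
    exact (mul_eq_zero.1 h2).resolve_left hlam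
  have hvp : 0 ≤ v (p : E) := v.nonneg _
  have hkey : ∀ y ∈ O, v (∑ k ∈ Finset.range (O.card + 1), τ (d k) * (y ^ p) ^ k) ≤
      v p * (max 1 (v y)) ^ (p * O.card) := by
    intro y hy
    have hM1 : 1 ≤ max 1 (v y) := le_max_left _ _
    have h1 := pow_cong v hv hp O.card d hd1 y
    rw [hroot y hy, zero_pow hp.ne_zero, zero_sub, v.map_neg] at h1
    have h2 : v (∑ k ∈ Finset.range (O.card + 1), (τ (d k) - d k ^ p) * y ^ (p * k)) ≤
        v p * (max 1 (v y)) ^ (p * O.card) := by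
      refine l3_sum v hv _ _ (mul_nonneg hvp (pow_nonneg (zero_le_one.trans hM1) _)) fun k hk => ?_
      rw [map_mul, map_pow]
      have hk1 : k ≤ O.card := Nat.lt_succ_iff.1 (Finset.mem_range.1 hk)
      have h3 : v y ^ (p * k) ≤ (max 1 (v y)) ^ (p * O.card) :=
        (pow_le_pow_left₀ (v.nonneg y) (le_max_right _ _) _).trans
          (pow_le_pow_right₀ hM1 (Nat.mul_le_mul_left p hk1))
      exact mul_le_mul (hdτ k) h3 (pow_nonneg (v.nonneg y) _) hvp
    have h4 : ∑ k ∈ Finset.range (O.card + 1), τ (d k) * (y ^ p) ^ k =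
        ∑ k ∈ Finset.range (O.card + 1), (τ (d k) - d k ^ p) * y ^ (p * k) +
          ∑ k ∈ Finset.range (O.card + 1), d k ^ p * y ^ (p * k) := by
      rw [← Finset.sum_add_distrib]
      refine Finset.sum_congr rfl fun k _ => ?_
      rw [pow_mul]
      ring
    rw [h4]
    exact (hv _ _).trans (max_le h2 h1)
  -- the product over the conjugates
  have hprod : ∀ y : E, ∏ z ∈ O, (y ^ p - τ z) =
      τ (f.coeff l) * ∑ k ∈ Finset.range (O.card + 1), τ (d k) * (y ^ p) ^ k := by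
    intro y
    have h1 : (f.map τ).eval (y ^ p) = ∏ z ∈ O, (y ^ p - τ z) := by
      rw [hf, Polynomial.map_prod, eval_prod]
      refine Finset.prod_congr rfl fun z _ => ?_
      simp
    rw [← h1, eval_eq_sum_range' (n := O.card + 1)]
    · rw [Finset.mul_sum]
      refine Finset.sum_congr rfl fun k _ => ?_
      rw [coeff_map, hfc k, map_mul]
      ring
    · exact Nat.lt_succ_of_le (natDegree_map_le.trans hdeg.le)
  set T : ℝ := ∏ z ∈ O, max 1 (v (τ z)) with hT
  have hT0 : 0 ≤ T := Finset.prod_nonneg fun z _ => zero_le_one.trans (le_max_left _ _)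
  have hlamτ : v (τ (f.coeff l)) ≤ T := by
    have h1 : f.map τ = ∏ z ∈ O.image τ, (X - C z) := by
      rw [hf, Polynomial.map_prod, Finset.prod_image fun a _ b _ h => τ.injective h]
      refine Finset.prod_congr rfl fun z _ => ?_
      simp
    have h2 := (gauss_split v hv (O.image τ)).1 l
    rw [← h1, coeff_map, Finset.prod_image fun a _ b _ h => τ.injective h] at h2
    exact h2
  have hfin : ∀ y ∈ O, ∏ z ∈ O, v (y ^ p - τ z) ≤
      T * (v p * (max 1 (v y)) ^ (p * O.card)) := by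
    intro y hy
    rw [← map_prod, hprod y, map_mul]
    exact mul_le_mul hlamτ (hkey y hy) (v.nonneg _) hT0
  calc ∏ y ∈ O, ∏ z ∈ O, v (y ^ p - τ z)
      ≤ ∏ y ∈ O, (T * (v p * (max 1 (v y)) ^ (p * O.card))) :=
        Finset.prod_le_prod (fun y _ => Finset.prod_nonneg fun z _ => v.nonneg _) hfin
    _ = v p ^ O.card * (G ^ (p * O.card) * T ^ O.card) := by
        rw [Finset.prod_mul_distrib, Finset.prod_mul_distrib, Finset.prod_const, Finset.prod_const,
          Finset.prod_pow]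
        ring

end Pool.Agent.ZPB
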