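import Mathlib
import Pool.Agent.ZPB.Defs
import Pool.Agent.ZPB.K1
import Pool.Agent.ZPB.L3
import Pool.Agent.ZPB.C1a

set_option autoImplicit false

open Polynomial

namespace Pool.Agent.ZPB

variable {E : Type} [Field E] [NumberField E]

/-- Row C2a. The local estimate for two blocks, unramified case.

Proof. Let `D = (orb H β).card`, `O = orb H (τ⁻¹ β)` (`D` elements). `O.image τ = orb H β`
(`orb_image`), `orb H ((τ⁻¹ β) ^ p) = O.image (· ^ p)` (`g (x ^ p) = (g x) ^ p`), injective on `O`: if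
`x, y ∈ O`, `x ^ p = y ^ p` then `τ x, τ y ∈ orb H β` and `(τ x) ^ p = (τ y) ^ p`. Row L3
(`local_U`) with `τ`, `O`; its hypothesis follows from `coeff_fixed` (file `C1a.lean`) and `hloc`. Take
logarithms: `v (y - z) > 0` by `hdis`, `v p > 0`, `posLog (v (y ^ p)) = p * posLog (v y)`. -/
theorem block_U (v : AbsoluteValue E ℝ) (hv : IsNonarchimedean v) {p : ℕ} (hp : p.Prime)
    {H : Subgroup (E ≃ₐ[ℚ] E)} (hn : ∀ (g : E ≃ₐ[ℚ] E), ∀ h ∈ H, g * h * g⁻¹ ∈ H) {β : E}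
    (hinj : ∀ x ∈ orb H β, ∀ y ∈ orb H β, x ^ p = y ^ p → x = y) (τ : E ≃ₐ[ℚ] E)
    (hloc : ∀ x, (∀ g ∈ H, g x = x) → v x ≤ 1 → v (τ x - x ^ p) ≤ v p)
    (hdis : ∀ y ∈ orb H ((τ⁻¹ β) ^ p), y ∉ orb H β) :
    ∑ y ∈ orb H ((τ⁻¹ β) ^ p), ∑ z ∈ orb H β, Real.log (v (y - z)) ≤
      (orb H β).card * Real.log (v p) +
        ∑ y ∈ orb H ((τ⁻¹ β) ^ p), ∑ z ∈ orb H β, (Real.posLog (v y) + Real.posLog (v z)) := by
  classical
  set S := orb H β with hS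
  have hnτ : ∀ h ∈ H, τ⁻¹ * h * τ⁻¹⁻¹ ∈ H := hn τ⁻¹
  have hττ : ∀ x, τ (τ⁻¹ x) = x := fun x => τ.apply_symm_apply x
  have hinjτ : ∀ a b : E, τ⁻¹ a = τ⁻¹ b → a = b := fun a b h => (τ⁻¹).injective h
  have hO : orb H (τ⁻¹ β) = S.image (τ⁻¹ : E ≃ₐ[ℚ] E) := orb_image hnτ β
  have hOcard : (orb H (τ⁻¹ β)).card = S.card := orb_card_image hnτ β
  have hb1 : orb H ((τ⁻¹ β) ^ p) = S.image (fun x => τ⁻¹ (x ^ p)) := by
    rw [← map_pow]
    exact c1a_orb_pow hnτ β p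
  have hi1 : ∀ x ∈ S, ∀ y ∈ S, τ⁻¹ (x ^ p) = τ⁻¹ (y ^ p) → x = y := fun x hx y hy h =>
    hinj x hx y hy (hinjτ _ _ h)
  have hloc' := local_U v hv hp (τ : E →+* E) (orb H (τ⁻¹ β)) (by
    intro k l hl hkl
    have hfix : ∀ g ∈ H, g ((∏ y ∈ orb H (τ⁻¹ β), (X - C y)).coeff k /
        (∏ y ∈ orb H (τ⁻¹ β), (X - C y)).coeff l) =
        (∏ y ∈ orb H (τ⁻¹ β), (X - C y)).coeff k / (∏ y ∈ orb H (τ⁻¹ β), (X - C y)).coeff l := by
      intro g hg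
      rw [map_div₀, coeff_fixed _ k hg, coeff_fixed _ l hg]
    refine hloc _ hfix ?_
    rw [map_div₀]
    exact div_le_one_of_le₀ hkl (v.nonneg _))
  rw [hOcard] at hloc'
  rw [hO] at hloc'
  rw [Finset.prod_image (fun a _ b _ hab => hinjτ a b hab),
    Finset.prod_image (fun a _ b _ hab => hinjτ a b hab),
    Finset.prod_image (fun a _ b _ hab => hinjτ a b hab)] at hloc'
  have hloc2 : ∏ x ∈ S, ∏ w ∈ S, v (τ⁻¹ (x ^ p) - w) ≤ v p ^ S.card *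
      ((∏ x ∈ S, max 1 (v (τ⁻¹ x))) ^ (p * S.card) *
        (∏ x ∈ S, max 1 (v x)) ^ (1 * S.card)) := by
    have e1 : ∀ x ∈ S, ∏ z ∈ S.image (τ⁻¹ : E ≃ₐ[ℚ] E), v (τ⁻¹ x ^ p - (τ : E →+* E) z) =
        ∏ w ∈ S, v (τ⁻¹ (x ^ p) - w) := by
      intro x _
      rw [Finset.prod_image (fun a _ b _ hab => hinjτ a b hab)]
      refine Finset.prod_congr rfl fun w _ => ?_
      rw [map_pow]
      exact congrArg (fun t => v (τ⁻¹ x ^ p - t)) (hττ w)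
    have e2 : ∀ x, (τ : E →+* E) (τ⁻¹ x) = x := hττ
    rw [Finset.prod_congr rfl e1] at hloc'
    simp only [e2] at hloc'
    rw [one_mul]
    exact hloc'
  have hp0 : (p : E) ≠ 0 := Nat.cast_ne_zero.2 hp.ne_zero
  have hfin := c1a_log S (fun x w => v (τ⁻¹ (x ^ p) - w)) (by
    intro x hx w hw
    refine v.pos (sub_ne_zero.2 fun h => ?_)
    refine hdis (τ⁻¹ (x ^ p)) ?_ ?_
    · rw [hb1]; exact Finset.mem_image_of_mem (fun x => τ⁻¹ (x ^ p)) hx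
    · rw [h]; exact hw)
    (fun x => v (τ⁻¹ x)) (fun x => v x) (fun _ _ => v.nonneg _) (fun _ _ => v.nonneg _)
    (v.pos hp0) p 1 hloc2
  rw [hb1, Finset.sum_image hi1, Finset.sum_image hi1]
  have e4 : ∀ x ∈ S, ∑ z ∈ S, (Real.posLog (v (τ⁻¹ (x ^ p))) + Real.posLog (v z)) =
      ∑ w ∈ S, (p * Real.posLog (v (τ⁻¹ x)) + (1 : ℕ) * Real.posLog (v w)) := by
    intro x _
    refine Finset.sum_congr rfl fun w _ => ?_
    rw [map_pow, map_pow, Real.posLog_pow, Nat.cast_one, one_mul]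
  rw [Finset.sum_congr rfl e4]
  exact hfin

end Pool.Agent.ZPB
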