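import Mathlib
import Pool.Agent.ZPB.Defs
import Pool.Agent.ZPB.K1
import Pool.Agent.ZPB.A6
import Pool.Agent.ZPB.A7
import Pool.Agent.ZPB.C2a
import Pool.Agent.ZPB.H0

set_option autoImplicit false

open Polynomial

namespace Pool.Agent.ZPB

variable {E : Type} [Field E] [NumberField E]

theorem c2b_orb_pow [DecidableEq E] (H : Subgroup (E ≃ₐ[ℚ] E)) (x : E) (p : ℕ) :
    orb H (x ^ p) = (orb H x).image (fun y => y ^ p) := by
  ext y
  rw [mem_orb, Finset.mem_image]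
  constructor
  · rintro ⟨g, hg, rfl⟩
    exact ⟨g x, mem_orb.2 ⟨g, hg, rfl⟩, (map_pow g x p).symm⟩
  · rintro ⟨z, hz, rfl⟩
    obtain ⟨g, hg, rfl⟩ := mem_orb.1 hz
    exact ⟨g, hg, map_pow g x p⟩

theorem c2b_split {X A : Type*} [DecidableEq X] [AddCommMonoid A] (Y0 : Finset X) (T : Finset ℕ) (Yp : ℕ → Finset X)
    (h0 : ∀ p ∈ T, ∀ y ∈ Yp p, y ∉ Y0) (h1 : ∀ p ∈ T, ∀ q ∈ T, p ≠ q → ∀ y ∈ Yp p, y ∉ Yp q) (F : X → A) :
    ∑ y ∈ Y0 ∪ T.biUnion Yp, F y = ∑ y ∈ Y0, F y + ∑ p ∈ T, ∑ y ∈ Yp p, F y := by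
  rw [Finset.sum_union, Finset.sum_biUnion]
  · intro p hp q hq hpq
    rw [Function.onFun, Finset.disjoint_left]
    exact h1 p hp q hq hpq
  · rw [Finset.disjoint_left]
    intro y hy hy'
    rw [Finset.mem_biUnion] at hy'
    obtain ⟨p, hp, hy'⟩ := hy'
    exact h0 p hp y hy' hy

theorem c2b_pairs {X : Type*} [DecidableEq X] (Y0 : Finset X) (T : Finset ℕ) (Yp : ℕ → Finset X)
    (h0 : ∀ p ∈ T, ∀ y ∈ Yp p, y ∉ Y0) (h1 : ∀ p ∈ T, ∀ q ∈ T, p ≠ q → ∀ y ∈ Yp p, y ∉ Yp q) (F : X × X → ℝ)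
    (hF : ∀ y z, F (y, z) = F (z, y)) :
    ∑ q ∈ T.biUnion (fun p => Yp p ×ˢ Y0 ∪ Y0 ×ˢ Yp p), F q =
      ∑ p ∈ T, 2 * ∑ y ∈ Yp p, ∑ z ∈ Y0, F (y, z) := by
  rw [Finset.sum_biUnion]
  · refine Finset.sum_congr rfl (fun p hp => ?_)
    rw [Finset.sum_union, two_mul]
    · congr 1
      · rw [Finset.sum_product]
      · rw [Finset.sum_product_right]
        refine Finset.sum_congr rfl (fun y _ => Finset.sum_congr rfl (fun z _ => ?_))
        exact hF z y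
    · rw [Finset.disjoint_left]
      intro q hq hq'
      rw [Finset.mem_product] at hq hq'
      exact h0 p hp q.1 hq.1 hq'.1
  · intro p hp p' hp' hpp
    rw [Function.onFun, Finset.disjoint_left]
    intro q hq hq'
    rw [Finset.mem_union, Finset.mem_product, Finset.mem_product] at hq hq'
    rcases hq with hq | hq
    · rcases hq' with hq' | hq'
      · exact h1 p hp p' hp' hpp q.1 hq.1 hq'.1
      · exact h0 p hp q.1 hq.1 hq'.1
    · rcases hq' with hq' | hq'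
      · exact h0 p' hp' q.1 hq'.1 hq.1
      · exact h1 p hp p' hp' hpp q.2 hq.2 hq'.2

/-- Row C2b. The inequality in the unramified case.

Proof. `Y0 = orb H β` (`D` elements), `Y p = orb H (((τ p)⁻¹ β) ^ p)` for `p ∈ T` (`D` elements: image
of `orb H ((τ p)⁻¹ β)` under `x ↦ x ^ p`, injective as in Row C2a; `orb_card_image`),
`Y = Y0 ∪ ⋃ p ∈ T, Y p`. Elements `y ∈ Y p` have `P.h y = p * P.h β` (`hinv`, `h_pow`), elements of
`Y0` have `P.h y = P.h β > 0`; so `Y0` and the `Y p` are pairwise disjoint (`p > 1`). Let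
`m y = k` for `y ∈ Y0`, `m y = 1` for `y ∈ Y \ Y0`, `M = ∑ m y = (k + T.card) * D > 0`. All elements
of `Y` are in `P.O` (`(g β) ^ p`). For a place `j` let `S` be the set of pairs `(y, z)` and `(z, y)` with
`z ∈ Y0`, `y ∈ Y p`, `p ∈ T`; `block_U` for each `p` with `P.v j p < 1` (if `P.v j p = 1` use
`nonarch_pair`, `log 1 = 0`) and `v (z - y) = v (y - z)` give the hypothesis of `nonarch_sum` with
`γ = ∑ p ∈ T, 2 * k * D * log (P.v j p)` (each pair has weight `k * 1`). So `core` gives, with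
`∑ y, m y * (m y - 1) = D * (k * (k - 1))` and
`∑ y, m y * P.h y = D * k * P.h β + ∑ p ∈ T, D * p * P.h β`,
`0 ≤ (M + D k (k - 1)) log M + 2 M + 2 (M - 1) D (k + ∑ p) P.h β + ∑ p ∈ T, 2 k D ∑ j, wB j log (v j p)`,
and `∑ j, wB j * log (v j p) ≤ - log p` (`h_prime`). Use `M - 1 ≤ M`. -/
theorem core_U (P : PL E) {H : Subgroup (E ≃ₐ[ℚ] E)}
    (hn : ∀ (g : E ≃ₐ[ℚ] E), ∀ h ∈ H, g * h * g⁻¹ ∈ H) {β : E} (hβ0 : 0 < P.h β)
    (hO : ∀ g : E ≃ₐ[ℚ] E, g β ∈ P.O) (hinv : ∀ (g : E ≃ₐ[ℚ] E) (x : E), P.h (g x) = P.h x)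
    (T : Finset ℕ) (hT : ∀ p ∈ T, p.Prime ∧ ((p : E))⁻¹ ∈ P.O)
    (hinj : ∀ p ∈ T, ∀ x ∈ orb H β, ∀ y ∈ orb H β, x ^ p = y ^ p → x = y)
    (τ : ℕ → (E ≃ₐ[ℚ] E))
    (hloc : ∀ p ∈ T, ∀ j, P.v j p < 1 → ∀ x, (∀ g ∈ H, g x = x) → P.v j x ≤ 1 →
      P.v j (τ p x - x ^ p) ≤ P.v j p)
    (k : ℕ) (hk : 1 ≤ k) (D M : ℕ) (hD : D = (orb H β).card) (hM : M = (k + T.card) * D) :
    2 * (k : ℝ) * D * ∑ p ∈ T, Real.log p ≤
      ((M : ℝ) + D * (k * ((k : ℝ) - 1))) * Real.log M + 2 * M +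
        2 * M * (D * (k + ∑ p ∈ T, (p : ℝ)) * P.h β) := by
  classical
  have hDp : 0 < D := by rw [hD]; exact orb_card_pos _ _
  have hMp : 0 < M := by
    rw [hM]
    exact Nat.mul_pos (by omega) hDp
  set Y0 := orb H β with hY0
  set Yp : ℕ → Finset E := fun p => orb H (((τ p)⁻¹ β) ^ p) with hYp
  -- cardinalities
  have himg : ∀ p, (orb H ((τ p)⁻¹ β)).image (τ p) = orb H β := by
    intro p
    have h1 := orb_image (g := τ p) (H := H) (fun h hh => hn _ h hh) ((τ p)⁻¹ β)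
    have h2 : (τ p) ((τ p)⁻¹ β) = β := by
      change (τ p * (τ p)⁻¹) β = β
      rw [mul_inv_cancel]
      rfl
    rw [h2] at h1
    exact h1.symm
  have hcard : ∀ p ∈ T, (Yp p).card = D := by
    intro p hp
    rw [hYp]
    simp only
    rw [c2b_orb_pow, Finset.card_image_of_injOn, hD]
    · exact orb_card_image (fun h hh => hn _ h hh) β
    · intro x hx y hy hxy
      have h1 : (τ p) x ∈ orb H β := by rw [← himg p]; exact Finset.mem_image_of_mem _ hx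
      have h2 : (τ p) y ∈ orb H β := by rw [← himg p]; exact Finset.mem_image_of_mem _ hy
      have h3 : ((τ p) x) ^ p = ((τ p) y) ^ p := by
        rw [← map_pow, ← map_pow]
        exact congrArg _ hxy
      exact (τ p).injective (hinj p hp _ h1 _ h2 h3)
  -- heights
  have hh0 : ∀ y ∈ Y0, P.h y = P.h β := by
    intro y hy
    obtain ⟨g, -, rfl⟩ := mem_orb.1 hy
    exact hinv g β
  have hhp : ∀ p, ∀ y ∈ Yp p, P.h y = p * P.h β := by
    intro p y hy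
    obtain ⟨g, -, rfl⟩ := mem_orb.1 hy
    rw [hinv, h_pow, hinv]
  have h0 : ∀ p ∈ T, ∀ y ∈ Yp p, y ∉ Y0 := by
    intro p hp y hy hy'
    have h1 := hhp p y hy
    rw [hh0 y hy'] at h1
    have h2 : (2 : ℝ) ≤ p := by exact_mod_cast (hT p hp).1.two_le
    nlinarith
  have h1 : ∀ p ∈ T, ∀ q ∈ T, p ≠ q → ∀ y ∈ Yp p, y ∉ Yp q := by
    intro p hp q hq hpq y hy hy'
    have h1 := hhp p y hy
    rw [hhp q y hy'] at h1
    have h2 := mul_right_cancel₀ hβ0.ne' h1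
    exact hpq (by exact_mod_cast h2.symm)
  set m : E → ℕ := fun y => if y ∈ Y0 then k else 1 with hm
  have hm0 : ∀ y ∈ Y0, m y = k := fun y hy => if_pos hy
  have hm1 : ∀ p ∈ T, ∀ y ∈ Yp p, m y = 1 := fun p hp y hy => if_neg (h0 p hp y hy)
  set Y : Finset E := Y0 ∪ T.biUnion Yp with hY
  have hsplit : ∀ F : E → ℝ, ∑ y ∈ Y, F y = ∑ y ∈ Y0, F y + ∑ p ∈ T, ∑ y ∈ Yp p, F y :=
    fun F => c2b_split Y0 T Yp h0 h1 F
  have hMs : M = ∑ y ∈ Y, m y := by
    rw [hY, c2b_split Y0 T Yp h0 h1 m, Finset.sum_congr rfl hm0, Finset.sum_const,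
      Finset.sum_congr rfl (fun p hp => Finset.sum_congr rfl (hm1 p hp))]
    simp only [Finset.sum_const, smul_eq_mul, mul_one]
    rw [Finset.sum_congr rfl hcard, Finset.sum_const, smul_eq_mul, hM, ← hD]
    ring
  have hYO : ∀ y ∈ Y, y ∈ P.O := by
    intro y hy
    rw [hY, Finset.mem_union, Finset.mem_biUnion] at hy
    rcases hy with hy | ⟨p, -, hy⟩
    · obtain ⟨g, -, rfl⟩ := mem_orb.1 hy
      exact hO g
    · obtain ⟨g, -, rfl⟩ := mem_orb.1 hy
      rw [map_pow]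
      exact pow_mem (hO (g * (τ p)⁻¹)) p
  -- blocks
  have hblock : ∀ j, ∀ p ∈ T,
      ∑ y ∈ Yp p, ∑ z ∈ Y0, Real.log (P.v j (y - z)) ≤ D * Real.log (P.v j p) +
        ∑ y ∈ Yp p, ∑ z ∈ Y0, (Real.posLog (P.v j y) + Real.posLog (P.v j z)) := by
    intro j p hp
    by_cases hv : P.v j p < 1
    · rw [hD]
      exact block_U (P.v j) (P.na j) (hT p hp).1 hn (hinj p hp) (τ p) (hloc p hp j hv) (h0 p hp)
    · have h2 : P.v j p = 1 := le_antisymm (v_nat_le (P.na j) p) (not_lt.1 hv)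
      rw [h2, Real.log_one, mul_zero, zero_add]
      refine Finset.sum_le_sum (fun y hy => Finset.sum_le_sum (fun z hz => ?_))
      exact nonarch_pair (P.v j) (P.na j) (fun h => h0 p hp y hy (h ▸ hz))
  have hγ : ∀ j, ∑ q ∈ Y.offDiag, ((m q.1 : ℝ) * m q.2) * Real.log (P.v j (q.1 - q.2)) ≤
      (∑ p ∈ T, 2 * (k : ℝ) * D * Real.log (P.v j p)) +
        2 * ((M : ℝ) - 1) * ∑ y ∈ Y, (m y : ℝ) * Real.posLog (P.v j y) := by
    intro j
    refine nonarch_sum (P.v j) (P.na j) Y m M hMs (T.biUnion (fun p => Yp p ×ˢ Y0 ∪ Y0 ×ˢ Yp p)) ?_ _ ?_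
    · intro q hq
      rw [Finset.mem_biUnion] at hq
      obtain ⟨p, hp, hq⟩ := hq
      rw [Finset.mem_union, Finset.mem_product, Finset.mem_product] at hq
      rw [Finset.mem_offDiag, hY, Finset.mem_union, Finset.mem_union, Finset.mem_biUnion, Finset.mem_biUnion]
      rcases hq with hq | hq
      · exact ⟨Or.inr ⟨p, hp, hq.1⟩, Or.inl hq.2, fun h => h0 p hp q.1 hq.1 (h ▸ hq.2)⟩
      · exact ⟨Or.inl hq.1, Or.inr ⟨p, hp, hq.2⟩, fun h => h0 p hp q.2 hq.2 (h ▸ hq.1)⟩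
    · rw [c2b_pairs Y0 T Yp h0 h1, c2b_pairs Y0 T Yp h0 h1, ← Finset.sum_add_distrib]
      · refine Finset.sum_le_sum (fun p hp => ?_)
        have e1 : ∑ y ∈ Yp p, ∑ z ∈ Y0, ((m (y, z).1 : ℝ) * m (y, z).2) * Real.log (P.v j ((y, z).1 - (y, z).2)) =
            k * ∑ y ∈ Yp p, ∑ z ∈ Y0, Real.log (P.v j (y - z)) := by
          rw [Finset.mul_sum]
          refine Finset.sum_congr rfl (fun y hy => ?_)
          rw [Finset.mul_sum]
          refine Finset.sum_congr rfl (fun z hz => ?_)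
          simp only
          rw [hm1 p hp y hy, hm0 z hz, Nat.cast_one, one_mul]
        have e2 : ∑ y ∈ Yp p, ∑ z ∈ Y0, ((m (y, z).1 : ℝ) * m (y, z).2) *
              (Real.posLog (P.v j (y, z).1) + Real.posLog (P.v j (y, z).2)) =
            k * ∑ y ∈ Yp p, ∑ z ∈ Y0, (Real.posLog (P.v j y) + Real.posLog (P.v j z)) := by
          rw [Finset.mul_sum]
          refine Finset.sum_congr rfl (fun y hy => ?_)
          rw [Finset.mul_sum]
          refine Finset.sum_congr rfl (fun z hz => ?_)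
          simp only
          rw [hm1 p hp y hy, hm0 z hz, Nat.cast_one, one_mul]
        rw [e1, e2]
        have e3 := mul_le_mul_of_nonneg_left (hblock j p hp) (show (0 : ℝ) ≤ 2 * k by positivity)
        linarith
      · intro y z
        simp only
        ring
      · intro y z
        simp only
        rw [← map_neg_eq_map (P.v j) (y - z), neg_sub]
        ring
  have hcore := core P Y hYO m M hMs hMp (fun j => ∑ p ∈ T, 2 * (k : ℝ) * D * Real.log (P.v j p)) hγ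
  have hs1 : ∑ y ∈ Y, (m y : ℝ) * ((m y : ℝ) - 1) = D * (k * ((k : ℝ) - 1)) := by
    rw [hsplit, Finset.sum_congr rfl (fun y hy => by rw [hm0 y hy]), Finset.sum_const,
      Finset.sum_congr rfl (fun p hp => Finset.sum_congr rfl (fun y hy => by rw [hm1 p hp y hy]))]
    simp only [Nat.cast_one, sub_self, mul_zero, Finset.sum_const_zero, add_zero]
    rw [nsmul_eq_mul, ← hD]
  have hs2 : ∑ y ∈ Y, (m y : ℝ) * P.h y = D * (k + ∑ p ∈ T, (p : ℝ)) * P.h β := by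
    have e1 : ∑ y ∈ Y0, (m y : ℝ) * P.h y = D * (k * P.h β) := by
      rw [Finset.sum_congr rfl (fun y hy => by rw [hm0 y hy, hh0 y hy]), Finset.sum_const, nsmul_eq_mul, ← hD]
    have e2 : ∀ p ∈ T, ∑ y ∈ Yp p, (m y : ℝ) * P.h y = D * P.h β * p := by
      intro p hp
      rw [Finset.sum_congr rfl (fun y hy => by rw [hm1 p hp y hy, hhp p y hy]), Finset.sum_const, nsmul_eq_mul,
        hcard p hp]
      push_cast
      ring
    rw [hsplit, e1, Finset.sum_congr rfl e2, ← Finset.mul_sum]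
    ring
  have hwB : ∑ j, P.wB j * (∑ p ∈ T, 2 * (k : ℝ) * D * Real.log (P.v j p)) ≤
      - (2 * (k : ℝ) * D * ∑ p ∈ T, Real.log p) := by
    have e1 : ∑ j, P.wB j * (∑ p ∈ T, 2 * (k : ℝ) * D * Real.log (P.v j p)) =
        ∑ p ∈ T, 2 * (k : ℝ) * D * ∑ j, P.wB j * Real.log (P.v j p) := by
      simp only [Finset.mul_sum]
      rw [Finset.sum_comm]
      refine Finset.sum_congr rfl (fun p _ => Finset.sum_congr rfl (fun j _ => ?_))
      ring
    rw [e1, Finset.mul_sum, ← Finset.sum_neg_distrib]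
    refine Finset.sum_le_sum (fun p hp => ?_)
    have e2 := mul_le_mul_of_nonneg_left (h_prime P (hT p hp).1.pos (hT p hp).2)
      (show (0 : ℝ) ≤ 2 * k * D by positivity)
    linarith
  rw [hs1, hs2] at hcore
  have hX : 0 ≤ (D : ℝ) * (k + ∑ p ∈ T, (p : ℝ)) * P.h β := by
    have : 0 ≤ ∑ p ∈ T, (p : ℝ) := Finset.sum_nonneg (fun p _ => Nat.cast_nonneg p)
    positivity
  nlinarith

end Pool.Agent.ZPB
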