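import Mathlib

set_option autoImplicit false

namespace Pool.Agent.ZPB

theorem d0_exp4 : Real.exp 4 < 55 := by
  have h : Real.exp 4 = Real.exp 1 ^ 4 := by
    rw [← Real.exp_nat_mul]
    norm_num
  rw [h]
  calc Real.exp 1 ^ 4 < (2.7182818286 : ℝ) ^ 4 :=
        pow_lt_pow_left₀ Real.exp_one_lt_d9 (Real.exp_pos 1).le (by norm_num)
    _ < 55 := by norm_num

theorem d0_log21 : (3 : ℝ) < Real.log 21 := by
  rw [Real.lt_log_iff_exp_lt (by norm_num)]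
  have h : Real.exp 3 = Real.exp 1 ^ 3 := by
    rw [← Real.exp_nat_mul]
    norm_num
  rw [h]
  calc Real.exp 1 ^ 3 < (2.7182818286 : ℝ) ^ 3 :=
        pow_lt_pow_left₀ Real.exp_one_lt_d9 (Real.exp_pos 1).le (by norm_num)
    _ < 21 := by norm_num

/-- Row D0. Primes not dividing `D`.

Proof. By Bertrand's postulate (`Nat.exists_prime_lt_and_le_two_mul`) there are primes
`q i ∈ (2 ^ i * x, 2 ^ (i + 1) * x]` for `i < n + s`, all different. If `s` of them divided `D`, their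
product (`> x ^ s`) would divide `D` (`Finset.prod_primes_dvd`), contradicting `0 < D < x ^ s`. So at
least `n` do not divide `D`; take `n` of them (`Finset.exists_subset_card_eq`). -/
theorem primes (n s x D : ℕ) (hx : 2 ≤ x) (hD : 0 < D) (hDx : D < x ^ s) :
    ∃ T : Finset ℕ, T.card = n ∧
      ∀ p ∈ T, p.Prime ∧ x < p ∧ p ≤ 2 ^ (n + s) * x ∧ ¬ p ∣ D := by
  classical
  have hx0 : 0 < x := by omega
  have hex : ∀ i : ℕ, ∃ q : ℕ, q.Prime ∧ 2 ^ i * x < q ∧ q ≤ 2 * (2 ^ i * x) := fun i =>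
    Nat.exists_prime_lt_and_le_two_mul (2 ^ i * x) (by positivity)
  choose q hq1 hq2 hq3 using hex
  have hmono : StrictMono q := by
    refine strictMono_nat_of_lt_succ fun i => ?_
    calc q i ≤ 2 * (2 ^ i * x) := hq3 i
      _ = 2 ^ (i + 1) * x := by ring
      _ < q (i + 1) := hq2 (i + 1)
  have hxq : ∀ i, x < q i := fun i =>
    lt_of_le_of_lt (Nat.le_mul_of_pos_left x (by positivity)) (hq2 i)
  set Q : Finset ℕ := (Finset.range (n + s)).image q with hQ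
  have hQc : Q.card = n + s := by
    rw [hQ, Finset.card_image_of_injective _ hmono.injective, Finset.card_range]
  have hQp : ∀ p ∈ Q, p.Prime ∧ x < p ∧ p ≤ 2 ^ (n + s) * x := by
    intro p hp
    obtain ⟨i, hi, rfl⟩ := Finset.mem_image.1 hp
    have hi' : i < n + s := Finset.mem_range.1 hi
    refine ⟨hq1 i, hxq i, ?_⟩
    calc q i ≤ 2 * (2 ^ i * x) := hq3 i
      _ = 2 ^ (i + 1) * x := by ring
      _ ≤ 2 ^ (n + s) * x := Nat.mul_le_mul_right x (Nat.pow_le_pow_right (by norm_num) (by omega))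
  have hA : (Q.filter fun p => p ∣ D).card < s := by
    by_contra hcon
    have hs : s ≤ (Q.filter fun p => p ∣ D).card := not_lt.1 hcon
    have h1 : ∏ p ∈ Q.filter (fun p => p ∣ D), p ∣ D :=
      Finset.prod_primes_dvd D (fun p hp => (hQp p (Finset.mem_filter.1 hp).1).1.prime)
        (fun p hp => (Finset.mem_filter.1 hp).2)
    have h2 : x ^ (Q.filter fun p => p ∣ D).card ≤ ∏ p ∈ Q.filter (fun p => p ∣ D), p := by
      rw [← Finset.prod_const]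
      exact Finset.prod_le_prod' fun p hp => (hQp p (Finset.mem_filter.1 hp).1).2.1.le
    have h3 : x ^ s ≤ x ^ (Q.filter fun p => p ∣ D).card := Nat.pow_le_pow_right hx0 hs
    have h4 := Nat.le_of_dvd hD h1
    omega
  have hB : n ≤ (Q.filter fun p => ¬ p ∣ D).card := by
    have h1 := Finset.card_filter_add_card_filter_not (s := Q) (fun p => p ∣ D)
    omega
  obtain ⟨T, hT, hTc⟩ := Finset.exists_subset_card_eq hB
  refine ⟨T, hTc, fun p hp => ?_⟩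
  have hp' := Finset.mem_filter.1 (hT hp)
  obtain ⟨h1, h2, h3⟩ := hQp p hp'.1
  exact ⟨h1, h2, h3, hp'.2⟩

/-- Row D0. Elementary estimate, ramified case.

Proof. Divide `hineq` by `e * D`: `(e - 1) log p ≤ log e + log D + 2 + 2 e D p h`. From `hp2`,
`k log p ≥ 2 (log 21 + log D)` with `log 21 > 3` (`exp 3 < 21`, `Real.exp_one_lt_d9`), and `e - 1 ≥ k`,
so `(e - 1) / 2 * log p ≥ log D + 3`; from `hp1`, `log p ≥ 4` (`exp 4 < 55`), so
`(e - 1) / 2 * log p ≥ 2 (e - 1)`. As `log e ≤ e - 1`,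
`2 e D p h ≥ 3 + 2 (e - 1) - (e - 1) - 2 = e`. -/
theorem num_R {e D p k : ℕ} {h : ℝ} (hk : 2 ≤ k) (he : k + 1 ≤ e) (hD : 1 ≤ D) (hp1 : 55 ≤ p)
    (hp2 : (21 * D) ^ 2 ≤ p ^ k)
    (hineq : (e : ℝ) * ((e : ℝ) - 1) * D * Real.log p ≤
      (e * D : ℝ) * Real.log (e * D : ℝ) + 2 * (e * D : ℝ) +
        2 * (e * D : ℝ) * ((e * D : ℝ) * (p * h))) : 1 ≤ 2 * D * p * h := by
  have he0 : (0 : ℝ) < e := Nat.cast_pos.2 (by omega)
  have hD0 : (0 : ℝ) < D := Nat.cast_pos.2 (by omega)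
  have hp0 : (0 : ℝ) < p := Nat.cast_pos.2 (by omega)
  have hek : (k : ℝ) ≤ (e : ℝ) - 1 := by
    have h1 : ((k + 1 : ℕ) : ℝ) ≤ e := Nat.cast_le.2 he
    push_cast at h1
    linarith
  have hk0 : (2 : ℝ) ≤ k := by exact_mod_cast hk
  have hL4 : (4 : ℝ) ≤ Real.log p := by
    have h1 : (55 : ℝ) ≤ p := by exact_mod_cast hp1
    rw [Real.le_log_iff_exp_le hp0]
    exact d0_exp4.le.trans h1
  have hLk : 2 * (Real.log 21 + Real.log D) ≤ k * Real.log p := by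
    have h1 : (((21 * D) ^ 2 : ℕ) : ℝ) ≤ ((p ^ k : ℕ) : ℝ) := Nat.cast_le.2 hp2
    push_cast at h1
    have h2 : Real.log ((21 * (D : ℝ)) ^ 2) ≤ Real.log ((p : ℝ) ^ k) :=
      Real.log_le_log (by positivity) h1
    rw [Real.log_pow, Real.log_pow, Real.log_mul (by norm_num) hD0.ne'] at h2
    push_cast at h2
    exact h2
  have h21 := d0_log21
  have hlog : Real.log ((e : ℝ) * D) = Real.log e + Real.log D :=
    Real.log_mul he0.ne' hD0.ne'
  have hle : Real.log e ≤ (e : ℝ) - 1 := Real.log_le_sub_one_of_pos he0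
  rw [hlog] at hineq
  have h3 : ((e : ℝ) - 1) * Real.log p ≤
      Real.log e + Real.log D + 2 + 2 * ((e * D : ℝ) * (p * h)) := by
    have h4 : (e * D : ℝ) * (((e : ℝ) - 1) * Real.log p) ≤
        (e * D : ℝ) * (Real.log e + Real.log D + 2 + 2 * ((e * D : ℝ) * (p * h))) := by
      calc (e * D : ℝ) * (((e : ℝ) - 1) * Real.log p) =
          (e : ℝ) * ((e : ℝ) - 1) * D * Real.log p := by ring
        _ ≤ _ := hineq
        _ = _ := by ring
    exact le_of_mul_le_mul_left h4 (mul_pos he0 hD0)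
  have h5 : k * Real.log p ≤ ((e : ℝ) - 1) * Real.log p :=
    mul_le_mul_of_nonneg_right hek (by linarith)
  have h6 : ((e : ℝ) - 1) * 4 ≤ ((e : ℝ) - 1) * Real.log p :=
    mul_le_mul_of_nonneg_left hL4 (by linarith)
  have h7 : (e : ℝ) * 1 ≤ (e : ℝ) * (2 * D * p * h) := by
    have h8 : 2 * ((e * D : ℝ) * (p * h)) = (e : ℝ) * (2 * D * p * h) := by ring
    rw [← h8]
    linarith
  exact le_of_mul_le_mul_left h7 he0

/-- Row D0. Elementary estimate, unramified case.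

Proof. `M = (k + k ^ 2) D`, `M + D k (k - 1) = 2 k ^ 2 D`, `∑ log p ≥ k ^ 2 log x`,
`k log x ≥ 2 (log 21 + log M) ≥ 6 + 2 log M`. So `hineq` gives, after division by `D`,
`2 k ^ 2 (2 log M + 6) ≤ 2 k ^ 2 log M + 2 (k + k ^ 2) + 2 M (k + ∑ p) h`, hence (`log M ≥ 0`)
`8 k ^ 2 ≤ 12 k ^ 2 - 2 (k + k ^ 2) ≤ 2 M (k + ∑ p) h ≤ 2 (2 k ^ 2 D) (2 k ^ 2 B) h` since
`k + k ^ 2 ≤ 2 k ^ 2` and `k + ∑ p ≤ k ^ 2 + k ^ 2 B ≤ 2 k ^ 2 B` (`B ≥ x ≥ 1`). Divide by
`8 k ^ 2`. -/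
theorem num_U {k D M x B : ℕ} {h : ℝ} (T : Finset ℕ) (hk : 2 ≤ k) (hT : T.card = k ^ 2)
    (hD : 1 ≤ D) (hM : M = (k + T.card) * D) (hx : ∀ p ∈ T, x ≤ p ∧ p ≤ B) (hx0 : 1 ≤ x)
    (hxk : (21 * M) ^ 2 ≤ x ^ k) (hh : 0 ≤ h)
    (hineq : 2 * (k : ℝ) * D * ∑ p ∈ T, Real.log p ≤
      ((M : ℝ) + D * (k * ((k : ℝ) - 1))) * Real.log M + 2 * M +
        2 * M * (D * (k + ∑ p ∈ T, (p : ℝ)) * h)) : 1 ≤ (k : ℝ) ^ 2 * D * B * h := by
  have hk0 : (2 : ℝ) ≤ k := by exact_mod_cast hk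
  have hD0 : (1 : ℝ) ≤ D := by exact_mod_cast hD
  have hMr : (M : ℝ) = ((k : ℝ) + (k : ℝ) ^ 2) * D := by
    rw [hM, hT]
    push_cast
    ring
  have hM1 : (1 : ℝ) ≤ M := by
    rw [hMr]
    nlinarith
  have hlM : 0 ≤ Real.log M := Real.log_nonneg hM1
  have hx1 : (1 : ℝ) ≤ x := by exact_mod_cast hx0
  have hTc : (T.card : ℝ) = (k : ℝ) ^ 2 := by
    rw [hT]
    push_cast
    ring
  have hlogs : (k : ℝ) ^ 2 * Real.log x ≤ ∑ p ∈ T, Real.log p := by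
    calc (k : ℝ) ^ 2 * Real.log x = ∑ _p ∈ T, Real.log x := by
          rw [Finset.sum_const, nsmul_eq_mul, hTc]
      _ ≤ _ := by
          refine Finset.sum_le_sum fun p hp => Real.log_le_log (by linarith) ?_
          exact_mod_cast (hx p hp).1
  have hsum : ∑ p ∈ T, (p : ℝ) ≤ (k : ℝ) ^ 2 * B := by
    calc ∑ p ∈ T, (p : ℝ) ≤ ∑ _p ∈ T, (B : ℝ) :=
          Finset.sum_le_sum fun p hp => by exact_mod_cast (hx p hp).2
      _ = _ := by rw [Finset.sum_const, nsmul_eq_mul, hTc]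
  have hB1 : (1 : ℝ) ≤ B := by
    have hne : T.Nonempty := by
      rw [← Finset.card_pos, hT]
      positivity
    obtain ⟨p, hp⟩ := hne
    obtain ⟨h1, h2⟩ := hx p hp
    have h3 : 1 ≤ B := hx0.trans (h1.trans h2)
    exact_mod_cast h3
  have hkx : 2 * (Real.log 21 + Real.log M) ≤ k * Real.log x := by
    have h1 : (((21 * M) ^ 2 : ℕ) : ℝ) ≤ ((x ^ k : ℕ) : ℝ) := Nat.cast_le.2 hxk
    push_cast at h1
    have h2 : Real.log ((21 * (M : ℝ)) ^ 2) ≤ Real.log ((x : ℝ) ^ k) :=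
      Real.log_le_log (by positivity) h1
    rw [Real.log_pow, Real.log_pow, Real.log_mul (by norm_num) (by linarith)] at h2
    push_cast at h2
    exact h2
  have h21 := d0_log21
  have hkD : 0 ≤ 2 * (k : ℝ) ^ 2 * D := by positivity
  have h1 : 2 * (k : ℝ) ^ 2 * D * (6 + 2 * Real.log M) ≤ 2 * (k : ℝ) * D * ∑ p ∈ T, Real.log p := by
    calc 2 * (k : ℝ) ^ 2 * D * (6 + 2 * Real.log M) ≤ 2 * (k : ℝ) ^ 2 * D * (k * Real.log x) :=
          mul_le_mul_of_nonneg_left (by linarith) hkD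
      _ = 2 * (k : ℝ) * D * ((k : ℝ) ^ 2 * Real.log x) := by ring
      _ ≤ _ := mul_le_mul_of_nonneg_left hlogs (by positivity)
  have h2 : ((M : ℝ) + D * (k * ((k : ℝ) - 1))) = 2 * (k : ℝ) ^ 2 * D := by
    rw [hMr]
    ring
  rw [h2] at hineq
  have h3 : (k : ℝ) + ∑ p ∈ T, (p : ℝ) ≤ 2 * (k : ℝ) ^ 2 * B := by
    have h4 : (k : ℝ) ≤ (k : ℝ) ^ 2 * B := by
      calc (k : ℝ) = k * 1 := (mul_one _).symm
        _ ≤ (k : ℝ) ^ 2 * B := by
            refine mul_le_mul ?_ hB1 zero_le_one (by positivity)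
            nlinarith
    linarith
  have h4 : (M : ℝ) ≤ 2 * (k : ℝ) ^ 2 * D := by
    rw [hMr]
    refine mul_le_mul_of_nonneg_right ?_ (by linarith)
    nlinarith
  have hs0 : 0 ≤ (k : ℝ) + ∑ p ∈ T, (p : ℝ) :=
    add_nonneg (by linarith) (Finset.sum_nonneg fun p _ => Nat.cast_nonneg p)
  have h5 : 2 * (M : ℝ) * (D * (k + ∑ p ∈ T, (p : ℝ)) * h) ≤
      2 * (2 * (k : ℝ) ^ 2 * D) * (D * (2 * (k : ℝ) ^ 2 * B) * h) := by
    refine mul_le_mul (by linarith) ?_ ?_ (by positivity)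
    · exact mul_le_mul_of_nonneg_right (mul_le_mul_of_nonneg_left h3 (by linarith)) hh
    · exact mul_nonneg (mul_nonneg (by linarith) hs0) hh
  have h6 : 0 ≤ 2 * (k : ℝ) ^ 2 * D * Real.log M := mul_nonneg hkD hlM
  have h7 : 2 * (M : ℝ) ≤ 4 * (k : ℝ) ^ 2 * D := by linarith
  have h8 : 8 * (k : ℝ) ^ 2 * D * 1 ≤ 8 * (k : ℝ) ^ 2 * D * ((k : ℝ) ^ 2 * D * B * h) := by
    have h9 : 8 * (k : ℝ) ^ 2 * D * ((k : ℝ) ^ 2 * D * B * h) =
      2 * (2 * (k : ℝ) ^ 2 * D) * (D * (2 * (k : ℝ) ^ 2 * B) * h) := by ring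
    rw [h9]
    linarith
  exact le_of_mul_le_mul_left h8 (by positivity)

end Pool.Agent.ZPB
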