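import Mathlib
import Pool.Agent.ZPB.Defs
import Pool.Agent.ZPB.K1

set_option autoImplicit false

namespace Pool.Agent.ZPB

variable {E : Type} [Field E] [NumberField E]

/-- Row K2. Automorphisms act on the roots of unity by powers, so the groups `fx (ζ ^ m)` are
normal.

Proof. `g⁻¹` maps `ζ ^ m` to a power of it: `g⁻¹ ζ` satisfies `(g⁻¹ ζ) ^ N = 1`, so
`g⁻¹ ζ = ζ ^ i` (`IsPrimitiveRoot.eq_pow_of_pow_eq_one`), `g⁻¹ (ζ ^ m) = (ζ ^ m) ^ i` is fixed by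
`h`, and `g (h (g⁻¹ (ζ ^ m))) = g (g⁻¹ (ζ ^ m)) = ζ ^ m`. -/
theorem fx_normal {N : ℕ} (hN : 0 < N) {ζ : E} (hζ : IsPrimitiveRoot ζ N) (m : ℕ)
    (g : E ≃ₐ[ℚ] E) {h : E ≃ₐ[ℚ] E} (hh : h ∈ fx (ζ ^ m)) : g * h * g⁻¹ ∈ fx (ζ ^ m) := by
  have hne : NeZero N := ⟨hN.ne'⟩
  rw [mem_fx] at hh ⊢
  have h1 : (g⁻¹ ζ) ^ N = 1 := by
    rw [← map_pow, hζ.pow_eq_one, map_one]
  obtain ⟨i, -, hi⟩ := hζ.eq_pow_of_pow_eq_one h1
  have h2 : g⁻¹ (ζ ^ m) = (ζ ^ m) ^ i := by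
    rw [map_pow, ← hi, ← pow_mul, ← pow_mul, mul_comm]
  have h3 : h (g⁻¹ (ζ ^ m)) = g⁻¹ (ζ ^ m) := by
    rw [h2, map_pow, hh]
  show g (h (g⁻¹ (ζ ^ m))) = ζ ^ m
  rw [h3]
  show (g * g⁻¹) (ζ ^ m) = ζ ^ m
  rw [mul_inv_cancel]
  rfl

/-- Row K2. `fx (ζ ^ a) ≤ fx (ζ ^ b)` for `a ∣ b`. -/
theorem fx_pow_le (ζ : E) {a b : ℕ} (h : a ∣ b) : fx (ζ ^ a) ≤ fx (ζ ^ b) := by
  obtain ⟨c, rfl⟩ := h
  intro g hg
  rw [mem_fx] at hg ⊢
  rw [pow_mul, map_pow, hg]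

/-- Row K2. If `fx ω` contains `H`, `ω ≠ 1`, `ω ^ p = 1`, and `ω * β` is in the orbit of `β`, then
`p` divides the number of elements of the orbit.

Proof. The orbit `S = orb H β` is stable under multiplication by `ω`: if `y = h β` and `ω β = g β`,
then `ω y = h (ω β) = h (g β) ∈ S`. The multiplication by `ω` is a permutation of the finite set `S`
all of whose cycles have length `p`, since `ω ^ i y = y` implies `ω ^ i = 1` (`β ≠ 0`, so `y ≠ 0`)
and `p` is prime. For instance: the group `Multiplicative (ZMod p)` or `Subgroup.zpowers ω` of order `p`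
acts freely on `S`; or use `MulAction.card_modEq_card_fixedPoints` for the `p`-group
`Subgroup.zpowers` (of order `p`) acting on `S` without fixed points: `card S ≡ 0` modulo `p`; or
`Equiv.Perm.card_fixedPoints_modEq` (a permutation `f` with `f ^ (p ^ n) = 1` has
`card α ≡ card fixedPoints` modulo `p`). -/
theorem dvd_card_of_mul {H : Subgroup (E ≃ₐ[ℚ] E)} {p : ℕ} (hp : p.Prime) {ω : E}
    (hω : ω ^ p = 1) (hω1 : ω ≠ 1) (hH : H ≤ fx ω) {β : E} (hβ : β ≠ 0)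
    (h : ω * β ∈ orb H β) : p ∣ (orb H β).card := by
  classical
  have hfact : Fact p.Prime := ⟨hp⟩
  obtain ⟨g, hg, hgβ⟩ := mem_orb.1 h
  have hst : ∀ y ∈ orb H β, ω * y ∈ orb H β := by
    intro y hy
    obtain ⟨k, hk, rfl⟩ := mem_orb.1 hy
    refine mem_orb.2 ⟨k * g, H.mul_mem hk hg, ?_⟩
    have hkω : k ω = ω := hH hk
    show k (g β) = ω * k β
    rw [hgβ, map_mul, hkω]
  have hy0 : ∀ y ∈ orb H β, y ≠ 0 := by
    intro y hy
    obtain ⟨k, hk, rfl⟩ := mem_orb.1 hy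
    exact (map_ne_zero k).2 hβ
  let f : Function.End {y // y ∈ orb H β} := fun y => ⟨ω * y.1, hst y.1 y.2⟩
  have hfk : ∀ (k : ℕ) (y : {y // y ∈ orb H β}), ((f ^ k) y : {y // y ∈ orb H β}).1 = ω ^ k * y.1 := by
    intro k
    induction k with
    | zero =>
      intro y
      rw [pow_zero, pow_zero, one_mul]
      rfl
    | succ k ih =>
      intro y
      rw [pow_succ, pow_succ]
      show ((f ^ k) (f y) : {y // y ∈ orb H β}).1 = _
      rw [ih]
      show ω ^ k * (ω * y.1) = _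
      ring
  have hf : f ^ p ^ 1 = 1 := by
    funext y
    apply Subtype.ext
    rw [hfk, pow_one, hω, one_mul]
    rfl
  have h1 := Equiv.Perm.card_fixedPoints_modEq (p := p) (n := 1) hf
  have h2 : IsEmpty (Function.fixedPoints f) := by
    constructor
    rintro ⟨y, hy⟩
    have h3 : ω * y.1 = y.1 := congrArg Subtype.val hy
    have h4 : (ω - 1) * y.1 = 0 := by
      rw [sub_mul, h3, one_mul, sub_self]
    rcases mul_eq_zero.1 h4 with h5 | h5
    · exact hω1 (sub_eq_zero.1 h5)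
    · exact hy0 y.1 y.2 h5
  have h6 : Fintype.card (Function.fixedPoints f) = 0 := Fintype.card_eq_zero_iff.2 h2
  have h7 : Fintype.card {y // y ∈ orb H β} ≡ 0 [MOD p] := h1.trans (by rw [h6])
  rw [Fintype.card_coe] at h7
  exact (Nat.modEq_zero_iff_dvd).1 h7

end Pool.Agent.ZPB
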