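import Mathlib
import Pool.Agent.ZPB.Defs
import Pool.Agent.ZPB.K1

set_option autoImplicit false

namespace Pool.Agent.ZPB

variable {E : Type} [Field E] [NumberField E]

/-- Row K3. A twisted element fixed by `B`, when the orbit has a number of elements prime to `p`.

Proof. Let `S = orb B β`, `r = S.card`, `b = ∏ y ∈ S, y`, fixed by `B` (`prod_orb_fixed`). Each
`y ∈ S` is `g β` with `g ∈ B`, `y ^ p = g (β ^ p) = β ^ p`, so `y = χ y * β` with
`(χ y) ^ p = 1`, `χ y = y / β`. So `b = ω' * β ^ r` with `ω' = ∏ χ y`, `ω' ^ p = 1`. Choose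
integers `x, y` with `x * r + y * p = 1` (`Nat.Coprime`, `Int.gcd_eq_gcd_ab`). Then
`b ^ x * (β ^ p) ^ y = ω' ^ x * β ^ (x r + y p) = ω' ^ x * β` is fixed by `B`
(`map_zpow₀`); take `ω = ω' ^ x`. -/
theorem exists_twist {B : Subgroup (E ≃ₐ[ℚ] E)} {p : ℕ} (hp : p.Prime) {β : E} (hβ : β ≠ 0)
    (hB : ∀ g ∈ B, g (β ^ p) = β ^ p) (hc : Nat.Coprime (orb B β).card p) :
    ∃ ω : E, ω ^ p = 1 ∧ ∀ g ∈ B, g (ω * β) = ω * β := by
  classical
  set S := orb B β with hS
  set b : E := ∏ y ∈ S, y with hb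
  have hbfix : ∀ g ∈ B, g b = b := fun g hg => prod_orb_fixed B β hg
  have hyp : ∀ y ∈ S, y ^ p = β ^ p := by
    intro y hy
    obtain ⟨g, hg, rfl⟩ := mem_orb.1 hy
    rw [← map_pow, hB g hg]
  set w : E := ∏ y ∈ S, y / β with hw
  have hwp : w ^ p = 1 := by
    rw [hw, ← Finset.prod_pow]
    refine Finset.prod_eq_one fun y hy => ?_
    rw [div_pow, hyp y hy, div_self (pow_ne_zero _ hβ)]
  have hbw : b = w * β ^ S.card := by
    rw [hw, ← Finset.prod_const, ← Finset.prod_mul_distrib, hb]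
    exact Finset.prod_congr rfl fun y _ => (div_mul_cancel₀ y hβ).symm
  have hw0 : w ≠ 0 := by
    intro h0
    rw [h0, zero_pow hp.ne_zero] at hwp
    exact zero_ne_one hwp
  have hgcd := Nat.gcd_eq_gcd_ab S.card p
  have hgcd1 : Nat.gcd S.card p = 1 := hc
  rw [hgcd1, Nat.cast_one] at hgcd
  set x := Nat.gcdA S.card p with hx
  set z := Nat.gcdB S.card p with hz
  refine ⟨w ^ x, ?_, ?_⟩
  · rw [← zpow_natCast, ← zpow_mul, mul_comm, zpow_mul, zpow_natCast, hwp, one_zpow]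
  · have e : w ^ x * β = b ^ x * (β ^ p) ^ z := by
      rw [hbw, mul_zpow, mul_assoc]
      congr 1
      rw [← zpow_natCast β S.card, ← zpow_natCast β p, ← zpow_mul, ← zpow_mul,
        ← zpow_add₀ hβ, ← hgcd, zpow_one]
    intro g hg
    rw [e, map_mul, map_zpow₀, map_zpow₀, hbfix g hg, hB g hg]

/-- Row K3. The number of elements of the orbit is prime to `p` if the subgroup of `B` acting
trivially on the `p`-th roots of unity fixes `β`.

Proof. Let `K = B ⊓ fx ω`. It is the kernel of the homomorphism `B → (ZMod p)ˣ` giving the action on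
`ω` (`IsPrimitiveRoot.autToPow`, `IsPrimitiveRoot.autToPow_spec`; `[NeZero p]` from `hp`), so the
index of `K` in `B`, that is `Nat.card B / Nat.card K`, divides `p - 1`
(`Nat.card (ZMod p)ˣ = p - 1`, `ZMod.card_units`; `Subgroup.index_ker`,
`Subgroup.card_subgroup_dvd_card` for the range). `K ≤ B ⊓ fx β`, so by `orb_card_mul`
`(orb B β).card = Nat.card B / Nat.card (B ⊓ fx β)` divides `Nat.card B / Nat.card K`, so it divides
`p - 1`, and it is prime to `p`. -/
theorem coprime_orb {B : Subgroup (E ≃ₐ[ℚ] E)} {p : ℕ} (hp : p.Prime) {ω : E}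
    (hω : IsPrimitiveRoot ω p) {β : E} (hB : B ⊓ fx ω ≤ fx β) :
    Nat.Coprime (orb B β).card p := by
  classical
  have hsub : orb B ω ⊆ primitiveRoots p E := by
    intro y hy
    obtain ⟨g, hg, rfl⟩ := mem_orb.1 hy
    rw [mem_primitiveRoots hp.pos]
    exact hω.map_of_injective g.injective
  have h1 : (orb B ω).card ≤ p - 1 := by
    rw [← Nat.totient_prime hp, ← hω.card_primitiveRoots]
    exact Finset.card_le_card hsub
  have h2 := orb_card_mul B β
  have h3 := orb_card_mul B ω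
  have h4 : Nat.card (B ⊓ fx ω : Subgroup (E ≃ₐ[ℚ] E)) ≤
      Nat.card (B ⊓ fx β : Subgroup (E ≃ₐ[ℚ] E)) :=
    Nat.le_of_dvd Nat.card_pos (Subgroup.card_dvd_of_le (le_inf inf_le_left hB))
  have h5 : 0 < Nat.card (B ⊓ fx ω : Subgroup (E ≃ₐ[ℚ] E)) := Nat.card_pos
  have h6 : (orb B β).card ≤ (orb B ω).card := by
    by_contra hcon
    push Not at hcon
    have h7 : (orb B ω).card * Nat.card (B ⊓ fx ω : Subgroup (E ≃ₐ[ℚ] E)) <
        (orb B β).card * Nat.card (B ⊓ fx β : Subgroup (E ≃ₐ[ℚ] E)) :=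
      Nat.mul_lt_mul_of_lt_of_le hcon h4 (lt_of_lt_of_le h5 h4)
    rw [h2, h3] at h7
    exact lt_irrefl _ h7
  have h8 := orb_card_pos B β
  have h9 : (orb B β).card < p := by
    have := hp.two_le
    omega
  exact (Nat.coprime_of_lt_prime h8.ne' h9 hp).symm

end Pool.Agent.ZPB
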