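import Mathlib
import Pool.Agent.ZPB.Defs
import Pool.Agent.ZPB.K1
import Pool.Agent.ZPB.K2
import Pool.Agent.ZPB.K3

set_option autoImplicit false

namespace Pool.Agent.ZPB

variable {E : Type} [Field E] [NumberField E]

theorem k4_finite (H : Subgroup (E ≃ₐ[ℚ] E)) : Finite H := inferInstance

theorem k4_ne_zero {H : Subgroup (E ≃ₐ[ℚ] E)} {β x : E} (hβ : β ≠ 0) (hx : x ∈ orb H β) :
    x ≠ 0 := by
  obtain ⟨g, _, rfl⟩ := mem_orb.1 hx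
  intro h
  exact hβ (g.injective (by rw [h, map_zero]))

theorem k4_le_fx {n : ℕ} (hn : 0 < n) {θ χ : E} (hθ : IsPrimitiveRoot θ n) (hχ : χ ^ n = 1) :
    fx θ ≤ fx χ := by
  have : NeZero n := ⟨hn.ne'⟩
  obtain ⟨i, _, hi⟩ := hθ.eq_pow_of_pow_eq_one hχ
  intro g hg
  have h1 : g θ = θ := hg
  show g χ = χ
  rw [← hi, map_pow, h1]

/-- Row K4. Notation: `H = fx (ζ ^ (N0 / N))` fixes the primitive `N`-th root of unity
`ζ ^ (N0 / N)` (`IsPrimitiveRoot.pow`).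

Proof. Let `x, y ∈ orb H β`, `x ^ p = y ^ p`, `ω = y / x`, `ω ^ p = 1` (`x ≠ 0`). Suppose `ω ≠ 1`. As
`p ∣ N`, `ω ^ N = 1`, so `ω` is a power of `ζ ^ (N0 / N)` (`IsPrimitiveRoot.eq_pow_of_pow_eq_one`) and
`H ≤ fx ω`. `orb H x = orb H β` (`orb_eq`) contains `y = ω * x`, so `dvd_card_of_mul` gives
`p ∣ (orb H β).card`, a contradiction. -/
theorem inj_of_dvd {N0 : ℕ} (hN0 : 0 < N0) {ζ : E} (hζ : IsPrimitiveRoot ζ N0) {N : ℕ}
    (hN : N ∣ N0) {p : ℕ} (hp : p.Prime) (hpN : p ∣ N) {β : E} (hβ : β ≠ 0)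
    (hc : ¬ p ∣ (orb (fx (ζ ^ (N0 / N))) β).card) :
    ∀ x ∈ orb (fx (ζ ^ (N0 / N))) β, ∀ y ∈ orb (fx (ζ ^ (N0 / N))) β, x ^ p = y ^ p → x = y := by
  intro x hx y hy hxy
  by_contra hne
  have hN' : 0 < N := Nat.pos_of_dvd_of_pos hN hN0
  have hθ : IsPrimitiveRoot (ζ ^ (N0 / N)) N := hζ.pow hN0 (Nat.div_mul_cancel hN).symm
  have hx0 : x ≠ 0 := k4_ne_zero hβ hx
  have hω : (y / x) ^ p = 1 := by
    rw [div_pow, ← hxy, div_self (pow_ne_zero _ hx0)]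
  have hω1 : y / x ≠ 1 := by
    intro h
    apply hne
    rw [div_eq_one_iff_eq hx0] at h
    exact h.symm
  have hωN : (y / x) ^ N = 1 := by
    obtain ⟨M, rfl⟩ := hpN
    rw [pow_mul, hω, one_pow]
  have hle : fx (ζ ^ (N0 / N)) ≤ fx (y / x) := k4_le_fx hN' hθ hωN
  have hmem : y / x * x ∈ orb (fx (ζ ^ (N0 / N))) x := by
    rw [div_mul_cancel₀ _ hx0, orb_eq hx]
    exact hy
  have hd := dvd_card_of_mul hp hω hω1 hle hx0 hmem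
  rw [orb_eq hx] at hd
  exact hc hd

/-- Row K4.

Proof. `H = fx (ζ ^ (N0 / N))`, `ω0 = ζ ^ (N0 / p)`, a primitive `p`-th root of unity,
`B = H ⊓ fx (β ^ p)`.
(1) `B ⊓ fx ω0 ≤ fx β`: let `g` be in the left side, `χ = g β / β`, `χ ^ p = 1`. If `χ ≠ 1` put
`K = H ⊓ fx ω0`; `χ` is a power of `ω0`, so `K ≤ fx χ`, and `χ * β = g β ∈ orb K β`, so
`dvd_card_of_mul` gives `p ∣ (orb K β).card`. `K` is normal in `H` (conjugation stays in `H` and in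
`fx ω0` by `fx_normal`), so `orb_card_dvd` gives `(orb K β).card ∣ (orb H β).card`, contradiction.
(2) By `coprime_orb` and `exists_twist` there is `ω` with `ω ^ p = 1` and `B ≤ fx (ω * β)`.
(3) `orb_card_mul` for `β` and `ω * β` and `hmin ω` give
`Nat.card (H ⊓ fx (ω * β)) ≤ Nat.card (H ⊓ fx β)`; `B ≤ H ⊓ fx (ω * β)` and `H ⊓ fx β ≤ B`, so
`B = H ⊓ fx β` (finite groups: `Subgroup.eq_of_le_of_card_ge`).
(4) If `x = g β`, `y = g' β`, `g, g' ∈ H`, `x ^ p = y ^ p` then `g⁻¹ * g' ∈ B`, so it fixes `β` and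
`x = y`. -/
theorem inj_of_not_dvd {N0 : ℕ} (hN0 : 0 < N0) {ζ : E} (hζ : IsPrimitiveRoot ζ N0) {N : ℕ}
    (hN : N ∣ N0) {p : ℕ} (hp : p.Prime) (hpN0 : p ∣ N0) {β : E} (hβ : β ≠ 0)
    (hc : ¬ p ∣ (orb (fx (ζ ^ (N0 / N))) β).card)
    (hmin : ∀ ω : E, ω ^ p = 1 →
      (orb (fx (ζ ^ (N0 / N))) β).card ≤ (orb (fx (ζ ^ (N0 / N))) (ω * β)).card) :
    ∀ x ∈ orb (fx (ζ ^ (N0 / N))) β, ∀ y ∈ orb (fx (ζ ^ (N0 / N))) β, x ^ p = y ^ p → x = y := by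
  set H : Subgroup (E ≃ₐ[ℚ] E) := fx (ζ ^ (N0 / N)) with hH
  have hω0 : IsPrimitiveRoot (ζ ^ (N0 / p)) p := hζ.pow hN0 (Nat.div_mul_cancel hpN0).symm
  have hB1 : (H ⊓ fx (β ^ p)) ⊓ fx (ζ ^ (N0 / p)) ≤ fx β := by
    intro g hg
    by_contra hgβ
    have hgH : g ∈ H := hg.1.1
    have hgp : g (β ^ p) = β ^ p := hg.1.2
    have hgω : g ∈ fx (ζ ^ (N0 / p)) := hg.2
    have hχ : (g β / β) ^ p = 1 := by
      rw [div_pow, ← map_pow, hgp, div_self (pow_ne_zero _ hβ)]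
    have hχ1 : g β / β ≠ 1 := by
      intro h
      apply hgβ
      rw [div_eq_one_iff_eq hβ] at h
      exact h
    have hK : H ⊓ fx (ζ ^ (N0 / p)) ≤ fx (g β / β) :=
      inf_le_right.trans (k4_le_fx hp.pos hω0 hχ)
    have hmem : g β / β * β ∈ orb (H ⊓ fx (ζ ^ (N0 / p))) β := by
      rw [div_mul_cancel₀ _ hβ]
      exact mem_orb.2 ⟨g, ⟨hgH, hgω⟩, rfl⟩
    have hd := dvd_card_of_mul hp hχ hχ1 hK hβ hmem
    have hd2 : (orb (H ⊓ fx (ζ ^ (N0 / p))) β).card ∣ (orb H β).card := by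
      refine orb_card_dvd inf_le_left (fun g' hg' h hh => ⟨?_, ?_⟩) β
      · exact H.mul_mem (H.mul_mem hg' hh.1) (H.inv_mem hg')
      · exact fx_normal hN0 hζ (N0 / p) g' hh.2
    exact hc (hd.trans hd2)
  have hcop := coprime_orb hp hω0 hB1
  obtain ⟨ω, hω, hfix⟩ := exists_twist (B := H ⊓ fx (β ^ p)) hp hβ (fun g hg => hg.2) hcop
  have hBle : H ⊓ fx (β ^ p) ≤ H ⊓ fx (ω * β) := fun g hg => ⟨hg.1, hfix g hg⟩
  have hBge : H ⊓ fx β ≤ H ⊓ fx (β ^ p) := fun g hg => by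
    refine ⟨hg.1, ?_⟩
    have h1 : g β = β := hg.2
    show g (β ^ p) = β ^ p
    rw [map_pow, h1]
  have hc1 := orb_card_mul H β
  have hc2 := orb_card_mul H (ω * β)
  have hm := hmin ω hω
  have hpos1 : 0 < Nat.card (H ⊓ fx β : Subgroup (E ≃ₐ[ℚ] E)) := Nat.card_pos
  have hop := orb_card_pos H β
  have hcard : Nat.card (H ⊓ fx (ω * β) : Subgroup (E ≃ₐ[ℚ] E)) ≤
      Nat.card (H ⊓ fx β : Subgroup (E ≃ₐ[ℚ] E)) := by
    have h1 : (orb H β).card * Nat.card (H ⊓ fx (ω * β) : Subgroup (E ≃ₐ[ℚ] E)) ≤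
        (orb H β).card * Nat.card (H ⊓ fx β : Subgroup (E ≃ₐ[ℚ] E)) := by
      rw [hc1, ← hc2]
      exact Nat.mul_le_mul_right _ hm
    exact Nat.le_of_mul_le_mul_left h1 hop
  have hcard2 : Nat.card (H ⊓ fx (β ^ p) : Subgroup (E ≃ₐ[ℚ] E)) ≤
      Nat.card (H ⊓ fx (ω * β) : Subgroup (E ≃ₐ[ℚ] E)) := Subgroup.card_le_of_le hBle
  have heq : H ⊓ fx β = H ⊓ fx (β ^ p) :=
    Subgroup.eq_of_le_of_card_ge hBge (hcard2.trans hcard)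
  intro x hx y hy hxy
  obtain ⟨g, hg, rfl⟩ := mem_orb.1 hx
  obtain ⟨g', hg', rfl⟩ := mem_orb.1 hy
  have h1 : (g⁻¹ * g') ∈ H ⊓ fx (β ^ p) := by
    refine ⟨H.mul_mem (H.inv_mem hg) hg', ?_⟩
    show g⁻¹ (g' (β ^ p)) = β ^ p
    rw [map_pow, ← hxy, ← map_pow]
    exact g.symm_apply_apply _
  rw [← heq] at h1
  have h2 : g⁻¹ (g' β) = β := h1.2
  have h3 : g (g⁻¹ (g' β)) = g' β := g.apply_symm_apply _
  rw [h2] at h3
  exact h3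

end Pool.Agent.ZPB
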