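import Mathlib
import Pool.Agent.ZPB.Defs
import Pool.Agent.ZPB.K1
import Pool.Agent.ZPB.K2
import Pool.Agent.ZPB.K3

set_option autoImplicit false

namespace Pool.Agent.ZPB

variable {E : Type} [Field E] [NumberField E]

theorem k5_fix {M p : ℕ} (hc : Nat.Coprime p M) {θ : E} (hθ : θ ≠ 0) {g : E ≃ₐ[ℚ] E}
    (h1 : g (θ ^ p) = θ ^ p) (h2 : g (θ ^ M) = θ ^ M) : g θ = θ := by
  have hb : (Nat.gcd p M : ℤ) = (p : ℤ) * Nat.gcdA p M + (M : ℤ) * Nat.gcdB p M :=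
    Nat.gcd_eq_gcd_ab p M
  rw [Nat.Coprime.gcd_eq_one hc, Nat.cast_one] at hb
  have e : θ = (θ ^ p) ^ (Nat.gcdA p M) * (θ ^ M) ^ (Nat.gcdB p M) := by
    rw [← zpow_natCast θ p, ← zpow_natCast θ M, ← zpow_mul, ← zpow_mul, ← zpow_add₀ hθ, ← hb,
      zpow_one]
  calc g θ = g ((θ ^ p) ^ (Nat.gcdA p M) * (θ ^ M) ^ (Nat.gcdB p M)) := by rw [← e]
    _ = (g (θ ^ p)) ^ (Nat.gcdA p M) * (g (θ ^ M)) ^ (Nat.gcdB p M) := by
        rw [map_mul, map_zpow₀, map_zpow₀]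
    _ = θ := by rw [h1, h2, ← e]

/-- Row K5. The case where `p` divides `N` exactly once.

Proof. `H = fx (ζ ^ (N0 / N))`, `H' = fx (ζ ^ (N0 / (N / p)))`, `ω0 = ζ ^ (N0 / p)` a primitive
`p`-th root of unity, `B = H' ⊓ fx (β ^ p)`.
(1) `H' ⊓ fx ω0 ≤ H`: `N / p` and `p` are coprime (`¬ p ^ 2 ∣ N`), so the primitive `N`-th root
`θ = ζ ^ (N0 / N)` is a product of powers of `θ ^ p = ζ ^ (N0 / (N / p))` and
`θ ^ (N / p) = ω0` (`x * p + y * (N / p) = 1` with integers `x, y`;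
`N0 / (N / p) = (N0 / N) * p`, `N0 / p = (N0 / N) * (N / p)`).
(2) `B ⊓ fx ω0 ≤ fx β`: `g` in the left side is in `H`, so `g β ∈ orb H β` and
`(g β) ^ p = β ^ p`, so `g β = β` by `hinj`.
(3) `coprime_orb` and `exists_twist` give `ω`, `ω ^ p = 1`, with `B ≤ fx (ω * β)`.
(4) `orb_card_mul H' (ω * β)`, `orb_card_mul H' (β ^ p)` and `B ≤ H' ⊓ fx (ω * β)`
(`Nat.card` of finite groups, `Subgroup.card_le_card_group`-like monotonicity; the factors are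
positive) give the inequality. -/
theorem twist_of_exact {N0 : ℕ} (hN0 : 0 < N0) {ζ : E} (hζ : IsPrimitiveRoot ζ N0) {N : ℕ}
    (hN : N ∣ N0) {p : ℕ} (hp : p.Prime) (hpN : p ∣ N) (hp2 : ¬ p ^ 2 ∣ N) {β : E} (hβ : β ≠ 0)
    (hinj : ∀ x ∈ orb (fx (ζ ^ (N0 / N))) β, ∀ y ∈ orb (fx (ζ ^ (N0 / N))) β,
      x ^ p = y ^ p → x = y) :
    ∃ ω : E, ω ^ p = 1 ∧ (orb (fx (ζ ^ (N0 / (N / p)))) (ω * β)).card ≤
      (orb (fx (ζ ^ (N0 / (N / p)))) (β ^ p)).card := by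
  obtain ⟨M, rfl⟩ := hpN
  obtain ⟨K, rfl⟩ := hN
  have hp0 : 0 < p := hp.pos
  have hM0 : 0 < M := by
    rcases Nat.eq_zero_or_pos M with h | h
    · subst h; simp at hN0
    · exact h
  have hK0 : 0 < K := by
    rcases Nat.eq_zero_or_pos K with h | h
    · subst h; simp at hN0
    · exact h
  have e1 : p * M * K / (p * M) = K := Nat.mul_div_cancel_left K (Nat.mul_pos hp0 hM0)
  have e2 : p * M / p = M := Nat.mul_div_cancel_left M hp0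
  have e3 : p * M * K / M = K * p := by
    rw [show p * M * K = M * (K * p) by ring]
    exact Nat.mul_div_cancel_left _ hM0
  have hζ0 : ζ ≠ 0 := hζ.ne_zero hN0.ne'
  rw [e1] at hinj
  rw [e2, e3]
  have hω0 : IsPrimitiveRoot (ζ ^ (K * M)) p := hζ.pow hN0 (by ring)
  have hcopM : Nat.Coprime p M := by
    rw [Nat.Prime.coprime_iff_not_dvd hp]
    intro h
    apply hp2
    rw [pow_two]
    exact Nat.mul_dvd_mul_left p h
  have hB : (fx (ζ ^ (K * p)) ⊓ fx (β ^ p)) ⊓ fx (ζ ^ (K * M)) ≤ fx β := by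
    intro g hg
    have h1 : g (ζ ^ (K * p)) = ζ ^ (K * p) := hg.1.1
    have h2 : g (β ^ p) = β ^ p := hg.1.2
    have h3 : g (ζ ^ (K * M)) = ζ ^ (K * M) := hg.2
    have h4 : g (ζ ^ K) = ζ ^ K :=
      k5_fix hcopM (pow_ne_zero _ hζ0) (by rw [← pow_mul]; exact h1)
        (by rw [← pow_mul]; exact h3)
    show g β = β
    refine hinj (g β) (mem_orb.2 ⟨g, h4, rfl⟩) β (mem_orb.2 ⟨1, Subgroup.one_mem _, rfl⟩) ?_
    rw [← map_pow, h2]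
  have hcop := coprime_orb hp hω0 hB
  obtain ⟨ω, hω, hfix⟩ := exists_twist (B := fx (ζ ^ (K * p)) ⊓ fx (β ^ p)) hp hβ
    (fun g hg => hg.2) hcop
  refine ⟨ω, hω, ?_⟩
  have hBle : fx (ζ ^ (K * p)) ⊓ fx (β ^ p) ≤ fx (ζ ^ (K * p)) ⊓ fx (ω * β) :=
    fun g hg => ⟨hg.1, hfix g hg⟩
  have hc1 := orb_card_mul (fx (ζ ^ (K * p))) (ω * β)
  have hc2 := orb_card_mul (fx (ζ ^ (K * p))) (β ^ p)
  have hle : Nat.card (fx (ζ ^ (K * p)) ⊓ fx (β ^ p) : Subgroup (E ≃ₐ[ℚ] E)) ≤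
      Nat.card (fx (ζ ^ (K * p)) ⊓ fx (ω * β) : Subgroup (E ≃ₐ[ℚ] E)) :=
    Subgroup.card_le_of_le hBle
  have hpos : 0 < Nat.card (fx (ζ ^ (K * p)) ⊓ fx (ω * β) : Subgroup (E ≃ₐ[ℚ] E)) :=
    Nat.card_pos
  refine Nat.le_of_mul_le_mul_right ?_ hpos
  rw [hc1, ← hc2]
  exact Nat.mul_le_mul_left _ hle

end Pool.Agent.ZPB
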