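import Mathlib
import Pool.Agent.ZPB.Defs
import Pool.Agent.ZPB.K1
import Pool.Agent.ZPB.K2
import Pool.Agent.ZPB.K3

set_option autoImplicit false

namespace Pool.Agent.ZPB

variable {E : Type} [Field E] [NumberField E]

/-- Elements fixing `θ ^ p` fix the `p`-th roots of unity. -/
private theorem k6_fix {N : ℕ} (hN : 0 < N) {θ : E} (hθ : IsPrimitiveRoot θ N) {p : ℕ}
    (hp : p.Prime) (hp2 : p ^ 2 ∣ N) {g : E ≃ₐ[ℚ] E} (hg : g (θ ^ p) = θ ^ p) {x : E}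
    (hx : x ^ p = 1) : g x = x := by
  obtain ⟨c, hc⟩ := hp2
  have h1 : N = p * (p * c) := by rw [hc]; ring
  have h2 : IsPrimitiveRoot (θ ^ p) (p * c) := hθ.pow hN h1
  have hpc : 0 < p * c := by
    rcases Nat.eq_zero_or_pos (p * c) with h | h
    · rw [h, mul_zero] at h1
      omega
    · exact h
  have h3 : x ^ (p * c) = 1 := by rw [pow_mul, hx, one_pow]
  haveI : NeZero (p * c) := ⟨hpc.ne'⟩
  obtain ⟨i, -, hi⟩ := h2.eq_pow_of_pow_eq_one h3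
  rw [← hi, map_pow, hg]

/-- The homomorphism `g ↦ g θ / θ`. -/
private noncomputable def k6_psi {N : ℕ} (hN : 0 < N) {θ : E} (hθ : IsPrimitiveRoot θ N) {p : ℕ}
    (hp : p.Prime) (hp2 : p ^ 2 ∣ N) (B : Subgroup (E ≃ₐ[ℚ] E)) (hB : B ≤ fx (θ ^ p)) :
    B →* Eˣ where
  toFun g := Units.mk0 ((g : E ≃ₐ[ℚ] E) θ / θ)
    (div_ne_zero (by
      intro h
      exact hθ.ne_zero hN.ne' (by simpa using h)) (hθ.ne_zero hN.ne'))
  map_one' := by
    ext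
    show (1 : E ≃ₐ[ℚ] E) θ / θ = 1
    exact div_self (hθ.ne_zero hN.ne')
  map_mul' := by
    intro g h
    ext
    have h0 : θ ≠ 0 := hθ.ne_zero hN.ne'
    have hg : (g : E ≃ₐ[ℚ] E) (θ ^ p) = θ ^ p := hB g.2
    have hh : (h : E ≃ₐ[ℚ] E) (θ ^ p) = θ ^ p := hB h.2
    have h1 : ((h : E ≃ₐ[ℚ] E) θ / θ) ^ p = 1 := by
      rw [div_pow, ← map_pow, hh, div_self (pow_ne_zero _ h0)]
    have h2 := k6_fix hN hθ hp hp2 hg h1
    show (g : E ≃ₐ[ℚ] E) ((h : E ≃ₐ[ℚ] E) θ) / θ =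
      ((g : E ≃ₐ[ℚ] E) θ / θ) * ((h : E ≃ₐ[ℚ] E) θ / θ)
    have h3 : (h : E ≃ₐ[ℚ] E) θ = ((h : E ≃ₐ[ℚ] E) θ / θ) * θ := by
      rw [div_mul_cancel₀ _ h0]
    have h4 : (g : E ≃ₐ[ℚ] E) ((h : E ≃ₐ[ℚ] E) θ) =
        ((h : E ≃ₐ[ℚ] E) θ / θ) * (g : E ≃ₐ[ℚ] E) θ := by
      calc (g : E ≃ₐ[ℚ] E) ((h : E ≃ₐ[ℚ] E) θ)
          = (g : E ≃ₐ[ℚ] E) (((h : E ≃ₐ[ℚ] E) θ / θ) * θ) := by rw [← h3]
        _ = (g : E ≃ₐ[ℚ] E) ((h : E ≃ₐ[ℚ] E) θ / θ) * (g : E ≃ₐ[ℚ] E) θ := map_mul _ _ _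
        _ = _ := by rw [h2]
    rw [h4]
    ring

private theorem k6_card {N : ℕ} (hN : 0 < N) {θ : E} (hθ : IsPrimitiveRoot θ N) {p : ℕ}
    (hp : p.Prime) (hp2 : p ^ 2 ∣ N) (B : Subgroup (E ≃ₐ[ℚ] E)) (hB : B ≤ fx (θ ^ p)) :
    Nat.card B ≤ p * Nat.card (B ⊓ fx θ : Subgroup (E ≃ₐ[ℚ] E)) ∧
    (¬ B ≤ fx θ → Nat.card B = p * Nat.card (B ⊓ fx θ : Subgroup (E ≃ₐ[ℚ] E))) := by
  classical
  have h0 : θ ≠ 0 := hθ.ne_zero hN.ne'
  haveI : Fact p.Prime := ⟨hp⟩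
  haveI : NeZero p := ⟨hp.ne_zero⟩
  set ψ := k6_psi hN hθ hp hp2 B hB with hψ
  have hval : ∀ g : B, ((ψ g : Eˣ) : E) = (g : E ≃ₐ[ℚ] E) θ / θ := fun g => rfl
  have hcard : Nat.card ψ.ker * Nat.card ψ.range = Nat.card B := by
    have h1 := Subgroup.card_mul_index ψ.ker
    rw [Subgroup.index_ker] at h1
    exact h1
  have hker : Nat.card ψ.ker = Nat.card (B ⊓ fx θ : Subgroup (E ≃ₐ[ℚ] E)) := by
    refine Nat.card_congr
      ⟨fun g => ⟨((g : B) : E ≃ₐ[ℚ] E), ⟨(g : B).2, ?_⟩⟩,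
        fun g => ⟨⟨(g : E ≃ₐ[ℚ] E), g.2.1⟩, ?_⟩, fun g => rfl, fun g => rfl⟩
    · have h1 : ψ (g : B) = 1 := g.2
      have h2 := hval (g : B)
      rw [h1] at h2
      have h3 : (((g : B) : E ≃ₐ[ℚ] E) θ) / θ = 1 := by
        rw [← h2]
        rfl
      show ((g : B) : E ≃ₐ[ℚ] E) θ = θ
      exact (div_eq_one_iff_eq h0).1 h3
    · show ψ ⟨(g : E ≃ₐ[ℚ] E), g.2.1⟩ = 1
      ext
      rw [hval]
      have h2 : (g : E ≃ₐ[ℚ] E) θ = θ := g.2.2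
      show (g : E ≃ₐ[ℚ] E) θ / θ = 1
      rw [h2, div_self h0]
  have hpN : p ∣ N := (dvd_pow_self p two_ne_zero).trans hp2
  obtain ⟨c, hc⟩ := hpN
  have hprim : IsPrimitiveRoot (θ ^ c) p := hθ.pow hN (by rw [hc, mul_comm])
  have hroots : Nat.card (rootsOfUnity p E) = p := hprim.card_rootsOfUnity
  have hle : ψ.range ≤ rootsOfUnity p E := by
    rintro _ ⟨g, rfl⟩
    rw [mem_rootsOfUnity]
    ext
    rw [Units.val_pow_eq_pow_val, hval, div_pow, ← map_pow]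
    have hg : (g : E ≃ₐ[ℚ] E) (θ ^ p) = θ ^ p := hB g.2
    rw [hg, div_self (pow_ne_zero _ h0)]
    rfl
  have hdvd : Nat.card ψ.range ∣ p := by
    have h1 := Subgroup.card_dvd_of_le hle
    rwa [hroots] at h1
  constructor
  · rw [← hcard, hker, mul_comm]
    exact Nat.mul_le_mul_right _ (Nat.le_of_dvd hp.pos hdvd)
  · intro hnot
    rcases (Nat.dvd_prime hp).1 hdvd with h | h
    · exfalso
      apply hnot
      intro g hg
      have h1 : ψ.range = ⊥ := Subgroup.card_eq_one.1 h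
      have h2 : ψ ⟨g, hg⟩ ∈ ψ.range := ⟨_, rfl⟩
      rw [h1, Subgroup.mem_bot] at h2
      have h3 := hval ⟨g, hg⟩
      rw [h2] at h3
      have h4 : g θ / θ = 1 := by
        rw [← show ((1 : Eˣ) : E) = g θ / θ from h3]
        rfl
      exact (div_eq_one_iff_eq h0).1 h4
    · rw [← hcard, hker, h, mul_comm]

private theorem k6_pow {g : E ≃ₐ[ℚ] E} {x r : E} (hg : g x = r * x) (hr : g r = r) (i : ℕ) :
    (g ^ i) x = r ^ i * x := by
  induction i with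
  | zero =>
    rw [pow_zero, pow_zero, one_mul]
    rfl
  | succ i ih =>
    rw [pow_succ']
    show g ((g ^ i) x) = _
    rw [ih, map_mul, map_pow, hr, hg, pow_succ]
    ring

/-- Row K6. The case where `p ^ 2` divides `N`.

Proof. `θ = ζ ^ (N0 / N)`, a primitive `N`-th root of unity, `H = fx θ`,
`H' = fx (ζ ^ (N0 / (N / p))) = fx (θ ^ p)`, `Eo = (orb H β).card`. Let `g ∈ H'`.
`(g θ) ^ p = θ ^ p`, so `g θ = ψ g * θ` with `(ψ g) ^ p = 1`. `H'` fixes all `p`-th roots of unity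
(they are powers of `θ ^ p`, a primitive `N / p`-th root, because `p ∣ N / p`), so `ψ` is multiplicative
on `H'`; `ψ g = 1` iff `g ∈ H`. All values of `ψ` are powers of a fixed primitive `p`-th root of
unity. Hence `Nat.card H' ≤ p * Nat.card H` (the map `H' → (values)` has fibres of size
`Nat.card H` and at most `p` values), and if `ψ` is not trivial on a subgroup `B ≤ H'` then
`Nat.card B = p * Nat.card (B ⊓ H)` (`p` prime; the image is a nontrivial subgroup of a group of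
order `p`). It may be best to define `ψ : H' →* (rootsOfUnity p E)` and to use
`Subgroup.card_mul_index`, `Subgroup.index_ker` and that subgroups of a group of prime order are
trivial or everything.
Let `B = H' ⊓ fx (β ^ p)`. By `hinj`, `H ⊓ fx (β ^ p) = H ⊓ fx β` and so
`B ⊓ H = H ⊓ fx β`. By `orb_card_mul`: `(orb H' (β ^ p)).card * Nat.card B = Nat.card H'` and
`Eo * Nat.card (H ⊓ fx β) = Nat.card H`.
Case 1: `B ≤ H`. Then `B = H ⊓ fx β`. If `H' ≤ H` then `H' = H`; take `ω = 1`. Otherwise `ψ` is not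
trivial on `H'`, so `Nat.card H' = p * Nat.card H` and `(orb H' (β ^ p)).card = p * Eo`,
contradicting `hlt`.
Case 2: there is `g0 ∈ B` with `ρ = ψ g0 ≠ 1`. `ρ` is a primitive `p`-th root of unity. For `g ∈ B` put
`χ g = g β / β`, `(χ g) ^ p = 1`. `χ g0 = ρ ^ j` for some `j`. Let `g ∈ B`, `ψ g = ρ ^ i`. Then
`g0 ^ (-i) * g ∈ B ⊓ H` (as `ψ` is multiplicative) fixes `β`, so
`g β = g0 ^ i β = ρ ^ (i j) * β` (`g0 β = ρ ^ j β` and `g0` fixes `ρ`), while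
`g (θ ^ j) = ρ ^ (i j) * θ ^ j`. So `g` fixes `ω * β`, `ω = (θ ^ j)⁻¹`, `ω ^ N = 1`. Therefore
`B ≤ H' ⊓ fx (ω * β)` and `(orb H' (ω * β)).card * Nat.card B ≤ Nat.card H' ≤ p * Nat.card H
= p * Eo * Nat.card (H ⊓ fx β) = Eo * Nat.card B`. -/
theorem twist_of_sq {N0 : ℕ} (hN0 : 0 < N0) {ζ : E} (hζ : IsPrimitiveRoot ζ N0) {N : ℕ}
    (hN : N ∣ N0) {p : ℕ} (hp : p.Prime) (hp2 : p ^ 2 ∣ N) {β : E} (hβ : β ≠ 0)
    (hinj : ∀ x ∈ orb (fx (ζ ^ (N0 / N))) β, ∀ y ∈ orb (fx (ζ ^ (N0 / N))) β,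
      x ^ p = y ^ p → x = y)
    (hlt : (orb (fx (ζ ^ (N0 / (N / p)))) (β ^ p)).card < p * (orb (fx (ζ ^ (N0 / N))) β).card) :
    ∃ ω : E, ω ^ N = 1 ∧ (orb (fx (ζ ^ (N0 / (N / p)))) (ω * β)).card ≤
      (orb (fx (ζ ^ (N0 / N))) β).card := by
  classical
  have hNpos : 0 < N := Nat.pos_of_dvd_of_pos hN hN0
  obtain ⟨M, hM⟩ := hN
  have hMpos : 0 < M := by
    rcases Nat.eq_zero_or_pos M with h | h
    · rw [h, mul_zero] at hM
      omega
    · exact h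
  have hpN : p ∣ N := (dvd_pow_self p two_ne_zero).trans hp2
  have hdiv1 : N0 / N = M := by
    rw [hM]
    exact Nat.mul_div_cancel_left M hNpos
  have hdiv2 : N0 / (N / p) = M * p := by
    obtain ⟨c, hc⟩ := hpN
    have hcpos : 0 < c := by
      rcases Nat.eq_zero_or_pos c with h | h
      · rw [h, mul_zero] at hc
        omega
      · exact h
    rw [hM, hc, Nat.mul_div_cancel_left c hp.pos,
      show p * c * M = c * (M * p) by ring, Nat.mul_div_cancel_left _ hcpos]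
  rw [hdiv1] at hinj hlt ⊢
  rw [hdiv2, pow_mul] at hlt ⊢
  set θ : E := ζ ^ M with hθdef
  have hθ : IsPrimitiveRoot θ N := hζ.pow hN0 (by rw [hM, mul_comm])
  have hθ0 : θ ≠ 0 := hθ.ne_zero hNpos.ne'
  have hHH' : fx θ ≤ fx (θ ^ p) := by
    intro g hg
    have h1 : g θ = θ := hg
    show g (θ ^ p) = θ ^ p
    rw [map_pow, h1]
  -- elements of `H` fixing `β ^ p` fix `β`
  have hfix : ∀ g ∈ fx θ, g (β ^ p) = β ^ p → g β = β := by
    intro g hg hgβ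
    refine hinj _ (mem_orb.2 ⟨g, hg, rfl⟩) _ (mem_orb.2 ⟨1, Subgroup.one_mem _, rfl⟩) ?_
    rw [← map_pow]
    exact hgβ
  set B : Subgroup (E ≃ₐ[ℚ] E) := fx (θ ^ p) ⊓ fx (β ^ p) with hBdef
  have hBH' : B ≤ fx (θ ^ p) := inf_le_left
  have hBH : B ⊓ fx θ = fx θ ⊓ fx β := by
    ext g
    constructor
    · rintro ⟨⟨h1, h2⟩, h3⟩
      exact ⟨h3, hfix g h3 h2⟩
    · rintro ⟨h1, h2⟩
      refine ⟨⟨hHH' h1, ?_⟩, h1⟩
      have h3 : g β = β := h2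
      show g (β ^ p) = β ^ p
      rw [map_pow, h3]
  have hHcard : (orb (fx θ) β).card * Nat.card (fx θ ⊓ fx β : Subgroup (E ≃ₐ[ℚ] E)) =
      Nat.card (fx θ) := orb_card_mul (fx θ) β
  have hH'inf : fx (θ ^ p) ⊓ fx θ = fx θ := inf_eq_right.2 hHH'
  by_cases hcase : B ≤ fx θ
  · -- case 1
    have hB' : B = fx θ ⊓ fx β := by
      rw [← hBH]
      exact (inf_eq_left.2 hcase).symm
    by_cases hcase2 : fx (θ ^ p) ≤ fx θ
    · refine ⟨1, one_pow _, ?_⟩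
      rw [one_mul, le_antisymm hcase2 hHH']
    · exfalso
      have h1 := (k6_card hNpos hθ hp hp2 (fx (θ ^ p)) le_rfl).2 hcase2
      rw [hH'inf, ← hHcard] at h1
      have h2 : (orb (fx (θ ^ p)) (β ^ p)).card * Nat.card B = Nat.card (fx (θ ^ p)) :=
        orb_card_mul (fx (θ ^ p)) (β ^ p)
      rw [h1, ← hB', ← mul_assoc] at h2
      have h3 : 0 < Nat.card B := Nat.card_pos
      have h4 := Nat.eq_of_mul_eq_mul_right h3 h2
      omega
  · -- case 2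
    obtain ⟨g0, hg0B, hg0⟩ : ∃ g0 ∈ B, g0 θ ≠ θ := by
      by_contra hcon
      push Not at hcon
      exact hcase fun g hg => hcon g hg
    have hBval : ∀ g ∈ B, (g θ / θ) ^ p = 1 := by
      intro g hg
      have h1 : g (θ ^ p) = θ ^ p := hg.1
      rw [div_pow, ← map_pow, h1, div_self (pow_ne_zero _ hθ0)]
    have hBβ : ∀ g ∈ B, (g β / β) ^ p = 1 := by
      intro g hg
      have h1 : g (β ^ p) = β ^ p := hg.2
      rw [div_pow, ← map_pow, h1, div_self (pow_ne_zero _ hβ)]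
    set ρ : E := g0 θ / θ with hρ
    have hρp : ρ ^ p = 1 := hBval g0 hg0B
    have hρ1 : ρ ≠ 1 := by
      intro h
      exact hg0 ((div_eq_one_iff_eq hθ0).1 h)
    have hρprim : IsPrimitiveRoot ρ p := by
      haveI : Fact p.Prime := ⟨hp⟩
      have h1 := orderOf_eq_prime hρp hρ1
      have h2 := IsPrimitiveRoot.orderOf ρ
      rwa [h1] at h2
    haveI : NeZero p := ⟨hp.ne_zero⟩
    have hρfix : g0 ρ = ρ := k6_fix hNpos hθ hp hp2 hg0B.1 hρp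
    have hg0θ : g0 θ = ρ * θ := by rw [hρ, div_mul_cancel₀ _ hθ0]
    obtain ⟨j, -, hj⟩ := hρprim.eq_pow_of_pow_eq_one (hBβ g0 hg0B)
    have hg0β : g0 β = ρ ^ j * β := by rw [hj, div_mul_cancel₀ _ hβ]
    have hBfix : ∀ g ∈ B, g ((θ ^ j)⁻¹ * β) = (θ ^ j)⁻¹ * β := by
      intro g hg
      obtain ⟨i, -, hi⟩ := hρprim.eq_pow_of_pow_eq_one (hBval g hg)
      have hgθ : g θ = ρ ^ i * θ := by rw [hi, div_mul_cancel₀ _ hθ0]
      have h1 : (g0 ^ i) θ = ρ ^ i * θ := k6_pow hg0θ hρfix i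
      have h2 : (g0 ^ i) β = (ρ ^ j) ^ i * β := k6_pow hg0β (by rw [map_pow, hρfix]) i
      set k : E ≃ₐ[ℚ] E := (g0 ^ i)⁻¹ * g with hk
      have hkB : k ∈ B := B.mul_mem (B.inv_mem (B.pow_mem hg0B i)) hg
      have hgk : g = g0 ^ i * k := by rw [hk]; group
      have hkθ : k θ = θ := by
        show (g0 ^ i)⁻¹ (g θ) = θ
        rw [hgθ, ← h1]
        exact (g0 ^ i).symm_apply_apply θ
      have hkβ : k β = β := hfix k hkθ hkB.2
      have hgβ : g β = (ρ ^ j) ^ i * β := by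
        calc g β = (g0 ^ i) (k β) := by rw [hgk]; rfl
          _ = (g0 ^ i) β := by rw [hkβ]
          _ = _ := h2
      rw [map_mul, map_inv₀, map_pow, hgθ, hgβ, mul_pow, mul_inv]
      have h3 : (ρ ^ i) ^ j ≠ 0 := pow_ne_zero _ (pow_ne_zero _ (hρprim.ne_zero hp.ne_zero))
      have h4 : (ρ ^ j) ^ i = (ρ ^ i) ^ j := by rw [← pow_mul, ← pow_mul, mul_comm]
      rw [h4]
      field_simp
    refine ⟨(θ ^ j)⁻¹, ?_, ?_⟩
    · rw [inv_pow, ← pow_mul, mul_comm j N, pow_mul, hθ.pow_eq_one, one_pow, inv_one]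
    · have h1 := orb_card_mul (fx (θ ^ p)) ((θ ^ j)⁻¹ * β)
      have h2 : Nat.card B ≤
          Nat.card (fx (θ ^ p) ⊓ fx ((θ ^ j)⁻¹ * β) : Subgroup (E ≃ₐ[ℚ] E)) := by
        refine Nat.le_of_dvd Nat.card_pos (Subgroup.card_dvd_of_le ?_)
        exact fun g hg => ⟨hg.1, hBfix g hg⟩
      have h3 := (k6_card hNpos hθ hp hp2 (fx (θ ^ p)) le_rfl).1
      rw [hH'inf, ← hHcard] at h3
      have h4 := (k6_card hNpos hθ hp hp2 B hBH').2 hcase
      rw [hBH] at h4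
      have h5 : 0 < Nat.card B := Nat.card_pos
      refine Nat.le_of_mul_le_mul_right ?_ h5
      calc (orb (fx (θ ^ p)) ((θ ^ j)⁻¹ * β)).card * Nat.card B
          ≤ (orb (fx (θ ^ p)) ((θ ^ j)⁻¹ * β)).card *
            Nat.card (fx (θ ^ p) ⊓ fx ((θ ^ j)⁻¹ * β) : Subgroup (E ≃ₐ[ℚ] E)) :=
            Nat.mul_le_mul_left _ h2
        _ = Nat.card (fx (θ ^ p)) := h1
        _ ≤ _ := h3
        _ = (orb (fx θ) β).card * Nat.card B := by rw [h4]; ring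

end Pool.Agent.ZPB
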