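import Mathlib
import Pool.Agent.ZPB.Defs
import Pool.Agent.ZPB.K1
import Pool.Agent.ZPB.K2
import Pool.Agent.ZPB.K4
import Pool.Agent.ZPB.K5
import Pool.Agent.ZPB.K6

set_option autoImplicit false

namespace Pool.Agent.ZPB

variable {E : Type} [Field E] [NumberField E]

theorem k7_orb_mul {H : Subgroup (E ≃ₐ[ℚ] E)} {ξ t : E} (hξ : ∀ g ∈ H, g ξ = ξ) (h0 : ξ ≠ 0) :
    (orb H (ξ * t)).card = (orb H t).card := by
  classical
  have h1 : orb H (ξ * t) = (orb H t).image (fun y => ξ * y) := by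
    ext y
    rw [mem_orb, Finset.mem_image]
    constructor
    · rintro ⟨g, hg, rfl⟩
      exact ⟨g t, mem_orb.2 ⟨g, hg, rfl⟩, by rw [map_mul, hξ g hg]⟩
    · rintro ⟨z, hz, rfl⟩
      obtain ⟨g, hg, rfl⟩ := mem_orb.1 hz
      exact ⟨g, hg, by rw [map_mul, hξ g hg]⟩
  rw [h1, Finset.card_image_of_injective _ (mul_right_injective₀ h0)]

theorem k7_w_le (T : Finset ℕ) {N p : ℕ} (hpN : p ∣ N) :
    (T.filter (fun q => ¬ q ∣ N)).card ≤ (T.filter (fun q => ¬ q ∣ N / p)).card := by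
  refine Finset.card_le_card (fun q hq => ?_)
  rw [Finset.mem_filter] at hq ⊢
  exact ⟨hq.1, fun h => hq.2 (h.trans (Nat.div_dvd_of_dvd hpN))⟩

theorem k7_w_succ_le (T : Finset ℕ) {N p : ℕ} (hpT : p ∈ T) (hpN : p ∣ N) (hp2 : ¬ p ^ 2 ∣ N) :
    (T.filter (fun q => ¬ q ∣ N)).card + 1 ≤ (T.filter (fun q => ¬ q ∣ N / p)).card := by
  have h1 : p ∉ T.filter (fun q => ¬ q ∣ N) := by
    rw [Finset.mem_filter]
    exact fun h => h.2 hpN
  rw [← Finset.card_insert_of_notMem h1]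
  refine Finset.card_le_card (fun q hq => ?_)
  rw [Finset.mem_insert] at hq
  rw [Finset.mem_filter]
  rcases hq with rfl | hq
  · refine ⟨hpT, fun h => hp2 ?_⟩
    obtain ⟨c, hc⟩ := h
    refine ⟨c, ?_⟩
    rw [← Nat.mul_div_cancel' hpN, hc]
    ring
  · rw [Finset.mem_filter] at hq
    exact ⟨hq.1, fun h => hq.2 (h.trans (Nat.div_dvd_of_dvd hpN))⟩

/-- Row K7. The choice of the conductor and of the twist.

Proof. Write `G N = fx (ζ ^ (N0 / N))`, `P = T.card`, `D0 = (orb (fx ζ) t).card`,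
`D1 = (orb (G N1) t).card`, `w N` = number of `p ∈ T` with `¬ p ∣ N`. `fx ζ ≤ G N1` is normal
(`fx_normal`, `fx_pow_le` with `ζ ^ 1`), so `D0 ∣ D1` (`orb_card_dvd`); `D1 > 0`, `D0 ≤ D1`.
Let `Q N` be: `N ∣ N0` and there is `ξ` with `ξ ^ N0 = 1` and `(orb (G N) (ξ * t)).card ≤ D0 * k0 ^ w N`.
`Q N0` holds (`ξ = 1`, `N0 / N0 = 1`, `w N0 = 0`). Let `N` be the least number with `Q N`
(`Nat.find`); `N > 0` because `N ∣ N0`. Among the `ξ` with `ξ ^ N0 = 1` choose one with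
`Eo = (orb (G N) (ξ * t)).card` least (`Nat.find` on the values, or
`WellFounded.min`/`exists_minimal`); then `Eo ≤ D0 * k0 ^ w N ≤ D0 * k0 ^ P ≤ k0 ^ P * D1`.
Let `β = ξ * t ≠ 0`.
* `¬ p ∣ Eo` for `p ∈ T`: `ξ` is a power of `ζ` so it is fixed by `fx ζ`, and
  `(orb (fx ζ) β).card = D0` (multiplication by `ξ` is a bijection of orbits). So `D0 ∣ Eo`,
  `Eo = D0 * q` with `q ≤ k0 ^ w N ≤ k0 ^ P < p`, `q > 0`, so `¬ p ∣ q`; and `¬ p ∣ D0` by `hD`,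
  `D0 ∣ D1`.
* the second claim: `inj_of_dvd` if `p ∣ N`, `inj_of_not_dvd` otherwise (`hmin`: for
  `ω ^ p = 1`, `ω ^ N0 = 1` as `p ∣ N0`, so `(ω * ξ) ^ N0 = 1` and the choice of `ξ` applies).
* the third claim: let `p ∈ T`, `p ∣ N` and suppose
  `(orb (G (N / p)) (β ^ p)).card < k0 * Eo`. `N / p ∣ N0`, `N / p < N`, so `Q (N / p)` fails.
  If `¬ p ^ 2 ∣ N`: `twist_of_exact` gives `ω` with `(orb (G (N / p)) (ω * β)).card < k0 * Eo ≤
  D0 * k0 ^ (w N + 1)`, and `w (N / p) = w N + 1` (`p` does not divide `N / p`, the other elements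
  `q` of `T` divide `N` iff they divide `N / p`), so `Q (N / p)` holds with `ω * ξ`, contradiction.
  If `p ^ 2 ∣ N`: `k0 ≤ k0 ^ P < p` (`P ≥ 1`, `k0 ≥ 1`), so `twist_of_sq` gives `ω`, `ω ^ N = 1`, with
  `(orb (G (N / p)) (ω * β)).card ≤ Eo ≤ D0 * k0 ^ w N` and `w (N / p) = w N`, so `Q (N / p)` holds,
  contradiction. -/
theorem kum {N0 : ℕ} (hN0 : 0 < N0) {ζ : E} (hζ : IsPrimitiveRoot ζ N0) (T : Finset ℕ)
    (hT : ∀ p ∈ T, p.Prime ∧ p ∣ N0) (k0 : ℕ) (hk0 : 1 ≤ k0) (hk : ∀ p ∈ T, k0 ^ T.card < p)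
    {t : E} (ht : t ≠ 0) {N1 : ℕ} (hN1 : N1 ∣ N0)
    (hD : ∀ p ∈ T, ¬ p ∣ (orb (fx (ζ ^ (N0 / N1))) t).card) :
    ∃ (N : ℕ) (ξ : E), N ∣ N0 ∧ ξ ^ N0 = 1 ∧
      (orb (fx (ζ ^ (N0 / N))) (ξ * t)).card ≤
        k0 ^ T.card * (orb (fx (ζ ^ (N0 / N1))) t).card ∧
      (∀ p ∈ T, ∀ x ∈ orb (fx (ζ ^ (N0 / N))) (ξ * t), ∀ y ∈ orb (fx (ζ ^ (N0 / N))) (ξ * t),
        x ^ p = y ^ p → x = y) ∧
      ∀ p ∈ T, p ∣ N → k0 * (orb (fx (ζ ^ (N0 / N))) (ξ * t)).card ≤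
        (orb (fx (ζ ^ (N0 / (N / p)))) ((ξ * t) ^ p)).card := by
  classical
  have hfx : ∀ m : ℕ, fx ζ ≤ fx (ζ ^ m) := by
    intro m
    have h1 := fx_pow_le ζ (one_dvd m)
    rwa [pow_one] at h1
  have hno : ∀ (g : E ≃ₐ[ℚ] E), ∀ h ∈ fx ζ, g * h * g⁻¹ ∈ fx ζ := by
    intro g h hh
    have h1 := fx_normal hN0 hζ 1 g (h := h) (by rw [pow_one]; exact hh)
    rwa [pow_one] at h1
  set D0 := (orb (fx ζ) t).card with hD0
  set D1 := (orb (fx (ζ ^ (N0 / N1))) t).card with hD1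
  have hD0p : 0 < D0 := orb_card_pos _ _
  have hD1p : 0 < D1 := orb_card_pos _ _
  have hD01 : D0 ∣ D1 := orb_card_dvd (hfx _) (fun g _ h hh => hno g h hh) t
  have hD01' : D0 ≤ D1 := Nat.le_of_dvd hD1p hD01
  let w : ℕ → ℕ := fun N => (T.filter (fun q => ¬ q ∣ N)).card
  have hw : ∀ N, w N ≤ T.card := fun N => Finset.card_filter_le _ _
  let Q : ℕ → Prop := fun N => N ∣ N0 ∧ ∃ ξ : E, ξ ^ N0 = 1 ∧
    (orb (fx (ζ ^ (N0 / N))) (ξ * t)).card ≤ D0 * k0 ^ w N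
  have hQ0 : Q N0 := by
    refine ⟨dvd_rfl, 1, one_pow _, ?_⟩
    have h1 : w N0 = 0 := by
      rw [Finset.card_eq_zero, Finset.filter_eq_empty_iff]
      intro q hq h
      exact h (hT q hq).2
    rw [h1, pow_zero, mul_one, one_mul, Nat.div_self hN0, pow_one]
  have hexQ : ∃ N, Q N := ⟨N0, hQ0⟩
  set N := Nat.find hexQ with hNdef
  obtain ⟨hN, ξ₁, hξ₁, hξ₁c⟩ : Q N := Nat.find_spec hexQ
  have hNmin : ∀ m, m < N → ¬ Q m := fun m hm => Nat.find_min hexQ hm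
  have hNp : 0 < N := Nat.pos_of_dvd_of_pos hN hN0
  let R : ℕ → Prop := fun e => ∃ ξ : E, ξ ^ N0 = 1 ∧ (orb (fx (ζ ^ (N0 / N))) (ξ * t)).card = e
  have hexR : ∃ e, R e := ⟨_, ξ₁, hξ₁, rfl⟩
  obtain ⟨ξ, hξ, hξe⟩ : R (Nat.find hexR) := Nat.find_spec hexR
  have hmin : ∀ ξ' : E, ξ' ^ N0 = 1 → (orb (fx (ζ ^ (N0 / N))) (ξ * t)).card ≤
      (orb (fx (ζ ^ (N0 / N))) (ξ' * t)).card := by
    intro ξ' hξ'
    rw [hξe]
    exact Nat.find_min' hexR ⟨ξ', hξ', rfl⟩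
  set Eo := (orb (fx (ζ ^ (N0 / N))) (ξ * t)).card with hEo
  have hEop : 0 < Eo := orb_card_pos _ _
  have hEw : Eo ≤ D0 * k0 ^ w N := (hmin ξ₁ hξ₁).trans hξ₁c
  have hξ0 : ξ ≠ 0 := by
    rintro rfl
    rw [zero_pow hN0.ne'] at hξ
    exact zero_ne_one hξ
  have hβ : ξ * t ≠ 0 := mul_ne_zero hξ0 ht
  have hnd : ∀ p ∈ T, ¬ p ∣ Eo := by
    intro p hpT hpE
    have hfixξ : ∀ g ∈ fx ζ, g ξ = ξ := by
      intro g hg
      have : NeZero N0 := ⟨hN0.ne'⟩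
      obtain ⟨i, -, hi⟩ := hζ.eq_pow_of_pow_eq_one hξ
      rw [← hi, map_pow, mem_fx.1 hg]
    have h1 : (orb (fx ζ) (ξ * t)).card = D0 := k7_orb_mul hfixξ hξ0
    have h2 : D0 ∣ Eo := by
      rw [← h1]
      exact orb_card_dvd (hfx _) (fun g _ h hh => hno g h hh) _
    obtain ⟨q, hq⟩ := h2
    rw [hq] at hEw hpE
    have hq1 : q ≤ k0 ^ w N := Nat.le_of_mul_le_mul_left hEw hD0p
    have hq0 : 0 < q := by
      rcases Nat.eq_zero_or_pos q with h | h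
      · rw [h, mul_zero] at hq
        omega
      · exact h
    have hqp : q < p := lt_of_le_of_lt (hq1.trans (Nat.pow_le_pow_right hk0 (hw N))) (hk p hpT)
    rcases (hT p hpT).1.dvd_mul.1 hpE with h | h
    · exact hD p hpT (h.trans hD01)
    · exact absurd (Nat.le_of_dvd hq0 h) (not_le.2 hqp)
  refine ⟨N, ξ, hN, hξ, ?_, ?_, ?_⟩
  · calc Eo ≤ D0 * k0 ^ w N := hEw
      _ ≤ D1 * k0 ^ T.card := Nat.mul_le_mul hD01' (Nat.pow_le_pow_right hk0 (hw N))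
      _ = k0 ^ T.card * D1 := mul_comm _ _
  · intro p hpT
    obtain ⟨hp, hpN0⟩ := hT p hpT
    by_cases hpN : p ∣ N
    · exact inj_of_dvd hN0 hζ hN hp hpN hβ (hnd p hpT)
    · refine inj_of_not_dvd hN0 hζ hN hp hpN0 hβ (hnd p hpT) ?_
      intro ω hω
      rw [← mul_assoc]
      refine hmin (ω * ξ) ?_
      obtain ⟨c, hc⟩ := hpN0
      rw [mul_pow, hξ, mul_one]
      rw [hc, pow_mul, hω, one_pow]
  · intro p hpT hpN
    obtain ⟨hp, hpN0⟩ := hT p hpT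
    by_contra hlt
    rw [not_le] at hlt
    have hdv : N / p ∣ N0 := (Nat.div_dvd_of_dvd hpN).trans hN
    have hlt' : N / p < N := Nat.div_lt_self hNp hp.one_lt
    by_cases hp2 : p ^ 2 ∣ N
    · have hk0p : k0 < p := by
        have h1 : 1 ≤ T.card := Finset.card_pos.2 ⟨p, hpT⟩
        calc k0 = k0 ^ 1 := (pow_one _).symm
          _ ≤ k0 ^ T.card := Nat.pow_le_pow_right hk0 h1
          _ < p := hk p hpT
      obtain ⟨ω, hω, hωc⟩ := twist_of_sq hN0 hζ hN hp hp2 hβ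
        (inj_of_dvd hN0 hζ hN hp hpN hβ (hnd p hpT))
        (lt_of_lt_of_le hlt (Nat.mul_le_mul_right _ hk0p.le))
      refine hNmin _ hlt' ⟨hdv, ω * ξ, ?_, ?_⟩
      · obtain ⟨c, hc⟩ := hN
        rw [mul_pow, hξ, mul_one]
        rw [hc, pow_mul, hω, one_pow]
      · rw [mul_assoc]
        refine hωc.trans (hEw.trans ?_)
        exact Nat.mul_le_mul_left _ (Nat.pow_le_pow_right hk0 (k7_w_le T hpN))
    · obtain ⟨ω, hω, hωc⟩ := twist_of_exact hN0 hζ hN hp hpN hp2 hβ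
        (inj_of_dvd hN0 hζ hN hp hpN hβ (hnd p hpT))
      refine hNmin _ hlt' ⟨hdv, ω * ξ, ?_, ?_⟩
      · obtain ⟨c, hc⟩ := hpN0
        rw [mul_pow, hξ, mul_one]
        rw [hc, pow_mul, hω, one_pow]
      · rw [mul_assoc]
        refine hωc.trans (hlt.le.trans ?_)
        calc k0 * Eo ≤ k0 * (D0 * k0 ^ w N) := Nat.mul_le_mul_left _ hEw
          _ = D0 * k0 ^ (w N + 1) := by ring
          _ ≤ D0 * k0 ^ w (N / p) :=
            Nat.mul_le_mul_left _ (Nat.pow_le_pow_right hk0 (k7_w_succ_le T hpT hpN hp2))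

end Pool.Agent.ZPB
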