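import Mathlib

set_option autoImplicit false

namespace Pool.Agent.ZPB

/-- Row N2. Existence of Frobenius automorphisms.

Proof. `K = ℚ⟮θ⟯ ≤ E` is a cyclotomic extension (`IsPrimitiveRoot.adjoin_isCyclotomicExtension` or
`IsPrimitiveRoot.intermediateField_adjoin_isCyclotomicExtension`), and `θ ^ p` is a primitive
`N`-th root of unity with the same minimal polynomial over `ℚ` as `θ` (`Polynomial.cyclotomic N ℚ`:
`Polynomial.cyclotomic_eq_minpoly_rat`). In a normal extension two elements with the same minimal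
polynomial are conjugate: `minpoly.exists_algEquiv_of_root` or
`Normal.minpoly_eq_iff_mem_orbit` / `IsGalois` version of it. -/
theorem exists_frob {E : Type} [Field E] [NumberField E] [IsGalois ℚ E] {N : ℕ} (hN : 0 < N)
    {θ : E} (hθ : IsPrimitiveRoot θ N) {p : ℕ} (hp : Nat.Coprime p N) :
    ∃ τ : E ≃ₐ[ℚ] E, τ θ = θ ^ p := by
  classical
  have h1 : minpoly ℚ θ = minpoly ℚ (θ ^ p) := by
    rw [← Polynomial.cyclotomic_eq_minpoly_rat hθ hN,
      ← Polynomial.cyclotomic_eq_minpoly_rat (hθ.pow_of_coprime p hp) hN]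
  obtain ⟨τ, hτ⟩ := (Normal.minpoly_eq_iff_mem_orbit (F := ℚ) E (x := θ ^ p) (y := θ)).1 h1.symm
  exact ⟨τ, hτ⟩

end Pool.Agent.ZPB
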