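import Mathlib
import Pool.Agent.ZPB.Defs

set_option autoImplicit false

namespace Pool.Agent.ZPB

/-- The general fact for Dedekind domains. -/
private theorem n3_dedekind {R L : Type} [CommRing R] [IsDedekindDomain R] [Field L]
    [Algebra R L] [IsFractionRing R L] (v : AbsoluteValue L ℝ) (hv : IsNonarchimedean v)
    (hR : ∀ r : R, v (algebraMap R L r) ≤ 1) (x : L) (hx : v x ≤ 1) :
    ∃ a b : R, v (algebraMap R L b) = 1 ∧ x = algebraMap R L a / algebraMap R L b := by
  classical
  let P : Ideal R :=
    { carrier := {r | v (algebraMap R L r) < 1}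
      zero_mem' := by
        show v (algebraMap R L 0) < 1
        rw [map_zero, map_zero]
        exact one_pos
      add_mem' := by
        intro a b ha hb
        show v (algebraMap R L (a + b)) < 1
        rw [map_add]
        exact lt_of_le_of_lt (hv _ _) (max_lt ha hb)
      smul_mem' := by
        intro c a ha
        show v (algebraMap R L (c * a)) < 1
        rw [map_mul, map_mul]
        have h1 : v (algebraMap R L a) < 1 := ha
        calc v (algebraMap R L c) * v (algebraMap R L a) ≤ 1 * v (algebraMap R L a) :=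
              mul_le_mul_of_nonneg_right (hR c) (v.nonneg _)
          _ < 1 := by rw [one_mul]; exact h1 }
  have hmem : ∀ r : R, r ∈ P ↔ v (algebraMap R L r) < 1 := fun r => Iff.rfl
  have hnot : ∀ r : R, r ∉ P → v (algebraMap R L r) = 1 := by
    intro r hr
    rw [hmem, not_lt] at hr
    exact le_antisymm (hR r) hr
  haveI hPp : P.IsPrime := by
    refine ⟨?_, ?_⟩
    · intro h
      have h1 : (1 : R) ∈ P := by rw [h]; exact Submodule.mem_top
      rw [hmem, map_one, map_one] at h1
      exact lt_irrefl _ h1
    · intro a b hab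
      by_contra hcon
      push Not at hcon
      rw [hmem, map_mul, map_mul, hnot a hcon.1, hnot b hcon.2, one_mul] at hab
      exact lt_irrefl _ hab
  by_cases hP : P = ⊥
  · obtain ⟨a, b, hb, rfl⟩ := IsFractionRing.div_surjective (A := R) x
    refine ⟨a, b, hnot b ?_, rfl⟩
    intro h
    rw [hP, Ideal.mem_bot] at h
    exact nonZeroDivisors.ne_zero hb h
  · have hS : P.primeCompl ≤ nonZeroDivisors R := Ideal.primeCompl_le_nonZeroDivisors P
    have hloc : IsLocalization.AtPrime (Localization.subalgebra.ofField L P.primeCompl hS) P :=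
      Localization.subalgebra.isLocalization_ofField L P.primeCompl hS
    have hdvr : IsDiscreteValuationRing (Localization.subalgebra.ofField L P.primeCompl hS) :=
      IsLocalization.AtPrime.isDiscreteValuationRing_of_dedekind_domain R hP _
    have hmemA : ∀ y : Localization.subalgebra.ofField L P.primeCompl hS,
        ∃ (a s : R) (_ : s ∈ P.primeCompl),
          (y : L) = algebraMap R L a * (algebraMap R L s)⁻¹ := fun y => y.2
    rcases ValuationRing.isInteger_or_isInteger
      (Localization.subalgebra.ofField L P.primeCompl hS) x with ⟨y, hy⟩ | ⟨y, hy⟩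
    · obtain ⟨a, s, hs, h⟩ := hmemA y
      refine ⟨a, s, hnot s hs, ?_⟩
      rw [div_eq_mul_inv, ← h]
      exact hy.symm
    · obtain ⟨a, s, hs, h⟩ := hmemA y
      have h1 : (y : L) = x⁻¹ := hy
      rw [h1] at h
      by_cases hx0 : x = 0
      · exact ⟨0, 1, by rw [map_one, map_one], by rw [hx0, map_zero, zero_div]⟩
      · have hs1 := hnot s hs
        have hva : v (algebraMap R L a) = (v x)⁻¹ := by
          have h2 := congrArg v h
          rw [map_inv₀, map_mul, map_inv₀, hs1, inv_one, mul_one] at h2
          exact h2.symm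
        have hvx0 : 0 < v x := v.pos hx0
        have h3 : v (algebraMap R L a) = 1 := by
          refine le_antisymm (hR a) ?_
          rw [hva]
          exact (one_le_inv₀ hvx0).2 hx
        refine ⟨s, a, h3, ?_⟩
        have h4 : x = ((algebraMap R L a) * (algebraMap R L s)⁻¹)⁻¹ := by
          rw [← h, inv_inv]
        rw [h4, mul_inv, inv_inv, div_eq_mul_inv, mul_comm]

/-- Row N3. Fractions with a denominator which is a unit at `v`.

Proof. General fact: let `R` be a Dedekind domain with fraction field `L` and `v` a nonarchimedean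
absolute value of `L` with `v r ≤ 1` for `r ∈ R`. Then every `x ∈ L` with `v x ≤ 1` is `a / b`
with `a, b ∈ R`, `v b = 1`: `𝔭 = {r ∈ R | v r < 1}` is a prime ideal; if `𝔭 = ⊥` write `x = a / b` with
any `b ≠ 0`, `v b = 1`. If `𝔭 ≠ ⊥` the localisation `R_𝔭` is a discrete valuation ring
(`IsLocalization.AtPrime.isDiscreteValuationRing_of_dedekind_domain`) with fraction field `L`, so `x` or
`x⁻¹` is in `R_𝔭` (`ValuationRing`): if `x = a / b` with `b ∉ 𝔭` we are done
(`v b ≤ 1` and not `< 1`); if `x⁻¹ = a / b`, `b ∉ 𝔭` then `v a = v x⁻¹ ≥ 1`, so `v a = 1`,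
`x = b / a`. (Another argument for the last step: finiteness of the class group,
`𝔭 ^ h = (π)`.)
Here `L = ℚ⟮θ⟯` (as a subfield of `E`), `R = ` its ring of integers: `x` is fixed by all
automorphisms fixing `θ`, so `x ∈ ℚ⟮θ⟯` (`IntermediateField` Galois correspondence:
`IsGalois.fixedField_fixingSubgroup`), `L` is a cyclotomic extension `{N}` of `ℚ` and its ring of
integers is `Algebra.adjoin ℤ {θ}`
(`IsCyclotomicExtension.Rat.isIntegralClosure_adjoin_singleton`). Elements of
`Algebra.adjoin ℤ {θ}` have `v ≤ 1`: `v n ≤ 1` for integers, `v θ = 1`. -/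
theorem exists_frac {E : Type} [Field E] [NumberField E] [IsGalois ℚ E] {N : ℕ} (hN : 0 < N)
    {θ : E} (hθ : IsPrimitiveRoot θ N) (v : AbsoluteValue E ℝ) (hv : IsNonarchimedean v) (x : E)
    (hx : ∀ g ∈ fx θ, g x = x) (hvx : v x ≤ 1) :
    ∃ a b : E, a ∈ Algebra.adjoin ℤ ({θ} : Set E) ∧ b ∈ Algebra.adjoin ℤ ({θ} : Set E) ∧
      v b = 1 ∧ x = a / b := by
  classical
  haveI : NeZero N := ⟨hN.ne'⟩
  set L : IntermediateField ℚ E := IntermediateField.adjoin ℚ {θ} with hL
  haveI hcyc : IsCyclotomicExtension {N} ℚ L :=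
    hθ.intermediateField_adjoin_isCyclotomicExtension ℚ
  have hθL : θ ∈ L := IntermediateField.mem_adjoin_simple_self ℚ θ
  have hxL : x ∈ L := by
    rw [← IsGalois.fixedField_fixingSubgroup L, IntermediateField.mem_fixedField_iff]
    intro g hg
    refine hx g ?_
    rw [IntermediateField.mem_fixingSubgroup_iff] at hg
    exact hg θ hθL
  set ζ : L := ⟨θ, hθL⟩ with hζdef
  have hζ : IsPrimitiveRoot ζ N :=
    IsPrimitiveRoot.of_map_of_injective (f := (algebraMap L E)) (by exact hθ)
      (algebraMap L E).injective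
  have hint : IsIntegralClosure (Algebra.adjoin ℤ ({ζ} : Set L)) ℤ L :=
    IsCyclotomicExtension.Rat.isIntegralClosure_adjoin_singleton hζ
  -- integral elements of `L` are in `Algebra.adjoin ℤ {θ}`
  have hadj : ∀ r : NumberField.RingOfIntegers L,
      ((r : L) : E) ∈ Algebra.adjoin ℤ ({θ} : Set E) := by
    intro r
    obtain ⟨y, hy⟩ := hint.isIntegral_iff.1 r.2
    have h1 : (r : L) ∈ Algebra.adjoin ℤ ({ζ} : Set L) := by
      have h2 : (y : L) = (r : L) := hy
      rw [← h2]
      exact y.2
    have h2 := (Algebra.adjoin ℤ ({ζ} : Set L)).mem_map.2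
      ⟨(r : L), h1, (rfl : ((IntermediateField.val L).toRingHom.toIntAlgHom) (r : L) = _)⟩
    rw [AlgHom.map_adjoin_singleton] at h2
    exact h2
  have hvθ : v θ = 1 := by
    have h1 : v θ ^ N = 1 := by rw [← map_pow, hθ.pow_eq_one, map_one]
    exact (pow_eq_one_iff_of_nonneg (v.nonneg _) hN.ne').1 h1
  have hvint : ∀ y ∈ Algebra.adjoin ℤ ({θ} : Set E), v y ≤ 1 := by
    intro y hy
    induction hy using Algebra.adjoin_induction with
    | mem z hz =>
      rw [Set.mem_singleton_iff.1 hz, hvθ]
    | algebraMap z =>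
      rw [show (algebraMap ℤ E z) = (z : E) from rfl]
      have hn : ∀ n : ℕ, v (n : E) ≤ 1 := by
        intro n
        induction n with
        | zero => rw [Nat.cast_zero, map_zero]; exact zero_le_one
        | succ n ih =>
          rw [Nat.cast_succ]
          exact (hv _ _).trans (max_le ih (by rw [map_one]))
      rcases Int.eq_nat_or_neg z with ⟨n, rfl | rfl⟩
      · rw [Int.cast_natCast]; exact hn n
      · rw [Int.cast_neg, Int.cast_natCast, v.map_neg]; exact hn n
    | add a b _ _ ha hb => exact (hv _ _).trans (max_le ha hb)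
    | mul a b _ _ ha hb =>
      rw [map_mul]
      exact mul_le_one₀ ha (v.nonneg _) hb
  let w : AbsoluteValue L ℝ := v.comp (f := algebraMap L E) (algebraMap L E).injective
  have hw : ∀ y : L, w y = v (y : E) := fun y => rfl
  obtain ⟨a, b, hb, hab⟩ := n3_dedekind (R := NumberField.RingOfIntegers L) w
    (fun y z => hv _ _) (fun r => hvint _ (hadj r)) (⟨x, hxL⟩ : L) hvx
  refine ⟨_, _, hadj a, hadj b, hb, ?_⟩
  have h5 := congrArg (algebraMap L E) hab
  rw [map_div₀] at h5
  exact h5

end Pool.Agent.ZPB
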