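import Mathlib
import Pool.Agent.ZPB.Defs
import Pool.Agent.ZPB.L2
import Pool.Agent.ZPB.N3

set_option autoImplicit false

namespace Pool.Agent.ZPB

theorem n4_sub {E : Type} [Field E] (v : AbsoluteValue E ℝ) (hv : IsNonarchimedean v) {r : ℝ}
    {x y : E} (hx : v x ≤ r) (hy : v y ≤ r) : v (x - y) ≤ r := by
  rw [sub_eq_add_neg]
  refine (hv x (-y)).trans (max_le hx ?_)
  rw [v.map_neg]
  exact hy

theorem n4_sum {E : Type} [Field E] (v : AbsoluteValue E ℝ) (hv : IsNonarchimedean v) {r : ℝ}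
    (hr : 0 ≤ r) {ι : Type} (s : Finset ι) (f : ι → E) (h : ∀ i ∈ s, v (f i) ≤ r) :
    v (∑ i ∈ s, f i) ≤ r := by
  classical
  induction s using Finset.induction_on with
  | empty => rw [Finset.sum_empty, v.map_zero]; exact hr
  | insert a s ha ih =>
    rw [Finset.sum_insert ha]
    exact (hv _ _).trans (max_le (h a (Finset.mem_insert_self a s))
      (ih fun i hi => h i (Finset.mem_insert_of_mem hi)))

theorem n4_nat {E : Type} [Field E] (v : AbsoluteValue E ℝ) (hv : IsNonarchimedean v) (n : ℕ) :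
    v (n : E) ≤ 1 := by
  induction n with
  | zero => rw [Nat.cast_zero, v.map_zero]; exact zero_le_one
  | succ n ih =>
    rw [Nat.cast_succ]
    exact (hv _ _).trans (max_le ih (le_of_eq v.map_one))

theorem n4_int {E : Type} [Field E] (v : AbsoluteValue E ℝ) (hv : IsNonarchimedean v) (n : ℤ) :
    v (n : E) ≤ 1 := by
  obtain ⟨m, rfl | rfl⟩ := n.eq_nat_or_neg
  · rw [Int.cast_natCast]
    exact n4_nat v hv m
  · rw [Int.cast_neg, Int.cast_natCast, v.map_neg]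
    exact n4_nat v hv m

theorem n4_root {E : Type} [Field E] (v : AbsoluteValue E ℝ) {N : ℕ} (hN : 0 < N) {x : E}
    (hx : x ^ N = 1) : v x = 1 := by
  have h1 : v x ^ N = 1 := by rw [← v.map_pow, hx, v.map_one]
  exact (pow_eq_one_iff_of_nonneg (v.nonneg x) hN.ne').1 h1

/-- Fermat. -/
theorem n4_fermat {E : Type} [Field E] (v : AbsoluteValue E ℝ) (hv : IsNonarchimedean v) {p : ℕ}
    (hp : p.Prime) (c : ℤ) : v ((c : E) ^ p - (c : E)) ≤ v p := by
  have hpf : Fact p.Prime := ⟨hp⟩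
  have h1 : (p : ℤ) ∣ c ^ p - c := by
    rw [← ZMod.intCast_zmod_eq_zero_iff_dvd]
    push_cast
    rw [ZMod.pow_card, sub_self]
  obtain ⟨m, hm⟩ := h1
  have h2 : (c : E) ^ p - (c : E) = (p : E) * (m : E) := by
    have h3 := congrArg (fun z : ℤ => (z : E)) hm
    push_cast at h3
    exact h3
  rw [h2, v.map_mul]
  exact mul_le_of_le_one_right (v.nonneg _) (n4_int v hv m)

theorem n4_pow {E : Type} [Field E] (v : AbsoluteValue E ℝ) (hv : IsNonarchimedean v) {p : ℕ}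
    (hp : p.Prime) {x : E} (hx : v x = 1) (q : Polynomial ℤ) :
    v ((Polynomial.aeval x q) ^ p - Polynomial.aeval (x ^ p) q) ≤ v p := by
  have h0 : ∀ k, v ((q.coeff k : E) * x ^ k) ≤ 1 := by
    intro k
    rw [v.map_mul, v.map_pow, hx, one_pow, mul_one]
    exact n4_int v hv _
  have h1 := sum_pow_cong v hv hp (Finset.range (q.natDegree + 1))
    (fun k => (q.coeff k : E) * x ^ k) 1 zero_le_one (fun k _ => h0 k)
  rw [one_pow, mul_one] at h1
  have e1 : Polynomial.aeval x q = ∑ k ∈ Finset.range (q.natDegree + 1), (q.coeff k : E) * x ^ k := by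
    rw [Polynomial.aeval_eq_sum_range]
    exact Finset.sum_congr rfl fun k _ => zsmul_eq_mul _ _
  have e2 : Polynomial.aeval (x ^ p) q =
      ∑ k ∈ Finset.range (q.natDegree + 1), (q.coeff k : E) * (x ^ p) ^ k := by
    rw [Polynomial.aeval_eq_sum_range]
    exact Finset.sum_congr rfl fun k _ => zsmul_eq_mul _ _
  have h2 : v (∑ k ∈ Finset.range (q.natDegree + 1), ((q.coeff k : E) * x ^ k) ^ p -
      ∑ k ∈ Finset.range (q.natDegree + 1), (q.coeff k : E) * (x ^ p) ^ k) ≤ v p := by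
    rw [← Finset.sum_sub_distrib]
    refine n4_sum v hv (v.nonneg _) _ _ fun k _ => ?_
    have e3 : ((q.coeff k : E) * x ^ k) ^ p - (q.coeff k : E) * (x ^ p) ^ k =
        ((q.coeff k : E) ^ p - (q.coeff k : E)) * x ^ (k * p) := by
      rw [mul_pow, ← pow_mul, ← pow_mul, mul_comm p k]
      ring
    rw [e3, v.map_mul, v.map_pow, hx, one_pow, mul_one]
    exact n4_fermat v hv hp _
  have e4 : (Polynomial.aeval x q) ^ p - Polynomial.aeval (x ^ p) q =
      ((∑ k ∈ Finset.range (q.natDegree + 1), (q.coeff k : E) * x ^ k) ^ p -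
        ∑ k ∈ Finset.range (q.natDegree + 1), ((q.coeff k : E) * x ^ k) ^ p) +
      (∑ k ∈ Finset.range (q.natDegree + 1), ((q.coeff k : E) * x ^ k) ^ p -
        ∑ k ∈ Finset.range (q.natDegree + 1), (q.coeff k : E) * (x ^ p) ^ k) := by
    rw [e1, e2]
    ring
  rw [e4]
  exact (hv _ _).trans (max_le h1 h2)

theorem n4_map {E : Type} [Field E] (τ : E →+* E) (q : Polynomial ℤ) (x : E) :
    τ (Polynomial.aeval x q) = Polynomial.aeval (τ x) q := by
  rw [Polynomial.aeval_def, Polynomial.aeval_def, Polynomial.hom_eval₂]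
  congr 1
  exact RingHom.ext_int _ _

theorem n4_adj {E : Type} [Field E] {θ a : E} (ha : a ∈ Algebra.adjoin ℤ ({θ} : Set E)) :
    ∃ q : Polynomial ℤ, Polynomial.aeval θ q = a := by
  rw [Algebra.adjoin_singleton_eq_range_aeval] at ha
  obtain ⟨q, hq⟩ := ha
  exact ⟨q, hq⟩

theorem n4_unit {E : Type} [Field E] (v : AbsoluteValue E ℝ) (hv : IsNonarchimedean v)
    {B B' : E} (h : v (B' - B) < 1) (hB : v B = 1) : v B' = 1 := by
  refine le_antisymm ?_ ?_
  · have h1 : B' = (B' - B) + B := by ring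
    rw [h1]
    exact (hv _ _).trans (max_le h.le hB.le)
  · by_contra hcon
    have hlt : v B' < 1 := not_le.1 hcon
    have h1 : B = B' + -(B' - B) := by ring
    have h2 : v B < 1 := by
      rw [h1]
      refine (hv _ _).trans_lt (max_lt hlt ?_)
      rw [v.map_neg]
      exact h
    rw [hB] at h2
    exact lt_irrefl _ h2

theorem n4_frac {E : Type} [Field E] (v : AbsoluteValue E ℝ) (hv : IsNonarchimedean v)
    {A A' B B' : E} {ε : ℝ} (h1 : v (A' - A) ≤ ε) (h2 : v (B' - B) ≤ ε) (hε : ε < 1)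
    (hA : v A ≤ 1) (hB : v B = 1) : v (A' / B' - A / B) ≤ ε := by
  have hε0 : 0 ≤ ε := (v.nonneg _).trans h1
  have hB' : v B' = 1 := n4_unit v hv (h2.trans_lt hε) hB
  have hB0 : B ≠ 0 := by
    intro h
    rw [h, v.map_zero] at hB
    exact zero_ne_one hB
  have hB'0 : B' ≠ 0 := by
    intro h
    rw [h, v.map_zero] at hB'
    exact zero_ne_one hB'
  have e : A' / B' - A / B = ((A' - A) * B - A * (B' - B)) / (B' * B) := by
    field_simp
    ring
  rw [e, map_div₀, v.map_mul, hB, hB', mul_one, div_one]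
  refine n4_sub v hv ?_ ?_
  · rw [v.map_mul, hB, mul_one]
    exact h1
  · rw [v.map_mul]
    calc v A * v (B' - B) ≤ 1 * ε := mul_le_mul hA h2 (v.nonneg _) zero_le_one
      _ = ε := one_mul ε

theorem n4_num {E : Type} [Field E] (v : AbsoluteValue E ℝ) {x a b : E} (hb : v b = 1)
    (hx : x = a / b) (hvx : v x ≤ 1) : v a ≤ 1 := by
  have hb0 : b ≠ 0 := by
    intro h
    rw [h, v.map_zero] at hb
    exact zero_ne_one hb
  have h1 : a = x * b := by
    rw [hx, div_mul_cancel₀ _ hb0]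
  rw [h1, v.map_mul, hb, mul_one]
  exact hvx

/-- Row N4. The congruence for elements of `ℤ[θ]`.

Proof. `a = ∑ c k * θ ^ k` with integers `c k` (`Algebra.adjoin_singleton_eq_range_aeval`), so by
`sum_pow_cong` (Row L2; `v (c k * θ ^ k) ≤ 1`) `v (a ^ p - ∑ c k ^ p * θ ^ (p k)) ≤ v p`, and
`v (c k ^ p - c k) ≤ v p` because `p ∣ c k ^ p - c k` (`ZMod.pow_card`, Fermat) and integers have
`v ≤ 1`. So `v (a ^ p - ∑ c k * (θ ^ p) ^ k) ≤ v p`, for the polynomial `q = ∑ c k X ^ k`. -/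
theorem adjoin_pow {E : Type} [Field E] [CharZero E] {N : ℕ} (hN : 0 < N) {θ : E}
    (hθ : IsPrimitiveRoot θ N) (v : AbsoluteValue E ℝ) (hv : IsNonarchimedean v) {p : ℕ}
    (hp : p.Prime) {a : E} (ha : a ∈ Algebra.adjoin ℤ ({θ} : Set E)) :
    ∃ q : Polynomial ℤ, Polynomial.aeval θ q = a ∧
      v (a ^ p - Polynomial.aeval (θ ^ p) q) ≤ v p := by
  obtain ⟨q, hq⟩ := n4_adj ha
  refine ⟨q, hq, ?_⟩
  rw [← hq]
  exact n4_pow v hv hp (n4_root v hN hθ.pow_eq_one) q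

/-- Row N4, unramified case.

Proof. Row N3: `x = a / b`, `v b = 1`. By `adjoin_pow` (and `τ (aeval θ q) = aeval (θ ^ p) q`)
`v (τ a - a ^ p) ≤ v p`, `v (τ b - b ^ p) ≤ v p < 1`, so `v (τ b) = v (b ^ p) = 1`. Then
`τ x - x ^ p = ((τ a - a ^ p) * b ^ p - a ^ p * (τ b - b ^ p)) / (τ b * b ^ p)` and `v a ≤ 1`. -/
theorem cong_U {E : Type} [Field E] [NumberField E] [IsGalois ℚ E] {N : ℕ} (hN : 0 < N)
    {θ : E} (hθ : IsPrimitiveRoot θ N) (v : AbsoluteValue E ℝ) (hv : IsNonarchimedean v) {p : ℕ}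
    (hp : p.Prime) (hvp : v p < 1) {τ : E ≃ₐ[ℚ] E} (hτ : τ θ = θ ^ p) (x : E)
    (hx : ∀ g ∈ fx θ, g x = x) (hvx : v x ≤ 1) : v (τ x - x ^ p) ≤ v p := by
  obtain ⟨a, b, ha, hb, hvb, hxab⟩ := exists_frac hN hθ v hv x hx hvx
  obtain ⟨qa, hqa⟩ := n4_adj ha
  obtain ⟨qb, hqb⟩ := n4_adj hb
  have hvθ : v θ = 1 := n4_root v hN hθ.pow_eq_one
  have hva : v a ≤ 1 := n4_num v hvb hxab hvx
  have key : ∀ q : Polynomial ℤ,
      v (τ (Polynomial.aeval θ q) - (Polynomial.aeval θ q) ^ p) ≤ v p := by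
    intro q
    have h1 : τ (Polynomial.aeval θ q) = Polynomial.aeval (θ ^ p) q := by
      have h2 := n4_map ((τ : E ≃+* E) : E →+* E) q θ
      have h3 : ((τ : E ≃+* E) : E →+* E) θ = θ ^ p := hτ
      rw [h3] at h2
      exact h2
    rw [h1, v.map_sub]
    exact n4_pow v hv hp hvθ q
  have h1 := key qa
  have h2 := key qb
  rw [hqa] at h1
  rw [hqb] at h2
  have h3 := n4_frac v hv h1 h2 hvp (by rw [v.map_pow]; exact pow_le_one₀ (v.nonneg _) hva)
    (by rw [v.map_pow, hvb, one_pow])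
  rw [hxab, map_div₀, div_pow]
  exact h3

/-- Row N4, ramified case.

Proof. `p ∣ N`, `σ (θ ^ p) = θ ^ p`. For `a = aeval θ q ∈ ℤ[θ]`:
`σ a = aeval (σ θ) q`, and `adjoin_pow` for `a` (root `θ`) and for `σ a` (root `σ θ`, which
satisfies `(σ θ) ^ p = θ ^ p`; apply the computation in `adjoin_pow` to the same `q`; prove it as a
lemma for a given `q`) give `v ((σ a) ^ p - a ^ p) ≤ v p`. With `x = a / b`, `v b = 1` (Row N3):
`v ((σ b) ^ p - b ^ p) ≤ v p < 1` so `v (σ b) = 1`, and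
`(σ x) ^ p - x ^ p = (((σ a) ^ p - a ^ p) * b ^ p - a ^ p * ((σ b) ^ p - b ^ p)) / ((σ b) ^ p * b ^ p)`. -/
theorem cong_R {E : Type} [Field E] [NumberField E] [IsGalois ℚ E] {N : ℕ} (hN : 0 < N)
    {θ : E} (hθ : IsPrimitiveRoot θ N) (v : AbsoluteValue E ℝ) (hv : IsNonarchimedean v) {p : ℕ}
    (hp : p.Prime) (hvp : v p < 1) {σ : E ≃ₐ[ℚ] E} (hσ : σ ∈ fx (θ ^ p)) (x : E)
    (hx : ∀ g ∈ fx θ, g x = x) (hvx : v x ≤ 1) : v ((σ x) ^ p - x ^ p) ≤ v p := by
  obtain ⟨a, b, ha, hb, hvb, hxab⟩ := exists_frac hN hθ v hv x hx hvx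
  obtain ⟨qa, hqa⟩ := n4_adj ha
  obtain ⟨qb, hqb⟩ := n4_adj hb
  have hvθ : v θ = 1 := n4_root v hN hθ.pow_eq_one
  have hva : v a ≤ 1 := n4_num v hvb hxab hvx
  have hσp : (σ θ) ^ p = θ ^ p := by
    rw [← map_pow]
    exact hσ
  have hvσ : v (σ θ) = 1 := by
    refine n4_root v hN ?_
    rw [← map_pow, hθ.pow_eq_one, map_one]
  have key : ∀ q : Polynomial ℤ,
      v ((σ (Polynomial.aeval θ q)) ^ p - (Polynomial.aeval θ q) ^ p) ≤ v p := by
    intro q
    have h1 : σ (Polynomial.aeval θ q) = Polynomial.aeval (σ θ) q :=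
      n4_map ((σ : E ≃+* E) : E →+* E) q θ
    have h2 := n4_pow v hv hp hvσ q
    rw [hσp] at h2
    have h3 := n4_pow v hv hp hvθ q
    have e : (σ (Polynomial.aeval θ q)) ^ p - (Polynomial.aeval θ q) ^ p =
        ((Polynomial.aeval (σ θ) q) ^ p - Polynomial.aeval (θ ^ p) q) -
          ((Polynomial.aeval θ q) ^ p - Polynomial.aeval (θ ^ p) q) := by
      rw [h1]
      ring
    rw [e]
    exact n4_sub v hv h2 h3
  have h1 := key qa
  have h2 := key qb
  rw [hqa] at h1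
  rw [hqb] at h2
  have h3 := n4_frac v hv h1 h2 hvp (by rw [v.map_pow]; exact pow_le_one₀ (v.nonneg _) hva)
    (by rw [v.map_pow, hvb, one_pow])
  rw [hxab, map_div₀, div_pow, div_pow]
  exact h3

end Pool.Agent.ZPB
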