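import Mathlib
import Pool.Agent.ZPB.Defs
import Pool.Agent.ZPB.H0
import Pool.Agent.ZPB.K1
import Pool.Agent.ZPB.K2
import Pool.Agent.ZPB.K7
import Pool.Agent.ZPB.C1b
import Pool.Agent.ZPB.C2b
import Pool.Agent.ZPB.N2
import Pool.Agent.ZPB.N4
import Pool.Agent.ZPB.D0

set_option autoImplicit false

namespace Pool.Agent.ZPB

theorem d1_y (k A : ℕ) (hk : 2 ≤ k) (hA : 1 ≤ A) : ∃ y : ℕ, 1 ≤ y ∧ A ^ 2 ≤ y ^ k ∧ y ^ k ≤ 2 ^ k * A ^ 2 := by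
  classical
  have hex : ∃ y : ℕ, A ^ 2 ≤ y ^ k := ⟨A ^ 2, Nat.le_self_pow (by omega) _⟩
  have h1 := Nat.find_spec hex
  set y := Nat.find hex with hy
  have hA2 : 1 ≤ A ^ 2 := Nat.one_le_pow _ _ hA
  have hy1 : 1 ≤ y := by
    rcases Nat.eq_zero_or_pos y with h | h
    · rw [h, zero_pow (by omega)] at h1
      omega
    · exact h
  refine ⟨y, hy1, h1, ?_⟩
  have h2 : ¬ A ^ 2 ≤ (y - 1) ^ k := Nat.find_min hex (by omega)
  push Not at h2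
  by_cases hy2 : y = 1
  · rw [hy2, one_pow]
    exact Nat.one_le_iff_ne_zero.2 (by positivity)
  · have h3 : y ≤ 2 * (y - 1) := by omega
    calc y ^ k ≤ (2 * (y - 1)) ^ k := Nat.pow_le_pow_left h3 k
      _ = 2 ^ k * (y - 1) ^ k := mul_pow _ _ _
      _ ≤ 2 ^ k * A ^ 2 := Nat.mul_le_mul_left _ h2.le

theorem d1_h0 {E : Type} [Field E] (P : PL E) : P.h 0 = 0 := by
  unfold PL.h
  simp

section

variable {E : Type} [Field E] [NumberField E]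

theorem d1_card_pow (H : Subgroup (E ≃ₐ[ℚ] E)) (β : E) (p : ℕ)
    (hinj : ∀ x ∈ orb H β, ∀ y ∈ orb H β, x ^ p = y ^ p → x = y) :
    (orb H (β ^ p)).card = (orb H β).card := by
  classical
  have h1 : orb H (β ^ p) = (orb H β).image (fun x => x ^ p) := by
    ext z
    rw [Finset.mem_image, mem_orb]
    constructor
    · rintro ⟨g, hg, rfl⟩
      exact ⟨g β, mem_orb.2 ⟨g, hg, rfl⟩, (map_pow g β p).symm⟩
    · rintro ⟨x, hx, rfl⟩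
      obtain ⟨g, hg, rfl⟩ := mem_orb.1 hx
      exact ⟨g, hg, map_pow g β p⟩
  rw [h1, Finset.card_image_of_injOn]
  intro x hx y hy hxy
  exact hinj x hx y hy hxy

/-- the key inequality `1 ≤ K1 * D1 * x * h` -/
theorem d1_key [IsGalois ℚ E] (k : ℕ) (hk : 2 ≤ k) (P : PL E) (N0 N1 D1 : ℕ) (ζ t : E) (y : ℕ) (hy1 : 1 ≤ y)
    (hyk : (42 * k ^ 2 * (k + 1) ^ (k ^ 2) * D1) ^ 2 ≤ y ^ k)
    (hN0 : 0 < N0) (hζ : IsPrimitiveRoot ζ N0) (hN1 : N1 ∣ N0) (hD1 : D1 = (orb (fx (ζ ^ (N0 / N1))) t).card)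
    (hpr : ∀ p : ℕ, p.Prime → p ≤ 2 ^ (k ^ 2 + k) * (55 * (k + 1) ^ (k ^ 2) * y) → p ∣ N0 ∧ ((p : E))⁻¹ ∈ P.O)
    (hζO : ζ ∈ P.O) (htO : ∀ g : E ≃ₐ[ℚ] E, g t ∈ P.O)
    (hinv : ∀ (g : E ≃ₐ[ℚ] E) (x : E), P.h (g x) = P.h x) (hpos : 0 < P.h t) :
    (1 : ℝ) ≤ (2 * (k : ℝ) ^ 2 * ((k : ℝ) + 1) ^ (k ^ 2) * 2 ^ (k ^ 2 + k)) * D1 *
      (55 * ((k : ℝ) + 1) ^ (k ^ 2) * y) * P.h t := by
  classical
  set n := k ^ 2 with hn
  set k0 := k + 1 with hk0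
  set x := 55 * k0 ^ n * y with hx
  have hk2 : 1 ≤ k ^ 2 := Nat.one_le_pow _ _ (by omega)
  have hk0n : 1 ≤ k0 ^ n := Nat.one_le_pow _ _ (by omega)
  have hD1pos : 1 ≤ D1 := by
    rw [hD1]
    exact orb_card_pos _ _
  have hxy : 55 * y ≤ x := by
    rw [hx]
    nlinarith
  have hx55 : 55 ≤ x := by omega
  have hxk0 : k0 ^ n ≤ x := by
    rw [hx]
    nlinarith
  have hyx : y < x := by omega
  have hykxk : y ^ k < x ^ k := Nat.pow_lt_pow_left hyx (by omega)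
  have hLD : D1 ≤ 42 * n * k0 ^ n * D1 := by
    have : 1 ≤ 42 * n * k0 ^ n := by
      have := Nat.mul_le_mul hk2 hk0n
      nlinarith
    nlinarith
  have hDx : D1 < x ^ k := by
    calc D1 ≤ 42 * n * k0 ^ n * D1 := hLD
      _ ≤ (42 * n * k0 ^ n * D1) ^ 2 := Nat.le_self_pow (by norm_num) _
      _ ≤ y ^ k := hyk
      _ < x ^ k := hykxk
  obtain ⟨T, hTc, hT⟩ := primes n k x D1 (by omega) hD1pos hDx
  have hT1 : ∀ p ∈ T, p ∣ N0 ∧ ((p : E))⁻¹ ∈ P.O := fun p hp =>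
    hpr p (hT p hp).1 (hT p hp).2.2.1
  have ht : t ≠ 0 := by
    rintro rfl
    rw [d1_h0] at hpos
    exact lt_irrefl _ hpos
  obtain ⟨N, ξ, hNN0, hξ, hcard, hinj, hram⟩ := kum hN0 hζ T (fun p hp => ⟨(hT p hp).1, (hT1 p hp).1⟩) k0
    (by omega) (fun p hp => by
      rw [hTc]
      exact lt_of_le_of_lt hxk0 (hT p hp).2.1) ht hN1 (fun p hp => by
      rw [← hD1]
      exact (hT p hp).2.2.2)
  rw [hTc, ← hD1] at hcard
  set β := ξ * t with hβ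
  set H := fx (ζ ^ (N0 / N)) with hH
  set D := (orb H β).card with hD
  have hDpos : 1 ≤ D := orb_card_pos _ _
  have hNpos : 0 < N := Nat.pos_of_dvd_of_pos hNN0 hN0
  have hξ0 : ξ ≠ 0 := by
    rintro rfl
    rw [zero_pow (by omega)] at hξ
    exact zero_ne_one hξ
  have hβ0 : β ≠ 0 := mul_ne_zero hξ0 ht
  have hhβ : P.h β = P.h t := h_twist P hN0 hξ t
  have hO : ∀ g : E ≃ₐ[ℚ] E, g β ∈ P.O := by
    intro g
    rw [hβ, map_mul]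
    refine P.O.mul_mem ?_ (htO g)
    have h1 : (g ξ) ^ N0 = 1 := by rw [← map_pow, hξ, map_one]
    have : NeZero N0 := ⟨by omega⟩
    obtain ⟨i, _, hi⟩ := hζ.eq_pow_of_pow_eq_one h1
    rw [← hi]
    exact P.O.pow_mem hζO i
  have hθ : IsPrimitiveRoot (ζ ^ (N0 / N)) N :=
    hζ.pow hN0 (Nat.div_mul_cancel hNN0).symm
  have hnorm : ∀ (g : E ≃ₐ[ℚ] E), ∀ h ∈ H, g * h * g⁻¹ ∈ H := fun g h hh =>
    fx_normal hN0 hζ (N0 / N) g hh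
  have hDr : (D : ℝ) ≤ ((k : ℝ) + 1) ^ n * D1 := by
    have : (D : ℝ) ≤ ((k0 ^ n * D1 : ℕ) : ℝ) := by exact_mod_cast hcard
    rw [hk0] at this
    push_cast at this
    exact this
  have hh0 : 0 ≤ P.h t := hpos.le
  have hkr : (1 : ℝ) ≤ (k : ℝ) ^ 2 := by exact_mod_cast hk2
  have hxr : (x : ℝ) = 55 * ((k : ℝ) + 1) ^ n * y := by
    rw [hx, hk0]
    push_cast
    ring
  rw [← hxr]
  by_cases hcase : ∃ p ∈ T, p ∣ N
  · obtain ⟨p, hpT, hpN⟩ := hcase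
    obtain ⟨hp, hxp, hpX, hpD⟩ := hT p hpT
    obtain ⟨hpN0, hpO⟩ := hT1 p hpT
    obtain ⟨N', hN'⟩ := hpN
    obtain ⟨M, hM⟩ := hNN0
    have hppos : 0 < p := hp.pos
    have hN'pos : 0 < N' := by
      rcases Nat.eq_zero_or_pos N' with h | h
      · rw [h, mul_zero] at hN'
        omega
      · exact h
    have e1 : N0 / N = M := by
      rw [hM]
      exact Nat.mul_div_cancel_left _ hNpos
    have e2 : N / p = N' := by
      rw [hN']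
      exact Nat.mul_div_cancel_left _ hppos
    have e3 : N0 / (N / p) = (N0 / N) * p := by
      rw [e2, e1, hM, hN', show p * N' * M = N' * (M * p) by ring]
      exact Nat.mul_div_cancel_left _ hN'pos
    have hHH' : H ≤ fx (ζ ^ (N0 / (N / p))) := by
      rw [e3]
      exact fx_pow_le ζ (Dvd.intro _ rfl)
    have hω : IsPrimitiveRoot (ζ ^ (N0 / p)) p := hζ.pow hN0 (Nat.div_mul_cancel hpN0).symm
    have hcp := d1_card_pow H β p (hinj p hpT)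
    obtain ⟨e, he⟩ := orb_card_dvd hHH' (fun g _ h hh => hnorm g h hh) (β ^ p)
    rw [hcp, mul_comm] at he
    have hge := hram p hpT ⟨N', hN'⟩
    rw [he] at hge
    have hk0e : k + 1 ≤ e := Nat.le_of_mul_le_mul_right hge (by omega)
    have hineq := core_R P hp hpO hHH' (fun g _ h hh => hnorm g h hh) hω hβ0 hO hinv (hinj p hpT)
      (fun j hvp σ hσ z hz hvz => cong_R hNpos hθ (P.v j) (P.na j) hp hvp (by
        rw [← pow_mul, ← e3]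
        exact hσ) z hz hvz) D e rfl he
    rw [hhβ] at hineq
    have h21 : 21 * D ≤ 42 * n * k0 ^ n * D1 := by
      calc 21 * D ≤ 21 * (k0 ^ n * D1) := Nat.mul_le_mul_left _ hcard
        _ ≤ 42 * n * k0 ^ n * D1 := by
          have h5 : 21 ≤ 42 * n := by omega
          calc 21 * (k0 ^ n * D1) ≤ (42 * n) * (k0 ^ n * D1) := Nat.mul_le_mul_right _ h5
            _ = _ := by ring
    have hp2 : (21 * D) ^ 2 ≤ p ^ k := by
      calc (21 * D) ^ 2 ≤ (42 * n * k0 ^ n * D1) ^ 2 := Nat.pow_le_pow_left h21 2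
        _ ≤ y ^ k := hyk
        _ ≤ x ^ k := hykxk.le
        _ ≤ p ^ k := Nat.pow_le_pow_left hxp.le k
    have h1 := num_R hk hk0e hDpos (by omega) hp2 hineq
    refine h1.trans ?_
    have hpr' : (p : ℝ) ≤ 2 ^ (n + k) * x := by exact_mod_cast hpX
    calc 2 * (D : ℝ) * p * P.h t ≤ 2 * (((k : ℝ) + 1) ^ n * D1) * (2 ^ (n + k) * x) * P.h t := by
          gcongr
      _ = 1 * (2 * ((k : ℝ) + 1) ^ n * 2 ^ (n + k) * D1 * x * P.h t) := by ring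
      _ ≤ (k : ℝ) ^ 2 * (2 * ((k : ℝ) + 1) ^ n * 2 ^ (n + k) * D1 * x * P.h t) := by
          refine mul_le_mul_of_nonneg_right hkr ?_
          positivity
      _ = _ := by ring
  · push Not at hcase
    have hex : ∀ p : ℕ, ∃ τ : E ≃ₐ[ℚ] E, p ∈ T → τ (ζ ^ (N0 / N)) = (ζ ^ (N0 / N)) ^ p := by
      intro p
      by_cases hp : p ∈ T
      · obtain ⟨τ, hτ⟩ := exists_frob hNpos hθ ((Nat.Prime.coprime_iff_not_dvd (hT p hp).1).2 (hcase p hp))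
        exact ⟨τ, fun _ => hτ⟩
      · exact ⟨1, fun h => absurd h hp⟩
    choose τ hτ using hex
    have hineq := core_U P hnorm (by rw [hhβ]; exact hpos) hO hinv T (fun p hp => ⟨(hT p hp).1, (hT1 p hp).2⟩)
      hinj τ (fun p hp j hvp z hz hvz => cong_U hNpos hθ (P.v j) (P.na j) (hT p hp).1 hvp (hτ p hp) z hz hvz)
      k (by omega) D ((k + T.card) * D) rfl rfl
    rw [hhβ] at hineq
    have h21 : 21 * ((k + T.card) * D) ≤ 42 * n * k0 ^ n * D1 := by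
      rw [hTc]
      have h6 : k + n ≤ 2 * n := by
        rw [hn]
        nlinarith
      calc 21 * ((k + n) * D) ≤ 21 * ((2 * n) * (k0 ^ n * D1)) := by gcongr
        _ = 42 * n * k0 ^ n * D1 := by ring
    have hxk : (21 * ((k + T.card) * D)) ^ 2 ≤ x ^ k := by
      calc (21 * ((k + T.card) * D)) ^ 2 ≤ (42 * n * k0 ^ n * D1) ^ 2 := Nat.pow_le_pow_left h21 2
        _ ≤ y ^ k := hyk
        _ ≤ x ^ k := hykxk.le
    have h1 := num_U T hk (by rw [hTc]) hDpos rfl (fun p hp => ⟨(hT p hp).2.1.le, (hT p hp).2.2.1⟩)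
      (by omega) hxk hh0 hineq
    refine h1.trans ?_
    push_cast
    calc (k : ℝ) ^ 2 * D * (2 ^ (n + k) * x) * P.h t ≤
          (k : ℝ) ^ 2 * (((k : ℝ) + 1) ^ n * D1) * (2 ^ (n + k) * x) * P.h t := by gcongr
      _ = 1 * ((k : ℝ) ^ 2 * (((k : ℝ) + 1) ^ n * D1) * (2 ^ (n + k) * x) * P.h t) := by ring
      _ ≤ 2 * ((k : ℝ) ^ 2 * (((k : ℝ) + 1) ^ n * D1) * (2 ^ (n + k) * x) * P.h t) := by
          refine mul_le_mul_of_nonneg_right (by norm_num) ?_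
          positivity
      _ = _ := by ring

end

/-- Row D1. The relative lower bound of Dobrowolski type over cyclotomic fields.

Proof. Constants: `n = k ^ 2`, `k0 = k + 1`, `L = 42 * k ^ 2 * k0 ^ n`. For `D1 ≥ 1` let `y` be the least
natural number with `(L * D1) ^ 2 ≤ y ^ k` (`y ≥ 1`), `x = 55 * k0 ^ n * y`,
`X D1 = 2 ^ (n + k) * x`. `y ^ k ≤ 2 ^ k * (L * D1) ^ 2`: clear if `y = 1`; if `y ≥ 2`,
`y ≤ 2 (y - 1)` and `(y - 1) ^ k < (L * D1) ^ 2`. So `x ^ k ≤ K2 * D1 ^ 2` with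
`K2 = (55 * k0 ^ n) ^ k * 2 ^ k * L ^ 2`. Let `K1 = 2 * k ^ 2 * k0 ^ n * 2 ^ (n + k)` and
`c = 1 / (K1 ^ k * K2)`. Take `X 0 = 0`.
Let `E, P, ζ, t, ...` be given; `D1 ≥ 1` (`orb_card_pos`), `t ≠ 0` (`P.h 0 = 0`). `D1 < x ^ k`, so Row D0
(`primes n k x D1`) gives `T` with `T.card = n` and, for `p ∈ T`: `p` prime, `x < p ≤ X D1`,
`¬ p ∣ D1`, so `p ∣ N0`, `(p : E)⁻¹ ∈ P.O`, `k0 ^ n < p`, `55 ≤ p`.
Row K7 (`kum`, with `k0`) gives `N ∣ N0`, `ξ`; let `β = ξ * t ≠ 0`, `H = fx (ζ ^ (N0 / N))`,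
`D = (orb H β).card`, `1 ≤ D ≤ k0 ^ n * D1`. `P.h β = P.h t =: h > 0` (`h_twist`). All `g β = g ξ * g t`
are in `P.O` (`g ξ` is a power of `ζ`).
`θ = ζ ^ (N0 / N)` is a primitive `N`-th root of unity.
Case 1: some `p ∈ T` divides `N`. `H' = fx (ζ ^ (N0 / (N / p)))`; `ζ ^ (N0 / (N / p)) = θ ^ p`. `H ≤ H'`
(`fx_pow_le`), `H` normal (`fx_normal`), `ω = ζ ^ (N0 / p)` primitive `p`-th root of unity;
`e` = the number of blocks: `(orb H' (β ^ p)).card = e * (orb H (β ^ p)).card` (`orb_card_dvd`), and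
`(orb H (β ^ p)).card = D` by injectivity; `k0 * D ≤ e * D` gives `k + 1 ≤ e`. `core_R` with `cong_R`
and then `num_R` (`(21 D) ^ 2 ≤ (L D1) ^ 2 ≤ y ^ k ≤ p ^ k`) give
`1 ≤ 2 D p h ≤ K1 * D1 * x * h`.
Case 2: no `p ∈ T` divides `N`. For `p ∈ T` take `τ p` from `exists_frob`
(`p` coprime to `N`), `core_U` with `cong_U`, then `num_U` with `B = X D1`
(`M = (k + k ^ 2) D ≤ 2 k ^ 2 k0 ^ n D1`, so `(21 M) ^ 2 ≤ (L D1) ^ 2 ≤ x ^ k`):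
`1 ≤ k ^ 2 D (X D1) h ≤ K1 * D1 * x * h`.
In both cases `1 ≤ (K1 D1 x h) ^ k ≤ K1 ^ k * K2 * (D1 ^ (k + 2) * h ^ k)`. -/
theorem dob (k : ℕ) (hk : 2 ≤ k) : ∃ (c : ℝ) (X : ℕ → ℕ), 0 < c ∧
    ∀ (E : Type) [Field E] [NumberField E] [IsGalois ℚ E] (P : PL E) (N0 N1 D1 : ℕ) (ζ t : E),
      0 < N0 → IsPrimitiveRoot ζ N0 → N1 ∣ N0 → D1 = (orb (fx (ζ ^ (N0 / N1))) t).card →
      (∀ p : ℕ, p.Prime → p ≤ X D1 → p ∣ N0 ∧ ((p : E))⁻¹ ∈ P.O) → ζ ∈ P.O →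
      (∀ g : E ≃ₐ[ℚ] E, g t ∈ P.O) → (∀ (g : E ≃ₐ[ℚ] E) (x : E), P.h (g x) = P.h x) →
      0 < P.h t → c ≤ P.h t ^ k * (D1 : ℝ) ^ (k + 2) := by
  classical
  set L : ℕ := 42 * k ^ 2 * (k + 1) ^ (k ^ 2) with hL
  have hL1 : 1 ≤ L := by
    rw [hL]
    exact Nat.one_le_iff_ne_zero.2 (by positivity)
  have hex : ∀ D1 : ℕ, ∃ y : ℕ, 1 ≤ D1 → 1 ≤ y ∧ (L * D1) ^ 2 ≤ y ^ k ∧ y ^ k ≤ 2 ^ k * (L * D1) ^ 2 := by
    intro D1
    by_cases h : 1 ≤ D1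
    · obtain ⟨y, hy⟩ := d1_y k (L * D1) hk (Nat.one_le_iff_ne_zero.2 (by positivity))
      exact ⟨y, fun _ => hy⟩
    · exact ⟨0, fun h' => absurd h' h⟩
  choose Y hY using hex
  set K1 : ℝ := 2 * (k : ℝ) ^ 2 * ((k : ℝ) + 1) ^ (k ^ 2) * 2 ^ (k ^ 2 + k) with hK1
  set K2 : ℝ := (55 * ((k : ℝ) + 1) ^ (k ^ 2)) ^ k * 2 ^ k * (L : ℝ) ^ 2 with hK2
  have hkpos : (0 : ℝ) < k := by
    have : 0 < k := by omega
    exact_mod_cast this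
  have hLpos : (0 : ℝ) < L := by exact_mod_cast hL1
  have hK1pos : 0 < K1 := by
    rw [hK1]
    positivity
  have hK2pos : 0 < K2 := by
    rw [hK2]
    positivity
  refine ⟨1 / (K1 ^ k * K2), fun D1 => 2 ^ (k ^ 2 + k) * (55 * (k + 1) ^ (k ^ 2) * Y D1), by positivity, ?_⟩
  intro E _ _ _ P N0 N1 D1 ζ t hN0 hζ hN1 hD1 hpr hζO htO hinv hpos
  have hD1pos : 1 ≤ D1 := by
    rw [hD1]
    exact orb_card_pos _ _
  obtain ⟨hy1, hy2, hy3⟩ := hY D1 hD1pos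
  have hkey := d1_key k hk P N0 N1 D1 ζ t (Y D1) hy1 (by rw [← hL]; exact hy2) hN0 hζ hN1 hD1 hpr hζO htO hinv hpos
  rw [← hK1] at hkey
  have h1 : (1 : ℝ) ≤ (K1 * D1 * (55 * ((k : ℝ) + 1) ^ (k ^ 2) * Y D1) * P.h t) ^ k := one_le_pow₀ hkey
  have h2 : (55 * ((k : ℝ) + 1) ^ (k ^ 2) * Y D1) ^ k ≤ K2 * (D1 : ℝ) ^ 2 := by
    have h3 : ((Y D1 : ℝ)) ^ k ≤ 2 ^ k * ((L : ℝ) * D1) ^ 2 := by exact_mod_cast hy3
    calc (55 * ((k : ℝ) + 1) ^ (k ^ 2) * Y D1) ^ k =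
          (55 * ((k : ℝ) + 1) ^ (k ^ 2)) ^ k * ((Y D1 : ℝ)) ^ k := mul_pow _ _ _
      _ ≤ (55 * ((k : ℝ) + 1) ^ (k ^ 2)) ^ k * (2 ^ k * ((L : ℝ) * D1) ^ 2) := by gcongr
      _ = K2 * (D1 : ℝ) ^ 2 := by
        rw [hK2]
        ring
  have hh0 : 0 ≤ P.h t := hpos.le
  have h3 : (1 : ℝ) ≤ (K1 ^ k * K2) * (P.h t ^ k * (D1 : ℝ) ^ (k + 2)) := by
    calc (1 : ℝ) ≤ (K1 * D1 * (55 * ((k : ℝ) + 1) ^ (k ^ 2) * Y D1) * P.h t) ^ k := h1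
      _ = K1 ^ k * (D1 : ℝ) ^ k * (55 * ((k : ℝ) + 1) ^ (k ^ 2) * Y D1) ^ k * P.h t ^ k := by
        rw [mul_pow, mul_pow, mul_pow]
      _ ≤ K1 ^ k * (D1 : ℝ) ^ k * (K2 * (D1 : ℝ) ^ 2) * P.h t ^ k := by gcongr
      _ = (K1 ^ k * K2) * (P.h t ^ k * (D1 : ℝ) ^ (k + 2)) := by
        rw [pow_add]
        ring
  rw [div_le_iff₀ (by positivity)]
  calc (1 : ℝ) ≤ (K1 ^ k * K2) * (P.h t ^ k * (D1 : ℝ) ^ (k + 2)) := h3
    _ = _ := by ring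

end Pool.Agent.ZPB
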