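import Mathlib

set_option autoImplicit false

open Polynomial

namespace Pool.Agent.ZPB

/-- The polynomial in two variables obtained from `Q` by the substitution
`x i = ξ i * u ^ (e1 i) * v ^ (e2 i)` and multiplication by `u ^ (s1 * d) * v ^ (s2 * d)` (`u` is the inner,
`v` the outer variable). -/
noncomputable def lp {E : Type} [Field E] {n : ℕ} (d s1 s2 : ℕ) (e1 e2 : Fin n → ℤ)
    (ξ : Fin n → E) (Q : MvPolynomial (Fin n) E) : E[X][X] :=
  ∑ m ∈ Q.support, C (C (Q.coeff m * ∏ i, ξ i ^ m i) *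
    X ^ ((s1 * d : ℤ) + ∑ i, (m i : ℤ) * e1 i).toNat) *
      X ^ ((s2 * d : ℤ) + ∑ i, (m i : ℤ) * e2 i).toNat

variable {E : Type} [Field E] {n : ℕ} {d s1 s2 : ℕ} {e1 e2 : Fin n → ℤ} {ξ : Fin n → E}
  {Q : MvPolynomial (Fin n) E}

theorem m1_zsum {E : Type} [Field E] {u : E} (hu : u ≠ 0) {ι : Type} (s : Finset ι) (f : ι → ℤ) :
    u ^ (∑ i ∈ s, f i) = ∏ i ∈ s, u ^ f i := by
  classical
  induction s using Finset.induction_on with
  | empty => simp
  | insert a s ha ih => rw [Finset.sum_insert ha, Finset.prod_insert ha, zpow_add₀ hu, ih]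

theorem m1_toNat {E : Type} [Field E] {u : E} (hu : u ≠ 0) {n : ℕ} (N : ℕ) (m : Fin n →₀ ℕ)
    (e : Fin n → ℤ) (h : 0 ≤ (N : ℤ) + ∑ i, (m i : ℤ) * e i) :
    u ^ ((N : ℤ) + ∑ i, (m i : ℤ) * e i).toNat = u ^ N * ∏ i, (u ^ e i) ^ m i := by
  rw [← zpow_natCast, Int.toNat_of_nonneg h, zpow_add₀ hu, zpow_natCast, m1_zsum hu]
  congr 1
  refine Finset.prod_congr rfl fun i _ => ?_
  rw [mul_comm, zpow_mul, zpow_natCast]

/-- Row M1. The exponents are between `0` and `2 s d`: `|∑ m i * e i| ≤ s * ∑ m i ≤ s * d`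
(`MvPolynomial.le_totalDegree`: `m.sum (fun _ e => e) ≤ totalDegree`). -/
theorem lp_exp {e : Fin n → ℤ} {s : ℕ} (h : ∀ i, |e i| ≤ s) (hd : Q.totalDegree ≤ d)
    {m : Fin n →₀ ℕ} (hm : m ∈ Q.support) :
    0 ≤ (s * d : ℤ) + ∑ i, (m i : ℤ) * e i ∧ (s * d : ℤ) + ∑ i, (m i : ℤ) * e i ≤ 2 * s * d := by
  have h1 : ∑ i, m i ≤ d := by
    have h2 := MvPolynomial.le_totalDegree hm
    rw [Finsupp.sum_fintype _ _ (fun _ => rfl)] at h2
    exact h2.trans hd
  have h3 : |∑ i, (m i : ℤ) * e i| ≤ s * d := by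
    calc |∑ i, (m i : ℤ) * e i| ≤ ∑ i, |(m i : ℤ) * e i| := Finset.abs_sum_le_sum_abs _ _
      _ ≤ ∑ i, (m i : ℤ) * s := Finset.sum_le_sum fun i _ => by
          rw [abs_mul, Nat.abs_cast]
          exact mul_le_mul_of_nonneg_left (h i) (Int.natCast_nonneg _)
      _ = (∑ i, (m i : ℤ)) * s := by rw [Finset.sum_mul]
      _ ≤ d * s := by
          refine mul_le_mul_of_nonneg_right ?_ (Int.natCast_nonneg _)
          exact_mod_cast h1
      _ = s * d := mul_comm _ _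
  have h4 := abs_le.1 h3
  constructor
  · linarith [h4.1]
  · have : (2 : ℤ) * s * d = s * d + s * d := by ring
    linarith [h4.2]

/-- Row M1. Evaluation. By `lp_exp` the `toNat` are the integers themselves;
`u ^ (s1 d + ∑ m i e1 i) = u ^ (s1 d) * ∏ (u ^ (e1 i)) ^ m i` (`zpow`, `u ≠ 0`). -/
theorem lp_eval (h1 : ∀ i, |e1 i| ≤ s1) (h2 : ∀ i, |e2 i| ≤ s2) (hd : Q.totalDegree ≤ d)
    {u v : E} (hu : u ≠ 0) (hv : v ≠ 0) :
    ((lp d s1 s2 e1 e2 ξ Q).map (evalRingHom u)).eval v =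
      u ^ (s1 * d) * v ^ (s2 * d) *
        MvPolynomial.eval (fun i => ξ i * u ^ e1 i * v ^ e2 i) Q := by
  unfold lp
  rw [Polynomial.map_sum, eval_finsetSum, MvPolynomial.eval_eq', Finset.mul_sum]
  refine Finset.sum_congr rfl fun m hm => ?_
  have a1 := (lp_exp h1 hd hm).1
  have a2 := (lp_exp h2 hd hm).1
  rw [Polynomial.map_mul, Polynomial.map_C, Polynomial.map_pow, Polynomial.map_X, eval_mul, eval_C,
    eval_pow, eval_X, coe_evalRingHom, eval_mul, eval_C, eval_pow, eval_X]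
  have b1 := m1_toNat hu (s1 * d) m e1 (by push_cast; exact a1)
  have b2 := m1_toNat hv (s2 * d) m e2 (by push_cast; exact a2)
  push_cast at b1 b2
  rw [b1, b2]
  simp only [mul_pow, Finset.prod_mul_distrib]
  ring

theorem lp_natDegree (h2 : ∀ i, |e2 i| ≤ s2) (hd : Q.totalDegree ≤ d) :
    (lp d s1 s2 e1 e2 ξ Q).natDegree ≤ 2 * s2 * d := by
  unfold lp
  refine natDegree_sum_le_of_forall_le _ _ fun m hm => ?_
  refine (natDegree_C_mul_X_pow_le _ _).trans ?_
  have a2 := (lp_exp h2 hd hm).2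
  rw [Int.toNat_le]
  push_cast
  exact a2

theorem lp_coeff_natDegree (h1 : ∀ i, |e1 i| ≤ s1) (hd : Q.totalDegree ≤ d) (k : ℕ) :
    ((lp d s1 s2 e1 e2 ξ Q).coeff k).natDegree ≤ 2 * s1 * d := by
  unfold lp
  rw [finsetSum_coeff]
  refine natDegree_sum_le_of_forall_le _ _ fun m hm => ?_
  rw [coeff_C_mul_X_pow]
  split_ifs
  · refine (natDegree_C_mul_X_pow_le _ _).trans ?_
    have a1 := (lp_exp h1 hd hm).2
    rw [Int.toNat_le]
    push_cast
    exact a1
  · rw [natDegree_zero]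
    exact Nat.zero_le _

/-- Row M1. The polynomial is fixed by ring homomorphisms fixing the `ξ i` and the coefficients. -/
theorem lp_map (σ : E →+* E) (hσ : ∀ i, σ (ξ i) = ξ i) (hQ : ∀ m, σ (Q.coeff m) = Q.coeff m) :
    (lp d s1 s2 e1 e2 ξ Q).map (mapRingHom σ) = lp d s1 s2 e1 e2 ξ Q := by
  unfold lp
  rw [Polynomial.map_sum]
  refine Finset.sum_congr rfl fun m _ => ?_
  have h1 : σ (Q.coeff m * ∏ i, ξ i ^ m i) = Q.coeff m * ∏ i, ξ i ^ m i := by
    rw [map_mul, hQ, map_prod]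
    simp only [map_pow, hσ]
  rw [Polynomial.map_mul, Polynomial.map_C, Polynomial.map_pow, Polynomial.map_X, coe_mapRingHom,
    Polynomial.map_mul, Polynomial.map_C, Polynomial.map_pow, Polynomial.map_X, h1]

/-- Row M1. Evaluation and ring homomorphisms. -/
theorem eval_map_hom (σ : E →+* E) (G : E[X][X]) (u v : E) :
    ((G.map (mapRingHom σ)).map (evalRingHom (σ u))).eval (σ v) =
      σ ((G.map (evalRingHom u)).eval v) := by
  have h1 : (evalRingHom (σ u)).comp (mapRingHom σ) = σ.comp (evalRingHom u) := by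
    refine Polynomial.ringHom_ext ?_ ?_
    · intro a
      simp
    · simp
  rw [Polynomial.map_map, h1, ← Polynomial.map_map, eval_map, eval₂_at_apply]

end Pool.Agent.ZPB
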