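import Mathlib
import Pool.Agent.ZPA.Defs
import Pool.Agent.ZPB.M1

set_option autoImplicit false

open Polynomial

namespace Pool.Agent.ZPB

open Pool.Agent.MP_dd1803_nt

/-- A point of the torus coordinate with a constant power. -/
theorem m4_pow {A : Type} [CommGroup A] (x y a b : A) (p q r s : ℤ)
    (h1 : x ^ p * y ^ q = a) (h2 : x ^ r * y ^ s = b) :
    x ^ (p * s - r * q) = a ^ s * (b ^ q)⁻¹ ∧ y ^ (p * s - r * q) = b ^ p * (a ^ r)⁻¹ := by
  constructor
  · rw [← h1, ← h2, mul_zpow, mul_zpow, mul_inv, ← zpow_mul, ← zpow_mul, ← zpow_mul, ← zpow_mul,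
      zpow_sub, mul_comm q s]
    rw [mul_mul_mul_comm, mul_inv_cancel, mul_one]
  · rw [← h1, ← h2, mul_zpow, mul_zpow, mul_inv, ← zpow_mul, ← zpow_mul, ← zpow_mul, ← zpow_mul,
      zpow_sub, mul_comm s p, mul_comm q r, mul_comm r p]
    rw [mul_mul_mul_comm, mul_inv_cancel, one_mul]

/-- A coordinate with a constant power is not free. -/
theorem m4_ind {F : Type} [Field F] {Y : Set (Fin 2 → Fˣ)} (k : Fin 2) (D : ℤ) (hD : D ≠ 0)
    (d : Fˣ) (h : ∀ y ∈ Y, y k ^ D = d) : ¬ Ind F Y {k} := by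
  intro hI
  obtain ⟨N, hN, e, he⟩ : ∃ N : ℕ, N ≠ 0 ∧ ∃ e : Fˣ, ∀ y ∈ Y, y k ^ N = e := by
    refine ⟨D.natAbs, Int.natAbs_ne_zero.mpr hD, ?_⟩
    rcases Int.natAbs_eq D with h0 | h0
    · refine ⟨d, fun y hy => ?_⟩
      have h1 := h y hy
      rw [h0, zpow_natCast] at h1
      exact h1
    · refine ⟨d⁻¹, fun y hy => ?_⟩
      have h1 := h y hy
      rw [h0, zpow_neg, zpow_natCast] at h1
      rw [← h1, inv_inv]
  have h2 := hI (MvPolynomial.X ⟨k, rfl⟩ ^ N - MvPolynomial.C (e : F)) (fun y hy => by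
    rw [map_sub, map_pow, MvPolynomial.aeval_X, MvPolynomial.aeval_C, ← he y hy]
    simp [co])
  have h3 := congrArg (MvPolynomial.eval (fun _ => (0 : F))) h2
  rw [map_sub, map_pow, MvPolynomial.eval_X, MvPolynomial.eval_C, map_zero, zero_pow hN,
    zero_sub, neg_eq_zero] at h3
  exact e.ne_zero h3

/-- Row M4. Two nonzero constant monomials with independent exponents bound the dimension.

Proof. Let `Δ = e1 i * e2 j - e1 j * e2 i ≠ 0`. On `Y` the functions
`y 0 ^ e1 i * y 1 ^ e2 i` and `y 0 ^ e1 j * y 1 ^ e2 j` are constant, so `y 0 ^ Δ` and `y 1 ^ Δ` are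
constant. So `Y` is finite; being irreducible it is a singleton (`Irr.subset_of_finset` /
`PIrr`, points are closed `zclosed_singleton`), and `td F {y} = 0`: the ideal contains `X i - C (y i)` for
all `i`, or: if `td F Y ≠ 0` there is a coordinate `i` such that no nonzero polynomial in `X i` vanishes on
`Y` (`exists_basis'`, `Ind`, `ind_iff`), but `X i ^ |Δ| - C c` does. -/
theorem td_zero {F : Type} [Field F] [IsAlgClosed F] [CharZero F] {n : ℕ} {Y : Set (Fin 2 → Fˣ)}
    (hY : Irr Y) (e1 e2 : Fin n → ℤ) (hind : ∃ i j, e1 i * e2 j ≠ e1 j * e2 i)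
    (c : Fin n → Fˣ) (hc : ∀ y ∈ Y, ∀ i, y 0 ^ e1 i * y 1 ^ e2 i = c i) : td F Y = 0 := by
  obtain ⟨i, j, hij⟩ := hind
  obtain ⟨s, hs, hcard⟩ := exists_basis' (k := F) hY.pirr
  rw [← hcard, Set.ncard_eq_zero s.toFinite]
  by_contra hne
  obtain ⟨k, hk⟩ := Set.nonempty_iff_ne_empty.mpr hne
  have h1 : Ind F Y {k} := hs.mono (Set.singleton_subset_iff.mpr hk)
  have hD : e1 i * e2 j - e1 j * e2 i ≠ 0 := sub_ne_zero.mpr hij
  have h2 : ∀ y ∈ Y, y 0 ^ (e1 i * e2 j - e1 j * e2 i) = c i ^ e2 j * (c j ^ e2 i)⁻¹ ∧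
      y 1 ^ (e1 i * e2 j - e1 j * e2 i) = c j ^ e1 i * (c i ^ e1 j)⁻¹ := fun y hy =>
    m4_pow _ _ _ _ _ _ _ _ (hc y hy i) (hc y hy j)
  fin_cases k
  · exact m4_ind 0 _ hD _ (fun y hy => (h2 y hy).1) h1
  · exact m4_ind 1 _ hD _ (fun y hy => (h2 y hy).2) h1

/-- Evaluation of a bivariate polynomial with coefficients in a subfield at a point of `F`. -/
noncomputable def m4_ev {F : Type} [Field F] [CharZero F] (E : IntermediateField ℚ F) (u v : F) :
    E[X][X] →+* F :=
  eval₂RingHom (eval₂RingHom (algebraMap E F) u) v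

theorem m4_ev_eq {F : Type} [Field F] [CharZero F] (E : IntermediateField ℚ F) (u v : F)
    (P : E[X][X]) :
    m4_ev E u v P = ((P.map (mapRingHom (algebraMap E F))).map (evalRingHom u)).eval v := by
  unfold m4_ev
  rw [coe_eval₂RingHom, Polynomial.map_map, eval_map]
  congr 1
  ext a
  · simp
  · simp

theorem m4_ev_coe {F : Type} [Field F] [CharZero F] (E : IntermediateField ℚ F) (u v : E)
    (P : E[X][X]) :
    m4_ev E (u : F) (v : F) P = ((P.map (evalRingHom u)).eval v : E) := by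
  unfold m4_ev
  have h : (eval₂RingHom (eval₂RingHom (algebraMap E F) (u : F)) (v : F)) =
      (algebraMap E F).comp ((evalRingHom v).comp (mapRingHom (evalRingHom u))) := by
    apply Polynomial.ringHom_ext
    · intro a
      simp only [coe_eval₂RingHom, eval₂_C, RingHom.comp_apply, coe_mapRingHom, map_C,
        coe_evalRingHom, eval_C]
      exact Polynomial.eval₂_at_apply (algebraMap E F) u
    · simp only [coe_eval₂RingHom, eval₂_X, RingHom.comp_apply, coe_mapRingHom, map_X,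
        coe_evalRingHom, eval_X]
      rfl
  rw [h]
  rfl

theorem m4_ev_mv {F : Type} [Field F] [CharZero F] (E : IntermediateField ℚ F)
    (P : E[X][X]) : ∃ p : MvPolynomial (Fin 2) F, ∀ y : Fin 2 → Fˣ,
      MvPolynomial.aeval (co y) p = m4_ev E (y 0 : F) (y 1 : F) P := by
  refine ⟨eval₂RingHom (eval₂RingHom ((MvPolynomial.C).comp (algebraMap E F))
    (MvPolynomial.X 0)) (MvPolynomial.X 1) P, fun y => ?_⟩
  have h : ((MvPolynomial.aeval (co y) : MvPolynomial (Fin 2) F →ₐ[F] F) :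
      MvPolynomial (Fin 2) F →+* F).comp
      (eval₂RingHom (eval₂RingHom ((MvPolynomial.C).comp (algebraMap E F))
        (MvPolynomial.X 0)) (MvPolynomial.X 1)) = m4_ev E (y 0 : F) (y 1 : F) := by
    unfold m4_ev
    apply Polynomial.ringHom_ext
    · intro a
      have h2 : ((MvPolynomial.aeval (co y) : MvPolynomial (Fin 2) F →ₐ[F] F) :
          MvPolynomial (Fin 2) F →+* F).comp
          (eval₂RingHom ((MvPolynomial.C).comp (algebraMap E F)) (MvPolynomial.X 0)) =
          eval₂RingHom (algebraMap E F) (y 0 : F) := by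
        apply Polynomial.ringHom_ext
        · intro b
          simp
        · simp [co]
      have h3 := congrArg (fun f : E[X] →+* F => f a) h2
      simpa using h3
    · simp [co]
  rw [← h]
  rfl

theorem m4_lp {F : Type} [Field F] [CharZero F] (E : IntermediateField ℚ F) {n : ℕ}
    (d s1 s2 : ℕ) (e1 e2 : Fin n → ℤ) (ξ : Fin n → E) (Q : MvPolynomial (Fin n) E) :
    (lp d s1 s2 e1 e2 ξ Q).map (mapRingHom (algebraMap E F)) =
      lp d s1 s2 e1 e2 (fun i => (ξ i : F)) (Q.map (algebraMap E F)) := by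
  unfold lp
  rw [Polynomial.map_sum, MvPolynomial.support_map_of_injective _ (algebraMap E F).injective]
  apply Finset.sum_congr rfl
  intro m _
  have h : algebraMap E F (Q.coeff m * ∏ i, ξ i ^ m i) =
      (Q.map (algebraMap E F)).coeff m * ∏ i, (ξ i : F) ^ m i := by
    rw [MvPolynomial.coeff_map, map_mul, map_prod]
    simp only [map_pow]
    rfl
  rw [Polynomial.map_mul, Polynomial.map_pow, map_C, map_X, ← h]
  congr 2
  rw [coe_mapRingHom, Polynomial.map_mul, Polynomial.map_pow, map_C, map_X]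

theorem m4_prod_zpow {A ι : Type} [CommGroup A] (x : A) (s : Finset ι) (f : ι → ℤ) :
    ∏ i ∈ s, x ^ f i = x ^ (∑ i ∈ s, f i) := by
  classical
  induction s using Finset.induction_on with
  | empty => simp
  | insert a s ha ih => rw [Finset.prod_insert ha, Finset.sum_insert ha, zpow_add, ih]

/-- Row M4. No common factor through an isolated point.

Proof. First case `G ≠ 0`. Let `G'` be the polynomial in `MvPolynomial (Fin 2) F` with
`aeval (co y) G' = (value of G at u = y 0, v = y 1)`: for instance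
`G' = G.sum fun k q => q.sum fun l a => C (a : F) * X 0 ^ l * X 1 ^ k`. `G' ≠ 0` is not needed. The point
`y0 = (u0, v0)` lies in the closed set `univ ∩ zp G'` (`zp`: zero set of one polynomial, as in
`krull`, file `Dim.lean`); let `Y` be a component of it containing `y0` (`exists_comp` with
`irr_singleton`). `krull irr_univ` gives `2 = td F univ ≤ td F Y + 1` (`td_univ`), so `td F Y ≠ 0`. Let
`ψ = mono a c` with `a i = ![e1 i, e2 i]`, `c i = ξ i` (a unit of `F`), so
`(ψ y) i = ξ i * y 0 ^ e1 i * y 1 ^ e2 i`, and `ψ y0 = x0`. `Z = cl F (ψ '' Y)` is irreducible closed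
(`PIrr.image`, `ratMap_mono`, `PIrr.cl`) and contains `x0`. For `y ∈ Y` the polynomial `G` vanishes at
`(y 0, y 1)`, so does `lp d s1 s2 e1 e2 ξ (Q k)`, mapped to `F` (it is a multiple of `G`), and
by `lp_eval` over `F` (`lp` of the image of `Q k` in `MvPolynomial (Fin n) F` is the image of `lp`; the factor
`u ^ _ * v ^ _` is not zero) `Q k` vanishes at `ψ y`. The conditions `Q k = 0` and
`ch m x = ch m x0` (`m` orthogonal to `e1` and `e2`, `ch_mul`-type computation:
`ch m (ψ y) = ∏ ξ i ^ m i`) are closed (`zclosed_ch`), so they hold on `Z` (`cl_subset`). So `hiso` gives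
`td F Z = 0`, and `Z = {x0}` by `eq_of_td_le (irr_singleton x0)`. So `ψ` is constant on `Y`, and
`td_zero` gives `td F Y = 0`, a contradiction.
Second case `G = 0`: then all `lp .. (Q k)` are `0`, they are divisible by
`X - C (C v0) ≠ 0`, which vanishes at `(u0, v0)`: apply the first case to it. -/
theorem no_common {F : Type} [Field F] [IsAlgClosed F] [CharZero F] (E : IntermediateField ℚ F)
    {n r : ℕ} (Q : Fin r → MvPolynomial (Fin n) E) (ξ : Fin n → E) (hξ : ∀ i, ξ i ≠ 0)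
    {u0 v0 : E} (hu : u0 ≠ 0) (hv : v0 ≠ 0) (d s1 s2 : ℕ) (e1 e2 : Fin n → ℤ)
    (h1 : ∀ i, |e1 i| ≤ s1) (h2 : ∀ i, |e2 i| ≤ s2) (hd : ∀ k, (Q k).totalDegree ≤ d)
    (hind : ∃ i j, e1 i * e2 j ≠ e1 j * e2 i) (x0 : Fin n → Fˣ)
    (hx0 : ∀ i, (x0 i : F) = (ξ i : F) * (u0 : F) ^ e1 i * (v0 : F) ^ e2 i)
    (hiso : ∀ Z : Set (Fin n → Fˣ), Irr Z → x0 ∈ Z →
      (∀ x ∈ Z, ∀ k, MvPolynomial.aeval (co x) (Q k) = 0) →
      (∀ x ∈ Z, ∀ m : Fin n → ℤ, ∑ i, m i * e1 i = 0 → ∑ i, m i * e2 i = 0 →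
        ch m x = ch m x0) → td F Z = 0)
    (G : E[X][X]) (hG : ∀ k, G ∣ lp d s1 s2 e1 e2 ξ (Q k)) :
    (G.map (evalRingHom u0)).eval v0 ≠ 0 := by
  intro hG0
  have hu' : (u0 : F) ≠ 0 := by simpa using hu
  have hv' : (v0 : F) ≠ 0 := by simpa using hv
  have hξ' : ∀ i, (ξ i : F) ≠ 0 := fun i => by simpa using hξ i
  obtain ⟨G', hG'⟩ := m4_ev_mv E G
  set y0 : Fin 2 → Fˣ := ![Units.mk0 (u0 : F) hu', Units.mk0 (v0 : F) hv'] with hy0
  have hy00 : y0 0 = Units.mk0 (u0 : F) hu' := rfl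
  have hy01 : y0 1 = Units.mk0 (v0 : F) hv' := rfl
  have hmem : y0 ∈ (Set.univ : Set (Fin 2 → Fˣ)) ∩ zp G' := by
    refine ⟨trivial, ?_⟩
    rw [mem_zp, hG', hy00, hy01, Units.val_mk0, Units.val_mk0, m4_ev_coe, hG0]
    simp
  obtain ⟨Y, hY, hyY⟩ := exists_comp (irr_univ.closed.inter (zclosed_zp G')) (irr_singleton y0)
    (Set.singleton_subset_iff.mpr hmem)
  have hyY' : y0 ∈ Y := hyY rfl
  have hk := krull irr_univ G' hY
  rw [td_univ] at hk
  have hk' : td F Y ≠ 0 := by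
    intro h0
    rw [h0] at hk
    simp at hk
  set c : Fin n → Fˣ := fun i => Units.mk0 (ξ i : F) (hξ' i) with hcdef
  set a : Fin n → Fin 2 → ℤ := fun i => ![e1 i, e2 i] with hadef
  have hψ : ∀ (y : Fin 2 → Fˣ) (i : Fin n), mono a c y i = c i * (y 0 ^ e1 i * y 1 ^ e2 i) := by
    intro y i
    unfold mono ch
    rw [Fin.prod_univ_two]
    rfl
  have hψ0 : mono a c y0 = x0 := by
    funext i
    apply Units.ext
    rw [hψ, hx0, Units.val_mul, Units.val_mul, Units.val_zpow_eq_zpow_val,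
      Units.val_zpow_eq_zpow_val, mul_assoc]
    rfl
  set Z : Set (Fin n → Fˣ) := cl F (mono a c '' Y) with hZdef
  have hZ : Irr Z := (hY.irr.pirr.image (ratMap_mono Y a c)).cl
  have hYZ : ∀ y ∈ Y, mono a c y ∈ Z := fun y hy => subset_cl _ ⟨y, hy, rfl⟩
  have hxZ : x0 ∈ Z := by
    rw [← hψ0]
    exact hYZ y0 hyY'
  have hQ : ∀ x ∈ Z, ∀ k, MvPolynomial.aeval (co x) (Q k) = 0 := by
    intro x hx k
    have hZQ : Z ⊆ zl E {Q k} := by
      apply cl_subset _ (zclosed_zl _)
      rintro _ ⟨y, hy, rfl⟩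
      rw [mem_zl]
      intro p hp
      rw [Set.mem_singleton_iff.mp hp]
      have h3 : m4_ev E (y 0 : F) (y 1 : F) G = 0 := by
        rw [← hG']
        exact (hY.subset hy).2
      have h4 : m4_ev E (y 0 : F) (y 1 : F) (lp d s1 s2 e1 e2 ξ (Q k)) = 0 := by
        obtain ⟨H, hH⟩ := hG k
        rw [hH, map_mul, h3, zero_mul]
      have hd' : ((Q k).map (algebraMap E F)).totalDegree ≤ d :=
by
        refine le_trans (le_of_eq ?_) (hd k)
        unfold MvPolynomial.totalDegree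
        rw [MvPolynomial.support_map_of_injective _ (algebraMap E F).injective]
      rw [m4_ev_eq, m4_lp, lp_eval h1 h2 hd' (y 0).ne_zero (y 1).ne_zero] at h4
      have h5 : (y 0 : F) ^ (s1 * d) * (y 1 : F) ^ (s2 * d) ≠ 0 :=
        mul_ne_zero (pow_ne_zero _ (y 0).ne_zero) (pow_ne_zero _ (y 1).ne_zero)
      have h6 := (mul_eq_zero.mp h4).resolve_left h5
      rw [MvPolynomial.aeval_def, MvPolynomial.eval₂_eq_eval_map]
      have h7 : co (mono a c y) =
          fun i => (ξ i : F) * (y 0 : F) ^ e1 i * (y 1 : F) ^ e2 i := by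
        funext i
        rw [co_apply, hψ, Units.val_mul, Units.val_mul, Units.val_zpow_eq_zpow_val,
          Units.val_zpow_eq_zpow_val, mul_assoc]
        rfl
      rw [h7]
      exact h6
    exact hZQ hx (Q k) rfl
  have hch : ∀ x ∈ Z, ∀ m : Fin n → ℤ, ∑ i, m i * e1 i = 0 → ∑ i, m i * e2 i = 0 →
      ch m x = ch m x0 := by
    intro x hx m hm1 hm2
    have h8 : ∀ y : Fin 2 → Fˣ, ch m (mono a c y) = ch m c := by
      intro y
      have h9 : ∀ i, mono a c y i ^ m i = c i ^ m i * (y 0 ^ (m i * e1 i) * y 1 ^ (m i * e2 i)) := by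
        intro i
        rw [hψ, mul_zpow, mul_zpow, ← zpow_mul, ← zpow_mul, mul_comm (e1 i), mul_comm (e2 i)]
      unfold ch
      rw [Finset.prod_congr rfl (fun i _ => h9 i), Finset.prod_mul_distrib,
        Finset.prod_mul_distrib, m4_prod_zpow, m4_prod_zpow, hm1, hm2, zpow_zero, zpow_zero,
        mul_one, mul_one]
    have h10 : Z ⊆ {x | ch m x = ch m x0} := by
      apply cl_subset _ (zclosed_ch _ _)
      rintro _ ⟨y, _, rfl⟩
      show ch m (mono a c y) = ch m x0
      rw [h8, ← hψ0, h8]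
    exact h10 hx
  have htd := hiso Z hZ hxZ hQ hch
  have hZe : ({x0} : Set (Fin n → Fˣ)) = Z :=
    eq_of_td_le (irr_singleton x0) hZ (Set.singleton_subset_iff.mpr hxZ) (by rw [htd]; exact Nat.zero_le _)
  apply hk'
  apply td_zero hY.irr e1 e2 hind (fun i => (c i)⁻¹ * x0 i)
  intro y hy i
  have h11 : mono a c y = x0 := by
    have h12 := hYZ y hy
    rw [← hZe] at h12
    exact h12
  rw [← h11, hψ, inv_mul_cancel_left]

end Pool.Agent.ZPB
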