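import Mathlib

set_option autoImplicit false

namespace Pool.Agent.ZPB

theorem m5_ev (K c : ℝ) (hK : 0 ≤ K) (hc : 0 < c) (k : ℕ) :
    ∀ᶠ x : ℝ in Filter.atTop, K * (1 + Real.log x) ^ k < c * x ^ 2 := by
  have h1 := (Real.isLittleO_pow_log_id_atTop (n := k)).bound (c := c / (2 * (K * 2 ^ k + 1))) (by positivity)
  filter_upwards [h1, Filter.eventually_ge_atTop (Real.exp 1)] with x hx hxe
  have hx1 : 1 ≤ x := le_trans (by have := Real.add_one_le_exp 1; linarith) hxe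
  have hx0 : 0 < x := by linarith
  have hlog : 1 ≤ Real.log x := by
    rw [← Real.log_exp 1]
    exact Real.log_le_log (Real.exp_pos 1) hxe
  have h2 : ‖Real.log x ^ k‖ = Real.log x ^ k := by
    rw [Real.norm_eq_abs, abs_of_nonneg (by positivity)]
  rw [h2, id, Real.norm_eq_abs, abs_of_pos hx0] at hx
  have h3 : (1 + Real.log x) ^ k ≤ 2 ^ k * Real.log x ^ k := by
    rw [← mul_pow]
    exact pow_le_pow_left₀ (by linarith) (by linarith) k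
  have h4 : K * (1 + Real.log x) ^ k ≤ K * (2 ^ k * (c / (2 * (K * 2 ^ k + 1)) * x)) :=
    mul_le_mul_of_nonneg_left (h3.trans (mul_le_mul_of_nonneg_left hx (by positivity))) hK
  have h5 : K * (2 ^ k * (c / (2 * (K * 2 ^ k + 1)) * x)) = (K * 2 ^ k / (K * 2 ^ k + 1)) * (c / 2 * x) := by
    field_simp
  have h6 : K * 2 ^ k / (K * 2 ^ k + 1) ≤ 1 := by
    rw [div_le_one (by positivity)]
    linarith
  have h7 : (K * 2 ^ k / (K * 2 ^ k + 1)) * (c / 2 * x) ≤ 1 * (c / 2 * x) :=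
    mul_le_mul_of_nonneg_right h6 (by positivity)
  have h8 : x ≤ x ^ 2 := by nlinarith
  have h9 : c * x ≤ c * x ^ 2 := mul_le_mul_of_nonneg_left h8 hc.le
  have h10 : 0 < c * x := by positivity
  linarith

/-- Row M5. The final elementary estimate.

Proof. `k = 4 (2 n - 1)`, `L = 1 + log A ≥ 1`. Multiply `h3` by `2 s1`: with `h2`,
`S A h ≤ 2 C1 s1 s2 L`. With `h5`: `D1 A h ≤ 2 B C1 s1 s2 L`. So
`(D1 A h) ^ k ≤ (2 B C1) ^ k (s1 s2) ^ k L ^ k` and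
`(s1 s2) ^ k = ((s1 s2) ^ (2 n - 1)) ^ 4 ≤ 16 ^ k A ^ (4 (2 n - 2)) = 16 ^ k A ^ (k - 4)` by `h1`. On the other
hand `h4` gives `(D1 A h) ^ k ≥ c A ^ k / D1 ^ 2`, and `D1 ≤ B S ≤ B C2 s1 s2 ≤ 16 B C2 A`
(`s1 s2 ≤ 16 A` from `h1`). Together `c A ^ k ≤ (16 B C2 A) ^ 2 (32 B C1) ^ k A ^ (k - 4) L ^ k`, that is
`c A ^ 2 ≤ K L ^ k` with a constant `K`. Since `(1 + log A) ^ k / A ^ 2 → 0`
(`Real.isLittleO_pow_log_id_atTop`, or `log A ≤ A ^ ε / ε`: `Real.log_le_rpow_div`), `A` is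
bounded. -/
theorem num_final (n : ℕ) (hn : 2 ≤ n) (c B C1 C2 : ℝ) (hc : 0 < c) (hB : 1 ≤ B) (hC1 : 0 ≤ C1)
    (hC2 : 0 ≤ C2) : ∃ A0 : ℕ, ∀ (A κ1 s1 s2 S D1 : ℕ) (h : ℝ), 0 < h → 1 ≤ A → 1 ≤ S → 1 ≤ D1 →
      (s1 * s2) ^ (2 * n - 1) ≤ 16 ^ (2 * n - 1) * A ^ (2 * n - 2) →
      A ≤ 2 * κ1 * s1 →
      (S : ℝ) * (κ1 * h) ≤ C1 * s2 * (1 + Real.log A) →
      c ≤ h ^ (4 * (2 * n - 1)) * (D1 : ℝ) ^ (4 * (2 * n - 1) + 2) →
      (D1 : ℝ) ≤ B * S → (S : ℝ) ≤ C2 * (s1 * s2) → A ≤ A0 := by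
  set k := 4 * (2 * n - 1) with hk
  set K : ℝ := (16 * B * C2) ^ 2 * (32 * B * C1) ^ k with hK
  have hK0 : 0 ≤ K := by positivity
  obtain ⟨X0, hX0⟩ := Filter.eventually_atTop.1 (m5_ev K c hK0 hc k)
  refine ⟨⌈X0⌉₊, ?_⟩
  intro A κ1 s1 s2 S D1 h hh hA hS hD1 h1 h2 h3 h4 h5 h6
  by_contra hcon
  rw [not_le] at hcon
  have hAX : X0 ≤ A := (Nat.le_ceil X0).trans (by exact_mod_cast hcon.le)
  have hlt := hX0 A hAX
  have hAR : (1 : ℝ) ≤ A := by exact_mod_cast hA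
  have hA0 : (0 : ℝ) < A := by linarith
  have hL : 0 ≤ Real.log A := Real.log_nonneg hAR
  set L : ℝ := 1 + Real.log A with hLdef
  have hL1 : 1 ≤ L := by linarith
  have hD1R : (1 : ℝ) ≤ D1 := by exact_mod_cast hD1
  have hD10 : (0 : ℝ) ≤ D1 := by linarith
  have hss0 : (0 : ℝ) ≤ (s1 : ℝ) * s2 := by positivity
  have h1R : ((s1 : ℝ) * s2) ^ (2 * n - 1) ≤ 16 ^ (2 * n - 1) * (A : ℝ) ^ (2 * n - 2) := by exact_mod_cast h1
  have h2R : (A : ℝ) ≤ 2 * κ1 * s1 := by exact_mod_cast h2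
  -- `S A h ≤ 2 C1 s1 s2 L`
  have e1 : (S : ℝ) * A * h ≤ 2 * C1 * (s1 * s2) * L := by
    calc (S : ℝ) * A * h ≤ (S : ℝ) * (2 * κ1 * s1) * h := by gcongr
      _ = 2 * s1 * ((S : ℝ) * (κ1 * h)) := by ring
      _ ≤ 2 * s1 * (C1 * s2 * L) := mul_le_mul_of_nonneg_left h3 (by positivity)
      _ = 2 * C1 * (s1 * s2) * L := by ring
  have e2 : (D1 : ℝ) * A * h ≤ 2 * B * C1 * (s1 * s2) * L := by
    calc (D1 : ℝ) * A * h ≤ (B * S) * A * h := by gcongr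
      _ = B * ((S : ℝ) * A * h) := by ring
      _ ≤ B * (2 * C1 * (s1 * s2) * L) := mul_le_mul_of_nonneg_left e1 (by linarith)
      _ = 2 * B * C1 * (s1 * s2) * L := by ring
  have e3 : ((D1 : ℝ) * A * h) ^ k ≤ (2 * B * C1) ^ k * ((s1 : ℝ) * s2) ^ k * L ^ k := by
    rw [← mul_pow, ← mul_pow]
    exact pow_le_pow_left₀ (by positivity) e2 k
  have e4 : ((s1 : ℝ) * s2) ^ k ≤ 16 ^ k * (A : ℝ) ^ (k - 4) := by
    have hk1 : k = (2 * n - 1) * 4 := by omega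
    have hk2 : k - 4 = (2 * n - 2) * 4 := by omega
    rw [hk2, hk1, pow_mul, pow_mul, pow_mul, ← mul_pow]
    exact pow_le_pow_left₀ (by positivity) h1R 4
  have e5 : (s1 : ℝ) * s2 ≤ 16 * A := by
    have h7 : ((s1 : ℝ) * s2) ^ (2 * n - 1) ≤ (16 * (A : ℝ)) ^ (2 * n - 1) := by
      rw [mul_pow (16 : ℝ) (A : ℝ)]
      refine h1R.trans (mul_le_mul_of_nonneg_left (pow_le_pow_right₀ hAR (show 2 * n - 2 ≤ 2 * n - 1 by omega)) (by positivity))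
    exact le_of_pow_le_pow_left₀ (by omega) (by positivity) h7
  have e6 : (D1 : ℝ) ≤ 16 * B * C2 * A := by
    calc (D1 : ℝ) ≤ B * S := h5
      _ ≤ B * (C2 * (s1 * s2)) := mul_le_mul_of_nonneg_left h6 (by linarith)
      _ ≤ B * (C2 * (16 * A)) := by gcongr
      _ = 16 * B * C2 * A := by ring
  have e7 : c * (A : ℝ) ^ k ≤ ((D1 : ℝ) * A * h) ^ k * (D1 : ℝ) ^ 2 := by
    calc c * (A : ℝ) ^ k ≤ (h ^ k * (D1 : ℝ) ^ (k + 2)) * (A : ℝ) ^ k :=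
          mul_le_mul_of_nonneg_right h4 (by positivity)
      _ = ((D1 : ℝ) * A * h) ^ k * (D1 : ℝ) ^ 2 := by
          rw [mul_pow, mul_pow, pow_add]
          ring
  have e8 : c * (A : ℝ) ^ k ≤ K * L ^ k * (A : ℝ) ^ (k - 2) := by
    have hk4 : k - 2 = (k - 4) + 2 := by omega
    calc c * (A : ℝ) ^ k ≤ ((D1 : ℝ) * A * h) ^ k * (D1 : ℝ) ^ 2 := e7
      _ ≤ ((2 * B * C1) ^ k * (16 ^ k * (A : ℝ) ^ (k - 4)) * L ^ k) * (16 * B * C2 * A) ^ 2 := by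
          gcongr
          exact e3.trans (by gcongr)
      _ = K * L ^ k * (A : ℝ) ^ (k - 2) := by
          rw [hK, hk4, pow_add, show (32 * B * C1 : ℝ) = (2 * B * C1) * 16 by ring, mul_pow _ (16 : ℝ) k,
            mul_pow (16 * B * C2) (A : ℝ) 2]
          ring
  have e9 : (c * (A : ℝ) ^ 2) * (A : ℝ) ^ (k - 2) ≤ (K * L ^ k) * (A : ℝ) ^ (k - 2) := by
    have hk5 : (A : ℝ) ^ k = (A : ℝ) ^ 2 * (A : ℝ) ^ (k - 2) := by
      rw [← pow_add]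
      congr 1
      omega
    rw [hk5] at e8
    linarith
  have e10 := le_of_mul_le_mul_right e9 (by positivity)
  linarith

end Pool.Agent.ZPB
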