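import Mathlib

set_option autoImplicit false

open Polynomial

namespace Pool.Agent.ZPB

theorem b1_minor_field {K : Type} [Field K] {r c : ℕ} (N : Matrix (Fin r) (Fin c) K)
    (h : LinearIndependent K N.row) : ∃ e : Fin r → Fin c, (N.submatrix id e).det ≠ 0 := by
  classical
  have hrank : N.rank = r := by
    have := LinearIndependent.rank_matrix h
    rwa [Fintype.card_fin] at this
  have hspan : Submodule.span K (Set.range N.col) = ⊤ := by
    apply Submodule.eq_top_of_finrank_eq
    rw [← Matrix.rank_eq_finrank_span_cols, hrank, Module.finrank_fin_fun]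
  obtain ⟨κ, a, ha, hsp, hli⟩ := exists_linearIndependent' K N.col
  rw [hspan] at hsp
  have b : Module.Basis κ K (Fin r → K) := Module.Basis.mk hli (by rw [hsp])
  have hfin : Finite κ := Finite.of_injective a ha
  have hcard : Nat.card κ = r := by
    have h1 := Module.finrank_eq_nat_card_basis b
    rw [Module.finrank_fin_fun] at h1
    exact h1.symm
  let E : Fin r ≃ κ := (Finite.equivFinOfCardEq hcard).symm
  refine ⟨fun j => a (E j), ?_⟩
  have hcol : LinearIndependent K (N.submatrix id (fun j => a (E j))).col := by
    have h2 : (N.submatrix id (fun j => a (E j))).col = (N.col ∘ a) ∘ E := by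
      funext j i
      rfl
    rw [h2]
    exact hli.comp E E.injective
  have h3 := Matrix.linearIndependent_cols_iff_isUnit.1 hcol
  exact ((Matrix.isUnit_iff_isUnit_det _).1 h3).ne_zero

/-- Row B1. A matrix over a domain with linearly independent rows has a nonzero maximal minor.

Proof. Over the fraction field `K` the rows are still linearly independent (clear denominators), so
the rank of the matrix is `r` and there are `r` linearly independent columns: the columns span
`K ^ r` (`Matrix.rank`, row rank = column rank), so a basis can be chosen among them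
(`exists_linearIndependent'`, or `Module.Basis` extension / `LinearIndependent` subfamily of a spanning
family), and the square submatrix has nonzero determinant
(`Matrix.isUnit_iff_isUnit_det`, `Matrix.linearIndependent_cols_iff_isUnit` or
`Matrix.exists_vecMul_eq_zero_iff`). The determinant over `R` maps to it. -/
theorem exists_minor {R : Type} [CommRing R] [IsDomain R] {r c : ℕ}
    (N : Matrix (Fin r) (Fin c) R)
    (h : ∀ a : Fin r → R, Matrix.vecMul a N = 0 → a = 0) :
    ∃ e : Fin r → Fin c, (N.submatrix id e).det ≠ 0 := by
  classical
  have hinj : Function.Injective (algebraMap R (FractionRing R)) :=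
    IsFractionRing.injective R (FractionRing R)
  have hli : LinearIndependent (FractionRing R) (N.map (algebraMap R (FractionRing R))).row := by
    rw [← LinearIndependent.iff_fractionRing R (FractionRing R), Fintype.linearIndependent_iff]
    intro g hg
    have h1 : Matrix.vecMul g N = 0 := by
      funext j
      apply hinj
      have h2 := congrFun hg j
      rw [Finset.sum_apply] at h2
      rw [Pi.zero_apply, map_zero]
      rw [Pi.zero_apply] at h2
      rw [← h2, Matrix.vecMul, dotProduct, map_sum]
      refine Finset.sum_congr rfl fun i _ => ?_
      rw [map_mul, Pi.smul_apply, Algebra.smul_def]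
      rfl
    have h3 := h g h1
    intro i
    exact congrFun h3 i
  obtain ⟨e, he⟩ := b1_minor_field _ hli
  refine ⟨e, fun h0 => he ?_⟩
  have h1 : (N.map (algebraMap R (FractionRing R))).submatrix id e =
      (algebraMap R (FractionRing R)).mapMatrix (N.submatrix id e) := rfl
  rw [h1, ← RingHom.map_det, h0, map_zero]

/-- Row B1. Divisibility of a determinant of polynomials.

Proof. Choose a basis of `S` (or `k` linearly independent elements of `S`) and extend it to a basis
of `Fin r → E`, indexed by `Fin r` with the first `k` in `S`; let `Q` be the invertible matrix with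
these rows (constants, mapped to `E[X]` by `C`). Row `i < k` of `Q.map C * N` evaluates to `0` at `u`, so
it is divisible by `X - C u` (`Polynomial.dvd_iff_isRoot`), and `(X - C u) ^ k` divides
`det (Q.map C * N) = C (det Q) * det N` (pull the factors out of the `k` rows:
`Matrix.det_mul_column`, or the Leibniz formula). `C (det Q)` is a unit. -/
theorem pow_dvd_det {E : Type} [Field E] {r : ℕ} (N : Matrix (Fin r) (Fin r) E[X]) (u : E)
    (k : ℕ) (S : Submodule E (Fin r → E))
    (hS : ∀ a ∈ S, Matrix.vecMul a (N.map (eval u)) = 0) (hk : k ≤ Module.finrank E S) :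
    (X - C u) ^ k ∣ N.det := by
  classical
  induction k generalizing N S with
  | zero => simp
  | succ k ih =>
    have hS0 : S ≠ ⊥ := by
      intro h0
      rw [h0, finrank_bot] at hk
      omega
    obtain ⟨a, haS, ha0⟩ := S.ne_bot_iff.1 hS0
    obtain ⟨i, hi⟩ := Function.ne_iff.1 ha0
    rw [Pi.zero_apply] at hi
    have hw : ∀ j, (X - C u) ∣ (∑ l, C (a l) • N l) j := by
      intro j
      rw [Polynomial.dvd_iff_isRoot, Polynomial.IsRoot.def, Finset.sum_apply,
        Polynomial.eval_finsetSum]
      have h1 := congrFun (hS a haS) j
      rw [Matrix.vecMul, dotProduct, Pi.zero_apply] at h1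
      rw [← h1]
      refine Finset.sum_congr rfl fun l _ => ?_
      rw [Pi.smul_apply, smul_eq_mul, Polynomial.eval_mul, Polynomial.eval_C]
      rfl
    choose w hw using hw
    have h1 : (N.updateRow i (∑ l, C (a l) • N l)).det = C (a i) • N.det :=
      Matrix.det_updateRow_sum N i (fun l => C (a l))
    have h2 : (∑ l, C (a l) • N l) = (X - C u) • w := by
      funext j
      rw [hw j, Pi.smul_apply, smul_eq_mul]
    rw [h2, Matrix.det_updateRow_smul] at h1
    let f : S →ₗ[E] E := (LinearMap.proj i).domRestrict S
    have hker : k ≤ Module.finrank E (Submodule.map S.subtype (LinearMap.ker f)) := by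
      rw [Submodule.finrank_map_subtype_eq]
      have h3 := LinearMap.finrank_range_add_finrank_ker f
      have h4 : Module.finrank E (LinearMap.range f) ≤ 1 := by
        have := Submodule.finrank_le (LinearMap.range f)
        rwa [Module.finrank_self] at this
      omega
    have h3 := ih (N.updateRow i w) (Submodule.map S.subtype (LinearMap.ker f)) (by
      rintro b ⟨b', hb', rfl⟩
      have hbi : (b' : Fin r → E) i = 0 := hb'
      have hbS := hS b' b'.2
      rw [← hbS]
      funext j
      rw [Matrix.vecMul, Matrix.vecMul, dotProduct, dotProduct]
      refine Finset.sum_congr rfl fun l _ => ?_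
      by_cases hl : l = i
      · rw [hl]
        change (b' : Fin r → E) i * _ = (b' : Fin r → E) i * _
        rw [hbi, zero_mul, zero_mul]
      · change (b' : Fin r → E) l * eval u (N.updateRow i w l j) =
          (b' : Fin r → E) l * eval u (N l j)
        rw [Matrix.updateRow_ne hl]) hker
    have h4 : (X - C u) ^ (k + 1) ∣ C (a i) * N.det := by
      rw [← smul_eq_mul, ← h1, pow_succ']
      exact mul_dvd_mul_left _ h3
    have h5 : IsUnit (C (a i) : E[X]) := Polynomial.isUnit_C.2 (isUnit_iff_ne_zero.2 hi)
    exact h5.dvd_mul_left.1 h4

end Pool.Agent.ZPB
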