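import Mathlib

set_option autoImplicit false

open Polynomial

namespace Pool.Agent.ZPB

/-- The polynomials `Y ^ i * f`, `i < m`, and `Y ^ (i - m) * g`, `i ≥ m` (`Y` is the variable of the outer
polynomial ring). -/
noncomputable def rp {R : Type} [CommRing R] (f g : R[X]) (m i : ℕ) : R[X] :=
  if i < m then X ^ i * f else X ^ (i - m) * g

theorem b2_sum {R : Type} [CommRing R] (f g : R[X]) (m l : ℕ) (a : Fin (m + l) → R) :
    ∑ i, C (a i) * rp f g m i =
      (∑ i : Fin m, C (a (Fin.castAdd l i)) * X ^ (i : ℕ)) * f +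
      (∑ i : Fin l, C (a (Fin.natAdd m i)) * X ^ (i : ℕ)) * g := by
  rw [Fin.sum_univ_add, Finset.sum_mul, Finset.sum_mul]
  congr 1
  · refine Finset.sum_congr rfl fun i _ => ?_
    rw [rp, if_pos (by simp), Fin.val_castAdd, mul_assoc]
  · refine Finset.sum_congr rfl fun i _ => ?_
    rw [rp, if_neg (by simp), Fin.val_natAdd, Nat.add_sub_cancel_left, mul_assoc]

theorem b2_coeff {R : Type} [CommRing R] (m : ℕ) (a : Fin m → R)
    (h : ∑ i : Fin m, C (a i) * X ^ (i : ℕ) = 0) (i : Fin m) : a i = 0 := by
  have h1 : (∑ j : Fin m, C (a j) * X ^ (j : ℕ)).coeff (i : ℕ) = a i := by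
    rw [Polynomial.finsetSum_coeff, Finset.sum_eq_single i]
    · simp
    · intro j _ hj
      rw [Polynomial.coeff_C_mul, Polynomial.coeff_X_pow, if_neg, mul_zero]
      intro h2
      exact hj (Fin.ext h2.symm)
    · intro h2
      exact absurd (Finset.mem_univ i) h2
  rw [← h1, h, Polynomial.coeff_zero]

/-- Row B2. Linear independence.

Proof. `∑ i, a i • rp f g m i = A * f + B * g` with `A = ∑ i < m, C (a i) * X ^ i`,
`B = ∑ i < l, C (a (m + i)) * X ^ i`. As `f = G * f1`, `g = G * g1`, `G ≠ 0`, it follows that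
`A * f1 + B * g1 = 0`; `f1` and `g1` are relatively prime in the unique factorisation domain `R[X]`, so
`g1 ∣ A` (`IsRelPrime.dvd_of_dvd_mul_right` and similar; `g1 ∣ A * f1`), and `A` has degree
`< m = g1.natDegree` (or `m = 0`, `A = 0`), so `A = 0`; then `B = 0` (`g1 ≠ 0`); the coefficients `a i`
are those of `A` and `B`. -/
theorem rp_indep {R : Type} [CommRing R] [IsDomain R] [UniqueFactorizationMonoid R]
    {f g G f1 g1 : R[X]} (hf : f = G * f1) (hg : g = G * g1) (hG : G ≠ 0) (hf1 : f1 ≠ 0)
    (hg1 : g1 ≠ 0) (hrel : IsRelPrime f1 g1)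
    (a : Fin (g1.natDegree + f1.natDegree) → R)
    (ha : ∑ i, C (a i) * rp f g g1.natDegree i = 0) : a = 0 := by
  rw [b2_sum] at ha
  set A : R[X] := ∑ i : Fin g1.natDegree, C (a (Fin.castAdd f1.natDegree i)) * X ^ (i : ℕ) with hA
  set B : R[X] := ∑ i : Fin f1.natDegree, C (a (Fin.natAdd g1.natDegree i)) * X ^ (i : ℕ) with hB
  have h1 : A * f1 + B * g1 = 0 := by
    have h2 : G * (A * f1 + B * g1) = 0 := by
      rw [← ha, hf, hg]
      ring
    exact (mul_eq_zero.1 h2).resolve_left hG
  have h2 : g1 ∣ A * f1 := by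
    refine ⟨-B, ?_⟩
    linear_combination h1
  have h3 : g1 ∣ A := IsRelPrime.dvd_of_dvd_mul_right hrel.symm h2
  have h4 : A = 0 := by
    by_contra h0
    have h5 : A.degree < (g1.natDegree : WithBot ℕ) := by
      rw [hA]
      exact Polynomial.degree_sum_fin_lt _
    have h6 := Polynomial.natDegree_le_of_dvd h3 h0
    rw [Polynomial.degree_eq_natDegree h0] at h5
    have h7 : A.natDegree < g1.natDegree := by exact_mod_cast h5
    omega
  have h5 : B = 0 := by
    rw [h4, zero_mul, zero_add] at h1
    exact (mul_eq_zero.1 h1).resolve_right hg1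
  funext i
  refine Fin.addCases (fun j => ?_) (fun j => ?_) i
  · exact b2_coeff _ (fun j => a (Fin.castAdd f1.natDegree j)) h4 j
  · exact b2_coeff _ (fun j => a (Fin.natAdd g1.natDegree j)) h5 j

theorem b2_map_zero {E : Type} [Field E] {f : E[X][X]} {u : E} (h : f.map (evalRingHom u) = 0) :
    C (X - C u) ∣ f := by
  rw [Polynomial.C_dvd_iff_dvd_coeff]
  intro i
  rw [Polynomial.dvd_iff_isRoot, Polynomial.IsRoot.def]
  have h1 : (f.map (evalRingHom u)).coeff i = 0 := by rw [h, Polynomial.coeff_zero]
  rw [Polynomial.coeff_map] at h1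
  exact h1

/-- Row B2. Linear dependence over a point.

Proof. Let `l = f1.natDegree`, `m = g1.natDegree`, `r = m + l`; a bar means the image under the map
`E[X] → E`, evaluation at `u`, on the coefficients (`Polynomial.map (evalRingHom u)`).
`T a = ∑ i, C (a i) * rp f1bar g1bar m i` is a linear map from `Fin r → E` to the polynomials of
degree `< r`, and all values `T a` vanish at the points of `V`. The polynomials of degree `< r` vanishing
on `V` are the multiples of `∏ z ∈ V, (X - C z)` and form a space of dimension `r - V.card` if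
`V.card ≤ r` and `0` otherwise. If `r < V.card`: `f1bar`, of degree `≤ r` with `V.card` roots, is `0`,
and so is `g1bar`, so `C (X - C u)` (constant in the outer variable) divides `f1` and `g1`,
contradicting `hrel` (it is not a unit). So `V.card ≤ r`, the kernel `S` of `T` has dimension
`≥ r - (r - V.card) = V.card` (`LinearMap.finrank_range_add_finrank_ker`), and for `a ∈ S`
`∑ i, C (a i) * rp fbar gbar m i = Gbar * T a = 0`. -/
theorem rp_dep {E : Type} [Field E] {f g G f1 g1 : E[X][X]} (hf : f = G * f1) (hg : g = G * g1)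
    (hrel : IsRelPrime f1 g1) (u : E) (V : Finset E)
    (hV : ∀ z ∈ V, (f1.map (evalRingHom u)).eval z = 0 ∧ (g1.map (evalRingHom u)).eval z = 0) :
    ∃ S : Submodule E (Fin (g1.natDegree + f1.natDegree) → E),
      V.card ≤ Module.finrank E S ∧ ∀ a ∈ S,
        ∑ i, C (a i) * rp (f.map (evalRingHom u)) (g.map (evalRingHom u)) g1.natDegree i = 0 := by
  classical
  set m := g1.natDegree with hm
  set l := f1.natDegree with hl
  set fb := f1.map (evalRingHom u) with hfb
  set gb := g1.map (evalRingHom u) with hgb
  have hfd : fb.natDegree ≤ l := Polynomial.natDegree_map_le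
  have hgd : gb.natDegree ≤ m := Polynomial.natDegree_map_le
  have hVr : V.card ≤ m + l := by
    by_contra h
    push Not at h
    have h1 : fb = 0 := Polynomial.eq_zero_of_natDegree_lt_card_of_eval_eq_zero' fb V
      (fun z hz => (hV z hz).1) (by omega)
    have h2 : gb = 0 := Polynomial.eq_zero_of_natDegree_lt_card_of_eval_eq_zero' gb V
      (fun z hz => (hV z hz).2) (by omega)
    have h3 := hrel (b2_map_zero h1) (b2_map_zero h2)
    rw [Polynomial.isUnit_C] at h3
    exact Polynomial.not_isUnit_X_sub_C u h3
  let T : (Fin (m + l) → E) →ₗ[E] E[X] :=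
    { toFun := fun a => ∑ i, C (a i) * rp fb gb m i
      map_add' := fun a b => by
        rw [← Finset.sum_add_distrib]
        refine Finset.sum_congr rfl fun i _ => ?_
        rw [Pi.add_apply, C_add, add_mul]
      map_smul' := fun c a => by
        rw [RingHom.id_apply, Finset.smul_sum]
        refine Finset.sum_congr rfl fun i _ => ?_
        rw [Pi.smul_apply, smul_eq_mul, C_mul, Polynomial.smul_eq_C_mul, mul_assoc] }
  have hT : ∀ a, T a = ∑ i, C (a i) * rp fb gb m i := fun a => rfl
  set Q : E[X] := ∏ z ∈ V, (X - C z) with hQ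
  have hQm : Q.Monic := Polynomial.monic_prod_of_monic _ _ fun z _ => Polynomial.monic_X_sub_C z
  have hQd : Q.natDegree = V.card := by
    rw [hQ, Polynomial.natDegree_prod_of_monic _ _ (fun z _ => Polynomial.monic_X_sub_C z)]
    simp
  let φ : Polynomial.degreeLT E (m + l - V.card) →ₗ[E] E[X] :=
    (LinearMap.mulLeft E Q).comp (Polynomial.degreeLT E (m + l - V.card)).subtype
  have hdeg : ∀ i : Fin (m + l), (rp fb gb m i).degree < ((m + l : ℕ) : WithBot ℕ) := by
    intro i
    have hi := i.2
    unfold rp
    split_ifs with h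
    · refine lt_of_le_of_lt (Polynomial.degree_mul_le _ _) ?_
      refine lt_of_le_of_lt (add_le_add (Polynomial.degree_X_pow_le _) (Polynomial.degree_le_of_natDegree_le hfd)) ?_
      rw [← Nat.cast_add]
      exact_mod_cast (by omega : (i : ℕ) + l < m + l)
    · refine lt_of_le_of_lt (Polynomial.degree_mul_le _ _) ?_
      refine lt_of_le_of_lt (add_le_add (Polynomial.degree_X_pow_le _) (Polynomial.degree_le_of_natDegree_le hgd)) ?_
      rw [← Nat.cast_add]
      exact_mod_cast (by omega : ((i : ℕ) - m) + m < m + l)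
  have hrange : LinearMap.range T ≤ LinearMap.range φ := by
    rintro _ ⟨a, rfl⟩
    have h1 : Q ∣ T a := by
      rw [hQ]
      refine Finset.prod_dvd_of_coprime ?_ ?_
      · intro x _ y _ hxy
        exact Polynomial.pairwise_coprime_X_sub_C Function.injective_id hxy
      · intro z hz
        rw [Polynomial.dvd_iff_isRoot, Polynomial.IsRoot.def, hT, Polynomial.eval_finsetSum]
        refine Finset.sum_eq_zero fun i _ => ?_
        rw [Polynomial.eval_mul, rp]
        split_ifs
        · rw [Polynomial.eval_mul, (hV z hz).1, mul_zero, mul_zero]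
        · rw [Polynomial.eval_mul, (hV z hz).2, mul_zero, mul_zero]
    obtain ⟨p, hp⟩ := h1
    have h2 : (T a).degree < ((m + l : ℕ) : WithBot ℕ) := by
      rw [hT]
      refine (Polynomial.degree_sum_le _ _).trans_lt ?_
      rw [Finset.sup_lt_iff (WithBot.bot_lt_coe _)]
      intro i _
      refine lt_of_le_of_lt (Polynomial.degree_mul_le _ _) ?_
      refine lt_of_le_of_lt (add_le_add Polynomial.degree_C_le le_rfl) ?_
      rw [zero_add]
      exact hdeg i
    have h3 : p.degree < ((m + l - V.card : ℕ) : WithBot ℕ) := by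
      by_cases hp0 : p = 0
      · rw [hp0, Polynomial.degree_zero]
        exact WithBot.bot_lt_coe _
      · rw [hp, Polynomial.degree_mul, Polynomial.degree_eq_natDegree hQm.ne_zero, hQd,
          Polynomial.degree_eq_natDegree hp0] at h2
        rw [Polynomial.degree_eq_natDegree hp0]
        have h4 : V.card + p.natDegree < m + l := by exact_mod_cast h2
        exact_mod_cast (by omega : p.natDegree < m + l - V.card)
    refine ⟨⟨p, Polynomial.mem_degreeLT.2 h3⟩, ?_⟩
    rw [hp]
    rfl
  have : FiniteDimensional E (Polynomial.degreeLT E (m + l - V.card)) :=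
    (Polynomial.degreeLTEquiv E (m + l - V.card)).symm.finiteDimensional
  have hfr : Module.finrank E (Polynomial.degreeLT E (m + l - V.card)) = m + l - V.card := by
    rw [(Polynomial.degreeLTEquiv E (m + l - V.card)).finrank_eq, Module.finrank_fin_fun]
  have h1 : Module.finrank E (LinearMap.range T) ≤ m + l - V.card := by
    have : FiniteDimensional E (LinearMap.range φ) := inferInstance
    calc Module.finrank E (LinearMap.range T) ≤ Module.finrank E (LinearMap.range φ) :=
          Submodule.finrank_mono hrange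
      _ ≤ Module.finrank E (Polynomial.degreeLT E (m + l - V.card)) := LinearMap.finrank_range_le φ
      _ = _ := hfr
  have h2 := LinearMap.finrank_range_add_finrank_ker T
  rw [Module.finrank_fin_fun] at h2
  refine ⟨LinearMap.ker T, by omega, fun a ha => ?_⟩
  rw [LinearMap.mem_ker, hT] at ha
  have h3 : ∀ i : ℕ, rp (f.map (evalRingHom u)) (g.map (evalRingHom u)) m i =
      G.map (evalRingHom u) * rp fb gb m i := by
    intro i
    unfold rp
    rw [hf, hg, Polynomial.map_mul, Polynomial.map_mul]
    split_ifs
    · ring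
    · ring
  have h4 : ∑ i, C (a i) * rp (f.map (evalRingHom u)) (g.map (evalRingHom u)) m i =
      G.map (evalRingHom u) * ∑ i, C (a i) * rp fb gb m i := by
    rw [Finset.mul_sum]
    refine Finset.sum_congr rfl fun i _ => ?_
    rw [h3]
    ring
  rw [h4, ha, mul_zero]

end Pool.Agent.ZPB
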