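import Mathlib
import Pool.Agent.ZPB.B1
import Pool.Agent.ZPB.B2

set_option autoImplicit false

open Polynomial

namespace Pool.Agent.ZPB

theorem b3_rp_map {R R' : Type} [CommRing R] [CommRing R'] (φ : R →+* R') (f g : R[X]) (m i : ℕ) :
    (rp f g m i).map φ = rp (f.map φ) (g.map φ) m i := by
  unfold rp
  split_ifs
  · rw [Polynomial.map_mul, Polynomial.map_pow, map_X]
  · rw [Polynomial.map_mul, Polynomial.map_pow, map_X]

/-- Row B3. The minor of the Sylvester type matrix.

Proof. `E[X][X]` is a unique factorisation domain: let `G` be a greatest common divisor of `f` and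
`g` (`exists_associated...`; classically `UniqueFactorizationMonoid.toGCDMonoid`, `exists_gcd_eq...`,
`IsRelPrime`: `exists_reduced_factors` gives `f = G * f1`, `g = G * g1` with `IsRelPrime f1 g1`). `G`
does not vanish at the points of `S` (`hcom`), so `f1` and `g1` do. Let `m = g1.natDegree ≤ g.natDegree`,
`l = f1.natDegree ≤ f.natDegree`, `r = m + l`, `c = r + G.natDegree`, and `N0 i j = (rp f g m i).coeff j`,
an `r × c` matrix over `E[X]`. All `rp f g m i` have degree `< c`
(`m - 1 + f.natDegree < c`, `l - 1 + g.natDegree < c`), so `vecMul a N0 = 0` iff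
`∑ i, C (a i) * rp f g m i = 0`; by `rp_indep` the hypothesis of `exists_minor` holds. Take `e` from it,
`N = N0.submatrix id e`. `e` is injective because `N.det ≠ 0` (two equal columns:
`Matrix.det_zero_of_column_eq`).
Divisibility: `∏ p ∈ S, (X - C p.1)` is the product over the distinct first coordinates `u` of
`(X - C u) ^ k u`, `k u` the number of `z` with `(u, z) ∈ S`. These powers are pairwise coprime
(`Finset.prod_dvd_of_coprime`, `Polynomial.pairwise_coprime_X_sub_C`), so it is enough that
`(X - C u) ^ k u ∣ N.det`: `rp_dep` with `V = {z | (u, z) ∈ S}` and `pow_dvd_det` (the coefficients of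
`(rp f g m i).map (evalRingHom u) = rp (f.map ..) (g.map ..) m i`). -/
theorem exists_det {E : Type} [Field E] {f g : E[X][X]} (hf : f ≠ 0) (hg : g ≠ 0)
    (S : Finset (E × E))
    (hS : ∀ p ∈ S, (f.map (evalRingHom p.1)).eval p.2 = 0 ∧
      (g.map (evalRingHom p.1)).eval p.2 = 0)
    (hcom : ∀ G : E[X][X], G ∣ f → G ∣ g → ∀ p ∈ S, (G.map (evalRingHom p.1)).eval p.2 ≠ 0) :
    ∃ (m l : ℕ) (e : Fin (m + l) → ℕ), m ≤ g.natDegree ∧ l ≤ f.natDegree ∧
      Function.Injective e ∧
      (Matrix.of fun i j : Fin (m + l) => (rp f g m i).coeff (e j)).det ≠ 0 ∧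
      ∏ p ∈ S, (X - C p.1) ∣
        (Matrix.of fun i j : Fin (m + l) => (rp f g m i).coeff (e j)).det := by
  classical
  obtain ⟨f1, g1, G, hrel, hf', hg'⟩ := UniqueFactorizationMonoid.exists_reduced_factors f hf g
  have hG : G ≠ 0 := by
    rintro rfl
    rw [zero_mul] at hf'
    exact hf hf'.symm
  have hf1 : f1 ≠ 0 := by
    rintro rfl
    rw [mul_zero] at hf'
    exact hf hf'.symm
  have hg1 : g1 ≠ 0 := by
    rintro rfl
    rw [mul_zero] at hg'
    exact hg hg'.symm
  have hS1 : ∀ p ∈ S, (f1.map (evalRingHom p.1)).eval p.2 = 0 ∧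
      (g1.map (evalRingHom p.1)).eval p.2 = 0 := by
    intro p hp
    obtain ⟨h1, h2⟩ := hS p hp
    have h3 := hcom G ⟨f1, hf'.symm⟩ ⟨g1, hg'.symm⟩ p hp
    rw [← hf', Polynomial.map_mul, eval_mul] at h1
    rw [← hg', Polynomial.map_mul, eval_mul] at h2
    exact ⟨(mul_eq_zero.1 h1).resolve_left h3, (mul_eq_zero.1 h2).resolve_left h3⟩
  have hfd : f.natDegree = G.natDegree + f1.natDegree := by
    rw [← hf', natDegree_mul hG hf1]
  have hgd : g.natDegree = G.natDegree + g1.natDegree := by
    rw [← hg', natDegree_mul hG hg1]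
  have hdeg : ∀ i, i < g1.natDegree + f1.natDegree →
      (rp f g g1.natDegree i).natDegree < g1.natDegree + f1.natDegree + G.natDegree := by
    intro i hi
    unfold rp
    split_ifs with h1
    · refine lt_of_le_of_lt natDegree_mul_le ?_
      have := natDegree_X_pow_le (R := E[X]) i
      omega
    · refine lt_of_le_of_lt natDegree_mul_le ?_
      have := natDegree_X_pow_le (R := E[X]) (i - g1.natDegree)
      omega
  set N0 : Matrix (Fin (g1.natDegree + f1.natDegree))
    (Fin (g1.natDegree + f1.natDegree + G.natDegree)) E[X] :=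
    Matrix.of fun i j => (rp f g g1.natDegree i).coeff j with hN0
  obtain ⟨e, he⟩ := exists_minor N0 (by
    intro a ha
    apply rp_indep hf'.symm hg'.symm hG hf1 hg1 hrel a
    ext1 j
    rw [coeff_zero, finsetSum_coeff]
    by_cases hj : j < g1.natDegree + f1.natDegree + G.natDegree
    · have h1 := congrFun ha ⟨j, hj⟩
      rw [Pi.zero_apply] at h1
      rw [← h1]
      simp only [Matrix.vecMul, dotProduct, hN0, Matrix.of_apply]
      apply Finset.sum_congr rfl
      intro i _
      rw [coeff_C_mul]
    · apply Finset.sum_eq_zero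
      intro i _
      rw [coeff_C_mul, coeff_eq_zero_of_natDegree_lt, mul_zero]
      have := hdeg i i.2
      omega)
  have hN : (Matrix.of fun i j : Fin (g1.natDegree + f1.natDegree) =>
      (rp f g g1.natDegree i).coeff (e j : ℕ)) = N0.submatrix id e := rfl
  refine ⟨g1.natDegree, f1.natDegree, fun j => (e j : ℕ), by omega, by omega, ?_, ?_, ?_⟩
  · intro j j' hjj
    by_contra hne
    apply he
    apply Matrix.det_zero_of_column_eq hne
    intro i
    have h1 : e j = e j' := Fin.ext hjj
    rw [Matrix.submatrix_apply, Matrix.submatrix_apply, h1]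
  · rw [hN]
    exact he
  · rw [hN]
    have h1 : ∏ p ∈ S, (X - C p.1 : E[X]) =
        ∏ u ∈ S.image Prod.fst, (X - C u) ^ (S.filter (fun p => p.1 = u)).card :=
      Finset.prod_comp (fun u : E => (X - C u : E[X])) Prod.fst
    rw [h1]
    apply Finset.prod_dvd_of_coprime
    · intro u _ u' _ hne
      exact (pairwise_coprime_X_sub_C Function.injective_id hne).pow
    · intro u _
      have hcard : ((S.filter (fun p => p.1 = u)).image Prod.snd).card =
          (S.filter (fun p => p.1 = u)).card := by
        apply Finset.card_image_of_injOn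
        intro p hp p' hp' hpp
        rw [Finset.mem_coe, Finset.mem_filter] at hp hp'
        exact Prod.ext (hp.2.trans hp'.2.symm) hpp
      obtain ⟨W, hW1, hW2⟩ := rp_dep hf'.symm hg'.symm hrel u
        ((S.filter (fun p => p.1 = u)).image Prod.snd) (by
          intro z hz
          rw [Finset.mem_image] at hz
          obtain ⟨p, hp, rfl⟩ := hz
          rw [Finset.mem_filter] at hp
          rw [← hp.2]
          exact hS1 p hp.1)
      rw [hcard] at hW1
      apply pow_dvd_det (N0.submatrix id e) u _ W _ hW1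
      intro a ha
      funext j
      have h2 := congrArg (fun q : E[X] => q.coeff (e j : ℕ)) (hW2 a ha)
      simp only [finsetSum_coeff, coeff_C_mul, coeff_zero, ← b3_rp_map, coeff_map] at h2
      rw [Pi.zero_apply, ← h2]
      simp only [Matrix.vecMul, dotProduct, hN0, Matrix.of_apply, Matrix.submatrix_apply,
        Matrix.map_apply, id_eq, coe_evalRingHom]

end Pool.Agent.ZPB
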