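import Mathlib

set_option autoImplicit false

open Polynomial

namespace Pool.Agent.ZPB

theorem b4_prod {R ι : Type} [CommRing R] (μ : R → ℝ) (h0 : ∀ x, 0 ≤ μ x) (h1 : μ 1 ≤ 1)
    (hmul : ∀ x y, μ (x * y) ≤ μ x * μ y) (s : Finset ι) (a : ι → R) :
    μ (∏ i ∈ s, a i) ≤ ∏ i ∈ s, μ (a i) := by
  classical
  induction s using Finset.induction_on with
  | empty => simpa using h1
  | insert i s hi ih =>
    rw [Finset.prod_insert hi, Finset.prod_insert hi]
    exact (hmul _ _).trans (mul_le_mul_of_nonneg_left ih (h0 _))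

theorem b4_sign {R : Type} [CommRing R] {r : ℕ} (μ : R → ℝ) (hn : ∀ x, μ (-x) = μ x)
    (σ : Equiv.Perm (Fin r)) (x : R) : μ (Equiv.Perm.sign σ • x) = μ x := by
  rcases Int.units_eq_one_or (Equiv.Perm.sign σ) with h | h
  · rw [h, one_smul]
  · rw [h, Units.smul_def, Units.val_neg, Units.val_one, neg_smul, one_smul, hn]

theorem b4_max {R ι : Type} [CommRing R] (μ : R → ℝ) (hz : μ 0 = 0)
    (hadd : ∀ x y, μ (x + y) ≤ max (μ x) (μ y)) (s : Finset ι) (a : ι → R) {B : ℝ} (hB : 0 ≤ B)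
    (h : ∀ i ∈ s, μ (a i) ≤ B) : μ (∑ i ∈ s, a i) ≤ B := by
  classical
  induction s using Finset.induction_on with
  | empty => rw [Finset.sum_empty, hz]; exact hB
  | insert i s hi ih =>
    rw [Finset.sum_insert hi]
    exact (hadd _ _).trans (max_le (h i (Finset.mem_insert_self _ _))
      (ih (fun j hj => h j (Finset.mem_insert_of_mem hj))))

/-- Row B4. Leibniz formula: `det N = ∑ π, sign π * ∏ i, N (π i) i`; bound it by the sum over all
maps (`Finset.prod_univ_sum`, `Fintype.piFinset`) after transposing: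
`∑ π, ∏ i, μ (N i (π i)) ≤ ∏ i, ∑ j, μ (N i j)`. -/
theorem det_le_sum {R : Type} [CommRing R] {r : ℕ} (N : Matrix (Fin r) (Fin r) R) (μ : R → ℝ)
    (h0 : ∀ x, 0 ≤ μ x) (hz : μ 0 = 0) (h1 : μ 1 ≤ 1) (hn : ∀ x, μ (-x) = μ x)
    (hadd : ∀ x y, μ (x + y) ≤ μ x + μ y) (hmul : ∀ x y, μ (x * y) ≤ μ x * μ y) :
    μ N.det ≤ ∏ i, ∑ j, μ (N i j) := by
  classical
  rw [← Matrix.det_transpose, Matrix.det_apply]
  calc μ (∑ σ : Equiv.Perm (Fin r), Equiv.Perm.sign σ • ∏ i, N.transpose (σ i) i)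
      ≤ ∑ σ : Equiv.Perm (Fin r), μ (Equiv.Perm.sign σ • ∏ i, N.transpose (σ i) i) :=
        Finset.le_sum_of_subadditive μ hz.le hadd _ _
    _ ≤ ∑ σ : Equiv.Perm (Fin r), ∏ i, μ (N i (σ i)) := by
        refine Finset.sum_le_sum (fun σ _ => ?_)
        rw [b4_sign μ hn]
        exact b4_prod μ h0 h1 hmul _ _
    _ = ∑ f ∈ Finset.univ.image (fun σ : Equiv.Perm (Fin r) => (σ : Fin r → Fin r)),
          ∏ i, μ (N i (f i)) := by
        rw [Finset.sum_image]
        intro σ _ τ _ h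
        exact Equiv.coe_fn_injective h
    _ ≤ ∑ f : Fin r → Fin r, ∏ i, μ (N i (f i)) :=
        Finset.sum_le_univ_sum_of_nonneg (fun f => Finset.prod_nonneg (fun i _ => h0 _))
    _ = ∏ i, ∑ j, μ (N i j) := by
        rw [Finset.prod_univ_sum, Fintype.piFinset_univ]

/-- Row B4. The ultrametric analogue. -/
theorem det_le_max {R : Type} [CommRing R] {r : ℕ} (N : Matrix (Fin r) (Fin r) R) (μ : R → ℝ)
    (h0 : ∀ x, 0 ≤ μ x) (hz : μ 0 = 0) (h1 : μ 1 ≤ 1) (hn : ∀ x, μ (-x) = μ x)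
    (hadd : ∀ x y, μ (x + y) ≤ max (μ x) (μ y)) (hmul : ∀ x y, μ (x * y) ≤ μ x * μ y)
    (c : Fin r → ℝ) (hc : ∀ i j, μ (N i j) ≤ c i) : μ N.det ≤ ∏ i, c i := by
  classical
  rw [← Matrix.det_transpose, Matrix.det_apply]
  have hc0 : ∀ i, 0 ≤ c i := fun i => (h0 _).trans (hc i i)
  apply b4_max μ hz hadd _ _ (Finset.prod_nonneg (fun i _ => hc0 i))
  intro σ _
  rw [b4_sign μ hn]
  refine (b4_prod μ h0 h1 hmul _ _).trans ?_
  exact Finset.prod_le_prod (fun i _ => h0 _) (fun i _ => hc i (σ i))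

/-- The sum of the absolute values of the coefficients. -/
noncomputable def n1 {E : Type} [Field E] (φ : E →+* ℂ) (q : E[X]) : ℝ := q.sum fun _ a => ‖φ a‖

theorem b4_range {E : Type} [Field E] (φ : E →+* ℂ) (q : E[X]) {n : ℕ} (h : q.natDegree < n) :
    n1 φ q = ∑ k ∈ Finset.range n, ‖φ (q.coeff k)‖ := by
  unfold n1
  exact Polynomial.sum_over_range' q (fun _ => by rw [map_zero, norm_zero]) n h

theorem b4_add {E : Type} [Field E] (φ : E →+* ℂ) (x y : E[X]) :
    n1 φ (x + y) ≤ n1 φ x + n1 φ y := by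
  have h1 : x.natDegree < max x.natDegree y.natDegree + 1 := by
    have := le_max_left x.natDegree y.natDegree
    omega
  have h2 : y.natDegree < max x.natDegree y.natDegree + 1 := by
    have := le_max_right x.natDegree y.natDegree
    omega
  have h3 : (x + y).natDegree < max x.natDegree y.natDegree + 1 :=
    Nat.lt_succ_of_le (Polynomial.natDegree_add_le x y)
  rw [b4_range φ x h1, b4_range φ y h2, b4_range φ (x + y) h3, ← Finset.sum_add_distrib]
  refine Finset.sum_le_sum (fun k _ => ?_)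
  rw [Polynomial.coeff_add, map_add]
  exact norm_add_le _ _

theorem b4_mono {E : Type} [Field E] (φ : E →+* ℂ) (i : ℕ) (a : E) (q : E[X]) :
    n1 φ (Polynomial.C a * Polynomial.X ^ i * q) ≤ ‖φ a‖ * n1 φ q := by
  have h1 : q.natDegree < q.natDegree + 1 := Nat.lt_succ_self _
  have h2 : (Polynomial.C a * Polynomial.X ^ i * q).natDegree < i + (q.natDegree + 1) := by
    refine lt_of_le_of_lt Polynomial.natDegree_mul_le ?_
    have h3 := Polynomial.natDegree_C_mul_X_pow_le a i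
    omega
  rw [b4_range φ q h1, b4_range φ _ h2, Finset.sum_range_add, Finset.mul_sum]
  have h4 : ∑ k ∈ Finset.range i,
      ‖φ ((Polynomial.C a * Polynomial.X ^ i * q).coeff k)‖ = 0 := by
    refine Finset.sum_eq_zero (fun k hk => ?_)
    rw [Finset.mem_range] at hk
    rw [mul_assoc, Polynomial.coeff_C_mul, Polynomial.coeff_X_pow_mul', if_neg (by omega),
      mul_zero, map_zero, norm_zero]
  rw [h4, zero_add]
  refine Finset.sum_le_sum (fun k _ => ?_)
  rw [mul_assoc, Polynomial.coeff_C_mul, Polynomial.coeff_X_pow_mul', if_pos (by omega),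
    Nat.add_sub_cancel_left, map_mul, norm_mul]

theorem n1_props {E : Type} [Field E] (φ : E →+* ℂ) :
    (∀ x, 0 ≤ n1 φ x) ∧ n1 φ 0 = 0 ∧ n1 φ 1 ≤ 1 ∧ (∀ x, n1 φ (-x) = n1 φ x) ∧
      (∀ x y, n1 φ (x + y) ≤ n1 φ x + n1 φ y) ∧ ∀ x y, n1 φ (x * y) ≤ n1 φ x * n1 φ y := by
  have hz : n1 φ 0 = 0 := by
    unfold n1
    exact Polynomial.sum_zero_index _
  refine ⟨?_, hz, ?_, ?_, b4_add φ, ?_⟩
  · intro x
    unfold n1
    rw [Polynomial.sum]
    exact Finset.sum_nonneg (fun _ _ => norm_nonneg _)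
  · rw [b4_range φ 1 (n := 1) (by rw [Polynomial.natDegree_one]; exact Nat.one_pos)]
    simp
  · intro x
    rw [b4_range φ (-x) (n := x.natDegree + 1) (by rw [Polynomial.natDegree_neg]; omega),
      b4_range φ x (Nat.lt_succ_self _)]
    refine Finset.sum_congr rfl (fun k _ => ?_)
    rw [Polynomial.coeff_neg, map_neg, norm_neg]
  · intro x y
    have h1 : x * y = ∑ i ∈ x.support, Polynomial.C (x.coeff i) * Polynomial.X ^ i * y := by
      conv_lhs => rw [x.as_sum_support_C_mul_X_pow]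
      rw [Finset.sum_mul]
    rw [h1]
    refine (Finset.le_sum_of_subadditive (n1 φ) hz.le (b4_add φ) _ _).trans ?_
    refine (Finset.sum_le_sum (fun i _ => b4_mono φ i (x.coeff i) y)).trans (le_of_eq ?_)
    rw [← Finset.sum_mul]
    rfl

/-- Row B4. The Mahler measure.

Proof. `M = Q * ∏ p ∈ S, (X - C p.1)`, `Q ≠ 0` with the same leading coefficient. With
`Polynomial.mahlerMeasure` of the images in `ℂ[X]`: `mahlerMeasure_mul`,
`mahlerMeasure_X_sub_C` (`max 1 ‖z‖`), `leadingCoeff_le_mahlerMeasure` for `Q`, and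
`mahlerMeasure_le_sum_norm_coeff` for `M`. Take logarithms. -/
theorem arch_poly {E : Type} [Field E] (φ : E →+* ℂ) (S : Finset (E × E)) {M : E[X]}
    (hM : M ≠ 0) (hdvd : ∏ p ∈ S, (X - C p.1) ∣ M) :
    Real.log ‖φ M.leadingCoeff‖ + ∑ p ∈ S, Real.posLog ‖φ p.1‖ ≤ Real.log (n1 φ M) := by
  classical
  obtain ⟨Q, hQ⟩ := hdvd
  have hQ0 : Q ≠ 0 := by
    rintro rfl
    exact hM (by rw [hQ, mul_zero])
  have hmon : (∏ p ∈ S, (X - C p.1)).Monic := Polynomial.monic_prod_of_monic _ _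
    (fun p _ => Polynomial.monic_X_sub_C p.1)
  have hlc : M.leadingCoeff = Q.leadingCoeff := by
    rw [hQ, Polynomial.leadingCoeff_mul, hmon.leadingCoeff, one_mul]
  have h1 : (M.map φ).mahlerMeasure = (∏ p ∈ S, max 1 ‖φ p.1‖) * (Q.map φ).mahlerMeasure := by
    rw [hQ, Polynomial.map_mul, Polynomial.mahlerMeasure_mul, Polynomial.map_prod]
    congr 1
    have h2 : ∀ T : Finset (E × E), (∏ p ∈ T, (X - C p.1 : E[X]).map φ).mahlerMeasure =
        ∏ p ∈ T, max 1 ‖φ p.1‖ := by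
      intro T
      induction T using Finset.induction_on with
      | empty => rw [Finset.prod_empty, Finset.prod_empty, Polynomial.mahlerMeasure_one]
      | insert p T hp ih =>
        rw [Finset.prod_insert hp, Finset.prod_insert hp, Polynomial.mahlerMeasure_mul, ih,
          Polynomial.map_sub, Polynomial.map_X, Polynomial.map_C, Polynomial.mahlerMeasure_X_sub_C]
    exact h2 S
  have h3 : ‖φ M.leadingCoeff‖ ≤ (Q.map φ).mahlerMeasure := by
    have h4 := Polynomial.leadingCoeff_le_mahlerMeasure (Q.map φ)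
    rw [Polynomial.leadingCoeff_map, ← hlc] at h4
    exact h4
  have h5 : (M.map φ).mahlerMeasure ≤ n1 φ M := by
    refine (Polynomial.mahlerMeasure_le_sum_norm_coeff _).trans (le_of_eq ?_)
    rw [b4_range φ M (Nat.lt_succ_self _), Polynomial.sum_over_range' _ (fun _ => norm_zero)
      (M.natDegree + 1) (lt_of_le_of_lt Polynomial.natDegree_map_le (Nat.lt_succ_self _))]
    refine Finset.sum_congr rfl (fun k _ => ?_)
    rw [Polynomial.coeff_map]
  have hlc0 : 0 < ‖φ M.leadingCoeff‖ := by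
    rw [norm_pos_iff, _root_.map_ne_zero]
    exact Polynomial.leadingCoeff_ne_zero.2 hM
  have hP : 0 < ∏ p ∈ S, max 1 ‖φ p.1‖ :=
    Finset.prod_pos (fun p _ => lt_of_lt_of_le one_pos (le_max_left _ _))
  have h6 : ‖φ M.leadingCoeff‖ * ∏ p ∈ S, max 1 ‖φ p.1‖ ≤ n1 φ M := by
    refine le_trans ?_ h5
    rw [h1, mul_comm]
    exact mul_le_mul_of_nonneg_left h3 hP.le
  have h7 := Real.log_le_log (mul_pos hlc0 hP) h6
  rw [Real.log_mul hlc0.ne' hP.ne', Real.log_prod (fun p _ =>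
    (lt_of_lt_of_le one_pos (le_max_left _ _)).ne')] at h7
  refine le_trans (le_of_eq ?_) h7
  congr 1
  refine Finset.sum_congr rfl (fun p _ => ?_)
  rw [Real.posLog_eq_log_max_one (norm_nonneg _)]

end Pool.Agent.ZPB
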