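import Mathlib
import Pool.Agent.ZPB.L1
import Pool.Agent.ZPB.B4

set_option autoImplicit false

open Polynomial

namespace Pool.Agent.ZPB

/-- The largest absolute value of a coefficient. -/
noncomputable def nv {E : Type} [Field E] (v : AbsoluteValue E ℝ) (q : E[X]) : ℝ :=
  ⨆ k : ℕ, v (q.coeff k)

theorem b5_max {E : Type} [Field E] (v : AbsoluteValue E ℝ) (q : E[X]) :
    ∃ k0, ∀ k, v (q.coeff k) ≤ v (q.coeff k0) := by
  obtain ⟨k0, -, hk0⟩ := Finset.exists_max_image (Finset.range (q.natDegree + 1))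
    (fun k => v (q.coeff k)) ⟨0, Finset.mem_range.2 (Nat.succ_pos _)⟩
  refine ⟨k0, fun k => ?_⟩
  by_cases hk : k < q.natDegree + 1
  · exact hk0 k (Finset.mem_range.2 hk)
  · rw [Polynomial.coeff_eq_zero_of_natDegree_lt (by omega), map_zero]
    exact v.nonneg _

theorem b5_eq {E : Type} [Field E] (v : AbsoluteValue E ℝ) (q : E[X]) {k0 : ℕ} {R : ℝ}
    (h : ∀ k, v (q.coeff k) ≤ R) (h0 : v (q.coeff k0) = R) : nv v q = R := by
  unfold nv
  refine le_antisymm (ciSup_le h) ?_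
  rw [← h0]
  refine le_ciSup (f := fun k => v (q.coeff k)) ⟨R, ?_⟩ k0
  rintro _ ⟨k, rfl⟩
  exact h k

/-- Row B5. The values of the coefficients are a finite set (`0` outside the support), so bounded, and
the supremum is attained. -/
theorem nv_le {E : Type} [Field E] (v : AbsoluteValue E ℝ) (q : E[X]) :
    (∀ k, v (q.coeff k) ≤ nv v q) ∧ (∃ k, v (q.coeff k) = nv v q) := by
  obtain ⟨k0, hk0⟩ := b5_max v q
  have h := b5_eq v q hk0 rfl
  rw [h]
  exact ⟨hk0, k0, rfl⟩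

theorem b5_sum {E : Type} [Field E] (v : AbsoluteValue E ℝ) (hv : IsNonarchimedean v)
    {ι : Type} (s : Finset ι) (f : ι → E) {C : ℝ} (hC : 0 ≤ C) (h : ∀ i ∈ s, v (f i) ≤ C) :
    v (∑ i ∈ s, f i) ≤ C := by
  classical
  induction s using Finset.induction_on with
  | empty => rw [Finset.sum_empty, map_zero]; exact hC
  | insert a s ha ih =>
    rw [Finset.sum_insert ha]
    refine (hv _ _).trans (max_le (h a (Finset.mem_insert_self a s)) ?_)
    exact ih fun i hi => h i (Finset.mem_insert_of_mem hi)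

theorem nv_props {E : Type} [Field E] (v : AbsoluteValue E ℝ) (hv : IsNonarchimedean v) :
    (∀ x, 0 ≤ nv v x) ∧ nv v 0 = 0 ∧ nv v 1 ≤ 1 ∧ (∀ x, nv v (-x) = nv v x) ∧
      (∀ x y, nv v (x + y) ≤ max (nv v x) (nv v y)) ∧
      ∀ x y, nv v (x * y) ≤ nv v x * nv v y := by
  have hnn : ∀ x, 0 ≤ nv v x := fun x => (v.nonneg _).trans ((nv_le v x).1 0)
  refine ⟨hnn, ?_, ?_, ?_, ?_, ?_⟩
  · obtain ⟨k, hk⟩ := (nv_le v (0 : E[X])).2
    rw [← hk, coeff_zero, map_zero]
  · obtain ⟨k, hk⟩ := (nv_le v (1 : E[X])).2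
    rw [← hk, coeff_one]
    split_ifs
    · rw [map_one]
    · rw [map_zero]; exact zero_le_one
  · intro x
    unfold nv
    congr 1
    funext k
    rw [coeff_neg, AbsoluteValue.map_neg]
  · intro x y
    obtain ⟨k, hk⟩ := (nv_le v (x + y)).2
    rw [← hk, coeff_add]
    exact (hv _ _).trans (max_le_max ((nv_le v x).1 k) ((nv_le v y).1 k))
  · intro x y
    obtain ⟨k, hk⟩ := (nv_le v (x * y)).2
    rw [← hk, coeff_mul]
    refine b5_sum v hv _ _ (mul_nonneg (hnn x) (hnn y)) fun i _ => ?_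
    rw [map_mul]
    exact mul_le_mul ((nv_le v x).1 _) ((nv_le v y).1 _) (v.nonneg _) (hnn x)

theorem b5_prod {E : Type} [Field E] (v : AbsoluteValue E ℝ) (hv : IsNonarchimedean v)
    (S : Finset (E × E)) {Q : E[X]} (hQ : Q ≠ 0) :
    nv v (Q * ∏ p ∈ S, (X - C p.1)) = nv v Q * ∏ p ∈ S, max 1 (v p.1) := by
  classical
  induction S using Finset.induction_on with
  | empty => rw [Finset.prod_empty, Finset.prod_empty, mul_one, mul_one]
  | insert a S ha ih =>
    have hne : Q * ∏ p ∈ S, (X - C p.1) ≠ 0 :=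
      mul_ne_zero hQ (Finset.prod_ne_zero_iff.2 fun p _ => X_sub_C_ne_zero _)
    obtain ⟨h1, k, hk⟩ := gauss_step v hv (Q * ∏ p ∈ S, (X - C p.1)) a.1
      (nv v (Q * ∏ p ∈ S, (X - C p.1))) (nv_le v _).1 (nv_le v _).2 hne
    rw [Finset.prod_insert ha, Finset.prod_insert ha, mul_left_comm, b5_eq v _ h1 hk, ih]
    ring

/-- Row B5. Gauss's lemma: `M = Q * ∏ p ∈ S, (X - C p.1)`, induction over `S` with `gauss_step`
(Row L1, with `R = nv v _`), and `v Q.leadingCoeff ≤ nv v Q`, `M.leadingCoeff = Q.leadingCoeff`. Take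
logarithms (`posLog a = log (max 1 a)`). -/
theorem nonarch_poly {E : Type} [Field E] (v : AbsoluteValue E ℝ) (hv : IsNonarchimedean v)
    (S : Finset (E × E)) {M : E[X]} (hM : M ≠ 0) (hdvd : ∏ p ∈ S, (X - C p.1) ∣ M) :
    Real.log (v M.leadingCoeff) + ∑ p ∈ S, Real.posLog (v p.1) ≤ Real.log (nv v M) := by
  obtain ⟨Q, hQ⟩ := hdvd
  have hQ0 : Q ≠ 0 := by
    rintro rfl
    exact hM (by rw [hQ, mul_zero])
  have hlc : M.leadingCoeff = Q.leadingCoeff := by
    rw [hQ, leadingCoeff_mul, leadingCoeff_prod]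
    simp
  have h1 : nv v M = nv v Q * ∏ p ∈ S, max 1 (v p.1) := by
    rw [hQ, mul_comm, b5_prod v hv S hQ0]
  have hpos : ∀ p ∈ S, (0 : ℝ) < max 1 (v p.1) := fun p _ => lt_max_of_lt_left one_pos
  have h2 : ∑ p ∈ S, Real.posLog (v p.1) = Real.log (∏ p ∈ S, max 1 (v p.1)) := by
    rw [Real.log_prod (fun p hp => (hpos p hp).ne')]
    exact Finset.sum_congr rfl fun p _ => Real.posLog_eq_log_max_one (v.nonneg _)
  have hv0 : 0 < v Q.leadingCoeff := v.pos (leadingCoeff_ne_zero.2 hQ0)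
  have hprod : (0 : ℝ) < ∏ p ∈ S, max 1 (v p.1) := Finset.prod_pos hpos
  rw [hlc, h2, ← Real.log_mul hv0.ne' hprod.ne', h1]
  refine Real.log_le_log (mul_pos hv0 hprod) ?_
  exact mul_le_mul_of_nonneg_right ((nv_le v Q).1 Q.natDegree) hprod.le

end Pool.Agent.ZPB
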