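import Mathlib
import Pool.Agent.ZPB.Defs
import Pool.Agent.ZPB.B3
import Pool.Agent.ZPB.B4
import Pool.Agent.ZPB.B5

set_option autoImplicit false

open Polynomial

namespace Pool.Agent.ZPB

theorem b6_coeff {R : Type} [CommRing R] (f g : R[X]) (m i n : ℕ) :
    (rp f g m i).coeff n = 0 ∨ (i < m ∧ ∃ k, (rp f g m i).coeff n = f.coeff k) ∨
      (¬ i < m ∧ ∃ k, (rp f g m i).coeff n = g.coeff k) := by
  unfold rp
  split_ifs with h
  · rw [coeff_X_pow_mul']
    split_ifs with h2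
    · exact Or.inr (Or.inl ⟨h, _, rfl⟩)
    · exact Or.inl rfl
  · rw [coeff_X_pow_mul']
    split_ifs with h2
    · exact Or.inr (Or.inr ⟨h, _, rfl⟩)
    · exact Or.inl rfl

theorem b6_row {R : Type} [CommRing R] (μ : R → ℝ) (h0 : ∀ x, 0 ≤ μ x) (hz : μ 0 = 0)
    (f : R[X]) (i : ℕ) {r : ℕ} (e : Fin r → ℕ) (he : Function.Injective e) :
    ∑ j, μ ((X ^ i * f).coeff (e j)) ≤ f.sum (fun _ q => μ q) := by
  classical
  have h1 : ∀ j, μ ((X ^ i * f).coeff (e j)) =
      if i ≤ e j ∧ e j - i ∈ f.support then μ (f.coeff (e j - i)) else 0 := by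
    intro j
    rw [coeff_X_pow_mul']
    by_cases h : i ≤ e j
    · rw [if_pos h]
      by_cases h2 : e j - i ∈ f.support
      · rw [if_pos ⟨h, h2⟩]
      · rw [if_neg (fun h3 => h2 h3.2), notMem_support_iff.1 h2, hz]
    · rw [if_neg h, if_neg (fun h3 => h h3.1), hz]
  rw [Finset.sum_congr rfl (fun j _ => h1 j), ← Finset.sum_filter, Polynomial.sum_def]
  have hinj : Set.InjOn (fun j => e j - i)
      (Finset.univ.filter fun j => i ≤ e j ∧ e j - i ∈ f.support : Finset (Fin r)) := by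
    intro a ha b hb hab
    have ha' := (Finset.mem_filter.1 (Finset.mem_coe.1 ha)).2.1
    have hb' := (Finset.mem_filter.1 (Finset.mem_coe.1 hb)).2.1
    apply he
    have hab' : e a - i = e b - i := hab
    omega
  rw [← Finset.sum_image (f := fun k => μ (f.coeff k)) hinj]
  refine Finset.sum_le_sum_of_subset_of_nonneg ?_ (fun k _ _ => h0 _)
  intro k hk
  obtain ⟨j, hj, rfl⟩ := Finset.mem_image.1 hk
  exact (Finset.mem_filter.1 hj).2.2

theorem b6_prod (m l : ℕ) (a b : ℝ) :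
    ∏ i : Fin (m + l), (if (i : ℕ) < m then a else b) = a ^ m * b ^ l := by
  rw [Fin.prod_univ_add]
  congr 1
  · rw [Finset.prod_congr rfl (g := fun _ => a), Finset.prod_const, Finset.card_univ,
      Fintype.card_fin]
    intro i _
    rw [if_pos]
    exact i.2
  · rw [Finset.prod_congr rfl (g := fun _ => b), Finset.prod_const, Finset.card_univ,
      Fintype.card_fin]
    intro i _
    rw [if_neg]
    simp

theorem b6_arch {E : Type} [Field E] (φ : E →+* ℂ) (f g : E[X][X]) (m l : ℕ)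
    (e : Fin (m + l) → ℕ) (he : Function.Injective e) {a c : ℝ}
    (ha : f.sum (fun _ q => n1 φ q) ≤ Real.exp a) (hc : g.sum (fun _ q => n1 φ q) ≤ Real.exp c) :
    n1 φ (Matrix.of fun i j : Fin (m + l) => (rp f g m i).coeff (e j)).det ≤
      Real.exp (m * a + l * c) := by
  obtain ⟨p1, p2, p3, p4, p5, p6⟩ := n1_props φ
  refine (det_le_sum _ (n1 φ) p1 p2 p3 p4 p5 p6).trans ?_
  have h1 : Real.exp (m * a + l * c) =
      ∏ i : Fin (m + l), (if (i : ℕ) < m then Real.exp a else Real.exp c) := by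
    rw [b6_prod, Real.exp_add, Real.exp_nat_mul, Real.exp_nat_mul]
  rw [h1]
  refine Finset.prod_le_prod (fun i _ => Finset.sum_nonneg fun j _ => p1 _) fun i _ => ?_
  by_cases h : (i : ℕ) < m
  · rw [if_pos h]
    refine le_trans ?_ ha
    have h2 := b6_row (n1 φ) p1 p2 f i e he
    refine le_trans (le_of_eq ?_) h2
    refine Finset.sum_congr rfl fun j _ => ?_
    rw [Matrix.of_apply, rp, if_pos h]
  · rw [if_neg h]
    refine le_trans ?_ hc
    have h2 := b6_row (n1 φ) p1 p2 g ((i : ℕ) - m) e he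
    refine le_trans (le_of_eq ?_) h2
    refine Finset.sum_congr rfl fun j _ => ?_
    rw [Matrix.of_apply, rp, if_neg h]

theorem b6_nonarch {E : Type} [Field E] (v : AbsoluteValue E ℝ) (hv : IsNonarchimedean v)
    (f g : E[X][X]) (m l : ℕ) (e : Fin (m + l) → ℕ) {a c : ℝ}
    (ha : ∀ k l, v ((f.coeff k).coeff l) ≤ Real.exp a)
    (hc : ∀ k l, v ((g.coeff k).coeff l) ≤ Real.exp c) :
    nv v (Matrix.of fun i j : Fin (m + l) => (rp f g m i).coeff (e j)).det ≤
      Real.exp (m * a + l * c) := by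
  obtain ⟨p1, p2, p3, p4, p5, p6⟩ := nv_props v hv
  have h1 : Real.exp (m * a + l * c) =
      ∏ i : Fin (m + l), (if (i : ℕ) < m then Real.exp a else Real.exp c) := by
    rw [b6_prod, Real.exp_add, Real.exp_nat_mul, Real.exp_nat_mul]
  rw [h1]
  refine det_le_max _ (nv v) p1 p2 p3 p4 p5 p6
    (fun i : Fin (m + l) => if (i : ℕ) < m then Real.exp a else Real.exp c) fun i j => ?_
  rw [Matrix.of_apply]
  rcases b6_coeff f g m i (e j) with h | ⟨h, k, hk⟩ | ⟨h, k, hk⟩
  · rw [h, p2]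
    show 0 ≤ if (i : ℕ) < m then Real.exp a else Real.exp c
    split_ifs
    · exact (Real.exp_pos _).le
    · exact (Real.exp_pos _).le
  · show _ ≤ if (i : ℕ) < m then Real.exp a else Real.exp c
    rw [if_pos h, hk]
    obtain ⟨n, hn⟩ := (nv_le v (f.coeff k)).2
    rw [← hn]
    exact ha k n
  · show _ ≤ if (i : ℕ) < m then Real.exp a else Real.exp c
    rw [if_neg h, hk]
    obtain ⟨n, hn⟩ := (nv_le v (g.coeff k)).2
    rw [← hn]
    exact hc k n

theorem b6_mem {E : Type} [Field E] (O : Subring E) {r : ℕ} (N : Matrix (Fin r) (Fin r) E[X])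
    (h : ∀ i j k, (N i j).coeff k ∈ O) (k : ℕ) : N.det.coeff k ∈ O := by
  have h1 : ∀ p : E[X], (∀ k, p.coeff k ∈ O) ↔ p ∈ liftsRing O.subtype := by
    intro p
    rw [← lifts_iff_liftsRing, lifts_iff_coeff_lifts]
    refine forall_congr' fun k => ?_
    constructor
    · intro hk
      exact ⟨⟨_, hk⟩, rfl⟩
    · rintro ⟨x, hx⟩
      rw [← hx]
      exact x.2
  refine (h1 _).2 ?_ k
  rw [Matrix.det_apply']
  refine Subring.sum_mem _ fun σ _ => Subring.mul_mem _ (intCast_mem _ _) ?_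
  exact Subring.prod_mem _ fun i _ => (h1 _).1 (h _ _)

theorem b6_deg {E : Type} [Field E] {r : ℕ} (N : Matrix (Fin r) (Fin r) E[X]) (d : ℕ)
    (h : ∀ i j, (N i j).natDegree ≤ d) : N.det.natDegree ≤ r * d := by
  rw [Matrix.det_apply']
  refine natDegree_sum_le_of_forall_le _ _ fun σ _ => ?_
  have h1 : (∏ i, N (σ i) i).natDegree ≤ r * d := by
    refine (natDegree_prod_le _ _).trans ?_
    refine (Finset.sum_le_sum fun i _ => h (σ i) i).trans ?_
    rw [Finset.sum_const, Finset.card_univ, Fintype.card_fin, smul_eq_mul]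
  refine (natDegree_mul_le).trans ?_
  rw [natDegree_intCast, zero_add]
  exact h1

/-- Row B6. The estimate of Bezout type for the heights of common zeros.

Proof. If `S = ∅` the left side is `0` and the right side is `≥ 0`. Row B3 gives `m, l, e` and
`M = det ≠ 0` divisible by `∏ p ∈ S, (X - C p.1)`. The coefficients of `M` are in `P.O` (a subring; the
entries are coefficients of `f` or `g` or `0`), so `P.pos M.leadingCoeff` gives
`0 ≤ ∑ i, wA i * log ‖em i lc‖ + ∑ j, wB j * log (v j lc)`. With Rows B4, B5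
(`arch_poly`, `nonarch_poly`):
`∑ p ∈ S, P.h p.1 ≤ ∑ i, wA i * log (n1 (em i) M) + ∑ j, wB j * log (nv (v j) M)`.
`det_le_sum` with `μ = n1 (em i)`: a row `i' < m` has entries `(X ^ i' * f).coeff (e j')`, which are
`f.coeff (e j' - i')` or `0`, for different `j'` different coefficients of `f` (`e` injective), so
the sum over the row is `≤ ∑ k ∈ f.support, n1 (em i) (f.coeff k) ≤ exp (α i)`; the other `l` rows similarly
with `g`. So `log (n1 (em i) M) ≤ m * α i + l * γ i ≤ g.natDegree * α i + f.natDegree * γ i`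
(`n1 (em i) M > 0` as `M ≠ 0`, `α i, γ i ≥ 0`). `det_le_max` with `μ = nv (v j)` similarly. -/
theorem bez {E : Type} [Field E] (P : PL E) {f g : E[X][X]} (hf : f ≠ 0) (hg : g ≠ 0)
    (hfO : ∀ k l, (f.coeff k).coeff l ∈ P.O) (hgO : ∀ k l, (g.coeff k).coeff l ∈ P.O)
    (S : Finset (E × E))
    (hS : ∀ p ∈ S, (f.map (evalRingHom p.1)).eval p.2 = 0 ∧
      (g.map (evalRingHom p.1)).eval p.2 = 0)
    (hcom : ∀ G : E[X][X], G ∣ f → G ∣ g → ∀ p ∈ S, (G.map (evalRingHom p.1)).eval p.2 ≠ 0)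
    (α γ : P.A → ℝ) (α' γ' : P.B → ℝ) (hα0 : ∀ i, 0 ≤ α i) (hγ0 : ∀ i, 0 ≤ γ i)
    (hα0' : ∀ j, 0 ≤ α' j) (hγ0' : ∀ j, 0 ≤ γ' j)
    (hα : ∀ i, f.sum (fun _ q => n1 (P.em i) q) ≤ Real.exp (α i))
    (hγ : ∀ i, g.sum (fun _ q => n1 (P.em i) q) ≤ Real.exp (γ i))
    (hα' : ∀ j k l, P.v j ((f.coeff k).coeff l) ≤ Real.exp (α' j))
    (hγ' : ∀ j k l, P.v j ((g.coeff k).coeff l) ≤ Real.exp (γ' j)) :
    ∑ p ∈ S, P.h p.1 ≤
      g.natDegree * (∑ i, P.wA i * α i + ∑ j, P.wB j * α' j) +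
        f.natDegree * (∑ i, P.wA i * γ i + ∑ j, P.wB j * γ' j) := by
  classical
  obtain ⟨m, l, e, hm, hl, he, hM, hdvd⟩ := exists_det hf hg S hS hcom
  set M : E[X] := (Matrix.of fun i j : Fin (m + l) => (rp f g m i).coeff (e j)).det with hMdef
  have hcO : ∀ k, M.coeff k ∈ P.O := by
    refine b6_mem P.O _ fun i j k => ?_
    rw [Matrix.of_apply]
    rcases b6_coeff f g m i (e j) with h | ⟨-, k', hk⟩ | ⟨-, k', hk⟩
    · rw [h, coeff_zero]
      exact P.O.zero_mem
    · rw [hk]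
      exact hfO _ _
    · rw [hk]
      exact hgO _ _
  have hpos := P.pos M.leadingCoeff (hcO _) (leadingCoeff_ne_zero.2 hM)
  have hA : ∀ i, Real.log ‖P.em i M.leadingCoeff‖ + ∑ p ∈ S, Real.posLog ‖P.em i p.1‖ ≤
      g.natDegree * α i + f.natDegree * γ i := by
    intro i
    refine (arch_poly (P.em i) S hM hdvd).trans ?_
    have h1 : n1 (P.em i) M ≤ Real.exp (m * α i + l * γ i) :=
      b6_arch (P.em i) f g m l e he (hα i) (hγ i)
    have h2 : Real.log (n1 (P.em i) M) ≤ m * α i + l * γ i := by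
      rcases eq_or_lt_of_le ((n1_props (P.em i)).1 M) with h3 | h3
      · rw [← h3, Real.log_zero]
        exact add_nonneg (mul_nonneg (Nat.cast_nonneg _) (hα0 i))
          (mul_nonneg (Nat.cast_nonneg _) (hγ0 i))
      · exact (Real.log_le_iff_le_exp h3).2 h1
    refine h2.trans (add_le_add ?_ ?_)
    · exact mul_le_mul_of_nonneg_right (Nat.cast_le.2 hm) (hα0 i)
    · exact mul_le_mul_of_nonneg_right (Nat.cast_le.2 hl) (hγ0 i)
  have hB : ∀ j, Real.log (P.v j M.leadingCoeff) + ∑ p ∈ S, Real.posLog (P.v j p.1) ≤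
      g.natDegree * α' j + f.natDegree * γ' j := by
    intro j
    refine (nonarch_poly (P.v j) (P.na j) S hM hdvd).trans ?_
    have h1 : nv (P.v j) M ≤ Real.exp (m * α' j + l * γ' j) :=
      b6_nonarch (P.v j) (P.na j) f g m l e (hα' j) (hγ' j)
    have h2 : Real.log (nv (P.v j) M) ≤ m * α' j + l * γ' j := by
      rcases eq_or_lt_of_le ((nv_props (P.v j) (P.na j)).1 M) with h3 | h3
      · rw [← h3, Real.log_zero]
        exact add_nonneg (mul_nonneg (Nat.cast_nonneg _) (hα0' j))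
          (mul_nonneg (Nat.cast_nonneg _) (hγ0' j))
      · exact (Real.log_le_iff_le_exp h3).2 h1
    refine h2.trans (add_le_add ?_ ?_)
    · exact mul_le_mul_of_nonneg_right (Nat.cast_le.2 hm) (hα0' j)
    · exact mul_le_mul_of_nonneg_right (Nat.cast_le.2 hl) (hγ0' j)
  have hsum : ∑ p ∈ S, P.h p.1 =
      ∑ i, P.wA i * ∑ p ∈ S, Real.posLog ‖P.em i p.1‖ +
        ∑ j, P.wB j * ∑ p ∈ S, Real.posLog (P.v j p.1) := by
    unfold PL.h
    rw [Finset.sum_add_distrib]
    congr 1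
    · rw [Finset.sum_comm]
      exact Finset.sum_congr rfl fun i _ => (Finset.mul_sum _ _ _).symm
    · rw [Finset.sum_comm]
      exact Finset.sum_congr rfl fun j _ => (Finset.mul_sum _ _ _).symm
  have hA' : ∑ i, P.wA i * ∑ p ∈ S, Real.posLog ‖P.em i p.1‖ +
      ∑ i, P.wA i * Real.log ‖P.em i M.leadingCoeff‖ ≤
        g.natDegree * (∑ i, P.wA i * α i) + f.natDegree * (∑ i, P.wA i * γ i) := by
    rw [← Finset.sum_add_distrib, Finset.mul_sum, Finset.mul_sum, ← Finset.sum_add_distrib]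
    refine Finset.sum_le_sum fun i _ => ?_
    have h1 := mul_le_mul_of_nonneg_left (hA i) (P.wA0 i)
    nlinarith [h1]
  have hB' : ∑ j, P.wB j * ∑ p ∈ S, Real.posLog (P.v j p.1) +
      ∑ j, P.wB j * Real.log (P.v j M.leadingCoeff) ≤
        g.natDegree * (∑ j, P.wB j * α' j) + f.natDegree * (∑ j, P.wB j * γ' j) := by
    rw [← Finset.sum_add_distrib, Finset.mul_sum, Finset.mul_sum, ← Finset.sum_add_distrib]
    refine Finset.sum_le_sum fun j _ => ?_
    have h1 := mul_le_mul_of_nonneg_left (hB j) (P.wB0 j)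
    nlinarith [h1]
  rw [hsum]
  nlinarith [hA', hB', hpos]

/-- Row B6. The number of common zeros.

Proof. `S.card` is the degree of `∏ p ∈ S, (X - C p.1)`, which divides the determinant `M ≠ 0` of
Row B3, all of whose entries have degree `≤ d`, so its degree is `≤ (m + l) * d`
(`Polynomial.natDegree_det_le` or the Leibniz formula). -/
theorem bez_card {E : Type} [Field E] {f g : E[X][X]} (hf : f ≠ 0) (hg : g ≠ 0)
    (S : Finset (E × E))
    (hS : ∀ p ∈ S, (f.map (evalRingHom p.1)).eval p.2 = 0 ∧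
      (g.map (evalRingHom p.1)).eval p.2 = 0)
    (hcom : ∀ G : E[X][X], G ∣ f → G ∣ g → ∀ p ∈ S, (G.map (evalRingHom p.1)).eval p.2 ≠ 0)
    (d : ℕ) (hfd : ∀ k, (f.coeff k).natDegree ≤ d) (hgd : ∀ k, (g.coeff k).natDegree ≤ d) :
    S.card ≤ (g.natDegree + f.natDegree) * d := by
  classical
  obtain ⟨m, l, e, hm, hl, he, hM, hdvd⟩ := exists_det hf hg S hS hcom
  have h1 : (∏ p ∈ S, (X - C p.1) : E[X]).natDegree = S.card := by
    rw [natDegree_prod_of_monic _ _ (fun p _ => monic_X_sub_C p.1)]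
    simp
  have h2 := natDegree_le_of_dvd hdvd hM
  rw [h1] at h2
  refine h2.trans ((b6_deg _ d fun i j => ?_).trans ?_)
  · rw [Matrix.of_apply]
    rcases b6_coeff f g m i (e j) with h | ⟨-, k', hk⟩ | ⟨-, k', hk⟩
    · rw [h, natDegree_zero]
      exact Nat.zero_le _
    · rw [hk]
      exact hfd _
    · rw [hk]
      exact hgd _
  · exact Nat.mul_le_mul_right _ (Nat.add_le_add hm hl)

end Pool.Agent.ZPB
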