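import Mathlib
import Pool.Agent.ZPB.B4
import Pool.Agent.ZPB.M1

set_option autoImplicit false

open Polynomial

namespace Pool.Agent.ZPB

/-- The sum of the absolute values of all coefficients. -/
noncomputable def n2 {E : Type} [Field E] (φ : E →+* ℂ) (f : E[X][X]) : ℝ :=
  f.sum fun _ q => n1 φ q

theorem m2_n1_zero {E : Type} [Field E] (φ : E →+* ℂ) : n1 φ 0 = 0 := (n1_props φ).2.1

theorem m2_eq {E : Type} [Field E] (φ : E →+* ℂ) (f : E[X][X]) {s : Finset ℕ}
    (hs : f.support ⊆ s) : n2 φ f = ∑ i ∈ s, n1 φ (f.coeff i) :=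
  Polynomial.sum_eq_of_subset (fun _ q => n1 φ q) (fun _ => m2_n1_zero φ) hs

theorem m2_n1_eq {E : Type} [Field E] (φ : E →+* ℂ) (q : E[X]) {s : Finset ℕ}
    (hs : q.support ⊆ s) : n1 φ q = ∑ i ∈ s, ‖φ (q.coeff i)‖ :=
  Polynomial.sum_eq_of_subset (fun _ a => ‖φ a‖) (fun _ => by simp) hs

/-- Row M2. `n2` is subadditive and homogeneous (`n2 φ f = ∑ over pairs (k, l) of ‖φ (coeff)‖`). -/
theorem n2_add {E : Type} [Field E] (φ : E →+* ℂ) (f g : E[X][X]) :
    n2 φ (f + g) ≤ n2 φ f + n2 φ g := by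
  classical
  rw [m2_eq φ (f + g) (s := f.support ∪ g.support) Polynomial.support_add,
    m2_eq φ f (s := f.support ∪ g.support) Finset.subset_union_left,
    m2_eq φ g (s := f.support ∪ g.support) Finset.subset_union_right, ← Finset.sum_add_distrib]
  refine Finset.sum_le_sum fun i _ => ?_
  rw [Polynomial.coeff_add]
  exact (n1_props φ).2.2.2.2.1 _ _

theorem n2_sum {E : Type} [Field E] (φ : E →+* ℂ) {ι : Type} (s : Finset ι) (f : ι → E[X][X]) :
    n2 φ (∑ i ∈ s, f i) ≤ ∑ i ∈ s, n2 φ (f i) := by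
  classical
  induction s using Finset.induction_on with
  | empty =>
    rw [Finset.sum_empty, Finset.sum_empty]
    unfold n2
    rw [Polynomial.sum_zero_index]
  | insert a s ha ih =>
    rw [Finset.sum_insert ha, Finset.sum_insert ha]
    exact (n2_add φ _ _).trans (add_le_add le_rfl ih)

theorem n2_monomial {E : Type} [Field E] (φ : E →+* ℂ) (c : E) (k l : ℕ) :
    n2 φ (C (C c * X ^ k) * X ^ l) = ‖φ c‖ := by
  unfold n2
  rw [C_mul_X_pow_eq_monomial, Polynomial.sum_monomial_index _ _ (m2_n1_zero φ)]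
  unfold n1
  rw [C_mul_X_pow_eq_monomial, Polynomial.sum_monomial_index _ _ (by simp)]

theorem n2_C_mul {E : Type} [Field E] (φ : E →+* ℂ) (c : E) (f : E[X][X]) :
    n2 φ (C (C c) * f) = ‖φ c‖ * n2 φ f := by
  have h1 : (C (C c) * f).support ⊆ f.support := by
    intro i hi
    rw [Polynomial.mem_support_iff, Polynomial.coeff_C_mul] at hi
    rw [Polynomial.mem_support_iff]
    exact right_ne_zero_of_mul hi
  rw [m2_eq φ _ h1, m2_eq φ f (Finset.Subset.refl _), Finset.mul_sum]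
  refine Finset.sum_congr rfl fun i _ => ?_
  rw [Polynomial.coeff_C_mul]
  have h2 : (C c * f.coeff i).support ⊆ (f.coeff i).support := by
    intro j hj
    rw [Polynomial.mem_support_iff, Polynomial.coeff_C_mul] at hj
    rw [Polynomial.mem_support_iff]
    exact right_ne_zero_of_mul hj
  rw [m2_n1_eq φ _ h2, m2_n1_eq φ (f.coeff i) (Finset.Subset.refl _), Finset.mul_sum]
  refine Finset.sum_congr rfl fun j _ => ?_
  rw [Polynomial.coeff_C_mul, map_mul, norm_mul]

variable {E : Type} [Field E] {n : ℕ} {d s1 s2 : ℕ} {e1 e2 : Fin n → ℤ} {ξ : Fin n → E}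
  {Q : MvPolynomial (Fin n) E}

theorem lp_n2 (φ : E →+* ℂ) (hξ : ∀ i, ‖φ (ξ i)‖ = 1) :
    n2 φ (lp d s1 s2 e1 e2 ξ Q) ≤ ∑ m ∈ Q.support, ‖φ (Q.coeff m)‖ := by
  unfold lp
  refine (n2_sum φ _ _).trans (le_of_eq ?_)
  refine Finset.sum_congr rfl fun m _ => ?_
  rw [n2_monomial, map_mul, norm_mul, map_prod, norm_prod]
  have h1 : ∏ i, ‖φ (ξ i ^ m i)‖ = 1 := by
    refine Finset.prod_eq_one fun i _ => ?_
    rw [map_pow, norm_pow, hξ i, one_pow]
  rw [h1, mul_one]

theorem m2_coeff (k l : ℕ) :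
    ((lp d s1 s2 e1 e2 ξ Q).coeff k).coeff l = ∑ m ∈ Q.support,
      (if k = ((s2 * d : ℤ) + ∑ i, (m i : ℤ) * e2 i).toNat then
        (if l = ((s1 * d : ℤ) + ∑ i, (m i : ℤ) * e1 i).toNat then
          Q.coeff m * ∏ i, ξ i ^ m i else 0) else 0) := by
  unfold lp
  rw [Polynomial.finsetSum_coeff, Polynomial.finsetSum_coeff]
  refine Finset.sum_congr rfl fun m _ => ?_
  rw [Polynomial.coeff_C_mul_X_pow]
  split_ifs with h1 h2
  · rw [Polynomial.coeff_C_mul_X_pow, if_pos h2]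
  · rw [Polynomial.coeff_C_mul_X_pow, if_neg h2]
  · rw [Polynomial.coeff_zero]

theorem m2_sum_le (v : AbsoluteValue E ℝ) (hv : IsNonarchimedean v) {ι : Type} (s : Finset ι)
    (f : ι → E) {R : ℝ} (hR0 : 0 ≤ R) (h : ∀ i ∈ s, v (f i) ≤ R) : v (∑ i ∈ s, f i) ≤ R := by
  classical
  induction s using Finset.induction_on with
  | empty => simpa using hR0
  | insert a s ha ih =>
    rw [Finset.sum_insert ha]
    exact (hv _ _).trans (max_le (h a (Finset.mem_insert_self a s))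
      (ih fun i hi => h i (Finset.mem_insert_of_mem hi)))

/-- Row M2. The nonarchimedean analogue (`v` of a sum is at most the maximum). -/
theorem lp_nonarch (v : AbsoluteValue E ℝ) (hv : IsNonarchimedean v) (hξ : ∀ i, v (ξ i) = 1)
    {R : ℝ} (hR0 : 0 ≤ R) (hR : ∀ m, v (Q.coeff m) ≤ R) (k l : ℕ) :
    v (((lp d s1 s2 e1 e2 ξ Q).coeff k).coeff l) ≤ R := by
  rw [m2_coeff]
  refine m2_sum_le v hv _ _ hR0 fun m _ => ?_
  split_ifs
  · rw [map_mul, map_prod]
    have h1 : ∏ i, v (ξ i ^ m i) = 1 := by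
      refine Finset.prod_eq_one fun i _ => ?_
      rw [map_pow, hξ i, one_pow]
    rw [h1, mul_one]
    exact hR m
  · rw [map_zero]; exact hR0
  · rw [map_zero]; exact hR0

theorem lp_mem (O : Subring E) (hξ : ∀ i, ξ i ∈ O) (hQ : ∀ m, Q.coeff m ∈ O) (k l : ℕ) :
    ((lp d s1 s2 e1 e2 ξ Q).coeff k).coeff l ∈ O := by
  rw [m2_coeff]
  refine sum_mem fun m _ => ?_
  split_ifs
  · exact mul_mem (hQ m) (prod_mem fun i _ => pow_mem (hξ i) _)
  · exact zero_mem _
  · exact zero_mem _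

end Pool.Agent.ZPB
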