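import Mathlib

set_option autoImplicit false

open Polynomial

namespace Pool.Agent.ZPB

/-- evaluation at `(u, v)` as a ring homomorphism -/
noncomputable def m3_ev {E : Type} [Field E] (u v : E) : E[X][X] →+* E :=
  (evalRingHom v).comp (mapRingHom (evalRingHom u))

theorem m3_ev_apply {E : Type} [Field E] (u v : E) (G : E[X][X]) : m3_ev u v G = (G.map (evalRingHom u)).eval v := rfl

/-- Row M3. Pairwise nonassociated irreducible divisors of `f` in `E[X][X]` vanishing at the point
`(u, v)`: there are at most `f.natDegree + 1` of them.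

Proof. Their product divides `f` (`Finset.prod_dvd_of_coprime` in the form for relatively prime elements of
a unique factorisation domain: `Finset.prod_dvd_of_isRelPrime`). Those with outer degree `≥ 1`
contribute at least `1` each to the outer degree (`natDegree_prod`, `natDegree_le_of_dvd`), so there are
at most `f.natDegree`. Those of outer degree `0` are `C q`, `q : E[X]` irreducible with `q.eval u = 0`,
so `q` is associated to `X - C u`: at most one. -/
theorem card_factors {E : Type} [Field E] {f : E[X][X]} (hf : f ≠ 0) (u v : E)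
    (T : Finset E[X][X]) (hT : ∀ q ∈ T, Irreducible q ∧ q ∣ f ∧
      (q.map (evalRingHom u)).eval v = 0)
    (hass : ∀ q ∈ T, ∀ q' ∈ T, Associated q q' → q = q') : T.card ≤ f.natDegree + 1 := by
  classical
  have h0 : (T.filter (fun q => q.natDegree = 0)).card ≤ 1 := by
    rw [Finset.card_le_one]
    have key : ∀ q ∈ T.filter (fun q => q.natDegree = 0), Associated q (C (X - C u) : E[X][X]) := by
      intro q hq
      rw [Finset.mem_filter] at hq
      obtain ⟨hqT, hqd⟩ := hq
      obtain ⟨hirr, -, hev⟩ := hT q hqT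
      obtain ⟨a, ha⟩ : ∃ a : E[X], q = C a := ⟨q.coeff 0, eq_C_of_natDegree_eq_zero hqd⟩
      rw [ha, map_C, eval_C, coe_evalRingHom] at hev
      have h1 : X - C u ∣ a := dvd_iff_isRoot.2 hev
      obtain ⟨b, hb⟩ := h1
      have h2 : q = C (X - C u) * C b := by rw [ha, hb, C_mul]
      have h3 := hirr.isUnit_or_isUnit h2
      rcases h3 with h3 | h3
      · exfalso
        have h4 : IsUnit (X - C u) := by
          have := isUnit_C.1 h3
          exact this
        exact (irreducible_X_sub_C u).not_isUnit h4
      · rw [h2]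
        exact associated_mul_unit_left _ _ h3
    intro q hq q' hq'
    exact hass q (Finset.mem_filter.1 hq).1 q' (Finset.mem_filter.1 hq').1 ((key q hq).trans (key q' hq').symm)
  have h1 : (T.filter (fun q => ¬ q.natDegree = 0)).card ≤ f.natDegree := by
    have hdvd : (∏ q ∈ T.filter (fun q => ¬ q.natDegree = 0), q) ∣ f := by
      apply Finset.prod_dvd_of_isRelPrime
      · intro q hq q' hq' hne
        rw [Finset.mem_coe, Finset.mem_filter] at hq hq'
        show IsRelPrime q q'
        rw [(hT q hq.1).1.isRelPrime_iff_not_dvd]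
        intro hd
        exact hne (hass q hq.1 q' hq'.1 ((hT q hq.1).1.associated_of_dvd (hT q' hq'.1).1 hd))
      · intro q hq
        exact (hT q (Finset.mem_filter.1 hq).1).2.1
    have h2 := natDegree_le_of_dvd hdvd hf
    rw [natDegree_prod _ _ (fun q hq => (hT q (Finset.mem_filter.1 hq).1).1.ne_zero)] at h2
    refine le_trans ?_ h2
    rw [Finset.card_eq_sum_ones]
    apply Finset.sum_le_sum
    intro q hq
    exact Nat.one_le_iff_ne_zero.2 (Finset.mem_filter.1 hq).2
  have h2 := Finset.card_filter_add_card_filter_not (s := T) (fun q : E[X][X] => q.natDegree = 0)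
  omega

/-- Row M3. A polynomial dividing enough combinations divides all members.

Proof. The Vandermonde matrix `(μ i) ^ k`, `i, k < r`, has determinant `δ ≠ 0` in `E`
(`Matrix.det_vandermonde_ne_zero_iff`), and `adjugate * V = δ`, so
`C (C δ) * f k` is a combination with constant coefficients of the `r` sums; `C (C δ)` is a
unit. -/
theorem dvd_of_vandermonde {E : Type} [Field E] {r : ℕ} (f : Fin r → E[X][X]) (q : E[X][X])
    (μ : Fin r → E) (hμ : Function.Injective μ)
    (h : ∀ i, q ∣ ∑ k : Fin r, C (C (μ i ^ (k : ℕ))) * f k) (k : Fin r) : q ∣ f k := by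
  classical
  set V : Matrix (Fin r) (Fin r) E := Matrix.vandermonde μ with hV
  have hdet : V.det ≠ 0 := Matrix.det_vandermonde_ne_zero_iff.2 hμ
  set φ : E →+* E[X][X] := C.comp C with hφ
  have hadj := Matrix.adjugate_mul V
  have hsum : φ V.det * f k = ∑ i, φ (V.adjugate k i) * ∑ l : Fin r, C (C (μ i ^ (l : ℕ))) * f l := by
    have h1 : ∀ i, φ (V.adjugate k i) * ∑ l : Fin r, C (C (μ i ^ (l : ℕ))) * f l =
        ∑ l : Fin r, φ (V.adjugate k i * V i l) * f l := by
      intro i
      rw [Finset.mul_sum]
      apply Finset.sum_congr rfl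
      intro l _
      rw [map_mul, mul_assoc]
      rfl
    rw [Finset.sum_congr rfl (fun i _ => h1 i), Finset.sum_comm]
    have h2 : ∀ l : Fin r, ∑ i, φ (V.adjugate k i * V i l) * f l = if k = l then φ V.det * f l else 0 := by
      intro l
      rw [← Finset.sum_mul, ← map_sum, ← Matrix.mul_apply, hadj, Matrix.smul_apply, smul_eq_mul, Matrix.one_apply]
      split_ifs
      · rw [mul_one]
      · rw [mul_zero, map_zero, zero_mul]
    rw [Finset.sum_congr rfl (fun l _ => h2 l), Finset.sum_ite_eq, if_pos (Finset.mem_univ k)]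
  have hdvd : q ∣ φ V.det * f k := by
    rw [hsum]
    exact Finset.dvd_sum (fun i _ => Dvd.dvd.mul_left (h i) _)
  have hunit : IsUnit (φ V.det) := (isUnit_iff_ne_zero.2 hdet).map φ
  exact (hunit.dvd_mul_left).1 hdvd

/-- Row M3. A combination without common factor through the point.

Proof. Suppose that for every `μ ≤ r * (D + 1)` there is a common divisor `G` of `f k1` and of the
combination with value `0` at `(u, v)`; `G` is not a unit and not `0` (`f k1 ≠ 0`), and one of its
irreducible factors vanishes at the point: `G` is a product of irreducible elements (up to a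
unit, which does not vanish). Call it `q μ`; it divides `f k1` and the combination. Choose
representatives up to association (for instance with `Quotient.out` of
`Associates.mk (q μ)`, or normalise): by `card_factors` there are at most `D + 1` classes, so
among the `r * (D + 1) + 1` values of `μ` at least `r + 1` have associated `q μ` (pigeonhole,
`Finset.exists_lt_card_fiber_of_mul_lt_card_of_maps_to`). By `dvd_of_vandermonde` this `q` divides
all `f k` (`r = 0` is impossible because of `k1`), contradicting `hno`. Natural numbers are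
different in `E` (characteristic zero). -/
theorem exists_mu {E : Type} [Field E] [CharZero E] {r : ℕ} (f : Fin r → E[X][X]) (k1 : Fin r)
    (hf : f k1 ≠ 0) (D : ℕ) (hD : (f k1).natDegree ≤ D) (u v : E)
    (hno : ∀ G : E[X][X], (∀ k, G ∣ f k) → (G.map (evalRingHom u)).eval v ≠ 0) :
    ∃ μ : ℕ, μ ≤ r * (D + 1) ∧ ∀ G : E[X][X], G ∣ f k1 →
      G ∣ ∑ k : Fin r, C (C ((μ : E) ^ (k : ℕ))) * f k → (G.map (evalRingHom u)).eval v ≠ 0 := by
  classical
  by_contra hcon
  push Not at hcon
  -- an irreducible common factor through the point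
  have hq : ∀ μ : ℕ, μ ≤ r * (D + 1) → ∃ q : E[X][X], Irreducible q ∧ q ∣ f k1 ∧
      q ∣ ∑ k : Fin r, C (C ((μ : E) ^ (k : ℕ))) * f k ∧ (q.map (evalRingHom u)).eval v = 0 := by
    intro μ hμ
    obtain ⟨G, hG1, hG2, hG3⟩ := hcon μ hμ
    have hG0 : G ≠ 0 := by
      rintro rfl
      exact hf (zero_dvd_iff.1 hG1)
    obtain ⟨m, hm, hmG⟩ := UniqueFactorizationMonoid.exists_prime_factors G hG0
    have h1 : m3_ev u v m.prod = 0 := by
      obtain ⟨w, hw⟩ := hmG
      have h2 : m3_ev u v m.prod * m3_ev u v w = 0 := by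
        rw [← map_mul, hw]
        exact hG3
      rcases mul_eq_zero.1 h2 with h3 | h3
      · exact h3
      · exact absurd h3 ((w.isUnit.map (m3_ev u v)).ne_zero)
    rw [map_multiset_prod, Multiset.prod_eq_zero_iff, Multiset.mem_map] at h1
    obtain ⟨q, hqm, hqe⟩ := h1
    have hqG : q ∣ G := (Multiset.dvd_prod hqm).trans hmG.dvd
    exact ⟨q, (hm q hqm).irreducible, hqG.trans hG1, hqG.trans hG2, hqe⟩
  choose! q hq1 hq2 hq3 hq4 using hq
  -- representatives up to association
  set ρ : ℕ → E[X][X] := fun μ => Quot.out (Associates.mk (q μ)) with hρ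
  have hρa : ∀ μ, Associated (ρ μ) (q μ) := fun μ => Associates.mk_quot_out (q μ)
  set S : Finset ℕ := Finset.range (r * (D + 1) + 1) with hS
  have hSle : ∀ μ ∈ S, μ ≤ r * (D + 1) := by
    intro μ hμ
    rw [hS, Finset.mem_range] at hμ
    omega
  set T : Finset E[X][X] := S.image ρ with hT
  have hTcard : T.card ≤ D + 1 := by
    refine le_trans (card_factors hf u v T ?_ ?_) (by omega)
    · intro t ht
      rw [hT, Finset.mem_image] at ht
      obtain ⟨μ, hμ, rfl⟩ := ht
      have hμ' := hSle μ hμ
      refine ⟨(hρa μ).symm.irreducible (hq1 μ hμ'), (hρa μ).dvd.trans (hq2 μ hμ'), ?_⟩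
      obtain ⟨w, hw⟩ := (hρa μ).symm
      rw [← m3_ev_apply, ← hw, map_mul, m3_ev_apply, hq4 μ hμ', zero_mul]
    · intro t ht t' ht' hass
      rw [hT, Finset.mem_image] at ht ht'
      obtain ⟨μ, _, rfl⟩ := ht
      obtain ⟨μ', _, rfl⟩ := ht'
      have h1 : Associates.mk (q μ) = Associates.mk (q μ') :=
        Associates.mk_eq_mk_iff_associated.2 (((hρa μ).symm.trans hass).trans (hρa μ'))
      show Quot.out (Associates.mk (q μ)) = Quot.out (Associates.mk (q μ'))
      rw [h1]
  have hScard : S.card = r * (D + 1) + 1 := by rw [hS, Finset.card_range]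
  have hlt : T.card * r < S.card := by
    rw [hScard]
    have : T.card * r ≤ (D + 1) * r := Nat.mul_le_mul_right _ hTcard
    have h2 : (D + 1) * r = r * (D + 1) := mul_comm _ _
    omega
  obtain ⟨y, hyT, hy⟩ := Finset.exists_lt_card_fiber_of_mul_lt_card_of_maps_to
    (fun a ha => Finset.mem_image_of_mem ρ ha) hlt
  obtain ⟨U, hU, hUc⟩ := Finset.exists_subset_card_eq hy.le
  set e := U.orderEmbOfFin hUc with he
  have heU : ∀ i, e i ∈ U := fun i => U.orderEmbOfFin_mem hUc i
  have hydvd : ∀ k, y ∣ f k := by
    intro k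
    refine dvd_of_vandermonde f y (fun i => ((e i : ℕ) : E)) ?_ ?_ k
    · intro i j hij
      have h1 : (e i : ℕ) = e j := Nat.cast_injective (R := E) hij
      exact e.injective h1
    · intro i
      have h1 := hU (heU i)
      rw [Finset.mem_filter] at h1
      have h2 : y ∣ q (e i) := by
        rw [← h1.2]
        exact (hρa (e i)).dvd
      exact h2.trans (hq3 (e i) (hSle _ h1.1))
  refine hno y hydvd ?_
  rw [Finset.mem_image] at hyT
  obtain ⟨μ, hμ, rfl⟩ := hyT
  obtain ⟨w, hw⟩ := (hρa μ).symm
  rw [← m3_ev_apply, ← hw, map_mul, m3_ev_apply, hq4 μ (hSle μ hμ), zero_mul]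

end Pool.Agent.ZPB
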