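import Mathlib
import Pool.Agent.ZPB.Defs
import Pool.Agent.ZPB.K1

set_option autoImplicit false

namespace Pool.Agent.ZPB

variable {E : Type} [Field E] [NumberField E]

/-- Row V2. The elements of the orbit are roots of the minimal polynomial. -/
theorem orb_card_le (H : Subgroup (E ≃ₐ[ℚ] E)) (x : E) :
    (orb H x).card ≤ (minpoly ℚ x).natDegree := by
  classical
  have h0 : minpoly ℚ x ≠ 0 := minpoly.ne_zero (Algebra.IsIntegral.isIntegral x)
  have h1 : orb H x ⊆ ((minpoly ℚ x).aroots E).toFinset := by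
    intro y hy
    obtain ⟨g, _, rfl⟩ := mem_orb.1 hy
    rw [Multiset.mem_toFinset, Polynomial.mem_aroots]
    refine ⟨h0, ?_⟩
    rw [Polynomial.aeval_algHom_apply g x (minpoly ℚ x), minpoly.aeval, map_zero]
  calc (orb H x).card ≤ ((minpoly ℚ x).aroots E).toFinset.card := Finset.card_le_card h1
    _ ≤ Multiset.card ((minpoly ℚ x).aroots E) := Multiset.toFinset_card_le _
    _ ≤ ((minpoly ℚ x).map (algebraMap ℚ E)).natDegree := Polynomial.card_roots' _
    _ = (minpoly ℚ x).natDegree := Polynomial.natDegree_map _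

/-- The automorphisms fixing all elements of `S`. -/
def fxs (S : Finset E) : Subgroup (E ≃ₐ[ℚ] E) := ⨅ c ∈ S, fx c

theorem mem_fxs {S : Finset E} {g : E ≃ₐ[ℚ] E} : g ∈ fxs S ↔ ∀ c ∈ S, g c = c := by
  unfold fxs
  simp only [Subgroup.mem_iInf, mem_fx]

/-- Row V2. Passing to the subgroup fixing `c` divides the size of an orbit by at most the degree
of `c`.

Proof. `orb_card_mul` three times: `|H| = |orb H c| * |H ⊓ fx c| ≤ deg c * |H ⊓ fx c|`,
`|orb H x| * |H ⊓ fx x| = |H|` and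
`|orb (H ⊓ fx c) x| * |H ⊓ fx c ⊓ fx x| = |H ⊓ fx c|`, with `|H ⊓ fx c ⊓ fx x| ≤ |H ⊓ fx x|`. So
`|orb H x| * |H ⊓ fx x| ≤ deg c * |orb (H ⊓ fx c) x| * |H ⊓ fx x|`. -/
theorem orb_index_one (H : Subgroup (E ≃ₐ[ℚ] E)) (c x : E) :
    (orb H x).card ≤ (minpoly ℚ c).natDegree * (orb (H ⊓ fx c) x).card := by
  have e1 := orb_card_mul H x
  have e2 := orb_card_mul H c
  have e3 := orb_card_mul (H ⊓ fx c) x
  have e4 : Nat.card ((H ⊓ fx c) ⊓ fx x : Subgroup (E ≃ₐ[ℚ] E)) ≤
      Nat.card (H ⊓ fx x : Subgroup (E ≃ₐ[ℚ] E)) :=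
    Nat.card_mono (Set.toFinite _) (inf_le_inf_right (fx x) inf_le_left)
  have e5 := orb_card_le H c
  have hpos : 0 < Nat.card (H ⊓ fx x : Subgroup (E ≃ₐ[ℚ] E)) := Nat.card_pos
  refine Nat.le_of_mul_le_mul_right ?_ hpos
  calc (orb H x).card * Nat.card (H ⊓ fx x : Subgroup (E ≃ₐ[ℚ] E))
      = (orb H c).card * ((orb (H ⊓ fx c) x).card *
          Nat.card ((H ⊓ fx c) ⊓ fx x : Subgroup (E ≃ₐ[ℚ] E))) := by rw [e1, e3, e2]
    _ ≤ (minpoly ℚ c).natDegree * ((orb (H ⊓ fx c) x).card *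
          Nat.card (H ⊓ fx x : Subgroup (E ≃ₐ[ℚ] E))) :=
        Nat.mul_le_mul e5 (Nat.mul_le_mul_left _ e4)
    _ = (minpoly ℚ c).natDegree * (orb (H ⊓ fx c) x).card *
          Nat.card (H ⊓ fx x : Subgroup (E ≃ₐ[ℚ] E)) := by rw [mul_assoc]

/-- Row V2. Induction over `S`. -/
theorem orb_index (H : Subgroup (E ≃ₐ[ℚ] E)) (S : Finset E) (x : E) :
    (orb H x).card ≤ (∏ c ∈ S, (minpoly ℚ c).natDegree) * (orb (H ⊓ fxs S) x).card := by
  classical
  induction S using Finset.induction_on with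
  | empty =>
    have h1 : H ⊓ fxs (∅ : Finset E) = H := by
      refine inf_eq_left.2 fun g _ => ?_
      rw [mem_fxs]
      intro c hc
      exact absurd hc (Finset.notMem_empty c)
    rw [h1, Finset.prod_empty, one_mul]
  | insert c S hc ih =>
    have h1 : H ⊓ fxs (insert c S) = (H ⊓ fxs S) ⊓ fx c := by
      ext g
      simp only [Subgroup.mem_inf, mem_fxs, mem_fx, Finset.mem_insert]
      constructor
      · rintro ⟨hg, hg1⟩
        exact ⟨⟨hg, fun a ha => hg1 a (Or.inr ha)⟩, hg1 c (Or.inl rfl)⟩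
      · rintro ⟨⟨hg, hg1⟩, hg2⟩
        refine ⟨hg, fun a ha => ?_⟩
        rcases ha with rfl | ha
        · exact hg2
        · exact hg1 a ha
    rw [h1, Finset.prod_insert hc]
    calc (orb H x).card ≤ (∏ c ∈ S, (minpoly ℚ c).natDegree) * (orb (H ⊓ fxs S) x).card := ih
      _ ≤ (∏ c ∈ S, (minpoly ℚ c).natDegree) *
            ((minpoly ℚ c).natDegree * (orb ((H ⊓ fxs S) ⊓ fx c) x).card) :=
          Nat.mul_le_mul_left _ (orb_index_one (H ⊓ fxs S) c x)
      _ = _ := by ring

theorem v2_sum {E : Type} [Field E] (v : AbsoluteValue E ℝ) (hv : IsNonarchimedean v)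
    {ι : Type} (s : Finset ι) (a : ι → E) {R : ℝ} (hR : 0 ≤ R) (ha : ∀ k ∈ s, v (a k) ≤ R) :
    v (∑ k ∈ s, a k) ≤ R := by
  classical
  induction s using Finset.induction_on with
  | empty => simpa using hR
  | insert i s hi ih =>
    rw [Finset.sum_insert hi]
    exact (hv _ _).trans (max_le (ha i (Finset.mem_insert_self i s))
      (ih fun k hk => ha k (Finset.mem_insert_of_mem hk)))

theorem v2_nat {E : Type} [Field E] (v : AbsoluteValue E ℝ) (hv : IsNonarchimedean v) (n : ℕ) :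
    v (n : E) ≤ 1 := by
  induction n with
  | zero =>
    rw [Nat.cast_zero, map_zero]
    exact zero_le_one
  | succ n ih =>
    rw [Nat.cast_add, Nat.cast_one]
    exact (hv _ _).trans (max_le ih (map_one v).le)

theorem v2_int {E : Type} [Field E] (v : AbsoluteValue E ℝ) (hv : IsNonarchimedean v) (n : ℤ) :
    v (n : E) ≤ 1 := by
  obtain ⟨a, rfl | rfl⟩ := Int.eq_nat_or_neg n
  · rw [Int.cast_natCast]
    exact v2_nat v hv a
  · rw [Int.cast_neg, Int.cast_natCast, v.map_neg]
    exact v2_nat v hv a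

/-- Row V2. Nonarchimedean absolute values are at most one on integral elements: if `v x > 1`, in
an equation `x ^ n = - ∑ k < n, c k * x ^ k` with integers `c k` (`v (c k) ≤ 1`) the left side
is larger than all terms of the right side. -/
theorem v_int_le {E : Type} [Field E] {v : AbsoluteValue E ℝ} (hv : IsNonarchimedean v) {x : E}
    (hx : IsIntegral ℤ x) : v x ≤ 1 := by
  by_contra hcon
  push Not at hcon
  obtain ⟨P, hP, hPx⟩ := hx
  have hPx' : Polynomial.aeval x P = 0 := hPx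
  rw [Polynomial.aeval_eq_sum_range, Finset.sum_range_succ] at hPx'
  have hlead : P.coeff P.natDegree = 1 := hP
  rw [hlead, one_smul] at hPx'
  rcases Nat.eq_zero_or_pos P.natDegree with h0 | hpos
  · rw [h0, Finset.sum_range_zero, zero_add, pow_zero] at hPx'
    exact one_ne_zero hPx'
  · have h1 : x ^ P.natDegree = -∑ k ∈ Finset.range P.natDegree, P.coeff k • x ^ k :=
      eq_neg_of_add_eq_zero_right hPx'
    have h2 : v (∑ k ∈ Finset.range P.natDegree, P.coeff k • x ^ k) ≤
        v x ^ (P.natDegree - 1) := by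
      refine v2_sum v hv _ _ (pow_nonneg (v.nonneg x) _) fun k hk => ?_
      have hk1 : k ≤ P.natDegree - 1 := by
        have := Finset.mem_range.1 hk
        omega
      rw [zsmul_eq_mul, map_mul, map_pow]
      calc v ((P.coeff k : ℤ) : E) * v x ^ k ≤ 1 * v x ^ (P.natDegree - 1) :=
            mul_le_mul (v2_int v hv _) (pow_le_pow_right₀ hcon.le hk1)
              (pow_nonneg (v.nonneg x) _) zero_le_one
        _ = v x ^ (P.natDegree - 1) := one_mul _
    have h3 : v x ^ P.natDegree ≤ v x ^ (P.natDegree - 1) := by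
      rw [← map_pow, h1, v.map_neg]
      exact h2
    have h4 : v x ^ (P.natDegree - 1) < v x ^ P.natDegree :=
      pow_lt_pow_right₀ hcon (by omega)
    exact absurd h3 (not_le.2 h4)

end Pool.Agent.ZPB
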