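import Mathlib
import Pool.Agent.ZPB.Defs
import Pool.Agent.ZPB.H0
import Pool.Agent.ZPB.K1
import Pool.Agent.ZPB.V2
import Pool.Agent.ZPB.B6
import Pool.Agent.ZPB.M1
import Pool.Agent.ZPB.M2
import Pool.Agent.ZPB.M3

set_option autoImplicit false

open Polynomial

namespace Pool.Agent.ZPB

theorem m6_map {E : Type} [Field E] {r : ℕ} (f : Fin r → E[X][X]) (μ : ℕ) (τ : E →+* E)
    (hf : ∀ k, (f k).map (mapRingHom τ) = f k) :
    (∑ k : Fin r, C (C ((μ : E) ^ (k : ℕ))) * f k).map (mapRingHom τ) =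
      ∑ k : Fin r, C (C ((μ : E) ^ (k : ℕ))) * f k := by
  rw [Polynomial.map_sum]
  refine Finset.sum_congr rfl fun k _ => ?_
  rw [Polynomial.map_mul, hf k, Polynomial.map_C, Polynomial.coe_mapRingHom, Polynomial.map_C,
    map_pow, map_natCast]

theorem m6_eval {E : Type} [Field E] {r : ℕ} (f : Fin r → E[X][X]) (μ : ℕ) (u v : E)
    (h : ∀ k, ((f k).map (evalRingHom u)).eval v = 0) :
    ((∑ k : Fin r, C (C ((μ : E) ^ (k : ℕ))) * f k).map (evalRingHom u)).eval v = 0 := by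
  rw [Polynomial.map_sum, Polynomial.eval_finsetSum]
  refine Finset.sum_eq_zero fun k _ => ?_
  rw [Polynomial.map_mul, Polynomial.eval_mul, h k, mul_zero]

theorem m6_na_sum {E : Type} [Field E] {v : AbsoluteValue E ℝ} (hv : IsNonarchimedean v)
    {ι : Type} (s : Finset ι) (x : ι → E) {B : ℝ} (hB : 0 ≤ B) (h : ∀ i ∈ s, v (x i) ≤ B) :
    v (∑ i ∈ s, x i) ≤ B := by
  classical
  induction s using Finset.induction_on with
  | empty => simpa using hB
  | insert a s ha ih =>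
    rw [Finset.sum_insert ha]
    exact (hv _ _).trans (max_le (h a (Finset.mem_insert_self a s))
      (ih fun i hi => h i (Finset.mem_insert_of_mem hi)))

theorem m6_coeff {E : Type} [Field E] {r : ℕ} (f : Fin r → E[X][X]) (c : Fin r → E) (i j : ℕ) :
    ((∑ k : Fin r, C (C (c k)) * f k).coeff i).coeff j =
      ∑ k : Fin r, c k * ((f k).coeff i).coeff j := by
  rw [Polynomial.finsetSum_coeff, Polynomial.finsetSum_coeff]
  refine Finset.sum_congr rfl fun k _ => ?_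
  rw [Polynomial.coeff_C_mul, Polynomial.coeff_C_mul]

theorem m6_deg {E : Type} [Field E] {r : ℕ} (f : Fin r → E[X][X]) (c : Fin r → E) {D : ℕ}
    (h : ∀ k, (f k).natDegree ≤ D) : (∑ k : Fin r, C (C (c k)) * f k).natDegree ≤ D := by
  refine Polynomial.natDegree_sum_le_of_forall_le _ _ fun k _ => ?_
  exact (Polynomial.natDegree_C_mul_le _ _).trans (h k)

theorem m6_deg' {E : Type} [Field E] {r : ℕ} (f : Fin r → E[X][X]) (c : Fin r → E) {D : ℕ} (i : ℕ)
    (h : ∀ k, ((f k).coeff i).natDegree ≤ D) :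
    ((∑ k : Fin r, C (C (c k)) * f k).coeff i).natDegree ≤ D := by
  rw [Polynomial.finsetSum_coeff]
  refine Polynomial.natDegree_sum_le_of_forall_le _ _ fun k _ => ?_
  rw [Polynomial.coeff_C_mul]
  exact (Polynomial.natDegree_C_mul_le _ _).trans (h k)

theorem m6_n2 {E : Type} [Field E] (φ : E →+* ℂ) {r : ℕ} (f : Fin r → E[X][X]) (μ : ℕ) {R : ℝ}
    (hR0 : 0 ≤ R) (h : ∀ k, n2 φ (f k) ≤ R) :
    n2 φ (∑ k : Fin r, C (C ((μ : E) ^ (k : ℕ))) * f k) ≤ r * ((μ : ℝ) + 1) ^ r * R := by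
  refine (n2_sum φ _ _).trans ?_
  calc ∑ k : Fin r, n2 φ (C (C ((μ : E) ^ (k : ℕ))) * f k)
      ≤ ∑ _k : Fin r, ((μ : ℝ) + 1) ^ r * R := by
        refine Finset.sum_le_sum fun k _ => ?_
        rw [n2_C_mul, map_pow, map_natCast, norm_pow, Complex.norm_natCast]
        have h1 : (μ : ℝ) ^ (k : ℕ) ≤ ((μ : ℝ) + 1) ^ (k : ℕ) :=
          pow_le_pow_left₀ (Nat.cast_nonneg μ) (by linarith) _
        have h2 : ((μ : ℝ) + 1) ^ (k : ℕ) ≤ ((μ : ℝ) + 1) ^ r :=
          pow_le_pow_right₀ (by have : (0 : ℝ) ≤ μ := Nat.cast_nonneg μ; linarith) k.2.le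
        calc (μ : ℝ) ^ (k : ℕ) * n2 φ (f k) ≤ (μ : ℝ) ^ (k : ℕ) * R :=
              mul_le_mul_of_nonneg_left (h k) (by positivity)
          _ ≤ ((μ : ℝ) + 1) ^ r * R := mul_le_mul_of_nonneg_right (h1.trans h2) hR0
    _ = r * ((μ : ℝ) + 1) ^ r * R := by
        rw [Finset.sum_const, Finset.card_univ, Fintype.card_fin, nsmul_eq_mul]
        ring

/-- Row M6. The Bezout estimate for the conjugates of an isolated point.

Proof. Let `f k = lp d s1 s2 e1 e2 ξ (Q k)`, `u = t ^ κ1`, `v = t`. By `lp_eval` and `hx0`, `f k` vanishes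
at `(u, v)`. If all `f k = 0`, `G = 0` contradicts `hno`; so `f k1 ≠ 0` for some `k1`. `exists_mu` with
`D = 2 * s2 * d` gives `μ ≤ r * (2 * s2 * d + 1)`; let `g = ∑ k, C (C (μ ^ k)) * f k`. It vanishes at
`(u, v)`. `g ≠ 0`: otherwise `f k1` divides both `f k1` and `g` and does vanish at `(u, v)`.
Let `S` be the image of `orb G' t` under `y ↦ (y ^ κ1, y)` (injective). For `y = σ t`, `σ ∈ G'`:
`(y ^ κ1, y) = (σ u, σ v)`, and `f k`, `g` are fixed by `σ` (`lp_map`, `hG'`; `σ` fixes natural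
numbers), so they vanish there (`eval_map_hom`). `hcom` of `bez`: if `G ∣ f k1`, `G ∣ g` and `G` vanishes at
`(σ u, σ v)` then `G.map (mapRingHom σ⁻¹)` divides `f k1` and `g` and vanishes at `(u, v)`,
contradicting the choice of `μ`.
Apply `bez` with `f k1` and `g`, `α i = log R`, `γ i = log (r * (μ + 1) ^ r * R)`, `α' j = γ' j =
- log (v j N)`: `lp_n2`, `hR` (`‖em i (ξ l)‖ = 1` as `ξ l` is a root of unity), `n2_sum`,
`n2_C_mul`, `μ ^ k ≤ (μ + 1) ^ r`; `lp_nonarch` with the bound `(v j N)⁻¹`: `v j (N * c) ≤ 1` as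
`N * c` is integral (`v_int_le`), `v j μ ≤ 1`. (`n2` is the sum in `bez`, by definition.)
`∑ j, wB j * (- log (v j N)) ≤ log N` (`h_nat`), `∑ wA = 1`. The degrees are
`≤ 2 * s2 * d` (`lp_natDegree`; for `g`: `natDegree_sum_le` and constants). The left side is
`∑ p ∈ S, P.h p.1 = (orb G' t).card * (κ1 * P.h t)` (`h_pow`, `hinv`). So
`S * (κ1 * h) ≤ 2 s2 d * ((log R + log N) + (log r + r log (μ + 1) + log R + log N))` and
`log r ≤ log (r + 1)`, `μ + 1 ≤ r * (2 * s2 * d + 1) + 1`. (`r ≥ 1`.)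
The second claim is `bez_card` with `d := 2 * s1 * d` (`lp_coeff_natDegree`). -/
theorem iso_E {E : Type} [Field E] [NumberField E] (P : PL E)
    (hinv : ∀ (g : E ≃ₐ[ℚ] E) (x : E), P.h (g x) = P.h x) {n r : ℕ}
    (Q : Fin r → MvPolynomial (Fin n) E) (R N : ℕ) (hR1 : 1 ≤ R) (hN : 0 < N)
    (hR : ∀ i k, ∑ m ∈ (Q k).support, ‖P.em i ((Q k).coeff m)‖ ≤ R)
    (hNQ : ∀ k m, IsIntegral ℤ ((N : E) * (Q k).coeff m))
    (hQO : ∀ k m, (Q k).coeff m ∈ P.O) (ξ : Fin n → E) {N1 : ℕ} (hN1 : 0 < N1)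
    (hξ : ∀ i, ξ i ^ N1 = 1) (hξO : ∀ i, ξ i ∈ P.O) (d s1 s2 : ℕ) (e1 e2 : Fin n → ℤ)
    (h1 : ∀ i, |e1 i| ≤ s1) (h2 : ∀ i, |e2 i| ≤ s2) (hd : ∀ k, (Q k).totalDegree ≤ d)
    {t : E} (ht : t ≠ 0) (κ1 : ℕ)
    (hx0 : ∀ k, MvPolynomial.eval (fun i => ξ i * (t ^ κ1) ^ e1 i * t ^ e2 i) (Q k) = 0)
    (hno : ∀ G : E[X][X], (∀ k, G ∣ lp d s1 s2 e1 e2 ξ (Q k)) →
      (G.map (evalRingHom (t ^ κ1))).eval t ≠ 0)
    (G' : Subgroup (E ≃ₐ[ℚ] E))
    (hG' : ∀ g ∈ G', (∀ k m, g ((Q k).coeff m) = (Q k).coeff m) ∧ ∀ i, g (ξ i) = ξ i) :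
    ((orb G' t).card : ℝ) * (κ1 * P.h t) ≤ 2 * s2 * d * (2 * (Real.log R + Real.log N) +
      Real.log (r + 1) + r * Real.log (r * (2 * s2 * d + 1) + 1)) ∧
    (orb G' t).card ≤ (4 * s2 * d) * (2 * s1 * d) := by
  classical
  obtain ⟨f, hfdef⟩ : ∃ f : Fin r → E[X][X], f = fun k => lp d s1 s2 e1 e2 ξ (Q k) := ⟨_, rfl⟩
  have hfk : ∀ k, f k = lp d s1 s2 e1 e2 ξ (Q k) := fun k => by rw [hfdef]
  obtain ⟨u, hu⟩ : ∃ u, u = t ^ κ1 := ⟨_, rfl⟩
  have hu0 : u ≠ 0 := by rw [hu]; exact pow_ne_zero _ ht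
  have hno' : ∀ G : E[X][X], (∀ k, G ∣ f k) → (G.map (evalRingHom u)).eval t ≠ 0 := by
    intro G hG
    rw [hu]
    exact hno G fun k => by rw [← hfk k]; exact hG k
  have hf0 : ∀ k, ((f k).map (evalRingHom u)).eval t = 0 := by
    intro k
    rw [hfk k, lp_eval h1 h2 (hd k) hu0 ht, hu, hx0 k, mul_zero]
  -- a nonzero member
  obtain ⟨k1, hk1⟩ : ∃ k1, f k1 ≠ 0 := by
    by_contra hcon
    push Not at hcon
    refine hno' 0 (fun k => by rw [hcon k]) ?_
    rw [Polynomial.map_zero, Polynomial.eval_zero]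
  have hr : 1 ≤ r := by
    have := k1.2
    omega
  have hdeg : ∀ k, (f k).natDegree ≤ 2 * s2 * d := fun k => by
    rw [hfk k]; exact lp_natDegree h2 (hd k)
  obtain ⟨μ, hμD, hμ⟩ := exists_mu f k1 hk1 (2 * s2 * d) (hdeg k1) u t hno'
  obtain ⟨g, hg⟩ : ∃ g : E[X][X], g = ∑ k : Fin r, C (C ((μ : E) ^ (k : ℕ))) * f k := ⟨_, rfl⟩
  rw [← hg] at hμ
  have hg0 : g ≠ 0 := by
    intro h0
    exact hμ (f k1) dvd_rfl (by rw [h0]; exact dvd_zero _) (hf0 k1)
  have hdegg : g.natDegree ≤ 2 * s2 * d := by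
    rw [hg]
    exact m6_deg f _ hdeg
  -- fixed by the group
  have hfix : ∀ σ ∈ G', ∀ k, (f k).map (mapRingHom (σ : E →+* E)) = f k := by
    intro σ hσ k
    rw [hfk k]
    exact lp_map (σ : E →+* E) (fun i => (hG' σ hσ).2 i) (fun m => (hG' σ hσ).1 k m)
  have hfixg : ∀ σ ∈ G', g.map (mapRingHom (σ : E →+* E)) = g := by
    intro σ hσ
    rw [hg]
    exact m6_map f μ _ (hfix σ hσ)
  obtain ⟨S, hSdef⟩ : ∃ S, S = (orb G' t).image (fun y => (y ^ κ1, y)) := ⟨_, rfl⟩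
  have hSmem : ∀ p ∈ S, ∃ σ ∈ G', p = (σ u, σ t) := by
    intro p hp
    rw [hSdef, Finset.mem_image] at hp
    obtain ⟨y, hy, rfl⟩ := hp
    obtain ⟨σ, hσ, rfl⟩ := mem_orb.1 hy
    exact ⟨σ, hσ, by rw [hu, map_pow]⟩
  have hfS : ∀ p ∈ S, ∀ k, ((f k).map (evalRingHom p.1)).eval p.2 = 0 := by
    intro p hp k
    obtain ⟨σ, hσ, rfl⟩ := hSmem p hp
    have e1 := eval_map_hom (σ : E →+* E) (f k) u t
    rw [hfix σ hσ k, hf0 k, map_zero] at e1
    exact e1
  have hS : ∀ p ∈ S, ((f k1).map (evalRingHom p.1)).eval p.2 = 0 ∧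
      (g.map (evalRingHom p.1)).eval p.2 = 0 := by
    intro p hp
    refine ⟨hfS p hp k1, ?_⟩
    rw [hg]
    exact m6_eval f μ p.1 p.2 (hfS p hp)
  have hcom : ∀ G : E[X][X], G ∣ f k1 → G ∣ g → ∀ p ∈ S,
      (G.map (evalRingHom p.1)).eval p.2 ≠ 0 := by
    intro G hG1 hG2 p hp h0
    obtain ⟨σ, hσ, rfl⟩ := hSmem p hp
    have hσ' : σ⁻¹ ∈ G' := G'.inv_mem hσ
    have d1 : G.map (mapRingHom ((σ⁻¹ : E ≃ₐ[ℚ] E) : E →+* E)) ∣ f k1 := by
      have := Polynomial.map_dvd (mapRingHom ((σ⁻¹ : E ≃ₐ[ℚ] E) : E →+* E)) hG1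
      rwa [hfix _ hσ' k1] at this
    have d2 : G.map (mapRingHom ((σ⁻¹ : E ≃ₐ[ℚ] E) : E →+* E)) ∣ g := by
      have := Polynomial.map_dvd (mapRingHom ((σ⁻¹ : E ≃ₐ[ℚ] E) : E →+* E)) hG2
      rwa [hfixg _ hσ'] at this
    refine hμ _ d1 d2 ?_
    have e1 := eval_map_hom ((σ⁻¹ : E ≃ₐ[ℚ] E) : E →+* E) G (σ u) (σ t)
    have e2 : ∀ x : E, ((σ⁻¹ : E ≃ₐ[ℚ] E) : E →+* E) (σ x) = x := by
      intro x
      change σ⁻¹ (σ x) = x
      calc σ⁻¹ (σ x) = (σ⁻¹ * σ) x := rfl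
        _ = x := by rw [inv_mul_cancel]; rfl
    rw [e2, e2] at e1
    rw [e1]
    change ((σ⁻¹ : E ≃ₐ[ℚ] E) : E →+* E) ((G.map (evalRingHom (σ u))).eval (σ t)) = 0
    rw [h0, map_zero]
  have hScard : S.card = (orb G' t).card := by
    rw [hSdef]
    exact Finset.card_image_of_injective _ fun a b hab => (Prod.ext_iff.1 hab).2
  constructor
  · -- the heights
    have hNE : (N : E) ≠ 0 := Nat.cast_ne_zero.2 hN.ne'
    have hvN0 : ∀ j, 0 < P.v j (N : E) := fun j => (P.v j).pos hNE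
    have hvN1 : ∀ j, P.v j (N : E) ≤ 1 := fun j => v_nat_le (P.na j) N
    have hexp : ∀ j, Real.exp (- Real.log (P.v j (N : E))) = (P.v j (N : E))⁻¹ := by
      intro j
      rw [Real.exp_neg, Real.exp_log (hvN0 j)]
    have hlogN : ∀ j, 0 ≤ - Real.log (P.v j (N : E)) := by
      intro j
      have := Real.log_nonpos (hvN0 j).le (hvN1 j)
      linarith
    have hR1' : (1 : ℝ) ≤ R := by exact_mod_cast hR1
    have hR0 : (0 : ℝ) < R := by linarith
    have hμ0 : (0 : ℝ) ≤ μ := Nat.cast_nonneg μ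
    have hr1 : (1 : ℝ) ≤ r := by exact_mod_cast hr
    have hξn : ∀ i l, ‖P.em i (ξ l)‖ = 1 := by
      intro i l
      have e1 : ‖P.em i (ξ l)‖ ^ N1 = 1 := by
        rw [← norm_pow, ← map_pow, hξ l, map_one, norm_one]
      exact (pow_eq_one_iff_of_nonneg (norm_nonneg _) hN1.ne').1 e1
    have hξv : ∀ j l, P.v j (ξ l) = 1 := by
      intro j l
      have e1 : P.v j (ξ l) ^ N1 = 1 := by
        rw [← map_pow, hξ l, map_one]
      exact (pow_eq_one_iff_of_nonneg ((P.v j).nonneg _) hN1.ne').1 e1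
    have hn2 : ∀ i k, n2 (P.em i) (f k) ≤ R := by
      intro i k
      rw [hfk k]
      exact (lp_n2 (P.em i) (hξn i)).trans (hR i k)
    have hvf : ∀ j k a b, P.v j (((f k).coeff a).coeff b) ≤ (P.v j (N : E))⁻¹ := by
      intro j k a b
      rw [hfk k]
      refine lp_nonarch (P.v j) (P.na j) (hξv j) (inv_nonneg.2 (hvN0 j).le) (fun m => ?_) a b
      have e1 := v_int_le (P.na j) (hNQ k m)
      rw [map_mul] at e1
      rw [← one_div, le_div_iff₀ (hvN0 j), mul_comm]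
      exact e1
    have hvμ : ∀ j (k : ℕ), P.v j ((μ : E) ^ k) ≤ 1 := by
      intro j k
      rw [map_pow]
      exact pow_le_one₀ ((P.v j).nonneg _) (v_nat_le (P.na j) μ)
    have hpos : (1 : ℝ) ≤ r * ((μ : ℝ) + 1) ^ r * R := by
      have e1 : (1 : ℝ) ≤ ((μ : ℝ) + 1) ^ r := one_le_pow₀ (by linarith)
      have e2 : (1 : ℝ) ≤ r * ((μ : ℝ) + 1) ^ r := by nlinarith
      nlinarith
    have main := bez P hk1 hg0
      (fun a b => by rw [hfk k1]; exact lp_mem P.O hξO (hQO k1) a b)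
      (fun a b => by
        rw [hg, m6_coeff]
        refine Subring.sum_mem _ fun k _ => Subring.mul_mem _ ?_ ?_
        · exact Subring.pow_mem _ (natCast_mem P.O μ) _
        · rw [hfk k]
          exact lp_mem P.O hξO (hQO k) a b)
      S hS hcom (fun _ => Real.log R) (fun _ => Real.log (r * ((μ : ℝ) + 1) ^ r * R))
      (fun j => - Real.log (P.v j (N : E))) (fun j => - Real.log (P.v j (N : E)))
      (fun _ => Real.log_nonneg hR1') (fun _ => Real.log_nonneg hpos) hlogN hlogN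
      (fun i => by
        change n2 (P.em i) (f k1) ≤ Real.exp (Real.log R)
        rw [Real.exp_log hR0]
        exact hn2 i k1)
      (fun i => by
        change n2 (P.em i) g ≤ Real.exp (Real.log (r * ((μ : ℝ) + 1) ^ r * R))
        rw [Real.exp_log (by linarith), hg]
        exact m6_n2 (P.em i) f μ hR0.le (hn2 i))
      (fun j a b => by
        rw [hexp j]
        exact hvf j k1 a b)
      (fun j a b => by
        rw [hexp j, hg, m6_coeff]
        refine m6_na_sum (P.na j) _ _ (inv_nonneg.2 (hvN0 j).le) fun k _ => ?_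
        rw [map_mul]
        calc P.v j ((μ : E) ^ (k : ℕ)) * P.v j (((f k).coeff a).coeff b)
            ≤ 1 * (P.v j (N : E))⁻¹ :=
              mul_le_mul (hvμ j k) (hvf j k a b) ((P.v j).nonneg _) zero_le_one
          _ = (P.v j (N : E))⁻¹ := one_mul _)
    have hleft : ∑ p ∈ S, P.h p.1 = ((orb G' t).card : ℝ) * (κ1 * P.h t) := by
      rw [hSdef, Finset.sum_image (fun a _ b _ hab => (Prod.ext_iff.1 hab).2)]
      rw [Finset.sum_congr rfl (g := fun _ => (κ1 : ℝ) * P.h t), Finset.sum_const, nsmul_eq_mul]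
      intro y hy
      obtain ⟨σ, hσ, rfl⟩ := mem_orb.1 hy
      change P.h ((σ t) ^ κ1) = _
      rw [h_pow, hinv]
    have hB : ∑ j, P.wB j * (- Real.log (P.v j (N : E))) ≤ Real.log N := by
      have e1 := h_nat P hN
      have e2 : ∑ j, P.wB j * (- Real.log (P.v j (N : E))) =
          - ∑ j, P.wB j * Real.log (P.v j (N : E)) := by
        rw [← Finset.sum_neg_distrib]
        exact Finset.sum_congr rfl fun j _ => by ring
      rw [e2]
      linarith
    have hB0 : 0 ≤ ∑ j, P.wB j * (- Real.log (P.v j (N : E))) :=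
      Finset.sum_nonneg fun j _ => mul_nonneg (P.wB0 j) (hlogN j)
    have hA : ∀ c : ℝ, ∑ i, P.wA i * c = c := by
      intro c
      rw [← Finset.sum_mul, P.wA1, one_mul]
    rw [hleft, hA, hA] at main
    refine main.trans ?_
    have hlR : 0 ≤ Real.log R := Real.log_nonneg hR1'
    have hlg : 0 ≤ Real.log (r * ((μ : ℝ) + 1) ^ r * R) := Real.log_nonneg hpos
    have hdg : (g.natDegree : ℝ) ≤ 2 * s2 * d := by exact_mod_cast hdegg
    have hdf : ((f k1).natDegree : ℝ) ≤ 2 * s2 * d := by exact_mod_cast hdeg k1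
    have hlogg : Real.log (r * ((μ : ℝ) + 1) ^ r * R) ≤
        Real.log (r + 1) + r * Real.log (r * (2 * s2 * d + 1) + 1) + Real.log R := by
      rw [Real.log_mul (by positivity) hR0.ne', Real.log_mul (by linarith) (by positivity),
        Real.log_pow]
      have e1 : Real.log r ≤ Real.log (r + 1) := Real.log_le_log (by linarith) (by linarith)
      have e2 : Real.log ((μ : ℝ) + 1) ≤ Real.log (r * (2 * s2 * d + 1) + 1) := by
        apply Real.log_le_log (by linarith)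
        have e3 : (μ : ℝ) ≤ r * (2 * s2 * d + 1) := by exact_mod_cast hμD
        linarith
      have e4 : (r : ℝ) * Real.log ((μ : ℝ) + 1) ≤ r * Real.log (r * (2 * s2 * d + 1) + 1) :=
        mul_le_mul_of_nonneg_left e2 (by linarith)
      linarith
    have hX0 : (0 : ℝ) ≤ 2 * s2 * d := by positivity
    calc (g.natDegree : ℝ) * (Real.log R + ∑ j, P.wB j * (- Real.log (P.v j (N : E)))) +
          ((f k1).natDegree : ℝ) * (Real.log (r * ((μ : ℝ) + 1) ^ r * R) +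
            ∑ j, P.wB j * (- Real.log (P.v j (N : E))))
        ≤ 2 * s2 * d * (Real.log R + ∑ j, P.wB j * (- Real.log (P.v j (N : E)))) +
          2 * s2 * d * (Real.log (r * ((μ : ℝ) + 1) ^ r * R) +
            ∑ j, P.wB j * (- Real.log (P.v j (N : E)))) :=
          add_le_add (mul_le_mul_of_nonneg_right hdg (add_nonneg hlR hB0))
            (mul_le_mul_of_nonneg_right hdf (add_nonneg hlg hB0))
      _ = 2 * s2 * d * ((Real.log R + ∑ j, P.wB j * (- Real.log (P.v j (N : E)))) +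
          (Real.log (r * ((μ : ℝ) + 1) ^ r * R) +
            ∑ j, P.wB j * (- Real.log (P.v j (N : E))))) := by ring
      _ ≤ 2 * s2 * d * (2 * (Real.log R + Real.log N) +
          Real.log (r + 1) + r * Real.log (r * (2 * s2 * d + 1) + 1)) := by
          apply mul_le_mul_of_nonneg_left _ hX0
          linarith
  · have hc := bez_card hk1 hg0 S hS hcom (2 * s1 * d)
      (fun k => by rw [hfk k1]; exact lp_coeff_natDegree h1 (hd k1) k)
      (fun k => by
        rw [hg]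
        exact m6_deg' f _ k fun l => by rw [hfk l]; exact lp_coeff_natDegree h1 (hd l) k)
    rw [hScard] at hc
    refine hc.trans (Nat.mul_le_mul_right _ ?_)
    have := hdeg k1
    have e1 : 4 * s2 * d = 2 * s2 * d + 2 * s2 * d := by ring
    omega

end Pool.Agent.ZPB
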