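import Mathlib
import Pool.Agent.ZPB.Defs

set_option autoImplicit false

namespace Pool.Agent.ZPB

open NumberField

/-- The product of the absolute values of the conjugates. -/
theorem n1_norm {E : Type} [Field E] [NumberField E] (x : E) :
    ∏ φ : E →+* ℂ, ‖φ x‖ = |((Algebra.norm ℚ x : ℚ) : ℝ)| := by
  have h := congrArg (fun z : ℂ => ‖z‖) (Algebra.norm_eq_prod_embeddings ℚ ℂ x)
  have h1 : ‖∏ σ : E →ₐ[ℚ] ℂ, σ x‖ = ∏ φ : E →+* ℂ, ‖φ x‖ := by
    rw [norm_prod]
    exact (Fintype.prod_equiv (RingHom.equivRatAlgHom E ℂ) (fun f => ‖f x‖)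
      (fun σ => ‖σ x‖) (fun _ => rfl)).symm
  rw [← h1]
  have h2 : ‖algebraMap ℚ ℂ (Algebra.norm ℚ x)‖ = |((Algebra.norm ℚ x : ℚ) : ℝ)| := by
    simp
  rw [← h2]
  exact h.symm

/-- Automorphisms permute the embeddings. -/
theorem n1_perm {E : Type} [Field E] [NumberField E] (g : E ≃ₐ[ℚ] E) (F : ℝ → ℝ) (x : E) :
    ∑ φ : E →+* ℂ, F ‖φ (g x)‖ = ∑ φ : E →+* ℂ, F ‖φ x‖ := by
  let e : (E →+* ℂ) ≃ (E →+* ℂ) :=
    { toFun := fun φ => φ.comp (g : E →+* E)
      invFun := fun φ => φ.comp (g.symm : E →+* E)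
      left_inv := by
        intro φ
        apply RingHom.ext
        intro y
        show φ (g (g.symm y)) = φ y
        rw [AlgEquiv.apply_symm_apply]
      right_inv := by
        intro φ
        apply RingHom.ext
        intro y
        show φ (g.symm (g y)) = φ y
        rw [AlgEquiv.symm_apply_apply] }
  exact Fintype.sum_equiv e _ _ (fun φ => rfl)

/-- The inequality of Liouville from the product formula. -/
theorem n1_pos {E : Type} [Field E] [NumberField E] (T : Finset (FinitePlace E)) (x : E)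
    (hx : x ≠ 0) (hT : ∀ w : FinitePlace E, w ∉ T → w x ≤ 1) :
    0 ≤ ∑ φ : E →+* ℂ, Real.log ‖φ x‖ + ∑ w ∈ T, Real.log (w x) := by
  classical
  have hfin : (Function.mulSupport fun w : FinitePlace E => w x).Finite :=
    FinitePlace.hasFiniteMulSupport hx
  let T' : Finset (FinitePlace E) := T ∪ hfin.toFinset
  have h1 : ∏ᶠ w : FinitePlace E, w x = ∏ w ∈ T', w x := by
    apply finprod_eq_prod_of_mulSupport_subset
    intro w hw
    rw [Finset.coe_union, Set.Finite.coe_toFinset]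
    exact Or.inr hw
  have hN : (0 : ℝ) < |((Algebra.norm ℚ x : ℚ) : ℝ)| := by
    rw [abs_pos]
    have : (Algebra.norm ℚ x) ≠ 0 := by
      rw [Algebra.norm_ne_zero_iff]
      exact hx
    exact_mod_cast this
  have h2 : ∏ w ∈ T', w x = (|((Algebra.norm ℚ x : ℚ) : ℝ)|)⁻¹ := by
    rw [← h1, FinitePlace.prod_eq_inv_abs_norm hx]
    push_cast
    rfl
  have hpos : ∀ w : FinitePlace E, 0 < w x := fun w => FinitePlace.pos_iff.2 hx
  have h3 : ∑ w ∈ T', Real.log (w x) = - Real.log |((Algebra.norm ℚ x : ℚ) : ℝ)| := by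
    rw [← Real.log_prod (fun w _ => (hpos w).ne'), h2, Real.log_inv]
  have h4 : ∑ φ : E →+* ℂ, Real.log ‖φ x‖ = Real.log |((Algebra.norm ℚ x : ℚ) : ℝ)| := by
    rw [← n1_norm, Real.log_prod]
    intro φ _
    rw [norm_ne_zero_iff]
    exact (map_ne_zero φ).2 hx
  have h5 : ∑ w ∈ T', Real.log (w x) ≤ ∑ w ∈ T, Real.log (w x) := by
    have h6 : ∑ w ∈ T' \ T, Real.log (w x) + ∑ w ∈ T, Real.log (w x) =
        ∑ w ∈ T', Real.log (w x) :=
      Finset.sum_sdiff Finset.subset_union_left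
    have h7 : ∑ w ∈ T' \ T, Real.log (w x) ≤ 0 := by
      apply Finset.sum_nonpos
      intro w hw
      exact Real.log_nonpos (hpos w).le (hT w (Finset.mem_sdiff.1 hw).2)
    linarith
  linarith

/-- A number with all absolute values at most one at the finite places is integral. -/
theorem n1_int {E : Type} [Field E] [NumberField E] (x : E)
    (h : ∀ w : FinitePlace E, w x ≤ 1) : IsIntegral ℤ x := by
  have h1 : x ∈ (algebraMap (𝓞 E) E).range := by
    apply IsDedekindDomain.HeightOneSpectrum.mem_integers_of_valuation_le_one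
    intro v
    have h2 := h (FinitePlace.mk v)
    rw [FinitePlace.mk_apply, FinitePlace.norm_embedding'] at h2
    have h3 : (WithZeroMulInt.toNNReal (NumberField.HeightOneSpectrum.absNorm_ne_zero v)
        (v.valuation E x)) ≤ 1 := by exact_mod_cast h2
    rwa [WithZeroMulInt.toNNReal_le_one_iff (NumberField.HeightOneSpectrum.one_lt_absNorm_nnreal v)] at h3
  obtain ⟨y, rfl⟩ := h1
  exact RingOfIntegers.isIntegral_coe y

/-- Integral numbers have absolute value at most one at the finite places. -/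
theorem n1_le {E : Type} [Field E] [NumberField E] (x : E) (hx : IsIntegral ℤ x)
    (w : FinitePlace E) : w x ≤ 1 := by
  obtain ⟨v, rfl⟩ : ∃ v, FinitePlace.mk v = w := ⟨w.maximalIdeal, FinitePlace.mk_maximalIdeal w⟩
  rw [FinitePlace.mk_apply]
  exact FinitePlace.norm_le_one E v (⟨x, hx⟩ : 𝓞 E)

/-- The subring of the elements integral outside `T`. -/
noncomputable def n1_O {E : Type} [Field E] [NumberField E] (T : Finset (FinitePlace E)) :
    Subring E where
  carrier := {x | ∀ g : E ≃ₐ[ℚ] E, ∀ w : FinitePlace E, w ∉ T → w (g x) ≤ 1}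
  mul_mem' := by
    intro a b ha hb g w hw
    rw [map_mul, map_mul]
    exact mul_le_one₀ (ha g w hw) (apply_nonneg w _) (hb g w hw)
  one_mem' := by
    intro g w hw
    rw [map_one, map_one]
  add_mem' := by
    intro a b ha hb g w hw
    rw [map_add]
    exact (FinitePlace.add_le w _ _).trans (max_le (ha g w hw) (hb g w hw))
  zero_mem' := by
    intro g w hw
    rw [map_zero, map_zero]
    exact zero_le_one
  neg_mem' := by
    intro a ha g w hw
    rw [map_neg, map_neg_eq_map]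
    exact ha g w hw

theorem n1_exists {E : Type} [Field E] [NumberField E] (T : Finset (FinitePlace E)) :
    ∃ P : PL E, P.O = n1_O T ∧ (∀ (g : E ≃ₐ[ℚ] E) (x : E), P.h (g x) = P.h x) ∧
      ∀ x, P.h x = 0 → (∀ φ : E →+* ℂ, ‖φ x‖ ≤ 1) ∧ ∀ w ∈ T, w x ≤ 1 := by
  classical
  have hfinG : Fintype (E ≃ₐ[ℚ] E) := Fintype.ofFinite _
  have hd : (0 : ℝ) < Fintype.card (E →+* ℂ) := by
    have : 0 < Fintype.card (E →+* ℂ) := by
      rw [NumberField.Embeddings.card]
      exact Module.finrank_pos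
    exact_mod_cast this
  have hG : (0 : ℝ) < Fintype.card (E ≃ₐ[ℚ] E) := by
    have : 0 < Fintype.card (E ≃ₐ[ℚ] E) := Fintype.card_pos
    exact_mod_cast this
  set d : ℝ := (Fintype.card (E →+* ℂ) : ℝ) with hdd
  set c : ℝ := (Fintype.card (E ≃ₐ[ℚ] E) : ℝ) with hcc
  let P : PL E :=
    { A := E →+* ℂ
      B := {w // w ∈ T} × (E ≃ₐ[ℚ] E)
      fA := inferInstance
      fB := inferInstance
      em := fun φ => φ
      wA := fun _ => 1 / d
      wA0 := fun _ => by positivity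
      wA1 := by
        rw [Finset.sum_const, Finset.card_univ, nsmul_eq_mul, ← hdd]
        field_simp
      v := fun j => j.1.1.1.comp (f := (j.2 : E →+* E)) j.2.injective
      na := by
        intro j x y
        have h1 := FinitePlace.add_le j.1.1 (j.2 x) (j.2 y)
        rw [← map_add] at h1
        exact h1
      wB := fun _ => 1 / (d * c)
      wB0 := fun _ => by positivity
      O := n1_O T
      pos := by
        intro x hx hx0
        have h1 : ∀ g : E ≃ₐ[ℚ] E, 0 ≤ ∑ φ : E →+* ℂ, Real.log ‖φ x‖ +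
            ∑ w : {w // w ∈ T}, Real.log (w.1 (g x)) := by
          intro g
          have h2 := n1_pos T (g x) ((map_ne_zero g).2 hx0) (fun w hw => hx g w hw)
          rw [n1_perm g Real.log x] at h2
          rw [Finset.sum_coe_sort T (fun w => Real.log (w (g x)))]
          exact h2
        have h3 : 0 ≤ ∑ g : E ≃ₐ[ℚ] E, (∑ φ : E →+* ℂ, Real.log ‖φ x‖ +
            ∑ w : {w // w ∈ T}, Real.log (w.1 (g x))) := Finset.sum_nonneg fun g _ => h1 g
        rw [Finset.sum_add_distrib, Finset.sum_const, Finset.card_univ, nsmul_eq_mul, ← hcc] at h3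
        have h4 : ∑ j : {w // w ∈ T} × (E ≃ₐ[ℚ] E), 1 / (d * c) * Real.log (j.1.1 (j.2 x)) =
            1 / (d * c) * ∑ g : E ≃ₐ[ℚ] E, ∑ w : {w // w ∈ T}, Real.log (w.1 (g x)) := by
          rw [← Finset.mul_sum, Fintype.sum_prod_type, Finset.sum_comm]
        have h5 : ∑ φ : E →+* ℂ, 1 / d * Real.log ‖φ x‖ =
            1 / (d * c) * (c * ∑ φ : E →+* ℂ, Real.log ‖φ x‖) := by
          rw [← Finset.mul_sum]
          field_simp
        show 0 ≤ ∑ φ : E →+* ℂ, 1 / d * Real.log ‖φ x‖ +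
          ∑ j : {w // w ∈ T} × (E ≃ₐ[ℚ] E), 1 / (d * c) * Real.log (j.1.1 (j.2 x))
        rw [h4, h5, ← mul_add]
        exact mul_nonneg (by positivity) h3 }
  have hh : ∀ x, P.h x = ∑ φ : E →+* ℂ, 1 / d * Real.posLog ‖φ x‖ +
      ∑ j : {w // w ∈ T} × (E ≃ₐ[ℚ] E), 1 / (d * c) * Real.posLog (j.1.1 (j.2 x)) :=
    fun x => rfl
  refine ⟨P, rfl, ?_, ?_⟩
  · intro g x
    rw [hh, hh]
    congr 1
    · rw [← Finset.mul_sum, ← Finset.mul_sum, n1_perm g Real.posLog x]
    · apply Fintype.sum_equiv (Equiv.prodCongr (Equiv.refl {w // w ∈ T}) (Equiv.mulRight g))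
      rintro ⟨w, g'⟩
      rfl
  · intro x hx
    rw [hh] at hx
    have hA : ∀ φ : E →+* ℂ, 0 ≤ 1 / d * Real.posLog ‖φ x‖ :=
      fun φ => mul_nonneg (by positivity) Real.posLog_nonneg
    have hB : ∀ j : {w // w ∈ T} × (E ≃ₐ[ℚ] E), 0 ≤ 1 / (d * c) * Real.posLog (j.1.1 (j.2 x)) :=
      fun j => mul_nonneg (by positivity) Real.posLog_nonneg
    have hA1 := Finset.sum_nonneg (s := Finset.univ) fun φ _ => hA φ
    have hB1 := Finset.sum_nonneg (s := Finset.univ) fun j _ => hB j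
    have hA2 : ∑ φ : E →+* ℂ, 1 / d * Real.posLog ‖φ x‖ = 0 := by linarith
    have hB2 : ∑ j : {w // w ∈ T} × (E ≃ₐ[ℚ] E), 1 / (d * c) *
        Real.posLog (j.1.1 (j.2 x)) = 0 := by linarith
    rw [Finset.sum_eq_zero_iff_of_nonneg (fun φ _ => hA φ)] at hA2
    rw [Finset.sum_eq_zero_iff_of_nonneg (fun j _ => hB j)] at hB2
    refine ⟨fun φ => ?_, fun w hw => ?_⟩
    · have h1 := hA2 φ (Finset.mem_univ _)
      rcases mul_eq_zero.1 h1 with h2 | h2
      · exact absurd h2 (by positivity)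
      · rw [Real.posLog_eq_zero_iff, abs_norm] at h2
        exact h2
    · have h1 := hB2 (⟨w, hw⟩, 1) (Finset.mem_univ _)
      rcases mul_eq_zero.1 h1 with h2 | h2
      · exact absurd h2 (by positivity)
      · rw [Real.posLog_eq_zero_iff] at h2
        exact (le_abs_self _).trans h2

/-- Row N1. Systems of absolute values of a number field. -/
theorem exists_PL (E : Type) [Field E] [NumberField E] (S : Finset E) :
    ∃ P : PL E, (∀ x ∈ S, ∀ g : E ≃ₐ[ℚ] E, g x ∈ P.O ∧ (g x)⁻¹ ∈ P.O) ∧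
      (∀ (g : E ≃ₐ[ℚ] E) (x : E), P.h (g x) = P.h x) ∧
      (∀ x ∈ P.O, x ≠ 0 → P.h x = 0 → ∃ n : ℕ, 0 < n ∧ x ^ n = 1) ∧
      ∀ x : E, IsIntegral ℤ x → x ∈ P.O := by
  classical
  have hfin : {w : FinitePlace E | ∃ x ∈ S, ∃ g : E ≃ₐ[ℚ] E, x ≠ 0 ∧ w (g x) ≠ 1}.Finite := by
    have h1 : {w : FinitePlace E | ∃ x ∈ S, ∃ g : E ≃ₐ[ℚ] E, x ≠ 0 ∧ w (g x) ≠ 1} ⊆
        ⋃ x ∈ (S : Set E), ⋃ g : E ≃ₐ[ℚ] E, {w : FinitePlace E | x ≠ 0 ∧ w (g x) ≠ 1} := by
      rintro w ⟨x, hx, g, h⟩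
      exact Set.mem_biUnion hx (Set.mem_iUnion.2 ⟨g, h⟩)
    refine Set.Finite.subset ?_ h1
    refine Set.Finite.biUnion S.finite_toSet fun x _ => Set.finite_iUnion fun g => ?_
    by_cases hx : x = 0
    · refine Set.Finite.subset Set.finite_empty ?_
      rintro w ⟨h, -⟩
      exact absurd hx h
    · have h2 : (Function.mulSupport fun w : FinitePlace E => w (g x)).Finite :=
        FinitePlace.hasFiniteMulSupport ((map_ne_zero g).2 hx)
      refine h2.subset ?_
      rintro w ⟨-, h⟩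
      exact h
  obtain ⟨P, hO, hinv, hzero⟩ := n1_exists hfin.toFinset
  have hmem : ∀ x, x ∈ P.O ↔ ∀ g : E ≃ₐ[ℚ] E, ∀ w : FinitePlace E, w ∉ hfin.toFinset →
      w (g x) ≤ 1 := by
    intro x
    rw [hO]
    exact Iff.rfl
  refine ⟨P, ?_, hinv, ?_, ?_⟩
  · intro x hx g
    by_cases hx0 : x = 0
    · rw [hx0, map_zero, inv_zero]
      exact ⟨P.O.zero_mem, P.O.zero_mem⟩
    · have key : ∀ g' : E ≃ₐ[ℚ] E, ∀ w : FinitePlace E, w ∉ hfin.toFinset →
          w (g' (g x)) = 1 := by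
        intro g' w hw
        by_contra h
        apply hw
        rw [Set.Finite.mem_toFinset]
        exact ⟨x, hx, g' * g, hx0, h⟩
      constructor
      · rw [hmem]
        intro g' w hw
        exact (key g' w hw).le
      · rw [hmem]
        intro g' w hw
        rw [map_inv₀, map_inv₀, key g' w hw, inv_one]
  · intro x hx hx0 hh
    obtain ⟨h1, h2⟩ := hzero x hh
    have h3 : IsIntegral ℤ x := by
      apply n1_int
      intro w
      by_cases hw : w ∈ hfin.toFinset
      · exact h2 w hw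
      · exact (hmem x).1 hx 1 w hw
    obtain ⟨n, hn, h4⟩ := NumberField.Embeddings.pow_eq_one_of_norm_le_one E ℂ hx0 h3 h1
    exact ⟨n, hn, h4⟩
  · intro x hx
    rw [hmem]
    intro g w _
    exact n1_le (g x) (hx.map (g : E →ₐ[ℚ] E).toRingHom.toIntAlgHom) w

end Pool.Agent.ZPB
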