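import Mathlib

set_option autoImplicit false

namespace Pool.Agent.ZPB

/-- Row V1. A finite normal extension of `ℚ` inside an algebraically closed field.

Proof. Take `E = ⨆ c ∈ S, (the subfield generated by the roots of `minpoly ℚ c` in F)`, or: the adjoin of
the finite set of all roots in `F` of the polynomial `∏ c ∈ S, minpoly ℚ c`, which splits in `F`
(`IsAlgClosed`); it is a splitting field, so normal (`Normal.of_isSplittingField`,
`IntermediateField.adjoin_rootSet_isSplittingField`), and finite dimensional. -/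
theorem exists_field {F : Type} [Field F] [IsAlgClosed F] [CharZero F] (S : Finset F)
    (hS : ∀ c ∈ S, IsAlgebraic ℚ c) :
    ∃ E : IntermediateField ℚ F, FiniteDimensional ℚ E ∧ Normal ℚ E ∧ ∀ c ∈ S, c ∈ E := by
  let P : Polynomial ℚ := ∏ c ∈ S, minpoly ℚ c
  have hP : P ≠ 0 := Finset.prod_ne_zero_iff.2 fun c hc => minpoly.ne_zero (hS c hc).isIntegral
  have hs : P.IsSplittingField ℚ (IntermediateField.adjoin ℚ (P.rootSet F)) :=
    IntermediateField.adjoin_rootSet_isSplittingField (IsAlgClosed.splits _)
  refine ⟨IntermediateField.adjoin ℚ (P.rootSet F),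
    Polynomial.IsSplittingField.finiteDimensional _ P, Normal.of_isSplittingField P, fun c hc => ?_⟩
  apply IntermediateField.subset_adjoin
  rw [Polynomial.mem_rootSet]
  refine ⟨hP, ?_⟩
  change Polynomial.aeval c (∏ c ∈ S, minpoly ℚ c) = 0
  rw [map_prod]
  exact Finset.prod_eq_zero hc (minpoly.aeval ℚ c)

theorem v1_key {F : Type} [Field F] [CharZero F] {c : F} (hc : IsAlgebraic ℚ c) :
    ∃ R N : ℕ, 0 < N ∧ ∀ (E : IntermediateField ℚ F) (c' : E), (c' : F) = c →
      (∀ φ : E →+* ℂ, ‖φ c'‖ ≤ R) ∧ IsIntegral ℤ ((N : E) * c') := by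
  classical
  let p := minpoly ℚ c
  have hp : p ≠ 0 := minpoly.ne_zero hc.isIntegral
  obtain ⟨R, hR⟩ := exists_nat_ge (∑ z ∈ (p.aroots ℂ).toFinset, ‖z‖)
  have hc' : IsAlgebraic ℤ c := (IsFractionRing.isAlgebraic_iff ℤ ℚ F).2 hc
  obtain ⟨y, hy, hyc⟩ := hc'.exists_integral_multiple
  refine ⟨R, y.natAbs, Int.natAbs_pos.2 hy, fun E c' h => ⟨fun φ => ?_, ?_⟩⟩
  · have h1 : Polynomial.aeval c' p = 0 := by
      apply (algebraMap E F).injective
      rw [map_zero, ← Polynomial.aeval_algebraMap_apply]
      change Polynomial.aeval (c' : F) p = 0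
      rw [h]
      exact minpoly.aeval ℚ c
    have h2 : Polynomial.aeval (φ c') p = 0 := by
      have h3 := Polynomial.aeval_algHom_apply φ.toRatAlgHom c' p
      rw [h1, map_zero] at h3
      exact h3
    have h3 : φ c' ∈ (p.aroots ℂ).toFinset := by
      rw [Multiset.mem_toFinset, Polynomial.mem_aroots]
      exact ⟨hp, h2⟩
    exact (Finset.single_le_sum (f := fun z : ℂ => ‖z‖) (fun z _ => norm_nonneg z) h3).trans hR
  · have h1 : IsIntegral ℤ ((y.natAbs : F) * c) := by
      rcases Int.natAbs_eq y with h2 | h2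
      · have h3 : (y.natAbs : F) * c = y • c := by
          rw [zsmul_eq_mul]
          congr 1
          conv_rhs => rw [h2]
          rw [Int.cast_natCast]
        rw [h3]
        exact hyc
      · have h3 : (y.natAbs : F) * c = -(y • c) := by
          rw [zsmul_eq_mul, ← neg_mul]
          congr 1
          conv_rhs => rw [h2]
          rw [Int.cast_neg, Int.cast_natCast, neg_neg]
        rw [h3]
        exact hyc.neg
    have h2 : algebraMap E F ((y.natAbs : E) * c') = (y.natAbs : F) * c := by
      rw [map_mul, map_natCast, ← h]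
      rfl
    exact (isIntegral_algebraMap_iff (algebraMap E F).injective).1 (by rw [h2]; exact h1)

/-- Row V1. Bounds for the conjugates and denominators, independent of the number field.

Proof. For `c ∈ S`: `φ c` is a root of the fixed nonzero polynomial `minpoly ℚ (c : F)` mapped to `ℂ`
(`φ` is a `ℚ`-algebra homomorphism; `minpoly ℚ (c : E) = minpoly ℚ (c : F)`), which has finitely many
roots, so `‖φ c‖ ≤ R c`. There is a positive integer `N c` with `N c * c` integral over `ℤ` in `F`
(`exists_integral_multiple` or `IsIntegral` via `isAlgebraic_iff`), and integrality descends to the subfield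
`E` (`isIntegral_algebraMap_iff`). Take the maximum resp. the product over `S`. -/
theorem exists_const {F : Type} [Field F] [CharZero F] (S : Finset F)
    (hS : ∀ c ∈ S, IsAlgebraic ℚ c) :
    ∃ R N : ℕ, 1 ≤ R ∧ 0 < N ∧ ∀ (E : IntermediateField ℚ F) (c : E), (c : F) ∈ S →
      (∀ φ : E →+* ℂ, ‖φ c‖ ≤ R) ∧ IsIntegral ℤ ((N : E) * c) := by
  classical
  induction S using Finset.induction_on with
  | empty => exact ⟨1, 1, le_rfl, one_pos, fun E c hc => absurd hc (Finset.notMem_empty _)⟩
  | insert a S ha ih =>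
    obtain ⟨R, N, hR, hN, h⟩ := ih fun c hc => hS c (Finset.mem_insert_of_mem hc)
    obtain ⟨R', N', hN', h'⟩ := v1_key (hS a (Finset.mem_insert_self a S))
    refine ⟨R + R', N * N', by omega, Nat.mul_pos hN hN', fun E c hc => ?_⟩
    have hR0 : (0 : ℝ) ≤ R := Nat.cast_nonneg _
    have hR0' : (0 : ℝ) ≤ R' := Nat.cast_nonneg _
    rcases Finset.mem_insert.1 hc with h1 | h1
    · obtain ⟨h2, h3⟩ := h' E c h1
      refine ⟨fun φ => ?_, ?_⟩
      · rw [Nat.cast_add]
        have := h2 φ
        linarith
      · have h4 : ((N * N' : ℕ) : E) * c = (N : E) * ((N' : E) * c) := by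
          rw [Nat.cast_mul, mul_assoc]
        rw [h4]
        exact (isIntegral_natCast _).mul h3
    · obtain ⟨h2, h3⟩ := h E c h1
      refine ⟨fun φ => ?_, ?_⟩
      · rw [Nat.cast_add]
        have := h2 φ
        linarith
      · have h4 : ((N * N' : ℕ) : E) * c = (N' : E) * ((N : E) * c) := by
          rw [Nat.cast_mul]
          ring
        rw [h4]
        exact (isIntegral_natCast _).mul h3

end Pool.Agent.ZPB
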