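import Mathlib
import Pool.Agent.ZPA.Defs
import Pool.Agent.ZPB.Defs
import Pool.Agent.ZPB.H0
import Pool.Agent.ZPB.K1
import Pool.Agent.ZPB.V1
import Pool.Agent.ZPB.V2
import Pool.Agent.ZPB.N1
import Pool.Agent.ZPB.D1
import Pool.Agent.ZPB.M4
import Pool.Agent.ZPB.M5
import Pool.Agent.ZPB.M6

set_option autoImplicit false

open Polynomial

namespace Pool.Agent.ZPB

open Pool.Agent.MP_dd1803_nt

theorem m7_poly {F : Type} [Field F] [CharZero F] (E : IntermediateField ℚ F) {n : ℕ}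
    (Q : MvPolynomial (Fin n) F) (h : ∀ m ∈ Q.support, Q.coeff m ∈ E) :
    ∃ Q' : MvPolynomial (Fin n) E, MvPolynomial.map (algebraMap E F) Q' = Q := by
  classical
  refine ⟨∑ m ∈ Q.support, MvPolynomial.monomial m
    (if hm : m ∈ Q.support then (⟨Q.coeff m, h m hm⟩ : E) else 0), ?_⟩
  rw [map_sum]
  conv_rhs => rw [← MvPolynomial.support_sum_monomial_coeff Q]
  refine Finset.sum_congr rfl fun m hm => ?_
  rw [MvPolynomial.map_monomial, dif_pos hm]
  rfl

theorem m7_zeta (F : Type) [Field F] [IsAlgClosed F] [CharZero F] {N : ℕ} (hN : 0 < N) :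
    ∃ ζ : F, IsPrimitiveRoot ζ N := by
  have h1 : NeZero (N : F) := ⟨Nat.cast_ne_zero.2 hN.ne'⟩
  exact HasEnoughRootsOfUnity.exists_primitiveRoot F N

theorem m7_s2 {n A s1 s2 : ℕ} (hn : 2 ≤ n) (hA : 1 ≤ A) (hs1 : 1 ≤ s1)
    (hpow : (s1 * s2) ^ (2 * n - 1) ≤ 16 ^ (2 * n - 1) * A ^ (2 * n - 2)) : s2 ≤ 16 * A := by
  have h1 : s2 ^ (2 * n - 1) ≤ (16 * A) ^ (2 * n - 1) := by
    calc s2 ^ (2 * n - 1) ≤ (s1 * s2) ^ (2 * n - 1) :=
          Nat.pow_le_pow_left (Nat.le_mul_of_pos_left s2 hs1) _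
      _ ≤ 16 ^ (2 * n - 1) * A ^ (2 * n - 2) := hpow
      _ ≤ 16 ^ (2 * n - 1) * A ^ (2 * n - 1) :=
          Nat.mul_le_mul_left _ (Nat.pow_le_pow_right hA (by omega))
      _ = (16 * A) ^ (2 * n - 1) := (mul_pow _ _ _).symm
  exact (Nat.pow_le_pow_iff_left (by omega)).1 h1

theorem m7_const {r d s2 A : ℕ} {a : ℝ} (ha : 0 ≤ a) (hA : 1 ≤ A) (hs : s2 ≤ 16 * A) :
    2 * (s2 : ℝ) * d * (a + r * Real.log (r * (2 * s2 * d + 1) + 1)) ≤
      (2 * d * (a + r * Real.log (r * (32 * d + 1) + 1) + r)) * s2 * (1 + Real.log A) := by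
  have hA1 : (1 : ℝ) ≤ A := by exact_mod_cast hA
  have hsR : (s2 : ℝ) ≤ 16 * A := by exact_mod_cast hs
  have hr : (0 : ℝ) ≤ r := Nat.cast_nonneg r
  have hd : (0 : ℝ) ≤ d := Nat.cast_nonneg d
  have hs0 : (0 : ℝ) ≤ s2 := Nat.cast_nonneg s2
  have hlogA : 0 ≤ Real.log A := Real.log_nonneg hA1
  have hX : (0 : ℝ) < r * (32 * d + 1) + 1 := by positivity
  have h1 : (r : ℝ) * (2 * s2 * d + 1) + 1 ≤ (r * (32 * d + 1) + 1) * A := by
    have h2 : 2 * (s2 : ℝ) * d ≤ 32 * A * d := by nlinarith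
    have h3 : (r : ℝ) * (2 * s2 * d + 1) ≤ r * (32 * A * d + A) :=
      mul_le_mul_of_nonneg_left (by linarith) hr
    nlinarith
  have h4 : Real.log (r * (2 * s2 * d + 1) + 1) ≤ Real.log (r * (32 * d + 1) + 1) + Real.log A := by
    rw [← Real.log_mul hX.ne' (by linarith : (A : ℝ) ≠ 0)]
    exact Real.log_le_log (by positivity) h1
  set b : ℝ := Real.log (r * (32 * d + 1) + 1) with hb
  have hb0 : 0 ≤ b := Real.log_nonneg (by nlinarith [mul_nonneg hr hd])
  have h5 : a + r * Real.log (r * (2 * s2 * d + 1) + 1) ≤ (a + r * b + r) * (1 + Real.log A) := by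
    have h6 : (r : ℝ) * Real.log (r * (2 * s2 * d + 1) + 1) ≤ r * (b + Real.log A) :=
      mul_le_mul_of_nonneg_left h4 hr
    nlinarith [mul_nonneg ha hlogA, mul_nonneg (mul_nonneg hr hb0) hlogA, mul_nonneg hr hlogA]
  calc 2 * (s2 : ℝ) * d * (a + r * Real.log (r * (2 * s2 * d + 1) + 1))
      ≤ 2 * (s2 : ℝ) * d * ((a + r * b + r) * (1 + Real.log A)) :=
        mul_le_mul_of_nonneg_left h5 (by positivity)
    _ = _ := by ring

/-- Row M7. Isolated points of rank one have bounded exponents.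

Proof. Constants. `Cs` = the finite set of all coefficients `(Q k).coeff m`, `m ∈ (Q k).support`; `R0, N`
from `exists_const`; `w` = the largest number of elements of a support, `R = (w + 1) * R0`; `d` = the
largest total degree; `B = ∏ c ∈ Cs, (minpoly ℚ c).natDegree`; `k = 4 * (2 * n - 1)` and `c, X` from `dob`;
`C2 = 8 * d ^ 2`; `C1` such that for all `A ≥ 1`, `s2 ≤ 16 * A`:
`2 * s2 * d * (2 (log R + log N) + log (r + 1) + r * log (r * (2 * s2 * d + 1) + 1)) ≤
C1 * s2 * (1 + log A)`: `r * (2 * s2 * d + 1) + 1 ≤ (r * (32 * d + 1) + 1) * A`. `A0` from `num_final`.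
Let the data be given. `m_t = (minpoly ℚ t).natDegree`,
`N0 = N1 * ∏ D ∈ range (m_t + 1), (X D)!` with `N1` from `hξ`; choose a primitive `N0`-th root of unity
`ζ ∈ F` (algebraically closed of characteristic zero), the `ξ i` are powers of `ζ`.
`exists_field` for `Cs ∪ {t, ζ}` gives `E`, finite and normal over `ℚ`, so a number field
(`NumberField E`, `IsGalois ℚ E`). Let `t', ζ', ξ', Q'` be the elements of `E` (polynomials over `E`: all
coefficients are in `E`: `MvPolynomial.mem_range_map_iff_coeffs_subset` or similar) with images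
`t, ζ, ξ, Q k` in `F`. `P` from `exists_PL E` for the finite set of `t', ζ'`, the coefficients, and all
primes `≤ max X D` (`D ≤ m_t`).
`D1 = (orb (fx (ζ' ^ (N0 / N1))) t').card ≤ m_t` (`orb_card_le`,
`minpoly ℚ t' = minpoly ℚ t`); all primes `p ≤ X D1` divide `N0` (`Nat.Prime.dvd_factorial`). `P.h t' > 0` by the
third property of `exists_PL` as `t` is not a root of unity. So `dob` gives
`c ≤ h ^ k * D1 ^ (k + 2)`.
`G' = fx (ζ' ^ (N0 / N1)) ⊓ fxs Cs'` fixes the coefficients and the `ξ' i` (`ξ i ^ N1 = 1`, so `ξ i`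
is a power of the primitive `N1`-th root `ζ ^ (N0 / N1)`). `S = (orb G' t').card ≥ 1`,
`D1 ≤ B * S` (`orb_index`). `iso_E`: `hno` is `no_common` (the hypothesis `hiso` there for the images of the
polynomials), `hx0`: `x0 i = ξ i * t ^ (e2 i + κ1 * e1 i)` and `Q k` vanishes at `x0`
(injectivity of `E → F`). Now `num_final`: `s2 ≤ 16 * A` follows from `hpow` and `1 ≤ s1`. -/
theorem iso_bound {F : Type} [Field F] [IsAlgClosed F] [CharZero F] {n r : ℕ} (hn : 2 ≤ n)
    (Q : Fin r → MvPolynomial (Fin n) F) (hQ : ∀ k m, IsAlgebraic ℚ ((Q k).coeff m)) :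
    ∃ A0 : ℕ, ∀ (A κ1 s1 s2 : ℕ) (a e1 e2 : Fin n → ℤ) (ξ : Fin n → Fˣ) (t : Fˣ)
      (x0 : Fin n → Fˣ), 1 ≤ A → 1 ≤ s1 →
      (s1 * s2) ^ (2 * n - 1) ≤ 16 ^ (2 * n - 1) * A ^ (2 * n - 2) →
      A ≤ 2 * κ1 * s1 → (∀ i, |e1 i| ≤ s1) → (∀ i, |e2 i| ≤ s2) →
      (∃ i j, e1 i * e2 j ≠ e1 j * e2 i) → (∀ i, a i = e2 i + κ1 * e1 i) →
      (∃ N1 : ℕ, 0 < N1 ∧ ∀ i, ξ i ^ N1 = 1) → IsAlgebraic ℚ (t : F) →
      (∀ N1 : ℕ, 0 < N1 → t ^ N1 ≠ 1) → (∀ i, x0 i = ξ i * t ^ a i) →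
      (∀ k, MvPolynomial.aeval (co x0) (Q k) = 0) →
      (∀ Z : Set (Fin n → Fˣ), Irr Z → x0 ∈ Z →
        (∀ x ∈ Z, ∀ k, MvPolynomial.aeval (co x) (Q k) = 0) →
        (∀ x ∈ Z, ∀ m : Fin n → ℤ, ∑ i, m i * e1 i = 0 → ∑ i, m i * e2 i = 0 →
          ch m x = ch m x0) → td F Z = 0) → A ≤ A0 := by
  classical
  -- the coefficients
  set Cs : Finset F := Finset.univ.biUnion fun k => (Q k).support.image fun m => (Q k).coeff m
    with hCsdef
  have hCsmem : ∀ k, ∀ m ∈ (Q k).support, (Q k).coeff m ∈ Cs := by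
    intro k m hm
    rw [hCsdef, Finset.mem_biUnion]
    exact ⟨k, Finset.mem_univ k, Finset.mem_image_of_mem _ hm⟩
  have hCsalg : ∀ c ∈ Cs, IsAlgebraic ℚ c := by
    intro c hc
    rw [hCsdef, Finset.mem_biUnion] at hc
    obtain ⟨k, _, hc⟩ := hc
    obtain ⟨m, _, rfl⟩ := Finset.mem_image.1 hc
    exact hQ k m
  obtain ⟨R0, N, hR0, hN, hRN⟩ := exists_const Cs hCsalg
  set w : ℕ := Finset.univ.sup fun k => (Q k).support.card with hw
  set d : ℕ := Finset.univ.sup fun k => (Q k).totalDegree with hd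
  set R : ℕ := (w + 1) * R0 with hR
  have hR1 : 1 ≤ R := Nat.mul_pos (Nat.succ_pos w) hR0
  set B : ℕ := ∏ c ∈ Cs, (minpoly ℚ c).natDegree with hB
  have hB1 : 1 ≤ B := Finset.prod_pos fun c hc => minpoly.natDegree_pos (hCsalg c hc).isIntegral
  obtain ⟨c, X, hc, hdob⟩ := dob (4 * (2 * n - 1)) (by omega)
  have hlogR : 0 ≤ Real.log R := Real.log_natCast_nonneg R
  have hlogN : 0 ≤ Real.log N := Real.log_natCast_nonneg N
  have hlogr : 0 ≤ Real.log ((r : ℝ) + 1) := by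
    exact_mod_cast Real.log_natCast_nonneg (r + 1)
  set a0 : ℝ := 2 * (Real.log R + Real.log N) + Real.log ((r : ℝ) + 1) with ha0
  have ha0' : 0 ≤ a0 := by positivity
  have hb0 : 0 ≤ Real.log ((r : ℝ) * (32 * d + 1) + 1) := by
    have h1 := Real.log_natCast_nonneg (r * (32 * d + 1) + 1)
    push_cast at h1
    exact h1
  obtain ⟨A0, hA0⟩ := num_final n hn c B (2 * d * (a0 + r * Real.log (r * (32 * d + 1) + 1) + r))
    (8 * d ^ 2) hc (by exact_mod_cast hB1) (by positivity) (by positivity)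
  refine ⟨A0, ?_⟩
  intro A κ1 s1 s2 a e1 e2 ξ t x0 hA1 hs1 hpow hAk he1 he2 hind ha hξ htalg htor hx0 hQx0 hiso
  obtain ⟨N1, hN1, hξN1⟩ := hξ
  set mt : ℕ := (minpoly ℚ (t : F)).natDegree with hmt
  set N0 : ℕ := N1 * ∏ D ∈ Finset.range (mt + 1), (X D).factorial with hN0def
  have hN0 : 0 < N0 := Nat.mul_pos hN1 (Finset.prod_pos fun D _ => Nat.factorial_pos _)
  have hN1N0 : N1 ∣ N0 := Dvd.intro _ rfl
  obtain ⟨ζ, hζ⟩ := m7_zeta F hN0
  have hζalg : IsAlgebraic ℚ ζ := by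
    have h1 : IsIntegral ℤ ζ := hζ.isIntegral hN0
    exact (h1.tower_top (A := ℚ)).isAlgebraic
  have hθ : IsPrimitiveRoot (ζ ^ (N0 / N1)) N1 :=
    hζ.pow hN0 (Nat.div_mul_cancel hN1N0).symm
  have hξpow : ∀ i, ∃ j : ℕ, (ζ ^ (N0 / N1)) ^ j = (ξ i : F) := by
    intro i
    have h1 : (ξ i : F) ^ N1 = 1 := by
      rw [← Units.val_pow_eq_pow_val, hξN1 i, Units.val_one]
    have h2 : NeZero N1 := ⟨hN1.ne'⟩
    obtain ⟨j, _, hj⟩ := hθ.eq_pow_of_pow_eq_one h1
    exact ⟨j, hj⟩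
  choose jj hjj using hξpow
  -- the field
  obtain ⟨E, hEfin, hEnorm, hE⟩ := exists_field (insert (t : F) (insert ζ Cs)) (by
    intro x hx
    rcases Finset.mem_insert.1 hx with rfl | hx
    · exact htalg
    rcases Finset.mem_insert.1 hx with rfl | hx
    · exact hζalg
    · exact hCsalg x hx)
  have hNF : NumberField E := { to_charZero := inferInstance, to_finiteDimensional := hEfin }
  have hGal : IsGalois ℚ E := ⟨⟩
  have htE : (t : F) ∈ E := hE _ (Finset.mem_insert_self _ _)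
  have hζE : ζ ∈ E := hE _ (Finset.mem_insert_of_mem (Finset.mem_insert_self _ _))
  have hCE : ∀ x ∈ Cs, x ∈ E := fun x hx =>
    hE _ (Finset.mem_insert_of_mem (Finset.mem_insert_of_mem hx))
  have hQ' : ∀ k, ∃ Q' : MvPolynomial (Fin n) E, MvPolynomial.map (algebraMap E F) Q' = Q k :=
    fun k => m7_poly E (Q k) fun m hm => hCE _ (hCsmem k m hm)
  choose Q' hQ'map using hQ'
  set t' : E := ⟨t, htE⟩ with ht'
  set ζ' : E := ⟨ζ, hζE⟩ with hζ'
  have hinj : Function.Injective (algebraMap E F) := (algebraMap E F).injective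
  have hζ'prim : IsPrimitiveRoot ζ' N0 := by
    refine IsPrimitiveRoot.of_map_of_injective (f := algebraMap E F) ?_ hinj
    exact hζ
  set ξ' : Fin n → E := fun i => (ζ' ^ (N0 / N1)) ^ jj i with hξ'
  have hξ'F : ∀ i, ((ξ' i : E) : F) = (ξ i : F) := by
    intro i
    rw [← hjj i]
    simp only [hξ', hζ']
    push_cast
    rfl
  have hcoef : ∀ k m, (((Q' k).coeff m : E) : F) = (Q k).coeff m := by
    intro k m
    rw [← hQ'map k, MvPolynomial.coeff_map]
    rfl
  set Cs' : Finset E := Cs.preimage (fun x : E => (x : F)) (fun x _ y _ h => Subtype.ext h)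
    with hCs'
  have hCs'mem : ∀ x : E, x ∈ Cs' ↔ (x : F) ∈ Cs := fun x => Finset.mem_preimage
  have hcoefCs : ∀ k, ∀ m ∈ (Q' k).support, (Q' k).coeff m ∈ Cs' := by
    intro k m hm
    rw [hCs'mem, hcoef]
    refine hCsmem k m ?_
    rw [MvPolynomial.mem_support_iff, ← hcoef]
    intro h0
    exact (MvPolynomial.mem_support_iff.1 hm) (Subtype.ext h0)
  -- places
  set U : ℕ := (Finset.range (mt + 1)).sup X with hU
  obtain ⟨P, hP1, hP2, hP3, hP4⟩ := exists_PL E
    (insert t' (insert ζ' (Cs' ∪ (Finset.range (U + 1)).image fun p : ℕ => (p : E))))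
  have htO : ∀ g : E ≃ₐ[ℚ] E, g t' ∈ P.O := fun g => (hP1 t' (Finset.mem_insert_self _ _) g).1
  have hζO : ζ' ∈ P.O := (hP1 ζ' (Finset.mem_insert_of_mem (Finset.mem_insert_self _ _)) 1).1
  have hCO : ∀ x ∈ Cs', x ∈ P.O := fun x hx =>
    (hP1 x (Finset.mem_insert_of_mem (Finset.mem_insert_of_mem (Finset.mem_union_left _ hx))) 1).1
  have hpO : ∀ p : ℕ, p ≤ U → ((p : E))⁻¹ ∈ P.O := by
    intro p hp
    refine (hP1 (p : E) (Finset.mem_insert_of_mem (Finset.mem_insert_of_mem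
      (Finset.mem_union_right _ ?_))) 1).2
    exact Finset.mem_image_of_mem _ (Finset.mem_range.2 (Nat.lt_succ_of_le hp))
  have ht0F : (t : F) ≠ 0 := t.ne_zero
  have ht0 : t' ≠ 0 := by
    intro h0
    exact ht0F (congrArg (fun x : E => (x : F)) h0)
  have hh : 0 < P.h t' := by
    refine lt_of_le_of_ne (h_nonneg P t') fun h0 => ?_
    obtain ⟨l, hl, hl1⟩ := hP3 t' (htO 1) ht0 h0.symm
    refine htor l hl (Units.ext ?_)
    rw [Units.val_pow_eq_pow_val, Units.val_one]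
    exact congrArg (fun x : E => (x : F)) hl1
  -- the lower bound
  set D1 : ℕ := (orb (fx (ζ' ^ (N0 / N1))) t').card with hD1
  have hmin : ∀ x : E, minpoly ℚ x = minpoly ℚ (x : F) := fun x =>
    (minpoly.algebraMap_eq hinj x).symm
  have hD1mt : D1 ≤ mt := by
    have h1 := orb_card_le (fx (ζ' ^ (N0 / N1))) t'
    rw [hmin t'] at h1
    exact h1
  have hD1pos : 1 ≤ D1 := orb_card_pos _ _
  have hlow := hdob E P N0 N1 D1 ζ' t' hN0 hζ'prim hN1N0 hD1 (by
    intro p hp hpX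
    constructor
    · have h1 : p ∣ (X D1).factorial := (Nat.Prime.dvd_factorial hp).2 hpX
      have h2 : (X D1).factorial ∣ ∏ D ∈ Finset.range (mt + 1), (X D).factorial :=
        Finset.dvd_prod_of_mem _ (Finset.mem_range.2 (Nat.lt_succ_of_le hD1mt))
      exact (h1.trans h2).trans (Dvd.intro_left _ rfl)
    · exact hpO p (hpX.trans (Finset.le_sup (f := X)
        (Finset.mem_range.2 (Nat.lt_succ_of_le hD1mt))))) hζO htO hP2 hh
  -- the group
  set G' : Subgroup (E ≃ₐ[ℚ] E) := fx (ζ' ^ (N0 / N1)) ⊓ fxs Cs' with hG'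
  have hBS : D1 ≤ B * (orb G' t').card := by
    have h1 := orb_index (fx (ζ' ^ (N0 / N1))) Cs' t'
    have h2 : ∏ x ∈ Cs', (minpoly ℚ x).natDegree = B := by
      rw [hB, ← Finset.prod_preimage (fun x : E => (x : F)) Cs
        (fun x _ y _ h => Subtype.ext h) (fun x => (minpoly ℚ x).natDegree)
        (fun x hx hx' => absurd ⟨⟨x, hCE x hx⟩, rfl⟩ hx')]
      refine Finset.prod_congr rfl fun x _ => ?_
      rw [hmin x]
    rw [h2] at h1
    exact h1
  have hSpos : 1 ≤ (orb G' t').card := orb_card_pos _ _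
  have hx0E : ∀ i, (x0 i : F) = (ξ' i : F) * (((t' ^ κ1 : E) : F)) ^ e1 i * (t' : F) ^ e2 i := by
    intro i
    have h1 : (((t' ^ κ1 : E) : F)) = (t : F) ^ κ1 := by
      push_cast
      rfl
    have h2 : ((t' : E) : F) = (t : F) := rfl
    rw [hξ'F, h1, h2, hx0 i, ha i, Units.val_mul, Units.val_zpow_eq_zpow_val, zpow_add₀ ht0F,
      zpow_mul, zpow_natCast]
    ring
  have hQeval : ∀ k, MvPolynomial.aeval (co x0) (Q' k) = 0 := by
    intro k
    have h1 := hQx0 k
    rw [← hQ'map k, MvPolynomial.aeval_map_algebraMap] at h1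
    exact h1
  have hxE : ∀ i, ((ξ' i * (t' ^ κ1) ^ e1 i * t' ^ e2 i : E) : F) = co x0 i := by
    intro i
    show _ = (x0 i : F)
    rw [hx0E i]
    push_cast
    rfl
  have hξ'N1 : ∀ i, ξ' i ^ N1 = 1 := by
    intro i
    apply hinj
    rw [map_pow, map_one]
    show ((ξ' i : E) : F) ^ N1 = 1
    rw [hξ'F, ← Units.val_pow_eq_pow_val, hξN1 i, Units.val_one]
  have hξ'0 : ∀ i, ξ' i ≠ 0 := by
    intro i h0
    have h1 := hξ'N1 i
    rw [h0, zero_pow hN1.ne'] at h1
    exact zero_ne_one h1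
  have htd : ∀ k, (Q' k).totalDegree ≤ d := by
    intro k
    have h1 : (Q' k).totalDegree = (Q k).totalDegree := by
      have h2 : (Q k).support = (Q' k).support := by
        rw [← hQ'map k]
        exact MvPolynomial.support_map_of_injective (Q' k) hinj
      unfold MvPolynomial.totalDegree
      rw [h2]
    rw [h1]
    exact Finset.le_sup (f := fun k => (Q k).totalDegree) (Finset.mem_univ k)
  have hiso' := iso_E P hP2 Q' R N hR1 hN (by
      intro i k
      have h1 : (Q' k).support.card ≤ w := by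
        have h2 : (Q k).support = (Q' k).support := by
          rw [← hQ'map k]
          exact MvPolynomial.support_map_of_injective (Q' k) hinj
        rw [← h2]
        exact Finset.le_sup (f := fun k => (Q k).support.card) (Finset.mem_univ k)
      have h3 : ∀ m ∈ (Q' k).support, ‖P.em i ((Q' k).coeff m)‖ ≤ (R0 : ℝ) := fun m hm =>
        (hRN E _ ((hCs'mem _).1 (hcoefCs k m hm))).1 (P.em i)
      calc ∑ m ∈ (Q' k).support, ‖P.em i ((Q' k).coeff m)‖
          ≤ ∑ _m ∈ (Q' k).support, (R0 : ℝ) := Finset.sum_le_sum h3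
        _ = (Q' k).support.card * (R0 : ℝ) := by rw [Finset.sum_const, nsmul_eq_mul]
        _ ≤ (R : ℝ) := by
            rw [hR]
            push_cast
            refine mul_le_mul_of_nonneg_right ?_ (Nat.cast_nonneg R0)
            have h4 : ((Q' k).support.card : ℝ) ≤ w := by exact_mod_cast h1
            linarith) (by
      intro k m
      by_cases h0 : (Q' k).coeff m = 0
      · rw [h0, mul_zero]
        exact isIntegral_zero
      · exact (hRN E _ ((hCs'mem _).1 (hcoefCs k m (MvPolynomial.mem_support_iff.2 h0)))).2) (by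
      intro k m
      by_cases h0 : (Q' k).coeff m = 0
      · rw [h0]
        exact P.O.zero_mem
      · exact hCO _ (hcoefCs k m (MvPolynomial.mem_support_iff.2 h0))) ξ' hN1 hξ'N1 (by
      intro i
      exact P.O.pow_mem (P.O.pow_mem hζO _) _) d s1 s2 e1 e2 he1 he2 htd ht0 κ1 (by
      intro k
      apply hinj
      rw [map_zero, ← hQeval k]
      have h1 : (co x0 : Fin n → F) =
          fun i => algebraMap E F (ξ' i * (t' ^ κ1) ^ e1 i * t' ^ e2 i) := by
        funext i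
        exact (hxE i).symm
      rw [h1]
      exact (MvPolynomial.aeval_algebraMap_apply F _ (Q' k)).symm) (by
      intro G hG
      refine no_common E Q' ξ' hξ'0 (pow_ne_zero _ ht0) ht0 d s1 s2 e1 e2 he1 he2 htd hind x0
        hx0E ?_ G hG
      intro Z hZ hxZ hZQ hZch
      refine hiso Z hZ hxZ ?_ hZch
      intro x hx k
      rw [← hQ'map k, MvPolynomial.aeval_map_algebraMap]
      exact hZQ x hx k) G' (by
      intro g hg
      have hg1 : g (ζ' ^ (N0 / N1)) = ζ' ^ (N0 / N1) := mem_fx.1 (Subgroup.mem_inf.1 hg).1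
      have hg2 : ∀ x ∈ Cs', g x = x := mem_fxs.1 (Subgroup.mem_inf.1 hg).2
      constructor
      · intro k m
        by_cases h0 : (Q' k).coeff m = 0
        · rw [h0, map_zero]
        · exact hg2 _ (hcoefCs k m (MvPolynomial.mem_support_iff.2 h0))
      · intro i
        simp only [hξ']
        rw [map_pow, hg1])
  obtain ⟨hi1, hi2⟩ := hiso'
  have hs2 := m7_s2 hn hA1 hs1 hpow
  refine hA0 A κ1 s1 s2 (orb G' t').card D1 (P.h t') hh hA1 hSpos hD1pos hpow hAk ?_ hlow ?_ ?_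
  · refine hi1.trans ?_
    exact m7_const ha0' hA1 hs2
  · exact_mod_cast hBS
  · have h1 : ((orb G' t').card : ℝ) ≤ (4 * s2 * d) * (2 * s1 * d) := by exact_mod_cast hi2
    refine h1.trans (le_of_eq ?_)
    ring

end Pool.Agent.ZPB
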