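import Mathlib
import Pool.Agent.ZPA.Defs

set_option autoImplicit false

open MvPolynomial

namespace Pool.Agent.ZPB

open Pool.Agent.MP_dd1803_nt Pool.Agent.ZPA

/-- The property `NDk` for the torus `Fin r`. -/
def NDr (F : Type) [Field F] (k0 : Type) [Field k0] [Algebra k0 F] (s r : ℕ) : Prop :=
  ∀ W : Set (Fin r → Fˣ), Irr W → cl k0 W = W → rk W = 0 → td F W + s < r →
    ∃ q : MvPolynomial (Fin r) k0, q ∉ vI k0 W ∧
      ∀ w ∈ W, (∀ i, ∃ c : k0, algebraMap k0 F c = (w i : F)) →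
        r ≤ rk ({w} : Set (Fin r → Fˣ)) + s → aeval (co w) q = 0

theorem w1_ch {F : Type} [Field F] {κ κ' : Type} [Fintype κ] [Fintype κ'] (e : κ ≃ κ') (m : κ' → ℤ)
    (x : κ → Fˣ) : ch m (pull e.symm x) = ch (m ∘ e) x := by
  unfold ch pull
  rw [← Equiv.prod_comp e]
  refine Finset.prod_congr rfl fun i _ => ?_
  simp

theorem w1_rk {F : Type} [Field F] {κ κ' : Type} [Fintype κ] [Fintype κ'] (e : κ ≃ κ')
    (W : Set (κ → Fˣ)) : rk (pull e.symm '' W) = rk W := by
  have h1 : (Lam (pull e.symm '' W)).map ((LinearEquiv.funCongrLeft ℤ ℤ e : (κ' → ℤ) ≃ₗ[ℤ] (κ → ℤ)) :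
      (κ' → ℤ) →ₗ[ℤ] (κ → ℤ)) = Lam W := by
    ext m
    constructor
    · rintro ⟨m', ⟨N, hN, h⟩, rfl⟩
      refine ⟨N, hN, fun x hx => ?_⟩
      have h2 := h _ ⟨x, hx, rfl⟩
      rw [w1_ch] at h2
      exact h2
    · rintro ⟨N, hN, h⟩
      refine ⟨m ∘ e.symm, ⟨N, hN, ?_⟩, ?_⟩
      · rintro _ ⟨x, hx, rfl⟩
        rw [w1_ch]
        have h2 : (m ∘ e.symm) ∘ e = m := by
          funext i
          simp
        rw [h2]
        exact h x hx
      · funext i
        show (m ∘ e.symm) (e i) = m i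
        simp
  have h2 := LinearEquiv.finrank_eq ((LinearEquiv.funCongrLeft ℤ ℤ e : (κ' → ℤ) ≃ₗ[ℤ] (κ → ℤ)).submoduleMap
    (Lam (pull e.symm '' W)))
  unfold rk
  rw [h2]
  exact congrArg (fun S : Submodule ℤ (κ → ℤ) => Module.finrank ℤ S) h1

theorem w1_aeval {F k : Type} [Field F] [Field k] [Algebra k F] {κ κ' : Type} (j : κ' → κ)
    (p : MvPolynomial κ' k) (x : κ → Fˣ) : aeval (co x) (rename j p) = aeval (co (pull j x)) p := by
  rw [aeval_rename]
  rfl

theorem w1_image {F : Type} [Field F] {κ κ' : Type} (e : κ ≃ κ') (W : Set (κ → Fˣ)) :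
    pull e.symm '' W = (pull e) ⁻¹' W := by
  ext y
  constructor
  · rintro ⟨x, hx, rfl⟩
    have h1 : pull e (pull e.symm x) = x := by
      funext i
      simp [pull]
    rw [Set.mem_preimage, h1]
    exact hx
  · intro hy
    refine ⟨pull e y, hy, ?_⟩
    funext i
    simp [pull]

/-- Row W1. Transport along `Fintype.equivFin κ`.

Proof. Let `e : κ ≃ Fin (Fintype.card κ)`, `j = e.symm : Fin _ → κ`. `pull j : (κ → Fˣ) → (Fin _ → Fˣ)`,
`x ↦ x ∘ j` is a bijection with inverse `pull e`. `W' = pull j '' W` is irreducible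
(`PIrr.pull`), closed (`RatMap.preimage_closed` for `pull e`, as `W' = (pull e) ⁻¹' W`),
`cl k0 W' = W'`, `rk W' = 0`, `td F W' = td F W` (`rename e` is an isomorphism of polynomial rings taking
`vI k0 W` to `vI k0 W'`; `cd_pull` both ways may also be used for the dimension with `rk W = rk W' = 0`
from an explicit isomorphism of the lattices; or `IndF`). Apply the hypothesis to `W'` and take
`q = rename j q'`: `aeval (co w) (rename j q') = aeval (co (pull j w)) q'`; for a point `w`,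
`rk {pull j w} = rk {w}`. -/
theorem ndk_of_ndr {F : Type} [Field F] [IsAlgClosed F] [CharZero F] {s : ℕ}
    (h : ∀ r, NDr F (acl (∅ : Set F)) s r) : NDk F (acl (∅ : Set F)) s := by
  classical
  intro κ _ W hW hWc hrk htd
  let e : κ ≃ Fin (Fintype.card κ) := Fintype.equivFin κ
  have hpi : PIrr (pull e.symm '' W) := hW.pirr.image (ratMap_pull W e.symm)
  have hirr : Irr (pull e.symm '' W) := by
    refine ⟨?_, hpi⟩
    rw [w1_image]
    exact (ratMap_pull Set.univ e).preimage_closed hW.closed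
  have hvI : ∀ p : MvPolynomial (Fin (Fintype.card κ)) (acl (∅ : Set F)),
      p ∈ vI (acl (∅ : Set F)) (pull e.symm '' W) ↔ rename e.symm p ∈ vI (acl (∅ : Set F)) W := by
    intro p
    rw [mem_vI, mem_vI]
    constructor
    · intro h1 x hx
      rw [w1_aeval]
      exact h1 _ ⟨x, hx, rfl⟩
    · rintro h1 _ ⟨x, hx, rfl⟩
      rw [← w1_aeval]
      exact h1 x hx
  have hcl : cl (acl (∅ : Set F)) (pull e.symm '' W) = pull e.symm '' W := by
    apply Set.Subset.antisymm _ (subset_cl _)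
    intro x hx
    rw [w1_image, Set.mem_preimage, ← hWc]
    intro p hp
    rw [← w1_aeval]
    apply hx
    rw [SetLike.mem_coe, hvI, rename_rename]
    have h1 : (e.symm ∘ e : κ → κ) = id := by
      funext i
      simp
    rw [h1, rename_id, AlgHom.id_apply]
    exact hp
  have htd' : td F (pull e.symm '' W) ≤ td F W := by
    obtain ⟨t, ht, hc⟩ := exists_basis' (k := F) hpi
    rw [ind_iff_indF] at ht
    have h1 : IndF F W (e.symm ∘ (Subtype.val : t → Fin (Fintype.card κ))) := by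
      intro p hp
      apply ht
      rintro _ ⟨x, hx, rfl⟩
      exact hp x hx
    have h2 := h1.card_le hW.pirr
    rw [Nat.card_coe_set_eq, hc] at h2
    exact h2
  obtain ⟨q, hq, hqz⟩ := h (Fintype.card κ) (pull e.symm '' W) hirr hcl (by rw [w1_rk]; exact hrk)
    (by omega)
  refine ⟨rename e.symm q, fun h1 => hq ((hvI q).2 h1), ?_⟩
  intro w hw hwc hr
  rw [w1_aeval]
  refine hqz _ ⟨w, hw, rfl⟩ (fun i => hwc (e.symm i)) ?_
  have h1 : ({pull e.symm w} : Set (Fin (Fintype.card κ) → Fˣ)) = pull e.symm '' {w} := by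
    rw [Set.image_singleton]
  rw [h1, w1_rk]
  exact hr

end Pool.Agent.ZPB
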