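import Mathlib
import Pool.Agent.ZPA.Defs
import Pool.Agent.ZPA.D1
import Pool.Agent.ZPA.G1

set_option autoImplicit false

open MvPolynomial

namespace Pool.Agent.ZPB

open Pool.Agent.MP_dd1803_nt Pool.Agent.ZPA

theorem w2_ch_mem {F : Type} [Field F] [CharZero F] {n : ℕ} (m : Fin n → ℤ) (w : Fin n → Fˣ)
    (hw : ∀ i, ∃ c : acl (∅ : Set F), algebraMap _ F c = (w i : F)) :
    ∃ c : acl (∅ : Set F), algebraMap _ F c = (ch m w : F) := by
  have h1 : (ch m w : F) ∈ acl (∅ : Set F) := by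
    unfold ch
    rw [Units.coe_prod]
    refine prod_mem fun i _ => ?_
    rw [Units.val_zpow_eq_zpow_val]
    refine zpow_mem ?_ _
    obtain ⟨c, hc⟩ := hw i
    rw [← hc]
    exact c.2
  exact ⟨⟨_, h1⟩, rfl⟩

/-- Row W2. Points whose relations contain the lattice orthogonal to a fixed vector.

Proof. `k0 = acl ∅`. `L = {m | ∑ m i * a i = 0}` is a saturated sublattice of `ℤ ^ n` of rank
`r ≥ n - 1` (kernel of a linear form). Let `b : Fin r → Fin n → ℤ` be a basis of `L` (for instance from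
`Module.finBasis`, or `d1_basis ⊥ L` in `ZPA/D1.lean`). Let `W' = cl k0 (phi b '' W)`, irreducible
(`PIrr.image`, `d1_ratMap`, `irr_cl`), `cl_idem`, `rk W' = 0` (`rk_cl`; a relation `c` of `phi b '' W`
gives the relation `∑ c k • b k ∈ Lam W = ⊥` as `rk W = 0` and `Lam W` is torsion free, so
`c = 0`; see the computation of `hrk0` in `nd_main`, `ZPA/D1.lean`), and
`td F W' = td k0 (phi b '' W) ≤ td F W < n - 1 ≤ r` (`td_cl_eq`; the dimension does not increase under
`RatMap`s; `td k0 W = td F W` as in `nd_main` (`htY`); compare `hQ` in `d1_key`, which gives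
`Q.card + td k0 (phi b '' W) ≤ td k0 W`, from `fibre`). `ndk_zero` (file `ZPA/G1.lean`) gives `q'`
for `W'`; take `q` from `d1_clear b q'`: `aeval (co x) q = aeval (co x) m * aeval (co (phi b x)) q'`
with the first factor never zero. `q ∉ vI k0 W` as in `d1_key`. If `w` is a point as in the statement,
`phi b w` has coordinates in `k0` and rank `r` (`ch (b k) w` is a root of unity for all `k`, so
`Lam {phi b w} = ⊤`), so `q'` vanishes there. -/
theorem small_a {F : Type} [Field F] [IsAlgClosed F] [CharZero F] {n : ℕ}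
    {W : Set (Fin n → Fˣ)} (hW : Irr W) (hWc : cl (acl (∅ : Set F)) W = W) (hrk : rk W = 0)
    (htd : td F W + 1 < n) (a : Fin n → ℤ) :
    ∃ q : MvPolynomial (Fin n) (acl (∅ : Set F)), q ∉ vI (acl (∅ : Set F)) W ∧
      ∀ w ∈ W, (∀ i, ∃ c : acl (∅ : Set F), algebraMap _ F c = (w i : F)) →
        (∀ m : Fin n → ℤ, ∑ i, m i * a i = 0 → m ∈ Lam ({w} : Set (Fin n → Fˣ))) →
        aeval (co w) q = 0 := by
  classical
  have hac := isAlgClosed_acl (∅ : Set F)
  let g : (Fin n → ℤ) →ₗ[ℤ] ℤ := Fintype.linearCombination ℤ a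
  have hg : ∀ m, g m = ∑ i, m i * a i := fun m => Fintype.linearCombination_apply ℤ a m
  obtain ⟨r, b, hb, hr, hind⟩ := d1_basis (⊥ : Submodule ℤ (Fin n → ℤ)) (LinearMap.ker g) bot_le (by
    intro c m hc hm
    rw [Submodule.mem_bot] at hm ⊢
    exact (smul_eq_zero.1 hm).resolve_left hc)
  rw [finrank_bot, zero_add] at hr
  have hrn : n ≤ r + 1 := by
    have h1 := finrank_le_ker_add g
    have h2 := Submodule.finrank_le (LinearMap.range g)
    rw [Module.finrank_fin_fun, hr] at h1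
    rw [Module.finrank_self] at h2
    omega
  have hpi : PIrr (phi b '' W) := hW.pirr.image (d1_ratMap _ _)
  have hLW : Lam W = ⊥ := by
    have h1 : Module.finrank ℤ (Lam W) = 0 := hrk
    exact Submodule.finrank_eq_zero.1 h1
  have hrk0 : rk (phi b '' W) = 0 := by
    have h1 : Lam (phi b '' W) = ⊥ := by
      rw [eq_bot_iff]
      rintro c ⟨N, hN, hc⟩
      rw [Submodule.mem_bot]
      apply hind
      rw [← hLW]
      refine ⟨N, hN, fun x hx => ?_⟩
      rw [← d1_ch]
      exact hc _ ⟨x, hx, rfl⟩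
    unfold rk
    rw [h1]
    exact finrank_bot ℤ _
  have htW : td (acl (∅ : Set F)) W = td F W := by
    rw [← td_cl_eq hW.pirr, hWc]
  obtain ⟨Q, D, l0, hQ, -, -⟩ := fibre (k := acl (∅ : Set F)) hW.pirr b
  obtain ⟨q', hq', hqz⟩ := ndk_zero (F := F) (Fin r) (cl (acl (∅ : Set F)) (phi b '' W)) (irr_cl hpi)
    (cl_idem _) (by rw [rk_cl]; exact hrk0) (by
      rw [td_cl_eq hpi, Fintype.card_fin]
      omega)
  rw [vI_cl] at hq'
  obtain ⟨h, m, hm⟩ := d1_clear (F := F) b q'
  refine ⟨h, ?_, ?_⟩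
  · intro h1
    apply hq'
    rw [mem_vI]
    rintro _ ⟨x, hx, rfl⟩
    have e1 := mem_vI.mp h1 x hx
    rw [(hm x).2] at e1
    exact (mul_eq_zero.mp e1).resolve_left (hm x).1
  · intro w hw hwc hwr
    rw [(hm w).2, hqz (phi b w) (subset_cl _ ⟨w, hw, rfl⟩) (fun i => w2_ch_mem (b i) w hwc), mul_zero]
    have h1 : Lam ({phi b w} : Set (Fin r → Fˣ)) = ⊤ := by
      rw [eq_top_iff]
      intro c _
      have h2 : (∑ k, c k • b k) ∈ LinearMap.ker g :=
        Submodule.sum_mem _ fun k _ => Submodule.smul_mem _ _ (hb k)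
      rw [LinearMap.mem_ker, hg] at h2
      obtain ⟨N, hN, h3⟩ := hwr _ h2
      refine ⟨N, hN, ?_⟩
      intro y hy
      rw [Set.mem_singleton_iff.mp hy, d1_ch]
      exact h3 w rfl
    unfold rk
    rw [h1, finrank_top, Module.finrank_fin_fun, Fintype.card_fin]
    exact le_rfl

end Pool.Agent.ZPB
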