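import Mathlib
import Pool.Agent.ZPA.Defs

set_option autoImplicit false

open MvPolynomial

namespace Pool.Agent.ZPB

open Pool.Agent.MP_dd1803_nt Pool.Agent.ZPA

theorem w3_form {n : ℕ} (L : Submodule ℤ (Fin n → ℤ))
    (hL : ∀ (m : Fin n → ℤ) (k : ℤ), k ≠ 0 → k • m ∈ L → m ∈ L)
    (hrk : Module.finrank ℤ L + 1 = n) :
    ∃ l : (Fin n → ℤ) →ₗ[ℤ] ℤ, (∀ m, l m = 0 ↔ m ∈ L) ∧ ∃ c, l c = 1 := by
  have htf : Module.IsTorsionFree ℤ ((Fin n → ℤ) ⧸ L) := by
    refine Module.isTorsionFree_iff_smul_eq_zero.2 ?_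
    intro k q hq
    induction q using Submodule.Quotient.induction_on with
    | H m =>
      by_cases hk : k = 0
      · exact Or.inl hk
      · right
        rw [← Submodule.Quotient.mk_smul, Submodule.Quotient.mk_eq_zero] at hq
        rw [Submodule.Quotient.mk_eq_zero]
        exact hL m k hk hq
  have hfree : Module.Free ℤ ((Fin n → ℤ) ⧸ L) := Module.free_of_finite_type_torsion_free'
  have hfr : Module.finrank ℤ ((Fin n → ℤ) ⧸ L) = 1 := by
    have h1 := Submodule.finrank_quotient_add_finrank L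
    rw [Module.finrank_fintype_fun_eq_card, Fintype.card_fin] at h1
    omega
  let b := Module.finBasisOfFinrankEq ℤ ((Fin n → ℤ) ⧸ L) hfr
  refine ⟨(b.coord 0).comp L.mkQ, fun m => ?_, ?_⟩
  · rw [LinearMap.comp_apply, Submodule.mkQ_apply, Module.Basis.coord_apply]
    constructor
    · intro h
      rw [← Submodule.Quotient.mk_eq_zero, ← b.repr.map_eq_zero_iff]
      refine Finsupp.ext fun i => ?_
      rw [Subsingleton.elim i 0, h, Finsupp.zero_apply]
    · intro h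
      rw [(Submodule.Quotient.mk_eq_zero L).2 h, b.repr.map_zero, Finsupp.zero_apply]
  · obtain ⟨c, hc⟩ := Submodule.Quotient.mk_surjective L (b 0)
    refine ⟨c, ?_⟩
    rw [LinearMap.comp_apply, Submodule.mkQ_apply, hc, Module.Basis.coord_apply,
      Module.Basis.repr_self, Finsupp.single_eq_same]

theorem w3_alg {F : Type} [Field F] [CharZero F] {n : ℕ} {w : Fin n → Fˣ}
    (hw : ∀ i, IsAlgebraic ℚ (w i : F)) (c : Fin n → ℤ) : IsAlgebraic ℚ ((ch c w : Fˣ) : F) := by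
  have h1 : ∀ i, (w i : F) ∈ algebraicClosure ℚ F := fun i => mem_algebraicClosure_iff.2 (hw i)
  rw [← mem_algebraicClosure_iff]
  unfold ch
  rw [Units.coe_prod]
  refine prod_mem fun i _ => ?_
  rw [Units.val_zpow_eq_zpow_val]
  exact zpow_mem (h1 i) (c i)

/-- Row W3. The structure of the points of rank one.

Proof. `Λ = Lam {w}` is a saturated sublattice (`Lam_sat`) of rank `n - 1` of `ℤ ^ n`, so the quotient is
torsion free of rank one (`Submodule.finrank_quotient_add_finrank`), free, isomorphic to `ℤ`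
(`Module.finBasis`); let `ℓ : (Fin n → ℤ) →ₗ[ℤ] ℤ` be the surjection with kernel `Λ` and
`a i = ℓ (Pi.single i 1)`, so `ℓ m = ∑ m i * a i`. Choose `c` with `ℓ c = 1`, `t = ch c w` (a
monomial in algebraic numbers, so algebraic). For each `i` the vector `Pi.single i 1 - a i • c` is in
`Λ`, so `ξ i := w i * t ^ (- a i)` is a root of unity (definition of `Lam`; take `N` the product of
the orders). If `t ^ N = 1`, `N > 0`, then `c ∈ Λ`, contradiction. -/
theorem rank_one {F : Type} [Field F] [CharZero F] {n : ℕ} {w : Fin n → Fˣ}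
    (hw : ∀ i, IsAlgebraic ℚ (w i : F)) (hrk : rk ({w} : Set (Fin n → Fˣ)) + 1 = n) :
    ∃ (a : Fin n → ℤ) (ξ : Fin n → Fˣ) (t : Fˣ), (∃ c : Fin n → ℤ, ∑ i, c i * a i = 1) ∧
      (∃ N : ℕ, 0 < N ∧ ∀ i, ξ i ^ N = 1) ∧ IsAlgebraic ℚ (t : F) ∧
      (∀ N : ℕ, 0 < N → t ^ N ≠ 1) ∧ (∀ i, w i = ξ i * t ^ a i) ∧
      ∀ m : Fin n → ℤ, ∑ i, m i * a i = 0 → m ∈ Lam ({w} : Set (Fin n → Fˣ)) := by
  classical
  obtain ⟨l, hl, c, hc⟩ := w3_form (Lam ({w} : Set (Fin n → Fˣ)))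
    (fun m k hk hm => Lam_sat hk hm) hrk
  have hlm : ∀ m : Fin n → ℤ, l m = ∑ i, m i * l (Pi.single i 1) := by
    intro m
    conv_lhs => rw [pi_eq_sum_univ' m, map_sum]
    refine Finset.sum_congr rfl fun i _ => ?_
    rw [map_smul, smul_eq_mul]
  have hxi : ∀ i : Fin n, ∃ N : ℕ, 0 < N ∧
      ch (Pi.single i 1 - l (Pi.single i 1) • c) w ^ N = 1 := by
    intro i
    have h1 : (Pi.single i 1 - l (Pi.single i 1) • c : Fin n → ℤ) ∈
        Lam ({w} : Set (Fin n → Fˣ)) := by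
      rw [← hl, map_sub, map_smul, hc, smul_eq_mul, mul_one, sub_self]
    obtain ⟨N, hN, h2⟩ := mem_Lam.1 h1
    exact ⟨N, hN, h2 w rfl⟩
  choose N hN hN1 using hxi
  refine ⟨fun i => l (Pi.single i 1), fun i => ch (Pi.single i 1 - l (Pi.single i 1) • c) w,
    ch c w, ⟨c, ?_⟩, ⟨∏ i, N i, Finset.prod_pos fun i _ => hN i, fun i => ?_⟩, ?_, ?_, fun i => ?_,
    fun m hm => ?_⟩
  · exact (hlm c).symm.trans hc
  · obtain ⟨q, hq⟩ := Finset.dvd_prod_of_mem N (Finset.mem_univ i)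
    rw [hq, pow_mul, hN1 i, one_pow]
  · exact w3_alg hw c
  · intro k hk hk1
    have h1 : c ∈ Lam ({w} : Set (Fin n → Fˣ)) := by
      refine mem_Lam.2 ⟨k, hk, fun x hx => ?_⟩
      rw [Set.mem_singleton_iff.1 hx]
      exact hk1
    rw [← hl, hc] at h1
    exact one_ne_zero h1
  · rw [← ch_zsmul, ← ch_add, sub_add_cancel, ch_single, zpow_one]
  · rw [← hl, hlm m]
    exact hm

end Pool.Agent.ZPB
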