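import Mathlib

set_option autoImplicit false

namespace Pool.Agent.ZPB

/-- Row W4. Simultaneous approximation in `n - 1` variables (pigeonhole).

Proof. Consider the `L ^ (n - 1) + 1` vectors `(fract (j * α i))`, `i ≠ i0`, `j = 0, ..., L ^ (n - 1)`,
in the boxes of side `1 / L` (box number `⌊L * fract (j α i)⌋ ∈ {0, .., L - 1}`); two of them, for
`j < j'`, lie in the same box; `q = j' - j`, `p i = ⌊j' α i⌋ - ⌊j α i⌋`, `|q α i - p i| < 1 / L`. For
`i0`, `α i0 = ± 1`: `p i0 = ± q` exactly. (`Fintype.card` of `{i // i ≠ i0} → Fin L` is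
`L ^ (n - 1)`; `Finset.exists_ne_map_eq_of_card_lt_of_maps_to`.) -/
theorem approx {n : ℕ} (α : Fin n → ℝ) (i0 : Fin n) (h0 : α i0 = 1 ∨ α i0 = -1) (L : ℕ)
    (hL : 1 ≤ L) : ∃ (q : ℕ) (p : Fin n → ℤ), 1 ≤ q ∧ q ≤ L ^ (n - 1) ∧
      (p i0 = q ∨ p i0 = -q) ∧ ∀ i, |q * α i - p i| ≤ 1 / L := by
  classical
  have hL0 : (0 : ℝ) < L := by exact_mod_cast hL
  have hlt : ∀ x : ℝ, ⌊(L : ℝ) * Int.fract x⌋.toNat < L := by
    intro x
    have h1 : (0 : ℝ) ≤ L * Int.fract x := mul_nonneg hL0.le (Int.fract_nonneg x)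
    have h2 : (L : ℝ) * Int.fract x < L := by
      have := Int.fract_lt_one x
      nlinarith
    have h3 : ⌊(L : ℝ) * Int.fract x⌋ < L := by
      rw [Int.floor_lt]
      exact_mod_cast h2
    have h4 : 0 ≤ ⌊(L : ℝ) * Int.fract x⌋ := Int.floor_nonneg.2 h1
    omega
  let f : Fin (L ^ (n - 1) + 1) → ({i : Fin n // i ≠ i0} → Fin L) := fun j i =>
    ⟨⌊(L : ℝ) * Int.fract ((j.val : ℝ) * α i.1)⌋.toNat, hlt _⟩
  have hcard : Fintype.card ({i : Fin n // i ≠ i0} → Fin L) < Fintype.card (Fin (L ^ (n - 1) + 1)) := by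
    rw [Fintype.card_fun, Fintype.card_fin, Fintype.card_fin, Fintype.card_subtype_compl,
      Fintype.card_subtype_eq, Fintype.card_fin]
    exact Nat.lt_succ_self _
  obtain ⟨j1, j2, hne, hf⟩ := Fintype.exists_ne_map_eq_of_card_lt f hcard
  have key : ∀ j1 j2 : Fin (L ^ (n - 1) + 1), j1.val < j2.val → f j1 = f j2 →
      ∃ (q : ℕ) (p : Fin n → ℤ), 1 ≤ q ∧ q ≤ L ^ (n - 1) ∧
      (p i0 = q ∨ p i0 = -q) ∧ ∀ i, |q * α i - p i| ≤ 1 / L := by
    intro j1 j2 hj hf
    have hj2 := j2.isLt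
    have hcast : ((j2.val - j1.val : ℕ) : ℝ) = (j2.val : ℝ) - (j1.val : ℝ) := by
      rw [Nat.cast_sub hj.le]
    refine ⟨j2.val - j1.val, fun i => if i = i0 then (if α i0 = 1 then ((j2.val - j1.val : ℕ) : ℤ) else
      -((j2.val - j1.val : ℕ) : ℤ)) else ⌊(j2.val : ℝ) * α i⌋ - ⌊(j1.val : ℝ) * α i⌋, by omega, by omega, ?_, ?_⟩
    · simp only [if_true]
      by_cases h : α i0 = 1
      · left
        rw [if_pos h]
      · right
        rw [if_neg h]
    · intro i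
      by_cases hi : i = i0
      · subst hi
        simp only [if_true]
        by_cases h : α i = 1
        · rw [if_pos h, h, mul_one]
          have h2 : ((j2.val - j1.val : ℕ) : ℝ) - (((j2.val - j1.val : ℕ) : ℤ) : ℝ) = 0 := by push_cast; ring
          rw [h2, abs_zero]
          positivity
        · rw [if_neg h, h0.resolve_left h]
          have h2 : ((j2.val - j1.val : ℕ) : ℝ) * -1 - ((-((j2.val - j1.val : ℕ) : ℤ) : ℤ) : ℝ) = 0 := by push_cast; ring
          rw [h2, abs_zero]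
          positivity
      · simp only [if_neg hi]
        have h1 := congrArg Fin.val (congrFun hf ⟨i, hi⟩)
        have h2 : ⌊(L : ℝ) * Int.fract ((j1.val : ℝ) * α i)⌋.toNat = ⌊(L : ℝ) * Int.fract ((j2.val : ℝ) * α i)⌋.toNat := h1
        have h3 : ∀ x : ℝ, 0 ≤ ⌊(L : ℝ) * Int.fract x⌋ := fun x =>
          Int.floor_nonneg.2 (mul_nonneg hL0.le (Int.fract_nonneg x))
        have h4 : ⌊(L : ℝ) * Int.fract ((j2.val : ℝ) * α i)⌋ = ⌊(L : ℝ) * Int.fract ((j1.val : ℝ) * α i)⌋ := by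
          have h5 := h3 ((j1.val : ℝ) * α i)
          have h6 := h3 ((j2.val : ℝ) * α i)
          omega
        have h5 := Int.abs_sub_lt_one_of_floor_eq_floor h4
        rw [← mul_sub, abs_mul, abs_of_pos hL0] at h5
        have h6 : ((j2.val - j1.val : ℕ) : ℝ) * α i - ((⌊(j2.val : ℝ) * α i⌋ - ⌊(j1.val : ℝ) * α i⌋ : ℤ) : ℝ) =
            Int.fract ((j2.val : ℝ) * α i) - Int.fract ((j1.val : ℝ) * α i) := by
          rw [hcast, Int.cast_sub]
          unfold Int.fract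
          ring
        rw [h6, le_div_iff₀ hL0, mul_comm]
        exact h5.le
  rcases lt_or_gt_of_ne (fun h => hne (Fin.ext h) : j1.val ≠ j2.val) with h | h
  · exact key j1 j2 h hf
  · exact key j2 j1 h hf.symm

/-- Row W4. A plane of small volume containing the vector `a`.

Proof. Let `|a i0| = A`, `L` the natural number with `L ^ (2 n - 1) ≤ A < (L + 1) ^ (2 n - 1)`
(`Nat.nthRoot` or `Nat.findGreatest`), `L ≥ 2` by `hbig`. `approx` for `α i = a i / A`: `q`, `p`. Let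
`e1 = p`, `κ1 = A / q` (natural division), `e2 = a - κ1 • p`, `s1 = q + 1`,
`s2 = q + 1 + A / (q * L)`. Then `|p i| ≤ q |α i| + 1 / L ≤ q + 1`, and
`e2 i = α i * (A - κ1 q) - κ1 (p i - q α i)` with `0 ≤ A - κ1 q < q`, so
`|e2 i| ≤ q + κ1 / L ≤ q + A / (q L)` (real), `≤ s2`.
`s1 * s2 ≤ 2 q * (2 q + A / (q L)) ≤ 4 q ^ 2 + 2 A / L ≤ 4 L ^ (2 n - 2) + 2 A / L ≤ 6 A / L`, since
`q ≤ L ^ (n - 1)` and `L ^ (2 n - 1) ≤ A`; (with the `+ 1`s: `q + 1 ≤ 2 q`; all in all
`s1 * s2 ≤ 8 A / L`, that is `L * (s1 * s2) ≤ 8 * A`). As `A < (L + 1) ^ (2 n - 1) ≤ (2 L) ^ (2 n - 1)`: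
`A * (s1 s2) ^ (2 n - 1) ≤ (2 L s1 s2) ^ (2 n - 1) ≤ (16 A) ^ (2 n - 1)`, divide by `A`.
`A ≤ 2 κ1 s1`: `κ1 = ⌊A / q⌋ ≥ A / (2 q)` because `q ≤ A`.
Independence: suppose `e1 i * e2 j = e1 j * e2 i` for all `i, j`; then `p i * a j = p j * a i` for all
`i, j`. Multiply by `c j` and sum (`∑ c j a j = 1`): `p i = (∑ c j p j) * a i`, so `p = m • a` with an
integer `m`, and `|p i0| = |m| A`, but `|p i0| = q` with `1 ≤ q ≤ L ^ (n - 1) < A`
(`L ≥ 2`, `n ≥ 1`): contradiction for `m = 0` and for `m ≠ 0`. -/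
theorem plane {n : ℕ} (hn : 2 ≤ n) (a : Fin n → ℤ) (A : ℕ) (hA : ∀ i, |a i| ≤ A)
    (hA' : ∃ i, |a i| = A) (hbig : 2 ^ (2 * n - 1) ≤ A)
    (hprim : ∃ c : Fin n → ℤ, ∑ i, c i * a i = 1) :
    ∃ (e1 e2 : Fin n → ℤ) (κ1 s1 s2 : ℕ), 1 ≤ s1 ∧ (∀ i, a i = e2 i + κ1 * e1 i) ∧
      (∀ i, |e1 i| ≤ s1) ∧ (∀ i, |e2 i| ≤ s2) ∧ (∃ i j, e1 i * e2 j ≠ e1 j * e2 i) ∧
      A ≤ 2 * κ1 * s1 ∧ (s1 * s2) ^ (2 * n - 1) ≤ 16 ^ (2 * n - 1) * A ^ (2 * n - 2) := by
  classical
  obtain ⟨i0, hi0⟩ := hA'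
  obtain ⟨c, hc⟩ := hprim
  -- the integer root
  obtain ⟨L, hL1, hL2⟩ : ∃ L, L ^ (2 * n - 1) ≤ A ∧ A < (L + 1) ^ (2 * n - 1) := by
    refine ⟨Nat.findGreatest (fun L => L ^ (2 * n - 1) ≤ A) A, ?_, ?_⟩
    · exact Nat.findGreatest_spec (P := fun L => L ^ (2 * n - 1) ≤ A) (Nat.zero_le A) (by
        rw [zero_pow (by omega)]
        exact Nat.zero_le _)
    · by_contra hcon
      push Not at hcon
      have h1 : Nat.findGreatest (fun L => L ^ (2 * n - 1) ≤ A) A + 1 ≤ A := by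
        refine le_trans ?_ hcon
        exact Nat.le_self_pow (by omega) _
      have h2 := Nat.le_findGreatest (P := fun L => L ^ (2 * n - 1) ≤ A) h1 hcon
      omega
  have hLge : 2 ≤ L := by
    by_contra hcon
    push Not at hcon
    have h1 : (L + 1) ^ (2 * n - 1) ≤ 2 ^ (2 * n - 1) := Nat.pow_le_pow_left (by omega) _
    omega
  have hA0 : 0 < A := lt_of_lt_of_le (by positivity) hbig
  have hAr : (0 : ℝ) < A := by exact_mod_cast hA0
  have hLr : (0 : ℝ) < L := by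
    have : 0 < L := by omega
    exact_mod_cast this
  have hα : ∀ i, |(a i : ℝ) / A| ≤ 1 := by
    intro i
    rw [abs_div, abs_of_pos hAr, div_le_one hAr]
    exact_mod_cast hA i
  have hα0 : (a i0 : ℝ) / A = 1 ∨ (a i0 : ℝ) / A = -1 := by
    rcases abs_eq (by exact_mod_cast hA0.le : (0 : ℤ) ≤ A) |>.1 hi0 with h | h
    · left
      rw [h, Int.cast_natCast, div_self hAr.ne']
    · right
      rw [h, Int.cast_neg, Int.cast_natCast, neg_div, div_self hAr.ne']
  obtain ⟨q, p, hq1, hq2, hp0, hp⟩ := approx (fun i => (a i : ℝ) / A) i0 hα0 L (by omega)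
  have hqr : (0 : ℝ) < q := by exact_mod_cast hq1
  have hqA' : q < A := by
    calc q ≤ L ^ (n - 1) := hq2
      _ < L ^ (2 * n - 1) := Nat.pow_lt_pow_right (by omega) (by omega)
      _ ≤ A := hL1
  refine ⟨p, fun i => a i - (A / q : ℕ) * p i, A / q, q + 1, q + 1 + A / (q * L), by omega, ?_, ?_, ?_, ?_, ?_, ?_⟩
  · intro i
    ring
  · intro i
    have h1 := hp i
    have h2 := hα i
    have h3 : |(p i : ℝ)| ≤ q + 1 := by
      have h4 : (p i : ℝ) = q * ((a i : ℝ) / A) - (q * ((a i : ℝ) / A) - p i) := by ring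
      have h5 : (1 : ℝ) / L ≤ 1 := by
        rw [div_le_one hLr]
        have : 1 ≤ L := by omega
        exact_mod_cast this
      rw [h4]
      refine (abs_sub _ _).trans ?_
      rw [abs_mul, abs_of_pos hqr]
      have h6 : (q : ℝ) * |(a i : ℝ) / A| ≤ q * 1 := mul_le_mul_of_nonneg_left h2 hqr.le
      linarith
    have h4 : ((|p i| : ℤ) : ℝ) ≤ (((q + 1 : ℕ) : ℤ) : ℝ) := by
      push_cast
      exact h3
    exact_mod_cast h4
  · intro i
    have h1 := hp i
    have h2 := hα i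
    have hmod : (A : ℝ) - (A / q : ℕ) * q < q ∧ 0 ≤ (A : ℝ) - (A / q : ℕ) * q := by
      have h3 := Nat.div_add_mod A q
      have h4 := Nat.mod_lt A hq1
      have h5 : (A : ℝ) = q * (A / q : ℕ) + (A % q : ℕ) := by exact_mod_cast h3.symm
      have h6 : ((A % q : ℕ) : ℝ) < q := by exact_mod_cast h4
      have h7 : (0 : ℝ) ≤ ((A % q : ℕ) : ℝ) := Nat.cast_nonneg _
      constructor
      · linarith
      · linarith
    have hκ : ((A / q : ℕ) : ℝ) * (1 / L) ≤ (A : ℝ) / (q * L) := by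
      have h3 : ((A / q : ℕ) : ℝ) ≤ (A : ℝ) / q := Nat.cast_div_le
      calc ((A / q : ℕ) : ℝ) * (1 / L) ≤ (A : ℝ) / q * (1 / L) :=
            mul_le_mul_of_nonneg_right h3 (by positivity)
        _ = (A : ℝ) / (q * L) := by
            field_simp
    have hfl : (A : ℝ) / (q * L) < ((A / (q * L) : ℕ) : ℝ) + 1 := by
      have h3 := Nat.lt_floor_add_one ((A : ℝ) / ((q * L : ℕ) : ℝ))
      rw [Nat.floor_div_eq_div] at h3
      push_cast at h3
      exact h3
    have h3 : |((a i - (A / q : ℕ) * p i : ℤ) : ℝ)| < q + ((A / (q * L) : ℕ) : ℝ) + 1 := by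
      have h4 : ((a i - (A / q : ℕ) * p i : ℤ) : ℝ) =
          (a i : ℝ) / A * ((A : ℝ) - (A / q : ℕ) * q) + ((A / q : ℕ) : ℝ) * (q * ((a i : ℝ) / A) - p i) := by
        generalize A / q = K
        push_cast
        field_simp
        ring
      rw [h4]
      refine lt_of_le_of_lt (abs_add_le _ _) ?_
      rw [abs_mul, abs_mul, abs_of_nonneg hmod.2, abs_of_nonneg (Nat.cast_nonneg (A / q) : (0 : ℝ) ≤ ((A / q : ℕ) : ℝ))]
      have h5 : |(a i : ℝ) / A| * ((A : ℝ) - (A / q : ℕ) * q) ≤ 1 * ((A : ℝ) - (A / q : ℕ) * q) :=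
        mul_le_mul_of_nonneg_right h2 hmod.2
      have h6 : ((A / q : ℕ) : ℝ) * |q * ((a i : ℝ) / A) - p i| ≤ ((A / q : ℕ) : ℝ) * (1 / L) :=
        mul_le_mul_of_nonneg_left h1 (Nat.cast_nonneg _)
      have h7 := hmod.1
      linarith
    have h4 : ((|a i - (A / q : ℕ) * p i| : ℤ) : ℝ) < (((q + 1 + A / (q * L) : ℕ) : ℤ) : ℝ) := by
      rw [Int.cast_abs]
      have h5 : (((q + 1 + A / (q * L) : ℕ) : ℤ) : ℝ) = q + ((A / (q * L) : ℕ) : ℝ) + 1 := by
        generalize A / (q * L) = K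
        push_cast
        ring
      rw [h5]
      exact h3
    have h5 : |a i - (A / q : ℕ) * p i| < ((q + 1 + A / (q * L) : ℕ) : ℤ) := by exact_mod_cast h4
    exact h5.le
  · by_contra hcon
    push Not at hcon
    have h1 : ∀ i j, p i * a j = p j * a i := by
      intro i j
      have h2 := hcon i j
      linear_combination h2
    have h2 : ∀ i, p i = (∑ j, c j * p j) * a i := by
      intro i
      calc p i = p i * ∑ j, c j * a j := by rw [hc, mul_one]
        _ = ∑ j, c j * (p i * a j) := by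
          rw [Finset.mul_sum]
          exact Finset.sum_congr rfl fun j _ => by ring
        _ = ∑ j, c j * (p j * a i) := Finset.sum_congr rfl fun j _ => by rw [h1 i j]
        _ = (∑ j, c j * p j) * a i := by
          rw [Finset.sum_mul]
          exact Finset.sum_congr rfl fun j _ => by ring
    have h3 := congrArg abs (h2 i0)
    rw [abs_mul, hi0] at h3
    have h4 : |p i0| = q := by
      rcases hp0 with h | h
      · rw [h]; exact abs_of_nonneg (Int.natCast_nonneg _)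
      · rw [h, abs_neg]; exact abs_of_nonneg (Int.natCast_nonneg _)
    rw [h4] at h3
    have h5 : 1 ≤ |∑ j, c j * p j| := by
      by_contra h
      push Not at h
      have h6 : |∑ j, c j * p j| = 0 := by
        have := abs_nonneg (∑ j, c j * p j)
        omega
      rw [h6, zero_mul] at h3
      have : (q : ℤ) ≥ 1 := by exact_mod_cast hq1
      omega
    have h6 : (A : ℤ) ≤ q := by
      rw [h3]
      nlinarith
    have h7 : (q : ℤ) < A := by exact_mod_cast hqA'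
    omega
  · have h1 := Nat.lt_div_mul_add (a := A) hq1
    have h2 : 1 ≤ A / q := Nat.div_pos hqA'.le hq1
    nlinarith
  · have h1 : A / (q * L) * (q * L) ≤ A := Nat.div_mul_le_self _ _
    have h2 : q ^ 2 * L ≤ A := by
      calc q ^ 2 * L ≤ (L ^ (n - 1)) ^ 2 * L := Nat.mul_le_mul_right _ (Nat.pow_le_pow_left hq2 2)
        _ = L ^ (2 * n - 1) := by
          rw [← pow_mul, ← pow_succ]
          congr 1
          omega
        _ ≤ A := hL1
    have h3 : L * ((q + 1) * (q + 1 + A / (q * L))) ≤ 6 * A := by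
      have h4 : (q + 1) * (q + 1 + A / (q * L)) ≤ (2 * q) * (2 * q + A / (q * L)) :=
        Nat.mul_le_mul (by omega) (by omega)
      calc L * ((q + 1) * (q + 1 + A / (q * L))) ≤ L * ((2 * q) * (2 * q + A / (q * L))) :=
            Nat.mul_le_mul_left _ h4
        _ = 4 * (q ^ 2 * L) + 2 * (A / (q * L) * (q * L)) := by ring
        _ ≤ 6 * A := by omega
    have h5 : A * ((q + 1) * (q + 1 + A / (q * L))) ^ (2 * n - 1) ≤ (16 * A) ^ (2 * n - 1) := by
      calc A * ((q + 1) * (q + 1 + A / (q * L))) ^ (2 * n - 1)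
          ≤ (2 * L) ^ (2 * n - 1) * ((q + 1) * (q + 1 + A / (q * L))) ^ (2 * n - 1) :=
            Nat.mul_le_mul_right _ (hL2.le.trans (Nat.pow_le_pow_left (by omega) _))
        _ = (2 * (L * ((q + 1) * (q + 1 + A / (q * L))))) ^ (2 * n - 1) := by
            rw [← mul_pow, mul_assoc]
        _ ≤ (16 * A) ^ (2 * n - 1) := Nat.pow_le_pow_left (by omega) _
    have h6 : (16 * A) ^ (2 * n - 1) = A * (16 ^ (2 * n - 1) * A ^ (2 * n - 2)) := by
      rw [mul_pow]
      have h7 : 2 * n - 1 = (2 * n - 2) + 1 := by omega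
      have h8 : A ^ (2 * n - 1) = A ^ (2 * n - 2) * A := by rw [h7, pow_succ]
      rw [h8]
      ring
    rw [h6] at h5
    exact Nat.le_of_mul_le_mul_left h5 hA0

end Pool.Agent.ZPB
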