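import Mathlib
import Pool.Agent.ZPA.Defs

set_option autoImplicit false

open MvPolynomial

namespace Pool.Agent.ZPB

open Pool.Agent.MP_dd1803_nt Pool.Agent.ZPA

theorem w0_zero {F : Type} [Field F] {ι : Type} [Fintype ι] {c : F} {m : ι → ℤ}
    (h : (∏ i, X i ^ (m i).toNat - C c * ∏ i, X i ^ (-m i).toNat : MvPolynomial ι F) = 0) : m = 0 := by
  classical
  have h1 : ∀ f : ι → ℕ, (∏ i, (X i : MvPolynomial ι F) ^ f i) =
      monomial (Finsupp.equivFunOnFinite.symm f) 1 := by
    intro f
    rw [monomial_eq, map_one, one_mul, Finsupp.prod_fintype _ _ (fun i => pow_zero _)]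
    rfl
  rw [h1, h1] at h
  by_contra hm
  have hne : (Finsupp.equivFunOnFinite.symm (fun i => (-m i).toNat) : ι →₀ ℕ) ≠
      Finsupp.equivFunOnFinite.symm (fun i => (m i).toNat) := by
    intro h2
    apply hm
    have h3 := Finsupp.equivFunOnFinite.symm.injective h2
    funext i
    have h4 := congrFun h3 i
    simp only [Pi.zero_apply]
    omega
  have h5 := congrArg (coeff (Finsupp.equivFunOnFinite.symm (fun i => (m i).toNat))) h
  rw [coeff_sub, coeff_C_mul, coeff_monomial, coeff_monomial, if_pos rfl, if_neg hne, mul_zero,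
    sub_zero, coeff_zero] at h5
  exact one_ne_zero h5

theorem w0_eval {F : Type} [Field F] {ι : Type} [Fintype ι] {c : Fˣ} {m : ι → ℤ} {x : ι → Fˣ}
    (h : ch m x = c) :
    aeval (co x) (∏ i, X i ^ (m i).toNat - C (c : F) * ∏ i, X i ^ (-m i).toNat : MvPolynomial ι F) = 0 := by
  rw [map_sub, map_mul, map_prod, map_prod, sub_eq_zero, aeval_C]
  simp only [map_pow, aeval_X]
  have h1 : ∀ i, x i ^ (m i).toNat = x i ^ m i * x i ^ (-m i).toNat := by
    intro i
    rw [← zpow_natCast, ← zpow_natCast, ← zpow_add]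
    congr 1
    rw [Int.toNat_eq_max, Int.toNat_eq_max]
    omega
  have h2 : ∏ i, x i ^ (m i).toNat = c * ∏ i, x i ^ (-m i).toNat := by
    rw [← h]
    unfold ch
    rw [← Finset.prod_mul_distrib]
    exact Finset.prod_congr rfl fun i _ => h1 i
  have h3 := congrArg Units.val h2
  push_cast at h3
  exact h3

/-- Row W0. Characters with constant algebraic values and the dimension.

Proof. Let `x0 ∈ Z` and `Z' = {x * x0⁻¹ | x ∈ Z}` (the image of `Z` under the translation by `x0⁻¹`, which
is a `RatMap`: `ratMap_mono` with the exponents of the identity map, so `Z'` is `PIrr`). Every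
`m ∈ Alat Z` is constant on `Z`, so `ch m = 1` on `Z'` (`ch_mul`) and `Alat Z ≤ Lam Z'`. So
`ar Z ≤ rk Z'`. `cd_le_card : cd Z' ≤ Fintype.card κ`, `cd Z' = rk Z' + td F Z'`. And
`td F Z ≤ td F Z'`: `td` does not change under translations, because the coordinates of
`Z` are the coordinates of `Z'` times constants of `F` (`IndF.image` in `Prod.lean`, or
`vI F Z` is the image of `vI F Z'` under an automorphism of the polynomial ring, or see how
`cd_image_mono` / `cd_graph` treat this in `Mono.lean`). -/
theorem ar_add_td {F : Type} [Field F] [CharZero F] {κ : Type} [Fintype κ]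
    {Z : Set (κ → Fˣ)} (hZ : PIrr Z) : ar Z + td F Z ≤ Fintype.card κ := by
  classical
  obtain ⟨s, hs, hc⟩ := exists_basis' (k := F) hZ
  let f : Alat Z →ₗ[ℤ] (↥(sᶜ : Set κ) → ℤ) :=
    (LinearMap.funLeft ℤ ℤ (Subtype.val : ↥(sᶜ : Set κ) → κ)).comp (Alat Z).subtype
  have hf : Function.Injective f := by
    rw [injective_iff_map_eq_zero]
    rintro ⟨m, hm⟩ hfm
    have h0 : ∀ i, i ∉ s → m i = 0 := by
      intro i hi
      exact congrFun hfm ⟨i, hi⟩
    obtain ⟨c, _, h⟩ := hm
    let m' : s → ℤ := fun i => m i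
    have h1 : (∏ i, X i ^ (m' i).toNat - C (c : F) * ∏ i, X i ^ (-m' i).toNat : MvPolynomial s F) = 0 := by
      apply hs
      intro x hx
      have h2 : (fun i : s => co x i) = co (fun i : s => x i) := rfl
      rw [h2]
      apply w0_eval
      rw [← h x hx]
      unfold ch
      simp only [m']
      rw [Finset.prod_set_coe (f := fun i => x i ^ (m i)) s]
      rw [← Finset.prod_subset (Finset.subset_univ s.toFinset)]
      intro i _ hi
      rw [Set.mem_toFinset] at hi
      rw [h0 i hi, zpow_zero]
    have h5 := w0_zero h1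
    apply Subtype.ext
    funext i
    by_cases hi : i ∈ s
    · exact congrFun h5 ⟨i, hi⟩
    · exact h0 i hi
  have h1 := LinearMap.finrank_le_finrank_of_injective hf
  rw [Module.finrank_fintype_fun_eq_card] at h1
  have h2 : Fintype.card ↥(sᶜ : Set κ) + s.ncard = Fintype.card κ := by
    rw [← Nat.card_eq_fintype_card, ← Nat.card_eq_fintype_card, Nat.card_coe_set_eq, add_comm]
    exact Set.ncard_add_ncard_compl s
  unfold ar
  omega

end Pool.Agent.ZPB
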