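import Mathlib
import Pool.Agent.ZPA.Defs
import Pool.Agent.ZPA.D1
import Pool.Agent.ZPB.W0

set_option autoImplicit false

open MvPolynomial

namespace Pool.Agent.ZPB

open Pool.Agent.MP_dd1803_nt Pool.Agent.ZPA

/-- Row W5. A positive dimensional set in a two dimensional torsion coset is caught by `l`.

Proof. Let `Z' = cl (acl ∅) Z`: irreducible (`irr_cl`), `cl_idem`, `Z' ⊆ W` (`cl_subset_of_closed`),
`x0 ∈ Z'`. `td F Z' = td (acl ∅) Z ≥ td F Z ≥ 1` (`td_cl_eq`, `td_tower_le` or `td_mono`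
with `Z ⊆ Z'`). Every `m` with `∑ m i * e1 i = 0 = ∑ m i * e2 i` is in `Lam Z` (it is constant on `Z`
with value `ch m x0`, a root of unity by `htor`), and `Lam Z' = Lam Z` (`Lam_cl`). These `m` are the
kernel of a linear map `(Fin n → ℤ) → ℤ × ℤ`, a lattice of rank `≥ n - 2`, so `n ≤ rk Z' + 2`.
`ar_add_td`: `ar Z' + td F Z' ≤ n`, so `ar Z' ≤ n - 1 ≤ rk Z' + 1`. And
`rk W + td F W = td F W < n - 1 ≤ rk Z' + td F Z'`. So `hl` gives `l ∈ vI Z'`; evaluate at `x0`. -/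
theorem curve_case {F : Type} [Field F] [IsAlgClosed F] [CharZero F] {n : ℕ}
    {W : Set (Fin n → Fˣ)} (hWc : cl (acl (∅ : Set F)) W = W) (hrk : rk W = 0)
    (htd : td F W + 1 < n) (l : MvPolynomial (Fin n) (acl (∅ : Set F)))
    (hl : ∀ Z, Irr Z → cl (acl (∅ : Set F)) Z = Z → Z ⊆ W → ar Z ≤ rk Z + 1 → 1 ≤ td F Z →
      rk W + td F W < rk Z + td F Z → l ∈ vI (acl (∅ : Set F)) Z)
    {x0 : Fin n → Fˣ} (e1 e2 : Fin n → ℤ)
    (htor : ∀ m : Fin n → ℤ, ∑ i, m i * e1 i = 0 → ∑ i, m i * e2 i = 0 →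
      m ∈ Lam ({x0} : Set (Fin n → Fˣ)))
    {Z : Set (Fin n → Fˣ)} (hZ : Irr Z) (hx0 : x0 ∈ Z) (hZW : Z ⊆ W)
    (hZT : ∀ x ∈ Z, ∀ m : Fin n → ℤ, ∑ i, m i * e1 i = 0 → ∑ i, m i * e2 i = 0 →
      ch m x = ch m x0) (hZd : td F Z ≠ 0) : aeval (co x0) l = 0 := by
  classical
  have hac := isAlgClosed_acl (∅ : Set F)
  let g : (Fin n → ℤ) →ₗ[ℤ] ℤ × ℤ :=
    (Fintype.linearCombination ℤ e1).prod (Fintype.linearCombination ℤ e2)
  have hker : LinearMap.ker g ≤ Lam Z := by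
    intro m hm
    have h1 : (Fintype.linearCombination ℤ e1 m, Fintype.linearCombination ℤ e2 m) = (0, 0) := hm
    rw [Prod.mk.injEq, Fintype.linearCombination_apply, Fintype.linearCombination_apply] at h1
    have h2 : ∑ i, m i * e1 i = 0 := h1.1
    have h3 : ∑ i, m i * e2 i = 0 := h1.2
    obtain ⟨N, hN, h4⟩ := htor m h2 h3
    refine ⟨N, hN, fun x hx => ?_⟩
    rw [hZT x hx m h2 h3]
    exact h4 x0 rfl
  have hrkZ : n ≤ rk Z + 2 := by
    have h1 := finrank_le_ker_add g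
    have h2 := Submodule.finrank_le (LinearMap.range g)
    have h3 := Submodule.finrank_mono hker
    rw [Module.finrank_fin_fun] at h1
    rw [Module.finrank_prod, Module.finrank_self] at h2
    unfold rk
    omega
  have hirr : Irr (cl (acl (∅ : Set F)) Z) := irr_cl hZ.pirr
  have htd1 : td F Z ≤ td F (cl (acl (∅ : Set F)) Z) := td_mono hZ.pirr hirr.pirr (subset_cl _)
  have hart := ar_add_td hirr.pirr
  rw [Fintype.card_fin] at hart
  have hmem := hl (cl (acl (∅ : Set F)) Z) hirr (cl_idem _) (cl_subset_of_closed hZW hWc)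
    (by rw [rk_cl]; omega) (by omega) (by rw [rk_cl]; omega)
  exact mem_vI.mp hmem x0 (subset_cl _ hx0)

end Pool.Agent.ZPB
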