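import Mathlib
import Pool.Agent.ZPA.Defs
import Pool.Agent.ZPA.B3
import Pool.Agent.ZPA.C2
import Pool.Agent.ZPA.D1
import Pool.Agent.ZPB.W0
import Pool.Agent.ZPB.W1

set_option autoImplicit false

open MvPolynomial

namespace Pool.Agent.ZPB

open Pool.Agent.MP_dd1803_nt Pool.Agent.ZPA

theorem d1_key_lt {F : Type} [Field F] [IsAlgClosed F] [CharZero F] {κ : Type} [Fintype κ] (s : ℕ)
    (h : ∀ s' ≤ s, ∀ r < Fintype.card κ, NDr F (acl (∅ : Set F)) s' r)
    {Y : Set (κ → Fˣ)} (hY : Irr Y) (β : Σ r : ℕ, (Fin r → κ → ℤ)) :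
    ∃ (l : MvPolynomial κ (acl (∅ : Set F))) (Q : Finset κ) (D : ℕ),
      l ∉ vI (acl (∅ : Set F)) Y ∧
      Q.card + td (acl (∅ : Set F)) (phi β.2 '' Y) ≤ td (acl (∅ : Set F)) Y ∧
      ∀ Z ⊆ Y, PIrr Z → l ∉ vI (acl (∅ : Set F)) Z → (∀ n, β.2 n ∈ Alat Z) →
        (∀ j, UA D Q j (vI (acl (∅ : Set F)) Z)) ∧
        ∀ s' ≤ s, β.1 < Fintype.card κ → rk (phi β.2 '' Y) = 0 →
          td (acl (∅ : Set F)) (phi β.2 '' Y) + s' < β.1 → ∀ x0 ∈ Z, ¬ β.1 ≤ rk ({phi β.2 x0} : Set (Fin β.1 → Fˣ)) + s' := by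
  classical
  have hac := isAlgClosed_acl (∅ : Set F)
  have hprime := vI_isPrime (k := acl (∅ : Set F)) hY.pirr
  obtain ⟨r, b⟩ := β
  simp only
  obtain ⟨Q, D, l0, hQ, hl0, hUA⟩ := fibre (k := acl (∅ : Set F)) hY.pirr b
  have hs : ∀ s' : ℕ, ∃ g : MvPolynomial κ (acl (∅ : Set F)), g ∉ vI (acl (∅ : Set F)) Y ∧
      (s' ≤ s → r < Fintype.card κ → rk (phi b '' Y) = 0 → td (acl (∅ : Set F)) (phi b '' Y) + s' < r →
        ∀ Z ⊆ Y, (∀ n, b n ∈ Alat Z) → ∀ x0 ∈ Z,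
          r ≤ rk ({phi b x0} : Set (Fin r → Fˣ)) + s' → g ∈ vI (acl (∅ : Set F)) Z) := by
    intro s'
    by_cases hcond : s' ≤ s ∧ r < Fintype.card κ ∧ rk (phi b '' Y) = 0 ∧
      td (acl (∅ : Set F)) (phi b '' Y) + s' < r
    · obtain ⟨hs', hrn, hrk, htd⟩ := hcond
      have hpi : PIrr (phi b '' Y) := hY.pirr.image (d1_ratMap _ _)
      obtain ⟨q, hq, hqz⟩ := h s' hs' r hrn (cl (acl (∅ : Set F)) (phi b '' Y)) (irr_cl hpi)
        (cl_idem _) (by rw [rk_cl]; exact hrk) (by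
          rw [td_cl_eq hpi]
          exact htd)
      rw [vI_cl] at hq
      obtain ⟨g, m, hgm⟩ := d1_clear (F := F) b q
      refine ⟨g, ?_, ?_⟩
      · intro hg
        apply hq
        rw [mem_vI]
        rintro _ ⟨x, hx, rfl⟩
        have e1 := mem_vI.mp hg x hx
        rw [(hgm x).2] at e1
        exact (mul_eq_zero.mp e1).resolve_left (hgm x).1
      · intro _ _ _ _ Z hZY hb x0 hx0 hr
        rw [mem_vI]
        intro x hx
        rw [(hgm x).2]
        have e1 : phi b x = phi b x0 := by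
          funext n
          obtain ⟨c, _, hc⟩ := hb n
          show ch (b n) x = ch (b n) x0
          rw [hc x hx, hc x0 hx0]
        rw [e1, hqz (phi b x0) (subset_cl _ ⟨x0, hZY hx0, rfl⟩), mul_zero]
        · intro n
          obtain ⟨c, hc0, hc⟩ := hb n
          refine ⟨⟨c, hc0⟩, ?_⟩
          show (c : F) = (ch (b n) x0 : F)
          rw [hc x0 hx0]
        · exact hr
    · refine ⟨1, ?_, ?_⟩
      · intro h1
        exact hprime.ne_top (Ideal.eq_top_iff_one _ |>.mpr h1)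
      · intro h1 h2 h3 h4
        exact absurd ⟨h1, h2, h3, h4⟩ hcond
  choose g hg1 hg2 using hs
  refine ⟨l0 * ∏ s' ∈ Finset.range (s + 1), g s', Q, D, ?_, hQ, ?_⟩
  · intro hmem
    rcases hprime.mem_or_mem hmem with h1 | h1
    · exact hl0 h1
    · rw [Ideal.IsPrime.prod_mem_iff] at h1
      obtain ⟨s', _, h2⟩ := h1
      exact hg1 s' h2
  · intro Z hZY hZ hl hb
    constructor
    · apply hUA Z hZY hZ
      · intro h1
        exact hl (Ideal.mul_mem_right _ _ h1)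
      · intro n
        obtain ⟨c, hc0, hc⟩ := hb n
        refine ⟨⟨c, hc0⟩, fun x hx => ?_⟩
        rw [hc x hx]
        rfl
    · intro s' hs' hrn hrk htd x0 hx0 hr
      apply hl
      apply Ideal.mul_mem_left
      have h1 := hg2 s' hs' hrn hrk htd Z hZY hb x0 hx0 hr
      exact Ideal.mem_of_dvd _ (Finset.dvd_prod_of_mem g (Finset.mem_range.mpr (by omega))) h1

/-- The main step: positive dimensional sets of smaller defect and small algebraic rank are not
dense; only the property in tori of smaller dimension is used. -/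
theorem nd_main_lt {F : Type} [Field F] [IsAlgClosed F] [CharZero F] {κ : Type} [Fintype κ] (s : ℕ)
    (h : ∀ s' ≤ s, ∀ r < Fintype.card κ, NDr F (acl (∅ : Set F)) s' r)
    {Y : Set (κ → Fˣ)} (hY : Irr Y) (hYc : cl (acl (∅ : Set F)) Y = Y) :
    ∃ l : MvPolynomial κ (acl (∅ : Set F)), l ∉ vI (acl (∅ : Set F)) Y ∧
      ∀ Z, Irr Z → cl (acl (∅ : Set F)) Z = Z → Z ⊆ Y → ar Z ≤ rk Z + s → 1 ≤ td F Z →
        rk Y + td F Y < rk Z + td F Z → l ∈ vI (acl (∅ : Set F)) Z := by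
  classical
  have hac := isAlgClosed_acl (∅ : Set F)
  have hprime := vI_isPrime (k := acl (∅ : Set F)) hY.pirr
  by_contra hcon
  push Not at hcon
  choose L Q D hL hQ hLZ using fun β : Σ r : ℕ, (Fin r → κ → ℤ) => d1_key_lt s h hY β
  have hne : Nonempty (Σ r : ℕ, (Fin r → κ → ℤ)) := ⟨⟨0, Fin.elim0⟩⟩
  obtain ⟨en, hen⟩ := exists_surjective_nat (Σ r : ℕ, (Fin r → κ → ℤ))
  have hP : ∀ N : ℕ, (∏ m ∈ Finset.range (N + 1), L (en m)) ∉ vI (acl (∅ : Set F)) Y := by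
    intro N h1
    rw [Ideal.IsPrime.prod_mem_iff] at h1
    obtain ⟨m, _, h2⟩ := h1
    exact hL (en m) h2
  choose Z hZi hZc hZY hZar hZ1 hZlt hZP using fun N : ℕ => hcon _ (hP N)
  let 𝒰 : Ultrafilter ℕ := Filter.hyperfilter ℕ
  have hLU : ∀ β, ∀ᶠ N in (𝒰 : Filter ℕ), L β ∉ vI (acl (∅ : Set F)) (Z N) := by
    intro β
    obtain ⟨m, rfl⟩ := hen β
    have h1 : ∀ᶠ N in (𝒰 : Filter ℕ), m ≤ N :=
      Filter.Eventually.filter_mono Nat.hyperfilter_le_atTop (Filter.eventually_ge_atTop m)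
    filter_upwards [h1] with N hN h2
    exact hZP N (Ideal.mem_of_dvd _
      (Finset.dvd_prod_of_mem (fun m => L (en m)) (Finset.mem_range.mpr (by omega))) h2)
  obtain ⟨z, hz⟩ := b3_pigeon 𝒰 (fun N => (⟨td F (Z N), Nat.lt_succ_of_le
    (td_le_card (k := F) (hZi N).pirr)⟩ : Fin (Nat.card κ + 1)))
  have har : ∀ N, ar (Z N) ≤ Fintype.card κ := by
    intro N
    have h1 := Submodule.finrank_le (Alat (Z N))
    rwa [Module.finrank_fintype_fun_eq_card] at h1
  obtain ⟨a, ha⟩ := b3_pigeon 𝒰 (fun N => (⟨ar (Z N), Nat.lt_succ_of_le (har N)⟩ :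
    Fin (Fintype.card κ + 1)))
  let Γ : Submodule ℤ (κ → ℤ) :=
    { carrier := {m | ∀ᶠ N in (𝒰 : Filter ℕ), m ∈ Alat (Z N)}
      zero_mem' := Filter.Eventually.of_forall fun N => Submodule.zero_mem _
      add_mem' := by
        intro m n hm hn
        filter_upwards [hm, hn] with N h1 h2
        exact Submodule.add_mem _ h1 h2
      smul_mem' := by
        intro c m hm
        filter_upwards [hm] with N h1
        exact Submodule.smul_mem _ c h1 }
  have hΓ : ∀ m, m ∈ Γ ↔ ∀ᶠ N in (𝒰 : Filter ℕ), m ∈ Alat (Z N) := fun m => Iff.rfl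
  have hle : Lam Y ≤ Γ := by
    intro m hm
    rw [hΓ]
    apply Filter.Eventually.of_forall
    intro N
    exact d1_lam_le (hZi N).pirr (Lam_anti (hZY N) hm)
  obtain ⟨r, b, hb, hr, hind⟩ := d1_basis (Lam Y) Γ hle (fun n m hn hm => Lam_sat hn hm)
  have hbU : ∀ᶠ N in (𝒰 : Filter ℕ), ∀ n, b n ∈ Alat (Z N) := by
    rw [Filter.eventually_all]
    exact hb
  have hrk0 : rk (phi b '' Y) = 0 := by
    have h1 : Lam (phi b '' Y) = ⊥ := by
      rw [eq_bot_iff]
      rintro c ⟨N, hN, hc⟩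
      rw [Submodule.mem_bot]
      apply hind
      refine ⟨N, hN, fun x hx => ?_⟩
      rw [← d1_ch]
      exact hc _ ⟨x, hx, rfl⟩
    unfold rk
    rw [h1]
    exact finrank_bot ℤ _
  have hall := hLU ⟨r, b⟩
  have hUA : ∀ᶠ N in (𝒰 : Filter ℕ), ∀ j, UA (D ⟨r, b⟩) (Q ⟨r, b⟩) j (vI (acl (∅ : Set F)) (Z N)) := by
    filter_upwards [hall, hbU] with N h1 h2
    exact (hLZ ⟨r, b⟩ (Z N) (hZY N) (hZi N).pirr h1 h2).1
  have htd : ∀ N, td (acl (∅ : Set F)) (Z N) = td F (Z N) := by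
    intro N
    rw [← td_cl_eq (hZi N).pirr, hZc N]
  have hfin := uax 𝒰 (fun N => vI (acl (∅ : Set F)) (Z N)) (fun N => vI_isPrime (hZi N).pirr)
    (fun N j => X_not_mem_vI (hZi N).nonempty j) (fun N => Alat (Z N))
    (fun N m => d1_mem (hZi N).nonempty m) z a (by
      filter_upwards [hz] with N hN
      have h1 : td F (Z N) = z := congrArg Fin.val hN
      rw [← h1, ← htd N]
      rfl) (by
      filter_upwards [ha] with N hN
      exact congrArg Fin.val hN) Γ hΓ (Q ⟨r, b⟩) (D ⟨r, b⟩) hUA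
  obtain ⟨N, ⟨⟨hN1, hN2⟩, hN3⟩, hN4⟩ := (((hz.and ha).and hall).and hbU).exists
  have hz' : td F (Z N) = z := congrArg Fin.val hN1
  have ha' : ar (Z N) = a := congrArg Fin.val hN2
  have hQ' := hQ ⟨r, b⟩
  simp only at hQ'
  have htY : td (acl (∅ : Set F)) Y = td F Y := by
    rw [← td_cl_eq hY.pirr, hYc]
  have hlt := hZlt N
  have hars := hZar N
  have hrkar : rk (Z N) ≤ ar (Z N) := Submodule.finrank_mono (d1_lam_le (hZi N).pirr)
  have hrkY : Module.finrank ℤ (Lam Y) = rk Y := rfl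
  obtain ⟨x0, hx0⟩ := (hZi N).nonempty
  have hpt := d1_point (hZi N).pirr b hN4 hx0
  have hle3 : r ≤ ar (Z N) := by
    have hli : LinearIndependent ℤ (fun k => (⟨b k, hN4 k⟩ : Alat (Z N))) := by
      rw [Fintype.linearIndependent_iff]
      intro c hc k
      have h1 : ∑ k, c k • b k = 0 := by
        have h2 := congrArg (Alat (Z N)).subtype hc
        rw [map_sum, map_zero] at h2
        exact h2
      have h3 : c = 0 := hind c (by rw [h1]; exact Submodule.zero_mem _)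
      rw [h3]
      rfl
    have h4 := hli.fintype_card_le_finrank
    rw [Fintype.card_fin] at h4
    exact h4
  have hart := ar_add_td (hZi N).pirr
  have hZ1' := hZ1 N
  refine (hLZ ⟨r, b⟩ (Z N) (hZY N) (hZi N).pirr hN3 hN4).2 (ar (Z N) - rk (Z N)) (by omega)
    (by simp only; omega) hrk0 ?_ x0 hx0 ?_
  · simp only
    omega
  · simp only
    omega

end Pool.Agent.ZPB
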