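import Mathlib
import Pool.Agent.ZPA.Defs
import Pool.Agent.ZPA.G1
import Pool.Agent.ZPB.M7
import Pool.Agent.ZPB.W1
import Pool.Agent.ZPB.W2
import Pool.Agent.ZPB.W3
import Pool.Agent.ZPB.W4
import Pool.Agent.ZPB.W5
import Pool.Agent.ZPB.W7

set_option autoImplicit false

open MvPolynomial

namespace Pool.Agent.ZPB

open Pool.Agent.MP_dd1803_nt Pool.Agent.ZPA

theorem w6_zero {F : Type} [Field F] [IsAlgClosed F] [CharZero F] (r : ℕ) :
    NDr F (acl (∅ : Set F)) 0 r := by
  intro W hW hWc hrk htd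
  obtain ⟨q, hq, h⟩ := ndk_zero (F := F) (Fin r) W hW hWc hrk (by rwa [Fintype.card_fin])
  refine ⟨q, hq, fun w hw hc hr => h w hw hc ?_⟩
  rwa [Fintype.card_fin]

/-- finitely many generators of the ideal, with coefficients in the big field -/
theorem w6_gens {F : Type} [Field F] [IsAlgClosed F] [CharZero F] {n : ℕ}
    {W : Set (Fin n → Fˣ)} (hWc : cl (acl (∅ : Set F)) W = W) :
    ∃ (r : ℕ) (Q : Fin r → MvPolynomial (Fin n) F),
      (∀ k m, IsAlgebraic ℚ ((Q k).coeff m)) ∧ ∀ x, x ∈ W ↔ ∀ k, aeval (co x) (Q k) = 0 := by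
  obtain ⟨S, hS⟩ := (isNoetherianRing_iff_ideal_fg (MvPolynomial (Fin n) (acl (∅ : Set F)))).mp
    inferInstance (vI (acl (∅ : Set F)) W)
  let e := S.equivFin
  refine ⟨S.card, fun k => map (algebraMap (acl (∅ : Set F)) F) (e.symm k : MvPolynomial (Fin n) _),
    ?_, ?_⟩
  · intro k m
    rw [coeff_map]
    rw [← mem_acl_empty]
    exact (coeff m (e.symm k : MvPolynomial (Fin n) (acl (∅ : Set F)))).2
  · intro x
    have h1 : ∀ p : MvPolynomial (Fin n) (acl (∅ : Set F)),
        aeval (co x) (map (algebraMap (acl (∅ : Set F)) F) p) = aeval (co x) p := by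
      intro p
      exact aeval_map_algebraMap F (co x) p
    constructor
    · intro hx k
      rw [h1]
      have h2 : (e.symm k : MvPolynomial (Fin n) (acl (∅ : Set F))) ∈ vI (acl (∅ : Set F)) W := by
        rw [← hS]
        exact Ideal.subset_span (e.symm k).2
      exact mem_vI.mp h2 x hx
    · intro hx
      rw [← hWc]
      intro p hp
      have h2 : p ∈ Ideal.span (S : Set (MvPolynomial (Fin n) (acl (∅ : Set F)))) := by
        rw [hS]
        exact hp
      refine Submodule.span_induction (p := fun p _ => aeval (co x) p = 0) ?_ ?_ ?_ ?_ h2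
      · intro q hq
        have h3 := hx (e ⟨q, hq⟩)
        rw [h1, Equiv.symm_apply_apply] at h3
        exact h3
      · exact map_zero _
      · intro a b _ _ ha hb
        rw [map_add, ha, hb, add_zero]
      · intro a b _ hb
        rw [smul_eq_mul, map_mul, hb, mul_zero]

/-- The induction step. -/
theorem ndr_step {F : Type} [Field F] [IsAlgClosed F] [CharZero F] {n : ℕ}
    (IH : ∀ r < n, NDr F (acl (∅ : Set F)) 1 r) : NDr F (acl (∅ : Set F)) 1 n := by
  classical
  intro W hW hWc hrk htd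
  have hprime := vI_isPrime (k := acl (∅ : Set F)) hW.pirr
  have hn : 2 ≤ n := by omega
  obtain ⟨r, Q, hQ, hWQ⟩ := w6_gens hWc
  obtain ⟨A0, hA0⟩ := iso_bound hn Q hQ
  obtain ⟨q0, hq0, hq0'⟩ := w6_zero n W hW hWc hrk (by omega)
  obtain ⟨l, hl, hl'⟩ := nd_main_lt (κ := Fin n) 1 (fun s' hs' r hr => by
    rw [Fintype.card_fin] at hr
    interval_cases s'
    · exact w6_zero r
    · exact IH r hr) hW hWc
  choose qa hqa hqa' using fun a : Fin n → ℤ => small_a hW hWc hrk htd a
  let A1 : ℕ := max A0 (2 ^ (2 * n - 1))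
  let B : Finset (Fin n → ℤ) := Fintype.piFinset fun _ => Finset.Icc (-(A1 : ℤ)) A1
  refine ⟨q0 * (∏ a ∈ B, qa a) * l, ?_, ?_⟩
  · intro hmem
    rcases hprime.mem_or_mem hmem with h1 | h1
    · rcases hprime.mem_or_mem h1 with h2 | h2
      · exact hq0 h2
      · rw [Ideal.IsPrime.prod_mem_iff] at h2
        obtain ⟨a, _, h3⟩ := h2
        exact hqa a h3
    · exact hl h1
  · intro w hw hc hr
    rw [map_mul, map_mul]
    by_cases hrn : n ≤ rk ({w} : Set (Fin n → Fˣ))
    · rw [hq0' w hw hc (by omega), zero_mul, zero_mul]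
    · have hr1 : rk ({w} : Set (Fin n → Fˣ)) + 1 = n := by omega
      have halg : ∀ i, IsAlgebraic ℚ (w i : F) := by
        intro i
        obtain ⟨c, hci⟩ := hc i
        rw [← mem_acl_empty, ← hci]
        exact c.2
      obtain ⟨a, ξ, t, hprim, hξ, htalg, httor, hwi, hlam⟩ := rank_one halg hr1
      obtain ⟨i0, hi0⟩ : ∃ i0 : Fin n, ∀ i, |a i| ≤ |a i0| := by
        have hne : (Finset.univ : Finset (Fin n)).Nonempty := ⟨⟨0, by omega⟩, Finset.mem_univ _⟩
        obtain ⟨i0, _, h1⟩ := Finset.exists_max_image Finset.univ (fun i => |a i|) hne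
        exact ⟨i0, fun i => h1 i (Finset.mem_univ i)⟩
      obtain ⟨A, hA⟩ : ∃ A : ℕ, |a i0| = (A : ℤ) := ⟨(a i0).natAbs, Int.abs_eq_natAbs _⟩
      by_cases hsm : A ≤ A1
      · have haB : a ∈ B := by
          rw [Fintype.mem_piFinset]
          intro i
          rw [Finset.mem_Icc, ← abs_le]
          refine (hi0 i).trans ?_
          rw [hA]
          exact_mod_cast hsm
        rw [map_prod, Finset.prod_eq_zero haB (hqa' a w hw hc hlam), mul_zero, zero_mul]
      · push Not at hsm
        have hA1 : A0 < A := lt_of_le_of_lt (le_max_left _ _) hsm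
        have hA2 : 2 ^ (2 * n - 1) ≤ A := (lt_of_le_of_lt (le_max_right _ _) hsm).le
        obtain ⟨e1, e2, κ1, s1, s2, hs1, hae, h1, h2, hind, hk, hpow⟩ :=
          plane hn a A (fun i => (hi0 i).trans hA.le) ⟨i0, hA⟩ hA2 hprim
        have htor : ∀ m : Fin n → ℤ, ∑ i, m i * e1 i = 0 → ∑ i, m i * e2 i = 0 →
            m ∈ Lam ({w} : Set (Fin n → Fˣ)) := by
          intro m hm1 hm2
          apply hlam
          have h3 : ∑ i, m i * a i = ∑ i, m i * e2 i + κ1 * ∑ i, m i * e1 i := by
            rw [Finset.mul_sum, ← Finset.sum_add_distrib]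
            apply Finset.sum_congr rfl
            intro i _
            rw [hae i]
            ring
          rw [h3, hm1, hm2]
          ring
        have hZex : ∃ Z : Set (Fin n → Fˣ), Irr Z ∧ w ∈ Z ∧
            (∀ x ∈ Z, ∀ k, MvPolynomial.aeval (co x) (Q k) = 0) ∧
            (∀ x ∈ Z, ∀ m : Fin n → ℤ, ∑ i, m i * e1 i = 0 → ∑ i, m i * e2 i = 0 →
              ch m x = ch m w) ∧ td F Z ≠ 0 := by
          by_contra hcon
          push Not at hcon
          have h3 := hA0 A κ1 s1 s2 a e1 e2 ξ t w (by omega) hs1 hpow hk h1 h2 hind hae hξ htalg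
            httor hwi (fun k => (hWQ w).mp hw k) (fun Z hZ hwZ hZQ hZT => hcon Z hZ hwZ hZQ hZT)
          omega
        obtain ⟨Z, hZ, hwZ, hZQ, hZT, hZd⟩ := hZex
        rw [curve_case hWc hrk htd l hl' e1 e2 htor hZ hwZ
          (fun x hx => (hWQ x).mpr (hZQ x hx)) hZT hZd, mul_zero]

theorem ndr_one {F : Type} [Field F] [IsAlgClosed F] [CharZero F] (n : ℕ) :
    NDr F (acl (∅ : Set F)) 1 n := by
  induction n using Nat.strong_induction_on with
  | _ n ih => exact ndr_step ih

/-- Points of rank at most one are not dense in irreducible sets of codimension at least two which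
are in no proper special set. -/
theorem ndk_one {F : Type} [Field F] [IsAlgClosed F] [CharZero F] :
    NDk F (acl (∅ : Set F)) 1 := ndk_of_ndr ndr_one

end Pool.Agent.ZPB
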