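import Mathlib
import Pool.Agent.ZPA.H1
import Pool.Agent.ZPB.W6

set_option autoImplicit false

open MvPolynomial

namespace Pool.Agent.ZPB

open Pool.Agent.MP_dd1803_nt Pool.Agent.ZPA

/-- The equivalence, with the level `1` settled. -/
theorem main_iff_two {F : Type} [Field F] [IsAlgClosed F] [CharZero F] (s : ℕ) :
    (∀ s', 2 ≤ s' → s' ≤ s → ND F s') ↔
    ∀ (κ : Type) [Fintype κ] (V : Set (κ → Fˣ)), ZClosed V →
      {X | Maximal (Atypical V) X ∧ ARank s X}.Finite := by
  constructor
  · intro h κ _ V hV
    apply finite_arank s _ hV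
    intro s' hs'
    rcases Nat.lt_or_ge s' 2 with h2 | h2
    · interval_cases s'
      · exact ndk_zero
      · exact ndk_one
    · exact ndk_of_nd (h s' h2 hs')
  · intro h s' _ hs'
    exact converse s h hs'

end Pool.Agent.ZPB
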